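import Mathlib

/-! Cubic number data, the linear map `g` and real coordinates on `ℂ⁴`. -/

open Set

noncomputable section

namespace Pool.Agent.Helper289.Base

/-! ### The real and the complex root of `x³ = x + 1` -/

lemma exists_al : ∃ a : ℝ, a ^ 3 = a + 1 ∧ 6 / 5 < a := by
  have hc : ContinuousOn (fun x : ℝ => x ^ 3 - x - 1) (Icc (6/5) 2) := by fun_prop
  have h := intermediate_value_Icc (by norm_num : (6/5 : ℝ) ≤ 2) hc
  have h0 : (0 : ℝ) ∈ Icc ((fun x : ℝ => x ^ 3 - x - 1) (6/5)) ((fun x : ℝ => x ^ 3 - x - 1) 2) := by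
    constructor <;> norm_num
  obtain ⟨a, ha, ha'⟩ := h h0
  simp only at ha'
  refine ⟨a, by linarith, ?_⟩
  rcases lt_or_eq_of_le ha.1 with h | h
  · exact h
  · rw [← h] at ha'
    norm_num at ha'

/-- the real root of `x³ = x + 1` -/
def al : ℝ := Classical.choose exists_al

lemma al_cube : al ^ 3 = al + 1 := (Classical.choose_spec exists_al).1
lemma al_gt : 6 / 5 < al := (Classical.choose_spec exists_al).2
lemma one_lt_al : 1 < al := by have := al_gt; linarith
lemma al_pos : 0 < al := by have := al_gt; linarith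
lemma al_ne : al ≠ 0 := al_pos.ne'

lemma al_disc : 0 < 3 * al ^ 2 - 4 := by
  have := al_gt
  nlinarith

lemma al_den : 0 < 3 * al ^ 2 - 1 := by
  have := al_disc
  linarith

/-- the complex root of `x³ = x + 1` in the upper half plane -/
def be : ℂ := ⟨-al / 2, Real.sqrt (3 * al ^ 2 - 4) / 2⟩

lemma be_im : be.im = Real.sqrt (3 * al ^ 2 - 4) / 2 := rfl
lemma be_re : be.re = -al / 2 := rfl
lemma be_im_pos : 0 < be.im := by
  rw [be_im]
  have := Real.sqrt_pos.mpr al_disc
  linarith
lemma be_im_ne : be.im ≠ 0 := be_im_pos.ne'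

lemma be_im_sq : be.im ^ 2 = (3 * al ^ 2 - 4) / 4 := by
  rw [be_im, div_pow, Real.sq_sqrt al_disc.le]; norm_num

lemma be_quad : be ^ 2 + al * be + ((al : ℂ) ^ 2 - 1) = 0 := by
  have h1 := be_im_sq
  have h2 := be_re
  apply Complex.ext
  · simp only [Complex.add_re, Complex.sub_re, Complex.one_re, Complex.mul_re, Complex.ofReal_re,
      Complex.ofReal_im, pow_two, Complex.zero_re]
    rw [h2]
    nlinarith [h1]
  · simp only [Complex.add_im, Complex.sub_im, Complex.one_im, Complex.mul_im, Complex.ofReal_re,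
      Complex.ofReal_im, pow_two, Complex.zero_im]
    rw [h2]
    ring

lemma be_sq : be ^ 2 = -(al * be) - ((al : ℂ) ^ 2 - 1) := by
  linear_combination be_quad

lemma be_cube : be ^ 3 = be + 1 := by
  have h := be_quad
  have h2 : (al : ℂ) ^ 3 = al + 1 := by exact_mod_cast al_cube
  linear_combination (be - al) * h + h2

lemma be_ne : be ≠ 0 := by
  intro h
  have := be_im_ne
  rw [h] at this
  simp at this

lemma normSq_be : Complex.normSq be = al ^ 2 - 1 := by
  rw [Complex.normSq_apply]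
  have h1 := be_im_sq
  have h2 := be_re
  rw [h2]
  nlinarith [h1]

lemma al_mul : al * (al ^ 2 - 1) = 1 := by
  have := al_cube
  linarith [this, (by ring : al * (al ^ 2 - 1) = al ^ 3 - al)]

lemma al_sq_sub : al ^ 2 - 1 < 1 := by
  have h := al_mul
  have h1 := one_lt_al
  have h2 := al_disc
  by_contra hc
  push Not at hc
  nlinarith

lemma norm_be_lt : ‖be‖ < 1 := by
  have h := normSq_be
  rw [Complex.normSq_eq_norm_sq] at h
  have h2 := al_sq_sub
  have h3 := norm_nonneg be
  nlinarith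

/-- `1, α, α²` are linearly independent over `ℤ`. -/
lemma al_indep (a b c : ℤ) (h : (a : ℝ) + b * al + c * al ^ 2 = 0) : a = 0 ∧ b = 0 ∧ c = 0 := by
  open Polynomial in
  have hirr := Polynomial.X_pow_sub_X_sub_one_irreducible_rat (n := 3) (by norm_num)
  have hmonic : (X ^ 3 - X - 1 : ℚ[X]).Monic := by monicity!
  have hroot : aeval al (X ^ 3 - X - 1 : ℚ[X]) = 0 := by
    simp only [map_sub, map_pow, aeval_X, map_one]
    have := al_cube
    linarith
  have hmin := minpoly.eq_of_irreducible_of_monic hirr hroot hmonic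
  set p : ℚ[X] := C (a : ℚ) + C (b : ℚ) * X + C (c : ℚ) * X ^ 2 with hp
  have hpe : aeval al p = 0 := by
    simp only [hp, map_add, map_mul, aeval_C, aeval_X, map_pow, eq_ratCast, Rat.cast_intCast]
    exact h
  have hdvd : (X ^ 3 - X - 1 : ℚ[X]) ∣ p := by
    rw [hmin]; exact minpoly.dvd ℚ al hpe
  have hp0 : p = 0 := by
    by_contra hne
    have h1 := natDegree_le_of_dvd hdvd hne
    have h2 : (X ^ 3 - X - 1 : ℚ[X]).natDegree = 3 := by
      compute_degree!
    have h3 : p.natDegree ≤ 2 := by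
      rw [hp]; compute_degree
    omega
  have hc0 : p.coeff 0 = a := by
    simp [hp, coeff_C, coeff_X, coeff_X_pow, -map_intCast]
  have hc1 : p.coeff 1 = b := by
    simp [hp, coeff_C, coeff_X, coeff_X_pow, -map_intCast]
  have hc2 : p.coeff 2 = c := by
    simp [hp, coeff_C, coeff_X, coeff_X_pow, -map_intCast]
  rw [hp0] at hc0 hc1 hc2
  simp only [coeff_zero] at hc0 hc1 hc2
  refine ⟨?_, ?_, ?_⟩
  · exact_mod_cast hc0.symm
  · exact_mod_cast hc1.symm
  · exact_mod_cast hc2.symm

/-! ### Coordinates -/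

/-- the model space `ℂ⁴` -/
abbrev E4 : Type := ℂ × ℂ × ℂ × ℂ
/-- real triples -/
abbrev R3 : Type := ℝ × ℝ × ℝ
/-- real quadruples -/
abbrev R4 : Type := ℝ × ℝ × ℝ × ℝ

/-- multiplication by `x` on `ℤ[x]/(x³-x-1)` in the basis `1, x, x²`, with coefficients in `G` -/
def M3 (G : Type*) [AddCommGroup G] : G × G × G ≃+ G × G × G where
  toFun p := (p.2.2, p.1 + p.2.2, p.2.1)
  invFun p := (p.2.1 - p.1, p.2.2, p.1)
  left_inv p := by ext <;> simp
  right_inv p := by ext <;> simp
  map_add' p q := by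
    ext <;> simp
    abel

/-- the map `(a, b, c, d) ↦ (4a - b, a, 4c - d, c)` -/
def A4 (G : Type*) [AddCommGroup G] : G × G × G × G ≃+ G × G × G × G where
  toFun p := (4 • p.1 - p.2.1, p.1, 4 • p.2.2.1 - p.2.2.2, p.2.2.1)
  invFun p := (p.2.1, 4 • p.2.1 - p.1, p.2.2.2, 4 • p.2.2.2 - p.2.2.1)
  left_inv p := by ext <;> simp
  right_inv p := by ext <;> simp
  map_add' p q := by
    ext <;> simp <;> abel

lemma M3_apply {G : Type*} [AddCommGroup G] (a b c : G) : M3 G (a, b, c) = (c, a + c, b) := rfl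
lemma A4_apply {G : Type*} [AddCommGroup G] (a b c d : G) :
    A4 G (a, b, c, d) = (4 • a - b, a, 4 • c - d, c) := rfl

/-- The point of `ℂ⁴` with imaginary height `y` and lattice coordinates `r`, `s`. -/
def pt (p : ℝ × R3 × R4) : E4 :=
  (((p.2.1.1 + p.2.1.2.1 * al + p.2.1.2.2 * al ^ 2 : ℝ) : ℂ) + p.1 * Complex.I,
    (p.2.1.1 : ℂ) + p.2.1.2.1 * be + p.2.1.2.2 * be ^ 2,
    (p.2.2.1 : ℂ) + p.2.2.2.2.1 * Complex.I,
    (p.2.2.2.1 : ℂ) + p.2.2.2.2.2 * Complex.I)

/-- The lattice coordinates of a point of `ℂ⁴`. -/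
def co (p : E4) : ℝ × R3 × R4 :=
  let q := p.2.1.im / be.im
  let a := p.2.1.re - q * be.re
  let r2 := (p.1.re - a - q * al) / (3 * al ^ 2 - 1)
  (p.1.im, (a + (al ^ 2 - 1) * r2, q + al * r2, r2),
    (p.2.2.1.re, p.2.2.2.re, p.2.2.1.im, p.2.2.2.im))

lemma be_sq_re : (be ^ 2).re = -(al * be.re) - (al ^ 2 - 1) := by
  rw [be_sq]
  simp [pow_two]

lemma be_sq_im : (be ^ 2).im = -(al * be.im) := by
  rw [be_sq]
  simp [pow_two]

lemma co_pt (p : ℝ × R3 × R4) : co (pt p) = p := by
  obtain ⟨y, ⟨a, b, c⟩, ⟨s1, s2, t1, t2⟩⟩ := p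
  have h1 := be_im_ne
  have h2 := al_den.ne'
  have h3 := be_sq_re
  have h4 := be_sq_im
  have hq : (b * be.im + c * (-(al * be.im))) / be.im = b - c * al := by
    field_simp
    ring
  have hz_re : ((a : ℂ) + b * be + c * be ^ 2).re = a + b * be.re + c * (be ^ 2).re := by
    simp
  have hz_im : ((a : ℂ) + b * be + c * be ^ 2).im = b * be.im + c * (be ^ 2).im := by
    simp
  simp only [co, pt]
  rw [hz_re, hz_im, h3, h4, hq]
  have hr2 : (((((a + b * al + c * al ^ 2 : ℝ) : ℂ) + y * Complex.I).re -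
      (a + b * be.re + c * (-(al * be.re) - (al ^ 2 - 1)) - (b - c * al) * be.re) -
      (b - c * al) * al) / (3 * al ^ 2 - 1)) = c := by
    rw [div_eq_iff h2]
    simp only [Complex.add_re, Complex.ofReal_re, Complex.mul_re, Complex.I_re, Complex.ofReal_im,
      Complex.I_im]
    ring
  rw [hr2]
  ext
  · simp only [Complex.add_im, Complex.ofReal_im, Complex.im_ofReal_mul, Complex.I_im]
    ring
  · simp only; ring
  · simp only; ring
  · simp only
  · simp
  · simp
  · simp
  · simp

lemma pt_co (p : E4) : pt (co p) = p := by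
  obtain ⟨w, z, u1, u2⟩ := p
  have h1 := be_im_ne
  have h2 := al_den.ne'
  have h3 := be_sq_re
  have h4 := be_sq_im
  simp only [co, pt]
  set q := z.im / be.im with hq
  set a := z.re - q * be.re with ha
  set r2 := (w.re - a - q * al) / (3 * al ^ 2 - 1) with hr2
  have hr2' : r2 * (3 * al ^ 2 - 1) = w.re - a - q * al := by
    rw [hr2, div_mul_cancel₀ _ h2]
  have hq' : q * be.im = z.im := by rw [hq]; field_simp
  refine Prod.ext ?_ (Prod.ext ?_ (Prod.ext ?_ ?_))
  · apply Complex.ext
    · simp only [Complex.add_re, Complex.ofReal_re, Complex.mul_re, Complex.I_re, Complex.ofReal_im,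
        Complex.I_im]
      linarith
    · simp only [Complex.add_im, Complex.ofReal_im, Complex.im_ofReal_mul, Complex.I_im]
      ring
  · apply Complex.ext
    · simp only [Complex.add_re, Complex.re_ofReal_mul, Complex.ofReal_re, h3]
      rw [ha]; ring
    · simp only [Complex.add_im, Complex.im_ofReal_mul, Complex.ofReal_im, h4]
      rw [← hq']; ring
  · apply Complex.ext <;> simp
  · apply Complex.ext <;> simp

/-- `pt` is additive and real-homogeneous. -/
def ptL : (ℝ × R3 × R4) ≃ₗ[ℝ] E4 where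
  toFun := pt
  invFun := co
  left_inv := co_pt
  right_inv := pt_co
  map_add' p q := by
    simp only [pt]
    refine Prod.ext ?_ (Prod.ext ?_ (Prod.ext ?_ ?_)) <;> simp <;> ring
  map_smul' c p := by
    simp only [pt]
    refine Prod.ext ?_ (Prod.ext ?_ (Prod.ext ?_ ?_)) <;> simp <;> ring

/-- `pt` as a continuous real-linear equivalence -/
def ptE : (ℝ × R3 × R4) ≃L[ℝ] E4 := ptL.toContinuousLinearEquiv

@[simp] lemma ptE_apply (p : ℝ × R3 × R4) : ptE p = pt p := rfl
@[simp] lemma ptE_symm_apply (p : E4) : ptE.symm p = co p := rfl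

lemma continuous_pt : Continuous pt := ptE.continuous
lemma continuous_co : Continuous co := ptE.symm.continuous

lemma pt_add (p q : ℝ × R3 × R4) : pt (p + q) = pt p + pt q := ptE.map_add p q
lemma pt_sub (p q : ℝ × R3 × R4) : pt (p - q) = pt p - pt q := ptE.map_sub p q
lemma co_add (p q : E4) : co (p + q) = co p + co q := ptE.symm.map_add p q
lemma co_sub (p q : E4) : co (p - q) = co p - co q := ptE.symm.map_sub p q
lemma co_zero : co 0 = 0 := ptE.symm.map_zero
lemma pt_zero : pt 0 = 0 := ptE.map_zero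
lemma co_injective : Function.Injective co := ptE.symm.injective
lemma co_fst (p : E4) : (co p).1 = p.1.im := rfl

/-- the complex linear automorphism `g` of `ℂ⁴` -/
def g : E4 ≃L[ℂ] E4 :=
  LinearEquiv.toContinuousLinearEquiv
    { toFun := fun p => (al * p.1, be * p.2.1, 4 * p.2.2.1 - p.2.2.2, p.2.2.1)
      invFun := fun p => ((al : ℂ)⁻¹ * p.1, be⁻¹ * p.2.1, p.2.2.2, 4 * p.2.2.2 - p.2.2.1)
      left_inv := by
        intro p
        have h1 : (al : ℂ) ≠ 0 := by exact_mod_cast al_ne
        have h2 := be_ne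
        refine Prod.ext ?_ (Prod.ext ?_ (Prod.ext ?_ ?_))
        · simp only; field_simp
        · simp only; field_simp
        · simp
        · simp
      right_inv := by
        intro p
        have h1 : (al : ℂ) ≠ 0 := by exact_mod_cast al_ne
        have h2 := be_ne
        refine Prod.ext ?_ (Prod.ext ?_ (Prod.ext ?_ ?_))
        · simp only; field_simp
        · simp only; field_simp
        · simp
        · simp
      map_add' := by
        intro p q
        refine Prod.ext ?_ (Prod.ext ?_ (Prod.ext ?_ ?_)) <;> simp <;> ring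
      map_smul' := by
        intro c p
        refine Prod.ext ?_ (Prod.ext ?_ (Prod.ext ?_ ?_)) <;> simp <;> ring }

lemma g_apply (p : E4) : g p = (al * p.1, be * p.2.1, 4 * p.2.2.1 - p.2.2.2, p.2.2.1) := rfl

/-- `g` in lattice coordinates -/
def gc : (ℝ × R3 × R4) ≃+ (ℝ × R3 × R4) where
  toFun p := (al * p.1, M3 ℝ p.2.1, A4 ℝ p.2.2)
  invFun p := (al⁻¹ * p.1, (M3 ℝ).symm p.2.1, (A4 ℝ).symm p.2.2)
  left_inv p := by
    have := al_ne
    refine Prod.ext ?_ (Prod.ext ?_ ?_)
    · simp only; field_simp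
    · simp
    · simp
  right_inv p := by
    have := al_ne
    refine Prod.ext ?_ (Prod.ext ?_ ?_)
    · simp only; field_simp
    · simp
    · simp
  map_add' p q := by
    refine Prod.ext ?_ (Prod.ext ?_ ?_)
    · simp only [Prod.fst_add]; ring
    · simp
    · simp

lemma gc_apply (p : ℝ × R3 × R4) : gc p = (al * p.1, M3 ℝ p.2.1, A4 ℝ p.2.2) := rfl

lemma g_pt (p : ℝ × R3 × R4) : g (pt p) = pt (gc p) := by
  obtain ⟨y, ⟨a, b, c⟩, ⟨s1, s2, t1, t2⟩⟩ := p
  rw [g_apply, gc_apply]
  simp only [pt, M3_apply, A4_apply]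
  have hb := be_cube
  have ha : (al : ℂ) ^ 3 = al + 1 := by exact_mod_cast al_cube
  refine Prod.ext ?_ (Prod.ext ?_ (Prod.ext ?_ ?_))
  · simp only
    push_cast
    linear_combination (c : ℂ) * ha
  · simp only
    push_cast
    linear_combination (c : ℂ) * hb
  · simp only [nsmul_eq_mul]
    push_cast
    ring
  · simp only

lemma co_g (p : E4) : co (g p) = gc (co p) := by
  rw [← co_pt (gc (co p)), ← g_pt, pt_co]

end Pool.Agent.Helper289.Base
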