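import Pool.Agent.Helper289.Ode

/-! Classification: vanishing, invariance, extremality. -/

open Set Topology MeasureTheory
open scoped Manifold ContDiff

attribute [-instance] TopCat.of.chartedSpace

noncomputable section

namespace Pool.Agent.Helper289.Per

open Pool.Agent.Helper289.Base Pool.Agent.Helper289.Quot
open Pool.Agent.Helper289.LamX Pool.Agent.Helper289.Torus Pool.Agent.Helper289.Forms

instance : BorelSpace T3 := Prod.borelSpace
instance : BorelSpace T4 := Prod.borelSpace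
instance : BorelSpace T7 := Prod.borelSpace
instance : SecondCountableTopology T3 := inferInstance
instance : SecondCountableTopology T4 := inferInstance

lemma hasCompactSupport_of {f : ℝ → ℝ} {a b : ℝ} (h : ∀ y, f y ≠ 0 → a ≤ y ∧ y ≤ b) :
    HasCompactSupport f := by
  apply HasCompactSupport.intro (K := Icc a b) isCompact_Icc
  intro y hy
  by_contra hc
  exact hy (h y hc)

lemma chi_two : chi.1 2 ≠ 0 := by
  rw [chi_apply, stp_one le_rfl]
  have h1 : stp (2 / al) < 1 := by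
    apply Real.smoothTransition.lt_one_of_lt_one
    have := one_lt_al
    have h2 : 2 / al < 2 := by
      rw [div_lt_iff₀ al_pos]; linarith
    linarith
  intro h
  linarith

lemma chi_supp (y : ℝ) (hy : chi.1 y ≠ 0) : 1 ≤ y ∧ y ≤ 2 * al := by
  have hal := al_pos
  have hal1 := one_lt_al
  by_contra h
  rw [not_and_or, not_le, not_le] at h
  apply hy
  rw [chi_apply]
  rcases h with h | h
  · rw [stp_zero h.le, stp_zero, sub_self]
    rw [div_le_iff₀ hal]; linarith
  · rw [stp_one (by nlinarith), stp_one, sub_self]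
    rw [le_div_iff₀ hal]; linarith

lemma fq_supp {F : ℝ → ℝ} {y : ℝ} (h : fq F y ≠ 0) : F y ≠ 0 := by
  intro h0; apply h; rw [fq, h0, zero_div]

lemma chi_int_pos : 0 < ∫ y, chi.1 y :=
  Continuous.integral_pos_of_hasCompactSupport_nonneg_nonzero chi.2.1.continuous
    (hasCompactSupport_of chi_supp) chi_nonneg chi_two

lemma AS_chi_pos : 0 < AS (fun y => y) chi.1 := by
  apply Continuous.integral_pos_of_hasCompactSupport_nonneg_nonzero (x := 2)
  · exact continuous_id.mul (contDiff_fq chi).continuous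
  · apply hasCompactSupport_of (a := 1) (b := 2 * al)
    intro y hy
    exact chi_supp y (fq_supp (right_ne_zero_of_mul hy))
  · intro y
    change 0 ≤ y * fq chi.1 y
    by_cases h : fq chi.1 y = 0
    · rw [h, mul_zero]
    · have h1 := chi_supp y (fq_supp h)
      exact mul_nonneg (by linarith) (div_nonneg (chi_nonneg y) (sq_nonneg y))
  · rw [fq]
    have := chi_two
    positivity

lemma sinh_ge {t : ℝ} (ht : 0 ≤ t) : t ^ 2 / 2 ≤ Real.sinh t := by
  have h1 : Real.sinh t = 2 * Real.sinh (t / 2) * Real.cosh (t / 2) := by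
    rw [← Real.sinh_two_mul]; congr 1; ring
  have h2 : t / 2 ≤ Real.sinh (t / 2) := Real.self_le_sinh_iff.mpr (by linarith)
  have h3 : t / 2 ≤ Real.cosh (t / 2) := h2.trans (Real.sinh_lt_cosh _).le
  rw [h1]
  nlinarith

/-- functionals vanish on nontrivial characters of the first torus -/
theorem vanish {L : C(X, ℝ) →ₗ[ℝ] ℝ} (hP : PosL L) (hL : HarmL L) {m : ℤ × ℤ × ℤ} (hm : m ≠ 0)
    (k : ℤ × ℤ × ℤ × ℤ) (a : ℝ) (F : Cut) : L (P F (kap m k a)) = 0 := by
  have hp : 2 * Real.pi * ell m k e1 ≠ 0 := by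
    have := Real.pi_pos
    exact mul_ne_zero (by positivity) (ell_e1_ne k hm)
  set p := 2 * Real.pi * ell m k e1 with hpdef
  have hFS := FS_sinh hp
  set κ := kap m k a with hκ
  set S : ℝ → ℝ := fun y => Real.sinh (|p| * y) / |p| with hS
  have hq : 0 < |p| := abs_pos.mpr hp
  have hal := al_pos
  obtain ⟨N, hN⟩ := exists_N one_pos (2 * al)
  obtain ⟨M, hM0, hM⟩ := exists_bound chi
  have hL1 : 0 ≤ L 1 := hP 1 (fun x => by simp)
  have key : ∀ R : ℝ, 0 < R → |L (P F κ)| * (|p| / 2 * (R * ∫ y, chi.1 y)) ≤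
      |AS S F.1| * (N * M * ‖κ‖ * L 1) := by
    intro R hR
    have hRi : 0 < R⁻¹ := inv_pos.mpr hR
    have h1 := prop_rel hP hL m k a hFS F (scl R⁻¹ hRi chi)
    have hsupp : ∀ y, (scl R⁻¹ hRi chi).1 y ≠ 0 → R ≤ y ∧ y ≤ 2 * al * R := by
      intro y hy
      have h2 := chi_supp _ hy
      constructor
      · have := mul_le_mul_of_nonneg_left h2.1 hR.le
        rwa [mul_inv_cancel_left₀ hR.ne', mul_one] at this
      · have := mul_le_mul_of_nonneg_left h2.2 hR.le
        rw [mul_inv_cancel_left₀ hR.ne'] at this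
        linarith
    have h2 : |L (P (scl R⁻¹ hRi chi) κ)| ≤ N * M * ‖κ‖ * L 1 := by
      apply posL_bound hP
      apply P_bound (F := scl R⁻¹ hRi chi) (fun y => hM _) hR hsupp
      rw [one_mul] at hN
      nlinarith
    have h3 : |p| / 2 * (R * ∫ y, chi.1 y) ≤ AS S (scl R⁻¹ hRi chi).1 := by
      have e1 : ∫ y, (scl R⁻¹ hRi chi).1 y = R * ∫ y, chi.1 y := by
        have := Measure.integral_comp_inv_mul_left chi.1 R
        rw [abs_of_pos hR, smul_eq_mul] at this
        exact this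
      rw [← e1, ← integral_const_mul, AS]
      apply integral_mono
      · apply Continuous.integrable_of_hasCompactSupport
        · exact continuous_const.mul (scl R⁻¹ hRi chi).2.1.continuous
        · exact hasCompactSupport_of (a := R) (b := 2 * al * R)
            (fun y hy => hsupp y (right_ne_zero_of_mul hy))
      · apply Continuous.integrable_of_hasCompactSupport
        · exact hFS.smoothS.continuous.mul (contDiff_fq (scl R⁻¹ hRi chi)).continuous
        · exact hasCompactSupport_of (a := R) (b := 2 * al * R)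
            (fun y hy => hsupp y (fq_supp (right_ne_zero_of_mul hy)))
      · intro y
        change |p| / 2 * (scl R⁻¹ hRi chi).1 y ≤ S y * fq (scl R⁻¹ hRi chi).1 y
        by_cases h : (scl R⁻¹ hRi chi).1 y = 0
        · rw [fq, h, mul_zero, zero_div, mul_zero]
        · have hy := (hsupp y h).1
          have hy0 : 0 < y := hR.trans_le hy
          have h4 := sinh_ge (t := |p| * y) (by positivity)
          have h5 : |p| / 2 * y ^ 2 ≤ S y := by
            rw [hS]
            simp only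
            rw [le_div_iff₀ hq]
            nlinarith
          have h6 : 0 ≤ (scl R⁻¹ hRi chi).1 y := chi_nonneg _
          rw [fq]
          calc |p| / 2 * (scl R⁻¹ hRi chi).1 y
              = (|p| / 2 * y ^ 2) * ((scl R⁻¹ hRi chi).1 y / y ^ 2) := by field_simp
            _ ≤ S y * ((scl R⁻¹ hRi chi).1 y / y ^ 2) :=
              mul_le_mul_of_nonneg_right h5 (by positivity)
    calc |L (P F κ)| * (|p| / 2 * (R * ∫ y, chi.1 y))
        ≤ |L (P F κ)| * AS S (scl R⁻¹ hRi chi).1 := mul_le_mul_of_nonneg_left h3 (abs_nonneg _)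
      _ ≤ |AS S (scl R⁻¹ hRi chi).1 * L (P F κ)| := by
          rw [abs_mul, mul_comm]
          exact mul_le_mul_of_nonneg_right (le_abs_self _) (abs_nonneg _)
      _ = |AS S F.1| * |L (P (scl R⁻¹ hRi chi) κ)| := by rw [h1, abs_mul]
      _ ≤ _ := mul_le_mul_of_nonneg_left h2 (abs_nonneg _)
  by_contra hne
  have hx : 0 < |L (P F κ)| := abs_pos.mpr hne
  have hI := chi_int_pos
  set B := |AS S F.1| * (N * M * ‖κ‖ * L 1) with hB
  have hB0 : 0 ≤ B := by positivity
  set d := |L (P F κ)| * (|p| / 2 * ∫ y, chi.1 y) with hd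
  have hd0 : 0 < d := by positivity
  have h1 := key (B / d + 1) (by positivity)
  have h2 : |L (P F κ)| * (|p| / 2 * ((B / d + 1) * ∫ y, chi.1 y)) = B + d := by
    calc _ = (B / d + 1) * d := by rw [hd]; ring
      _ = B + d := by field_simp
  rw [h2] at h1
  linarith

/-- the weight `∫ F dy / y` -/
def wt (F : Cut) : ℝ := AS (fun y => y) F.1

lemma wt_chi_pos : 0 < wt chi := AS_chi_pos

theorem prop_all {L : C(X, ℝ) →ₗ[ℝ] ℝ} (hP : PosL L) (hL : HarmL L) (F F' : Cut)
    (κ : C(T7, ℝ)) : wt F' * L (P F κ) = wt F * L (P F' κ) := by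
  obtain ⟨C1, hC1⟩ := exists_P_bound F
  obtain ⟨C2, hC2⟩ := exists_P_bound F'
  have hL1 : 0 ≤ L 1 := hP 1 (fun x => by simp)
  have hLb : ∀ h : C(X, ℝ), |L h| ≤ ‖h‖ * L 1 := fun h =>
    posL_bound hP h (fun x => h.norm_coe_le_norm x)
  have h0 := trig_zero (wt F' • (L.comp (PL F)) - wt F • (L.comp (PL F')))
    (|wt F'| * (C1 * L 1) + |wt F| * (C2 * L 1)) ?_ ?_
  · have := LinearMap.congr_fun h0 κ
    have h1 : wt F' * L (P F κ) - wt F * L (P F' κ) = 0 := this
    linarith
  · intro h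
    change |wt F' * L (P F h) - wt F * L (P F' h)| ≤ _
    refine (abs_sub _ _).trans ?_
    rw [abs_mul, abs_mul]
    have e1 : |L (P F h)| ≤ (C1 * ‖h‖) * L 1 :=
      (hLb _).trans (mul_le_mul_of_nonneg_right (hC1 h) hL1)
    have e2 : |L (P F' h)| ≤ (C2 * ‖h‖) * L 1 :=
      (hLb _).trans (mul_le_mul_of_nonneg_right (hC2 h) hL1)
    calc |wt F'| * |L (P F h)| + |wt F| * |L (P F' h)|
        ≤ |wt F'| * ((C1 * ‖h‖) * L 1) + |wt F| * ((C2 * ‖h‖) * L 1) := by gcongr
      _ = _ := by ring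
  · intro m k a
    change wt F' * L (P F (kap m k a)) - wt F * L (P F' (kap m k a)) = 0
    by_cases hm : m = 0
    · subst hm
      have hFS : FS (2 * Real.pi * ell 0 k e1) (fun y => y) (fun _ => 1) := by
        rw [ell_e1_zero, mul_zero]; exact FS_zero
      have := prop_rel hP hL 0 k a hFS F F'
      rw [wt, wt, this, sub_self]
    · rw [vanish hP hL hm, vanish hP hL hm, mul_zero, mul_zero, sub_self]

/-! ### Invariance -/

lemma P_GPc (F : Cut) (κ : C(T7, ℝ)) :
    P F (κ.comp (GPc 1)) = P (scl al⁻¹ (inv_pos.mpr al_pos) F) κ := by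
  ext x
  obtain ⟨v, hv, rfl⟩ := ppi_surjective x
  rw [P_ppi _ _ hv, P_ppi _ _ hv, Pf, Pf,
    ← (Equiv.addRight (1 : ℤ)).tsum_eq (fun n : ℤ =>
      Phi (scl al⁻¹ (inv_pos.mpr al_pos) F).1 κ ((g ^ n) v))]
  congr 1
  funext n
  have hn : (Equiv.addRight (1 : ℤ)) n = 1 + n := add_comm n 1
  simp only [hn]
  rw [Phi, Phi, scl_apply, gz_im, gz_im, gz_add, cl_gz 1,
    zpow_add₀ al_ne, zpow_one, mul_assoc, inv_mul_cancel_left₀ al_ne]
  rfl

lemma wt_scl (c : ℝ) (hc : 0 < c) (F : Cut) : wt (scl c hc F) = wt F := by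
  have h1 : ∀ y, y * fq (scl c hc F).1 y = c * ((c * y) * fq F.1 (c * y)) := by
    intro y
    rw [fq, fq, scl_apply]
    by_cases hy : y = 0
    · subst hy; simp
    · field_simp
  rw [wt, wt, AS, AS]
  simp only [h1]
  rw [integral_const_mul, Measure.integral_comp_mul_left (fun y => y * fq F.1 y) c,
    abs_of_pos (inv_pos.mpr hc), smul_eq_mul, mul_inv_cancel_left₀ hc.ne']

theorem inv_GP {L : C(X, ℝ) →ₗ[ℝ] ℝ} (hP : PosL L) (hL : HarmL L) (κ : C(T7, ℝ)) :
    L (P chi (κ.comp (GPc 1))) = L (P chi κ) := by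
  have h1 := prop_all hP hL chi (scl al⁻¹ (inv_pos.mpr al_pos) chi) κ
  rw [wt_scl] at h1
  rw [P_GPc]
  exact (mul_left_cancel₀ wt_chi_pos.ne' h1).symm

/-! ### Functions on the four-dimensional torus -/

/-- functions on `T4` as functions on `T7` -/
def lift4 : C(T4, ℝ) →ₗ[ℝ] C(T7, ℝ) where
  toFun κ := κ.comp ⟨Prod.snd, continuous_snd⟩
  map_add' _ _ := rfl
  map_smul' _ _ := rfl

lemma lift4_apply (κ : C(T4, ℝ)) (σ : T7) : lift4 κ σ = κ σ.2 := rfl

/-- the automorphism as a continuous map -/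
def APc : C(T4, T4) := ⟨AP, continuous_AP⟩

lemma lift4_APc (κ : C(T4, ℝ)) : lift4 (κ.comp APc) = (lift4 κ).comp (GPc 1) := by
  ext σ
  rw [lift4_apply, ContinuousMap.comp_apply, ContinuousMap.comp_apply, lift4_apply]
  rfl

lemma kap_zero_lift (k : ℤ × ℤ × ℤ × ℤ) (a : ℝ) : ∃ κ : C(T4, ℝ), kap 0 k a = lift4 κ := by
  let j : C(T4, T7) := ⟨fun s => (0, s), by fun_prop⟩
  refine ⟨(kap 0 k a).comp j, ?_⟩
  ext σ
  obtain ⟨p, rfl⟩ := q7_surjective σ
  rw [lift4_apply, ContinuousMap.comp_apply]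
  have h1 : j (q7 p).2 = q7 (0, p.2) := by
    rw [q7_apply, q7_apply, map_zero]; rfl
  rw [h1, kap_q7, kap_q7]
  congr 2
  simp [dot]

/-- the Riesz representation theorem on the four-dimensional torus -/
lemma exists_measure (Λ : C(T4, ℝ) →ₗ[ℝ] ℝ) (hΛ : ∀ κ, (∀ s, 0 ≤ κ s) → 0 ≤ Λ κ) :
    ∃ μ : Measure T4, IsFiniteMeasure μ ∧ ∀ κ : C(T4, ℝ), ∫ s, κ s ∂μ = Λ κ := by
  let Λ' : CompactlySupportedContinuousMap T4 ℝ →ₚ[ℝ] ℝ :=
  { toFun := fun h => Λ h.toContinuousMap
    map_add' := fun h h' => by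
      rw [← map_add]; rfl
    map_smul' := fun c h => by
      rw [RingHom.id_apply, ← map_smul]; rfl
    monotone' := fun h h' hh => by
      have h1 := hΛ (h'.toContinuousMap - h.toContinuousMap) (fun s => by
        have : h s ≤ h' s := hh s
        change 0 ≤ h' s - h s
        linarith)
      rw [map_sub] at h1
      change Λ h.toContinuousMap ≤ Λ h'.toContinuousMap
      linarith }
  refine ⟨RealRMK.rieszMeasure Λ', inferInstance, fun κ => ?_⟩
  let κ' : CompactlySupportedContinuousMap T4 ℝ :=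
  { toFun := κ
    hasCompactSupport' := HasCompactSupport.of_compactSpace _ }
  exact RealRMK.integral_rieszMeasure Λ' κ'

lemma measure_ext {μ ν : Measure T4} [IsFiniteMeasure μ] [IsFiniteMeasure ν]
    (h : ∀ κ : C(T4, ℝ), ∫ s, κ s ∂μ = ∫ s, κ s ∂ν) : μ = ν :=
  ext_of_forall_integral_eq_of_IsFiniteMeasure (fun f => h f.toContinuousMap)

lemma integrable_C {μ : Measure T4} [IsFiniteMeasure μ] (κ : C(T4, ℝ)) : Integrable κ μ :=
  (BoundedContinuousFunction.mkOfCompact κ).integrable μ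

/-- Extremality of functionals attached to ergodic measures. -/
theorem extremal_L {ρ : Measure T4} [IsProbabilityMeasure ρ] (hρ : Ergodic AP ρ)
    {L0 L1 L2 : C(X, ℝ) →ₗ[ℝ] ℝ} (hP0 : PosL L0) (hH0 : HarmL L0) (hP1 : PosL L1)
    (hH1 : HarmL L1) (hP2 : PosL L2) (hsum : L1 + L2 = L0) {c0 : ℝ} (hc0 : 0 < c0)
    (hL0 : ∀ κ : C(T4, ℝ), L0 (P chi (lift4 κ)) = c0 * ∫ s, κ s ∂ρ) :
    ∃ c : ℝ, L1 = c • L0 := by
  have hpos : ∀ {L : C(X, ℝ) →ₗ[ℝ] ℝ}, PosL L → ∀ κ : C(T4, ℝ), (∀ s, 0 ≤ κ s) →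
      0 ≤ (L.comp ((PL chi).comp lift4)) κ := by
    intro L hL κ hκ
    apply hL
    exact P_nonneg chi_nonneg (fun σ => hκ σ.2)
  obtain ⟨μ1, hf1, hμ1⟩ := exists_measure _ (hpos hP1)
  obtain ⟨μ2, hf2, hμ2⟩ := exists_measure _ (hpos hP2)
  have hμ1' : ∀ κ : C(T4, ℝ), ∫ s, κ s ∂μ1 = L1 (P chi (lift4 κ)) := hμ1
  have hμ2' : ∀ κ : C(T4, ℝ), ∫ s, κ s ∂μ2 = L2 (P chi (lift4 κ)) := hμ2
  have hadd : μ1 + μ2 = (ENNReal.ofReal c0) • ρ := by
    have : IsFiniteMeasure ((ENNReal.ofReal c0) • ρ) :=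
      Measure.smul_finite ρ ENNReal.ofReal_ne_top
    apply measure_ext
    intro κ
    rw [integral_add_measure (integrable_C κ) (integrable_C κ), integral_smul_measure, hμ1', hμ2',
      ENNReal.toReal_ofReal hc0.le, smul_eq_mul, ← hL0, ← hsum]
    rfl
  have hac : μ1 ≪ ρ := by
    have h1 : μ1 ≤ (ENNReal.ofReal c0) • ρ := by
      rw [← hadd]; exact Measure.le_add_right le_rfl
    exact (Measure.absolutelyContinuous_of_le h1).trans
      (Measure.smul_absolutelyContinuous)
  have hinv : MeasurePreserving AP μ1 μ1 := by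
    refine ⟨continuous_AP.measurable, ?_⟩
    have : IsFiniteMeasure (μ1.map AP) := Measure.isFiniteMeasure_map μ1 AP
    apply measure_ext
    intro κ
    rw [integral_map continuous_AP.measurable.aemeasurable κ.continuous.aestronglyMeasurable]
    have h1 := hμ1' (κ.comp APc)
    have h2 : ∫ s, κ (AP s) ∂μ1 = ∫ s, (κ.comp APc) s ∂μ1 := rfl
    rw [h2, h1, lift4_APc, inv_GP hP1 hH1, hμ1']
  obtain ⟨c, hc⟩ := hρ.eq_smul_of_absolutelyContinuous hinv hac
  refine ⟨c.toReal / c0, ?_⟩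
  set c' := c.toReal / c0 with hc'
  have h4 : ∀ κ : C(T4, ℝ), L1 (P chi (lift4 κ)) = c' * L0 (P chi (lift4 κ)) := by
    intro κ
    rw [← hμ1', hc, integral_smul_measure, hL0, smul_eq_mul, hc']
    field_simp
  have hL1 : 0 ≤ L1 1 := hP1 1 (fun x => by simp)
  have hL01 : 0 ≤ L0 1 := hP0 1 (fun x => by simp)
  have hb : ∀ h : C(X, ℝ), |(L1 - c' • L0) h| ≤ (L1 1 + |c'| * L0 1) * ‖h‖ := by
    intro h
    have e1 : |L1 h| ≤ ‖h‖ * L1 1 := posL_bound hP1 h (fun x => h.norm_coe_le_norm x)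
    have e2 : |L0 h| ≤ ‖h‖ * L0 1 := posL_bound hP0 h (fun x => h.norm_coe_le_norm x)
    change |L1 h - c' * L0 h| ≤ _
    refine (abs_sub _ _).trans ?_
    rw [abs_mul]
    calc |L1 h| + |c'| * |L0 h| ≤ ‖h‖ * L1 1 + |c'| * (‖h‖ * L0 1) := by gcongr
      _ = _ := by ring
  have hzero : L1 - c' • L0 = 0 := by
    apply per_zero _ _ hb
    intro F κ
    obtain ⟨C1, hC1⟩ := exists_P_bound F
    have hcomp : (L1 - c' • L0).comp (PL F) = 0 := by
      apply trig_zero _ ((L1 1 + |c'| * L0 1) * C1)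
      · intro h
        change |(L1 - c' • L0) (P F h)| ≤ _
        refine (hb _).trans ?_
        rw [mul_assoc]
        exact mul_le_mul_of_nonneg_left (hC1 h) (by positivity)
      · intro m k a
        change L1 (P F (kap m k a)) - c' * L0 (P F (kap m k a)) = 0
        by_cases hm : m = 0
        · subst hm
          obtain ⟨κ', hκ'⟩ := kap_zero_lift k a
          rw [hκ']
          have e1 := prop_all hP1 hH1 F chi (lift4 κ')
          have e2 := prop_all hP0 hH0 F chi (lift4 κ')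
          rw [h4] at e1
          have e3 : wt chi * (L1 (P F (lift4 κ')) - c' * L0 (P F (lift4 κ'))) = 0 := by
            linear_combination e1 - c' * e2
          exact (mul_eq_zero.mp e3).resolve_left wt_chi_pos.ne'
        · rw [vanish hP1 hH1 hm, vanish hP0 hH0 hm, mul_zero, sub_self]
    exact LinearMap.congr_fun hcomp κ
  exact sub_eq_zero.mp hzero

end Pool.Agent.Helper289.Per
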