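import Pool.Agent.Helper289.LamX

/-! The seven-dimensional torus, characters and density. -/

open Set Topology
open scoped Manifold ContDiff

attribute [-instance] TopCat.of.chartedSpace

noncomputable section

namespace Pool.Agent.Helper289.Torus

open Pool.Agent.Helper289.Base Pool.Agent.Helper289.Quot
open Pool.Agent.Helper289.LamX

/-- the three-dimensional torus -/
abbrev T3 : Type := S1 × S1 × S1
/-- the seven-dimensional torus -/
abbrev T7 : Type := T3 × T4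
/-- real lattice coordinates -/
abbrev R7 : Type := R3 × R4

/-- class of a triple -/
def cls3 : R3 →+ T3 :=
  (QuotientAddGroup.mk' _).prodMap ((QuotientAddGroup.mk' _).prodMap (QuotientAddGroup.mk' _))

lemma cls3_apply (s : R3) : cls3 s = ((s.1 : S1), (s.2.1 : S1), (s.2.2 : S1)) := rfl

/-- class map of the torus -/
def q7 : R7 →+ T7 := cls3.prodMap cls4

lemma q7_apply (s : R7) : q7 s = (cls3 s.1, cls4 s.2) := rfl

lemma isOpenQuotientMap_coe : IsOpenQuotientMap (fun x : ℝ => (x : S1)) :=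
  QuotientAddGroup.isOpenQuotientMap_mk

lemma isOpenQuotientMap_cls3 : IsOpenQuotientMap (cls3 : R3 → T3) :=
  isOpenQuotientMap_coe.prodMap (isOpenQuotientMap_coe.prodMap isOpenQuotientMap_coe)

lemma isOpenQuotientMap_cls4 : IsOpenQuotientMap (cls4 : R4 → T4) :=
  isOpenQuotientMap_coe.prodMap (isOpenQuotientMap_coe.prodMap
    (isOpenQuotientMap_coe.prodMap isOpenQuotientMap_coe))

lemma isOpenQuotientMap_q7 : IsOpenQuotientMap (q7 : R7 → T7) :=
  isOpenQuotientMap_cls3.prodMap isOpenQuotientMap_cls4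

lemma continuous_q7 : Continuous q7 := isOpenQuotientMap_q7.continuous
lemma q7_surjective : Function.Surjective q7 := isOpenQuotientMap_q7.surjective

lemma coe_eq_zero {x : ℝ} (h : (x : S1) = 0) : ∃ m : ℤ, (m : ℝ) = x := by
  rw [AddCircle.coe_eq_zero_iff] at h
  obtain ⟨m, hm⟩ := h
  exact ⟨m, by simpa using hm⟩

lemma q7_int (m : ℤ × ℤ × ℤ) (k : ℤ × ℤ × ℤ × ℤ) : q7 (i3 m, i4 k) = 0 := by
  rw [q7_apply, cls4_i4, cls3_apply, i3_apply]
  simp only [coe_int]
  rfl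

lemma q7_add (p : R7) (m : ℤ × ℤ × ℤ) (k : ℤ × ℤ × ℤ × ℤ) : q7 (p + (i3 m, i4 k)) = q7 p := by
  rw [map_add, q7_int, add_zero]

lemma exists_of_q7_eq {p p' : R7} (h : q7 p = q7 p') : ∃ m k, p' = p + (i3 m, i4 k) := by
  have h0 : q7 (p' - p) = 0 := by rw [map_sub, h, sub_self]
  rw [q7_apply, cls3_apply, cls4_apply] at h0
  simp only [Prod.ext_iff, Prod.fst_zero, Prod.snd_zero] at h0
  obtain ⟨⟨h1, h2, h3⟩, h4, h5, h6, h7⟩ := h0
  obtain ⟨m1, h1⟩ := coe_eq_zero h1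
  obtain ⟨m2, h2⟩ := coe_eq_zero h2
  obtain ⟨m3, h3⟩ := coe_eq_zero h3
  obtain ⟨m4, h4⟩ := coe_eq_zero h4
  obtain ⟨m5, h5⟩ := coe_eq_zero h5
  obtain ⟨m6, h6⟩ := coe_eq_zero h6
  obtain ⟨m7, h7⟩ := coe_eq_zero h7
  refine ⟨(m1, m2, m3), (m4, m5, m6, m7), ?_⟩
  have : p' - p = (i3 (m1, m2, m3), i4 (m4, m5, m6, m7)) := by
    rw [i3_apply, i4_apply]
    simp only [h1, h2, h3, h4, h5, h6, h7]
  rw [← this]; abel

/-- a right inverse of `q7` -/
def out7 : T7 → R7 := Function.surjInv q7_surjective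

lemma q7_out7 (σ : T7) : q7 (out7 σ) = σ := Function.surjInv_eq _ σ

lemma exists_out7 (p : R7) : ∃ m k, out7 (q7 p) = p + (i3 m, i4 k) :=
  exists_of_q7_eq (q7_out7 _).symm

/-- integral functionals -/
def dot (m : ℤ × ℤ × ℤ) (k : ℤ × ℤ × ℤ × ℤ) (p : R7) : ℝ :=
  m.1 * p.1.1 + m.2.1 * p.1.2.1 + m.2.2 * p.1.2.2 +
    (k.1 * p.2.1 + k.2.1 * p.2.2.1 + k.2.2.1 * p.2.2.2.1 + k.2.2.2 * p.2.2.2.2)

lemma continuous_dot (m : ℤ × ℤ × ℤ) (k : ℤ × ℤ × ℤ × ℤ) : Continuous (dot m k) := by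
  unfold dot
  fun_prop

lemma dot_add_int (m : ℤ × ℤ × ℤ) (k : ℤ × ℤ × ℤ × ℤ) (p : R7) (m' : ℤ × ℤ × ℤ)
    (k' : ℤ × ℤ × ℤ × ℤ) : ∃ j : ℤ, dot m k (p + (i3 m', i4 k')) = dot m k p + j := by
  refine ⟨m.1 * m'.1 + m.2.1 * m'.2.1 + m.2.2 * m'.2.2 +
    (k.1 * k'.1 + k.2.1 * k'.2.1 + k.2.2.1 * k'.2.2.1 + k.2.2.2 * k'.2.2.2), ?_⟩
  simp only [dot, i3_apply, i4_apply, Prod.fst_add, Prod.snd_add]
  push_cast
  ring

/-- the real trigonometric functions on the torus, as functions on `ℝ⁷` -/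
def trg (m : ℤ × ℤ × ℤ) (k : ℤ × ℤ × ℤ × ℤ) (a : ℝ) (p : R7) : ℝ :=
  Real.cos (2 * Real.pi * dot m k p + a)

lemma trg_add (m : ℤ × ℤ × ℤ) (k : ℤ × ℤ × ℤ × ℤ) (a : ℝ) (p : R7) (m' : ℤ × ℤ × ℤ)
    (k' : ℤ × ℤ × ℤ × ℤ) : trg m k a (p + (i3 m', i4 k')) = trg m k a p := by
  obtain ⟨j, hj⟩ := dot_add_int m k p m' k'
  rw [trg, trg, hj]
  rw [← Real.cos_add_int_mul_two_pi (2 * Real.pi * dot m k p + a) j]
  congr 1
  ring

/-- the real trigonometric functions on the torus -/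
def kap (m : ℤ × ℤ × ℤ) (k : ℤ × ℤ × ℤ × ℤ) (a : ℝ) : C(T7, ℝ) where
  toFun σ := trg m k a (out7 σ)
  continuous_toFun := by
    rw [← isOpenQuotientMap_q7.continuous_comp_iff]
    have h : (fun σ => trg m k a (out7 σ)) ∘ q7 = trg m k a := by
      funext p
      obtain ⟨m', k', h⟩ := exists_out7 p
      simp only [Function.comp, h, trg_add]
    rw [h]
    have := continuous_dot m k
    unfold trg
    fun_prop

lemma kap_q7 (m : ℤ × ℤ × ℤ) (k : ℤ × ℤ × ℤ × ℤ) (a : ℝ) (p : R7) :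
    kap m k a (q7 p) = Real.cos (2 * Real.pi * dot m k p + a) := by
  obtain ⟨m', k', h⟩ := exists_out7 p
  change trg m k a (out7 (q7 p)) = _
  rw [h, trg_add]
  rfl

/-- set of trigonometric functions -/
def Trig : Set C(T7, ℝ) := {f | ∃ m k a, f = kap m k a}

lemma dot_add_left (m m' : ℤ × ℤ × ℤ) (k k' : ℤ × ℤ × ℤ × ℤ) (p : R7) :
    dot (m + m') (k + k') p = dot m k p + dot m' k' p := by
  simp only [dot, Prod.fst_add, Prod.snd_add]
  push_cast
  ring

lemma dot_sub_left (m m' : ℤ × ℤ × ℤ) (k k' : ℤ × ℤ × ℤ × ℤ) (p : R7) :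
    dot (m - m') (k - k') p = dot m k p - dot m' k' p := by
  simp only [dot, Prod.fst_sub, Prod.snd_sub]
  push_cast
  ring

lemma kap_mul (m m' : ℤ × ℤ × ℤ) (k k' : ℤ × ℤ × ℤ × ℤ) (a a' : ℝ) :
    kap m k a * kap m' k' a' = (1 / 2 : ℝ) • kap (m + m') (k + k') (a + a') +
      (1 / 2 : ℝ) • kap (m - m') (k - k') (a - a') := by
  ext σ
  obtain ⟨p, rfl⟩ := q7_surjective σ
  simp only [ContinuousMap.mul_apply, ContinuousMap.add_apply, ContinuousMap.smul_apply, kap_q7,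
    dot_add_left, dot_sub_left, smul_eq_mul]
  rw [show 2 * Real.pi * (dot m k p + dot m' k' p) + (a + a') =
    (2 * Real.pi * dot m k p + a) + (2 * Real.pi * dot m' k' p + a') by ring,
    show 2 * Real.pi * (dot m k p - dot m' k' p) + (a - a') =
    (2 * Real.pi * dot m k p + a) - (2 * Real.pi * dot m' k' p + a') by ring,
    Real.cos_add (2 * Real.pi * dot m k p + a), Real.cos_sub (2 * Real.pi * dot m k p + a)]
  ring

lemma kap_zero : kap 0 0 0 = 1 := by
  ext σ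
  obtain ⟨p, rfl⟩ := q7_surjective σ
  rw [kap_q7]
  simp [dot]

/-- Stone–Weierstrass in the form of a uniqueness statement for bounded functionals. -/
theorem sw_zero {Y : Type*} [TopologicalSpace Y] [CompactSpace Y] (S : Set C(Y, ℝ))
    (h1 : 1 ∈ Submodule.span ℝ S) (hmul : ∀ f ∈ S, ∀ h ∈ S, f * h ∈ Submodule.span ℝ S)
    (hsep : ∀ x y, (∀ f ∈ S, f x = f y) → x = y) (L : C(Y, ℝ) →ₗ[ℝ] ℝ) (C : ℝ)
    (hL : ∀ h, |L h| ≤ C * ‖h‖) (h0 : ∀ f ∈ S, L f = 0) : L = 0 := by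
  have hmul' : ∀ f ∈ Submodule.span ℝ S, ∀ h ∈ Submodule.span ℝ S, f * h ∈ Submodule.span ℝ S := by
    intro f hf h hh
    have : Submodule.span ℝ S * Submodule.span ℝ S ≤ Submodule.span ℝ S := by
      rw [Submodule.span_mul_span, Submodule.span_le]
      rintro _ ⟨u, hu, v, hv, rfl⟩
      exact hmul u hu v hv
    exact this (Submodule.mul_mem_mul hf hh)
  let A : Subalgebra ℝ C(Y, ℝ) := Submodule.toSubalgebra (Submodule.span ℝ S) h1
    (fun f h hf hh => hmul' f hf h hh)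
  have hA : ∀ f, f ∈ A ↔ f ∈ Submodule.span ℝ S := fun f => Iff.rfl
  have hsepA : A.SeparatesPoints := by
    intro x y hxy
    by_contra hcon
    apply hxy
    apply hsep
    intro f hf
    by_contra hne
    exact hcon ⟨f, ⟨f, (hA f).mpr (Submodule.subset_span hf), rfl⟩, hne⟩
  have htop := ContinuousMap.subalgebra_topologicalClosure_eq_top_of_separatesPoints A hsepA
  have hLc : Continuous L := by
    apply AddMonoidHomClass.continuous_of_bound L C
    intro x
    rw [Real.norm_eq_abs]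
    exact hL x
  have hzero : ∀ f ∈ A, L f = 0 := by
    intro f hf
    rw [hA] at hf
    have : Submodule.span ℝ S ≤ LinearMap.ker L := by
      rw [Submodule.span_le]
      intro f hf
      exact h0 f hf
    exact this hf
  apply LinearMap.ext
  intro f
  have hf : f ∈ A.topologicalClosure := by rw [htop]; trivial
  have hf' : f ∈ closure (A : Set C(Y, ℝ)) := hf
  have hcl : IsClosed {f | L f = 0} := isClosed_eq hLc continuous_const
  exact closure_minimal (fun f hf => hzero f hf) hcl hf'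

lemma trig_separates (x y : T7) (h : ∀ f ∈ Trig, f x = f y) : x = y := by
  obtain ⟨p, rfl⟩ := q7_surjective x
  obtain ⟨p', rfl⟩ := q7_surjective y
  have key : ∀ m k, ∃ j : ℤ, dot m k p' - dot m k p = j := by
    intro m k
    have h1 := h (kap m k (-(2 * Real.pi * dot m k p))) ⟨_, _, _, rfl⟩
    rw [kap_q7, kap_q7, add_neg_cancel, Real.cos_zero] at h1
    obtain ⟨j, hj⟩ := (Real.cos_eq_one_iff _).mp h1.symm
    refine ⟨j, ?_⟩
    have h2 : (2 * Real.pi) * ((dot m k p' - dot m k p) - j) = 0 := by linarith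
    have h3 : (2 * Real.pi) ≠ 0 := by have := Real.pi_pos; positivity
    have h4 := (mul_eq_zero.mp h2).resolve_left h3
    linarith
  obtain ⟨j1, h1⟩ := key (1, 0, 0) 0
  obtain ⟨j2, h2⟩ := key (0, 1, 0) 0
  obtain ⟨j3, h3⟩ := key (0, 0, 1) 0
  obtain ⟨j4, h4⟩ := key 0 (1, 0, 0, 0)
  obtain ⟨j5, h5⟩ := key 0 (0, 1, 0, 0)
  obtain ⟨j6, h6⟩ := key 0 (0, 0, 1, 0)
  obtain ⟨j7, h7⟩ := key 0 (0, 0, 0, 1)
  simp [dot] at h1 h2 h3 h4 h5 h6 h7
  have : p' = p + (i3 (j1, j2, j3), i4 (j4, j5, j6, j7)) := by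
    rw [i3_apply, i4_apply]
    ext
    · simp only [Prod.fst_add]; linarith
    · simp only [Prod.fst_add, Prod.snd_add]; linarith
    · simp only [Prod.fst_add, Prod.snd_add]; linarith
    · simp only [Prod.fst_add, Prod.snd_add]; linarith
    · simp only [Prod.fst_add, Prod.snd_add]; linarith
    · simp only [Prod.fst_add, Prod.snd_add]; linarith
    · simp only [Prod.snd_add]; linarith
  rw [this, q7_add]

/-- a bounded functional on `C(T7)` vanishing on trigonometric functions vanishes -/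
theorem trig_zero (L : C(T7, ℝ) →ₗ[ℝ] ℝ) (C : ℝ) (hL : ∀ h, |L h| ≤ C * ‖h‖)
    (h0 : ∀ m k a, L (kap m k a) = 0) : L = 0 := by
  apply sw_zero Trig _ _ trig_separates L C hL
  · rintro f ⟨m, k, a, rfl⟩; exact h0 m k a
  · exact Submodule.subset_span ⟨0, 0, 0, kap_zero.symm⟩
  · rintro _ ⟨m, k, a, rfl⟩ _ ⟨m', k', a', rfl⟩
    rw [kap_mul]
    exact Submodule.add_mem _ (Submodule.smul_mem _ _ (Submodule.subset_span ⟨_, _, _, rfl⟩))
      (Submodule.smul_mem _ _ (Submodule.subset_span ⟨_, _, _, rfl⟩))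

/-! ### The automorphism of the torus -/

/-- the torus automorphism -/
def GP : Equiv.Perm T7 := Equiv.prodCongr (M3 S1).toEquiv AP

lemma GP_apply (σ : T7) : GP σ = (M3 S1 σ.1, AP σ.2) := rfl

lemma cls3_M3 (s : R3) : cls3 (M3 ℝ s) = M3 S1 (cls3 s) := by
  obtain ⟨a, b, c⟩ := s
  rw [cls3_apply, cls3_apply, M3_apply, M3_apply]
  simp only [AddCircle.coe_add]

/-- the torus class of a point of `ℂ⁴` -/
def cl (p : E4) : T7 := q7 (co p).2

lemma cl_snd (p : E4) : (cl p).2 = tau p := rfl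

lemma continuous_cl : Continuous cl := continuous_q7.comp (continuous_snd.comp continuous_co)

lemma cl_g (p : E4) : cl (g p) = GP (cl p) := by
  rw [cl, co_g, gc_apply, q7_apply, cls3_M3, cls4_A4]; rfl

lemma cl_gz (n : ℤ) (p : E4) : cl ((g ^ n) p) = (GP ^ n) (cl p) := by
  induction n using Int.induction_on with
  | zero => rw [gz_zero]; simp
  | succ i ih => rw [gz_add_one, cl_g, ih, zpow_add_one, ← (Commute.self_zpow GP _).eq]; rfl
  | pred i ih =>
    rw [gz_sub_one, zpow_sub_one, ← ((Commute.refl GP).inv_left.zpow_right _).eq]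
    apply GP.injective
    rw [← cl_g, g.apply_symm_apply, ih]
    simp

lemma cl_add (p : E4) {l : E4} (hl : l ∈ Lam) : cl (p + l) = cl p := by
  obtain ⟨m, k, h⟩ := hl
  rw [cl, co_add, h, Prod.snd_add, q7_add, cl]

lemma continuous_M3 : Continuous (M3 S1) := by
  change Continuous (fun p : T3 => (p.2.2, p.1 + p.2.2, p.2.1))
  fun_prop

lemma continuous_M3_symm : Continuous (M3 S1).symm := by
  change Continuous (fun p : T3 => (p.2.1 - p.1, p.2.2, p.1))
  fun_prop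

lemma continuous_AP : Continuous AP := by
  change Continuous (fun p : T4 => (4 • p.1 - p.2.1, p.1, 4 • p.2.2.1 - p.2.2.2, p.2.2.1))
  fun_prop

lemma continuous_AP_symm : Continuous AP.symm := by
  change Continuous (fun p : T4 => (p.2.1, 4 • p.2.1 - p.1, p.2.2.2, 4 • p.2.2.2 - p.2.2.1))
  fun_prop

lemma continuous_GP : Continuous GP := continuous_M3.prodMap continuous_AP
lemma continuous_GP_symm : Continuous GP.symm := continuous_M3_symm.prodMap continuous_AP_symm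

lemma continuous_GPz (n : ℤ) : Continuous (GP ^ n : Equiv.Perm T7) := by
  induction n using Int.induction_on with
  | zero => rw [zpow_zero]; exact continuous_id
  | succ i ih =>
    rw [zpow_add_one]
    exact ih.comp continuous_GP
  | pred i ih =>
    rw [zpow_sub_one]
    exact ih.comp continuous_GP_symm

/-- composition with a power of the automorphism -/
def GPc (n : ℤ) : C(T7, T7) := ⟨(GP ^ n : Equiv.Perm T7), continuous_GPz n⟩

lemma GPz_snd (n : ℤ) (σ : T7) : ((GP ^ n) σ).2 = (AP ^ n) σ.2 := by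
  obtain ⟨p, rfl⟩ := q7_surjective σ
  have h : q7 p = cl (pt (0, p)) := by rw [cl, co_pt]
  rw [h, ← cl_gz, cl_snd, tau_gz, cl_snd]

/-! ### Derivative of the functional along the leaf direction -/

/-- `dot m k` as a functional on `ℂ⁴` -/
def ell (m : ℤ × ℤ × ℤ) (k : ℤ × ℤ × ℤ × ℤ) : E4 →L[ℝ] ℝ :=
  LinearMap.toContinuousLinearMap
    { toFun := fun v => dot m k (co v).2
      map_add' := by
        intro v w
        rw [co_add]
        simp only [dot, Prod.fst_add, Prod.snd_add]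
        ring
      map_smul' := by
        intro c v
        have h : co (c • v) = c • co v := ptE.symm.map_smul c v
        rw [h]
        simp only [dot, Prod.smul_fst, Prod.smul_snd, smul_eq_mul, RingHom.id_apply]
        ring }

lemma ell_apply (m : ℤ × ℤ × ℤ) (k : ℤ × ℤ × ℤ × ℤ) (v : E4) : ell m k v = dot m k (co v).2 := rfl

lemma kap_cl (m : ℤ × ℤ × ℤ) (k : ℤ × ℤ × ℤ × ℤ) (a : ℝ) (v : E4) :
    kap m k a (cl v) = Real.cos (2 * Real.pi * ell m k v + a) := by
  rw [cl, kap_q7]; rfl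

open Pool.Agent.Helper289.Forms in
lemma ell_Ie1 (m : ℤ × ℤ × ℤ) (k : ℤ × ℤ × ℤ × ℤ) : ell m k (Complex.I • e1) = 0 := by
  have : Complex.I • e1 = pt (1, 0, 0) := by
    rw [I_smul_e1, pt]
    refine Prod.ext ?_ (Prod.ext ?_ (Prod.ext ?_ ?_)) <;> simp
  rw [ell_apply, this, co_pt]
  simp [dot]

open Pool.Agent.Helper289.Forms in
lemma ell_e1 (m : ℤ × ℤ × ℤ) (k : ℤ × ℤ × ℤ × ℤ) :
    ell m k e1 = (m.1 * (al ^ 2 - 1) + m.2.1 * al + m.2.2) / (3 * al ^ 2 - 1) := by
  rw [ell_apply]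
  simp only [co, e1, dot]
  simp
  ring

open Pool.Agent.Helper289.Forms in
lemma ell_e1_ne {m : ℤ × ℤ × ℤ} (k : ℤ × ℤ × ℤ × ℤ) (hm : m ≠ 0) : ell m k e1 ≠ 0 := by
  intro h
  apply hm
  rw [ell_e1, div_eq_zero_iff] at h
  have h1 := h.resolve_right al_den.ne'
  obtain ⟨a, b, c⟩ := m
  obtain ⟨h2, h3, h4⟩ := al_indep (c - a) b a (by
    push_cast
    simp only at h1
    linarith)
  subst h3 h4
  have : c = 0 := by omega
  subst this
  rfl

open Pool.Agent.Helper289.Forms in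
lemma ell_e1_zero (k : ℤ × ℤ × ℤ × ℤ) : ell 0 k e1 = 0 := by
  rw [ell_e1]; simp

end Pool.Agent.Helper289.Torus
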