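import Pool.Agent.Helper289.Odo
import Pool.Agent.Helper289.Torus

/-! Coding of the subshift inside the torus automorphism. -/

open Set Topology MeasureTheory

noncomputable section

namespace Pool.Agent.Helper289.Coding

open Pool.Agent.Helper289.Base Pool.Agent.Helper289.Symb Pool.Agent.Helper289.LamX
open Pool.Agent.Helper289.Odo Pool.Agent.Helper289.Torus

/-- `2 - √3` -/
def qq : ℝ := 2 - √3

lemma sqrt3_sq : √3 * √3 = (3 : ℝ) := Real.mul_self_sqrt (by norm_num)
lemma sqrt3_pos : 0 < √(3 : ℝ) := Real.sqrt_pos.mpr (by norm_num)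
lemma sqrt3_lt : √(3 : ℝ) < 2 := by
  have := sqrt3_sq
  have := sqrt3_pos
  nlinarith
lemma sqrt3_gt : 1 < √(3 : ℝ) := by
  have := sqrt3_sq
  have := sqrt3_pos
  nlinarith
lemma qq_pos : 0 < qq := by have := sqrt3_lt; unfold qq; linarith
lemma qq_lt : qq < 1 := by have := sqrt3_gt; unfold qq; linarith
lemma qq_eq : 4 * qq - qq ^ 2 - 1 = 0 := by
  have := sqrt3_sq
  unfold qq
  nlinarith

/-- the kernel -/
def aa (j : ℤ) : ℝ := qq ^ j.natAbs / (2 * √3)

lemma aa_nonneg (j : ℤ) : 0 ≤ aa j := by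
  have := qq_pos
  have := sqrt3_pos
  unfold aa
  positivity

lemma summable_aa : Summable aa := by
  have h1 : Summable (fun n : ℕ => qq ^ n / (2 * √3)) :=
    (summable_geometric_of_lt_one qq_pos.le qq_lt).div_const _
  apply Summable.of_nat_of_neg
  · simpa [aa] using h1
  · simpa [aa] using h1

lemma aa_rec (j : ℤ) : 4 * aa j - aa (j + 1) - aa (j - 1) = if j = 0 then 1 else 0 := by
  have hs := sqrt3_pos
  have hs' := sqrt3_sq
  have hq := qq_eq
  rcases lt_trichotomy j 0 with h | h | h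
  · obtain ⟨n, hn⟩ := Int.eq_ofNat_of_zero_le (by omega : 0 ≤ -j - 1)
    have e1 : j.natAbs = n + 1 := by omega
    have e2 : (j + 1).natAbs = n := by omega
    have e3 : (j - 1).natAbs = n + 2 := by omega
    rw [if_neg (by omega), aa, aa, aa, e1, e2, e3]
    have : 4 * (qq ^ (n + 1) / (2 * √3)) - qq ^ n / (2 * √3) - qq ^ (n + 2) / (2 * √3) =
        qq ^ n / (2 * √3) * (4 * qq - qq ^ 2 - 1) := by ring
    rw [this, hq, mul_zero]
  · subst h
    simp only [aa, Int.natAbs_zero, zero_add, zero_sub, Int.natAbs_one, Int.natAbs_neg, pow_zero,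
      pow_one, if_true]
    unfold qq
    field_simp
    ring
  · obtain ⟨n, hn⟩ := Int.eq_ofNat_of_zero_le (by omega : 0 ≤ j - 1)
    have e1 : j.natAbs = n + 1 := by omega
    have e2 : (j + 1).natAbs = n + 2 := by omega
    have e3 : (j - 1).natAbs = n := by omega
    rw [if_neg (by omega), aa, aa, aa, e1, e2, e3]
    have : 4 * (qq ^ (n + 1) / (2 * √3)) - qq ^ (n + 2) / (2 * √3) - qq ^ n / (2 * √3) =
        qq ^ n / (2 * √3) * (4 * qq - qq ^ 2 - 1) := by ring
    rw [this, hq, mul_zero]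

/-- numerical value of a letter -/
def bv (b : Bool) : ℝ := if b then 1 else 0

lemma bv_nonneg (b : Bool) : 0 ≤ bv b := by cases b <;> simp [bv]
lemma bv_le (b : Bool) : bv b ≤ 1 := by cases b <;> simp [bv]

/-- the coded coordinates -/
def UU (x : ℤ → Bool) (k : ℤ) : ℝ := ∑' n : ℤ, aa (k - n) * bv (x n)

lemma summable_sub (k : ℤ) : Summable (fun n : ℤ => aa (k - n)) :=
  (Equiv.subLeft k).summable_iff.mpr summable_aa

lemma summable_UU (x : ℤ → Bool) (k : ℤ) : Summable (fun n : ℤ => aa (k - n) * bv (x n)) := by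
  apply Summable.of_nonneg_of_le _ _ (summable_sub k)
  · intro n; exact mul_nonneg (aa_nonneg _) (bv_nonneg _)
  · intro n
    exact mul_le_of_le_one_right (aa_nonneg _) (bv_le _)

lemma UU_rec (x : ℤ → Bool) (k : ℤ) : 4 * UU x k - UU x (k + 1) - UU x (k - 1) = bv (x k) := by
  rw [UU, UU, UU, ← tsum_mul_left, ← ((summable_UU x k).mul_left 4).tsum_sub (summable_UU x (k + 1)),
    ← (((summable_UU x k).mul_left 4).sub (summable_UU x (k + 1))).tsum_sub (summable_UU x (k - 1)),
    tsum_eq_single k]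
  · have h := aa_rec 0
    simp only [if_true] at h
    have e1 : k - k = 0 := by ring
    have e2 : k + 1 - k = 0 + 1 := by ring
    have e3 : k - 1 - k = 0 - 1 := by ring
    rw [e1, e2, e3]
    linear_combination bv (x k) * h
  · intro n hn
    have h := aa_rec (k - n)
    rw [if_neg (by omega)] at h
    have e2 : k + 1 - n = k - n + 1 := by ring
    have e3 : k - 1 - n = k - n - 1 := by ring
    rw [e2, e3]
    linear_combination bv (x n) * h

lemma UU_sh (x : ℤ → Bool) (k : ℤ) : UU (sh x) k = UU x (k + 1) := by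
  rw [UU, UU, ← (Equiv.addRight (1 : ℤ)).tsum_eq (fun n : ℤ => aa (k + 1 - n) * bv (x n))]
  congr 1
  funext n
  rw [Equiv.coe_addRight, sh]
  congr 2
  ring

lemma UU_nonneg (x : ℤ → Bool) (k : ℤ) : 0 ≤ UU x k :=
  tsum_nonneg fun n => mul_nonneg (aa_nonneg _) (bv_nonneg _)

lemma tsum_aa : ∑' n : ℤ, aa (0 - n) = 1 / 2 := by
  have h1 : ∀ k, UU (fun _ => true) k = UU (fun _ => true) 0 := by
    intro k
    have hs : sh (fun _ => true) = fun _ => true := rfl
    induction k using Int.induction_on with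
    | zero => rfl
    | succ i ih => rw [← UU_sh, hs, ih]
    | pred i ih =>
      rw [← ih, ← hs, UU_sh, hs, sub_add_cancel]
  have h2 := UU_rec (fun _ => true) 0
  rw [h1 (0 + 1), h1 (0 - 1)] at h2
  have h3 : bv true = 1 := rfl
  rw [h3] at h2
  have h4 : UU (fun _ => true) 0 = ∑' n : ℤ, aa (0 - n) := by
    rw [UU]
    simp only [h3, mul_one]
  rw [← h4]
  linarith

lemma UU_le (x : ℤ → Bool) : UU x 0 ≤ 1 / 2 := by
  rw [← tsum_aa, UU]
  apply (summable_UU x 0).tsum_le_tsum _ (summable_sub 0)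
  intro n
  exact mul_le_of_le_one_right (aa_nonneg _) (bv_le _)

lemma continuous_UU (k : ℤ) : Continuous (fun x => UU x k) := by
  unfold UU
  apply continuous_tsum (u := fun n => aa (k - n)) _ (summable_sub k)
  · intro n x
    rw [norm_mul, Real.norm_eq_abs, Real.norm_eq_abs, abs_of_nonneg (aa_nonneg _),
      abs_of_nonneg (bv_nonneg _)]
    exact mul_le_of_le_one_right (aa_nonneg _) (bv_le _)
  · intro n
    have h1 : Continuous bv := continuous_of_discreteTopology
    fun_prop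

/-- the coding map -/
def cod (x : ℤ → Bool) : T4 := ((UU x 0 : ℝ), (UU x (-1) : ℝ), 0, 0)

lemma continuous_cod : Continuous cod := by
  have h0 := continuous_UU 0
  have h1 := continuous_UU (-1)
  have hc : Continuous (fun x : ℝ => (x : S1)) := AddCircle.continuous_mk' (1 : ℝ)
  unfold cod
  fun_prop

lemma coe_bv (b : Bool) : ((bv b : ℝ) : S1) = 0 := by
  cases b
  · simp [bv]
  · have := coe_int 1
    rw [Int.cast_one] at this
    exact this

lemma cod_sh (x : ℤ → Bool) : cod (sh x) = AP (cod x) := by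
  rw [AP_apply, cod, cod, A4_apply, UU_sh, UU_sh]
  have h := UU_rec x 0
  have h1 : UU x (0 + 1) = 4 * UU x 0 - UU x (-1) - bv (x 0) := by
    have : (0 : ℤ) - 1 = -1 := by ring
    rw [this] at h
    linarith
  refine Prod.ext ?_ (Prod.ext ?_ (Prod.ext ?_ ?_))
  · simp only
    rw [h1, AddCircle.coe_sub, AddCircle.coe_sub, coe_bv, sub_zero]
    congr 1
    rw [← AddCircle.coe_nsmul]
    congr 1
    simp
  · simp
  · simp
  · simp

/-- the minimal set of the torus -/
def KK : Set T4 := cod '' Kp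

lemma sh_surj (x : ℤ → Bool) : ∃ y, sh y = x := ⟨fun n => x (n - 1), by funext n; simp [sh]⟩

lemma iter_sh (x : ℤ → Bool) (k : ℤ) : (AP ^ k) (cod x) = cod (fun n => x (n + k)) := by
  induction k using Int.induction_on with
  | zero => simp
  | succ i ih =>
    rw [zpow_add_one, ← (Commute.self_zpow AP _).eq]
    change AP ((AP ^ (i : ℤ)) (cod x)) = _
    rw [ih, ← cod_sh]
    congr 1
    funext n
    simp only [sh]
    congr 1
    ring
  | pred i ih =>
    rw [zpow_sub_one, ← ((Commute.refl AP).inv_left.zpow_right _).eq]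
    apply AP.injective
    have h0 : AP ((AP⁻¹ * AP ^ (-(i : ℤ))) (cod x)) = (AP ^ (-(i : ℤ))) (cod x) :=
      AP.apply_symm_apply _
    rw [h0, ih, ← cod_sh]
    congr 1
    funext n
    simp only [sh]
    congr 1
    ring

/-- a point of the subshift -/
lemma Kp_nonempty : Kp.Nonempty := ⟨_, xc_mem 0 0⟩

lemma minSet_KK : MinSet KK where
  compact := isCompact_Kp.image continuous_cod
  nonempty := Kp_nonempty.image cod
  inv := by
    intro s
    constructor
    · rintro ⟨x, hx, hxs⟩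
      obtain ⟨y, rfl⟩ := sh_surj x
      rw [cod_sh] at hxs
      exact ⟨y, (sh_mem_iff y).mp hx, AP.injective hxs⟩
    · rintro ⟨x, hx, rfl⟩
      exact ⟨sh x, (sh_mem_iff x).mpr hx, cod_sh x⟩
  minimal := by
    rintro _ ⟨x, hx, rfl⟩ _ ⟨y, hy, rfl⟩ ε hε
    have h1 : cod ⁻¹' (Metric.ball (cod y) ε) ∈ 𝓝 y :=
      continuous_cod.continuousAt.preimage_mem_nhds (Metric.ball_mem_nhds _ hε)
    rw [nhds_pi, Filter.mem_pi'] at h1
    obtain ⟨I, t, ht, hI⟩ := h1
    -- a finite window containing `I`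
    obtain ⟨M, hM⟩ : ∃ M : ℕ, ∀ i ∈ I, i.natAbs ≤ M :=
      ⟨I.sup Int.natAbs, fun i hi => Finset.le_sup (f := Int.natAbs) hi⟩
    obtain ⟨k, hk⟩ := Kp_min hx hy (-M) (2 * M + 1)
    refine ⟨k + M, ?_⟩
    rw [iter_sh]
    have h2 : (fun n => x (n + (k + M))) ∈ (I : Set ℤ).pi t := by
      intro i hi
      have h3 := hM i hi
      obtain ⟨j, hj⟩ := Int.eq_ofNat_of_zero_le (by omega : 0 ≤ i + M)
      have h4 := hk j (by omega)
      have h5 : i + (k + (M : ℤ)) = k + (j : ℤ) := by omega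
      have h6 : (-M : ℤ) + (j : ℤ) = i := by omega
      change x (i + (k + M)) ∈ t i
      rw [h5, h4, h6]
      exact mem_of_mem_nhds (ht i)
    exact hI h2

/-! ### Measures -/

/-- the ergodic measures -/
def rho (c : ℝ) : Measure T4 := Measure.map (fun ω => cod (xc c ω)) mO

instance instBT4 : BorelSpace T4 := @Prod.borelSpace _ _ _ _ _ _ _
  (@Prod.borelSpace _ _ _ _ _ _ _ inferInstance _) _

lemma measurable_cx (c : ℝ) : Measurable (fun ω => cod (xc c ω)) :=
  continuous_cod.measurable.comp (measurable_xc c)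

lemma mp_cx (c : ℝ) : MeasurePreserving (fun ω => cod (xc c ω)) mO (rho c) :=
  ⟨measurable_cx c, rfl⟩

instance (c : ℝ) : IsProbabilityMeasure (rho c) :=
  Measure.isProbabilityMeasure_map (measurable_cx c).aemeasurable

lemma semi_cx (c : ℝ) : Function.Semiconj (fun ω => cod (xc c ω)) (fun ω => tv + ω) AP := by
  intro ω
  simp only
  rw [xc_shift, cod_sh]

lemma ergodic_rho (c : ℝ) : Ergodic AP (rho c) :=
  (mp_cx c).ergodic_of_ergodic_semiconj ergodic_tv continuous_AP.measurable (semi_cx c)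

lemma rho_compl (c : ℝ) : rho c KKᶜ = 0 := by
  rw [rho, Measure.map_apply (measurable_cx c)
    (minSet_KK.compact.isClosed.measurableSet.compl)]
  have : (fun ω => cod (xc c ω)) ⁻¹' KKᶜ = ∅ := by
    ext ω
    simp only [mem_preimage, mem_compl_iff, mem_empty_iff_false, iff_false, not_not]
    exact ⟨_, xc_mem c ω, rfl⟩
  rw [this, measure_empty]

/-- the distinguishing function -/
def DD : C(T4, ℝ) := ⟨fun s => ‖s.1‖, by fun_prop⟩

lemma DD_cod (x : ℤ → Bool) : DD (cod x) = UU x 0 := by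
  change ‖((UU x 0 : ℝ) : S1)‖ = _
  rw [(AddCircle.norm_coe_eq_abs_iff (1 : ℝ) one_ne_zero).mpr, abs_of_nonneg (UU_nonneg x 0)]
  rw [abs_of_nonneg (UU_nonneg x 0), abs_one]
  exact UU_le x

lemma measurable_UUx (c : ℝ) (k : ℤ) : Measurable (fun ω => UU (xc c ω) k) :=
  (continuous_UU k).measurable.comp (measurable_xc c)

lemma UU_le_gen (x : ℤ → Bool) (k : ℤ) : UU x k ≤ ∑' n : ℤ, aa (k - n) := by
  apply (summable_UU x k).tsum_le_tsum _ (summable_sub k)
  intro n
  exact mul_le_of_le_one_right (aa_nonneg _) (bv_le _)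

lemma integrable_UUx (c : ℝ) (k : ℤ) : Integrable (fun ω => UU (xc c ω) k) mO := by
  apply Integrable.of_bound (C := ∑' n : ℤ, aa (k - n)) (measurable_UUx c k).aestronglyMeasurable
  apply Filter.Eventually.of_forall
  intro ω
  rw [Real.norm_eq_abs, abs_of_nonneg (UU_nonneg _ _)]
  exact UU_le_gen _ _

lemma integral_UU_succ (c : ℝ) (k : ℤ) : ∫ ω, UU (xc c ω) (k + 1) ∂mO = ∫ ω, UU (xc c ω) k ∂mO := by
  have h1 : ∀ ω, UU (xc c ω) (k + 1) = UU (xc c (tv + ω)) k := by
    intro ω
    rw [xc_shift, UU_sh]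
  simp only [h1]
  have h2 : MeasurePreserving (fun ω => tv + ω) mO mO := ergodic_tv.toMeasurePreserving
  rw [← integral_map (φ := fun ω => tv + ω) h2.measurable.aemeasurable
    (f := fun ω => UU (xc c ω) k) (by rw [h2.map_eq]; exact (measurable_UUx c k).aestronglyMeasurable),
    h2.map_eq]

lemma integral_DD (c : ℝ) : ∫ s, DD s ∂(rho c) = (mO {ω | xc c ω 0 = true}).toReal / 2 := by
  rw [rho, integral_map (measurable_cx c).aemeasurable DD.continuous.aestronglyMeasurable]
  simp only [DD_cod]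
  have h1 : ∀ ω, 4 * UU (xc c ω) 0 - UU (xc c ω) (0 + 1) - UU (xc c ω) (0 - 1) = bv (xc c ω 0) :=
    fun ω => UU_rec _ 0
  have h2 : ∫ ω, bv (xc c ω 0) ∂mO = (mO {ω | xc c ω 0 = true}).toReal := by
    have h3 : (fun ω => bv (xc c ω 0)) = indicator {ω | xc c ω 0 = true} (fun _ => (1 : ℝ)) := by
      funext ω
      by_cases h : xc c ω 0 = true
      · rw [indicator_of_mem (by exact h), h]; rfl
      · rw [indicator_of_notMem (by exact h), Bool.eq_false_iff.mpr h]; rfl
    have h4 : MeasurableSet {ω | xc c ω 0 = true} := by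
      have := (measurable_pi_apply 0).comp (measurable_xc c)
      exact this (MeasurableSet.singleton true)
    rw [h3, integral_indicator h4]
    simp [Measure.real]
  have h5 : ∫ ω, (4 * UU (xc c ω) 0 - UU (xc c ω) (0 + 1) - UU (xc c ω) (0 - 1)) ∂mO =
      4 * ∫ ω, UU (xc c ω) 0 ∂mO - ∫ ω, UU (xc c ω) (0 + 1) ∂mO - ∫ ω, UU (xc c ω) (0 - 1) ∂mO := by
    have i1 : Integrable (fun ω => 4 * UU (xc c ω) 0) mO := (integrable_UUx c 0).const_mul 4
    have i2 : Integrable (fun ω => 4 * UU (xc c ω) 0 - UU (xc c ω) (0 + 1)) mO :=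
      i1.sub (integrable_UUx c (0 + 1))
    rw [integral_sub i2 (integrable_UUx c (0 - 1)), integral_sub i1 (integrable_UUx c (0 + 1)),
      integral_const_mul]
  simp only [h1] at h5
  rw [h2, integral_UU_succ] at h5
  have h6 := integral_UU_succ c (0 - 1)
  rw [sub_add_cancel] at h6
  rw [← h6] at h5
  linarith

lemma integral_DD_ne {c c' : ℝ} (hc0 : 0 ≤ c) (hc1 : c ≤ 1) (hc0' : 0 ≤ c') (hc1' : c' ≤ 1)
    (h : c ≠ c') : ∫ s, DD s ∂(rho c) ≠ ∫ s, DD s ∂(rho c') := by
  rw [integral_DD, integral_DD]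
  intro heq
  apply measure_event_ne hc0 hc1 hc0' hc1' h
  linarith

end Pool.Agent.Helper289.Coding
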