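import Pool.Agent.Helper289.Forms3

/-! Currents attached to functionals on `C(X, ℝ)`. -/

open Set Topology
open scoped Manifold ContDiff

attribute [-instance] TopCat.of.chartedSpace

noncomputable section

namespace Pool.Agent.Helper289.Forms

open Pool.Agent.Helper289.Base Pool.Agent.Helper289.Quot Pool.Agent.Helper289.LamDefs

lemma isContForm_smul {φ : X → E4 [⋀^Fin 2]→L[ℝ] ℝ} (hφ : IsContForm φ) (h : C(X, ℝ)) :
    IsContForm (fun x => h x • φ x) := by
  rw [isContForm_iff] at hφ ⊢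
  have h1 : ContinuousOn (fun v => h (ppi v)) D := h.continuous.comp_continuousOn continuousOn_ppi
  exact (h1.smul hφ).congr (fun v _ => hat_smul h φ v)

lemma isContForm_omega0 : IsContForm omega0 :=
  fun e he => (isSmooth_omega0 e he).continuousOn

/-- `h ↦ h • ω₀` -/
def om : C(X, ℝ) →ₗ[ℝ] ContForms E4 X where
  toFun h := ⟨fun x => h x • omega0 x, isContForm_smul isContForm_omega0 h⟩
  map_add' h h' := by
    apply Subtype.ext
    funext x
    exact add_smul (h x) (h' x) (omega0 x)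
  map_smul' c h := by
    apply Subtype.ext
    funext x
    exact mul_smul c (h x) (omega0 x)

lemma om_apply (h : C(X, ℝ)) (x : X) : (om h).1 x = h x • omega0 x := rfl

lemma omega0_pair (x : X) (v : E4) :
    omega0 x ![v, Complex.I • v] = ((rep x).1.im ^ 2)⁻¹ * ‖v.1‖ ^ 2 := by
  change psi0 (rep x) ![v, Complex.I • v] = _
  rw [psi0, ContinuousAlternatingMap.smul_apply, area_apply, smul_eq_mul]
  congr 1
  simp only [Matrix.cons_val_zero, Matrix.cons_val_one, Prod.smul_fst, smul_eq_mul,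
    Complex.mul_re, Complex.mul_im, Complex.I_re, Complex.I_im]
  rw [← Complex.normSq_eq_norm_sq, Complex.normSq_apply]
  ring

lemma Q_om (h : C(X, ℝ)) : Q (om h) = h := by
  ext x
  have h1 : 0 < (rep x).1.im := rep_mem x
  rw [Q_apply, Qf, om_apply, ContinuousAlternatingMap.smul_apply, omega0_pair, smul_eq_mul]
  simp [e1]
  field_simp

/-- the current of a functional -/
def cur (L : C(X, ℝ) →ₗ[ℝ] ℝ) : Current E4 X := L.comp Q

/-- the functional of a current -/
def fn (T : Current E4 X) : C(X, ℝ) →ₗ[ℝ] ℝ := T.comp om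

lemma cur_apply (L : C(X, ℝ) →ₗ[ℝ] ℝ) (φ : ContForms E4 X) : cur L φ = L (Q φ) := rfl
lemma fn_apply (T : Current E4 X) (h : C(X, ℝ)) : fn T h = T (om h) := rfl

lemma fn_cur (L : C(X, ℝ) →ₗ[ℝ] ℝ) : fn (cur L) = L := by
  ext h
  rw [fn_apply, cur_apply, Q_om]

/-- positivity of functionals -/
def PosL (L : C(X, ℝ) →ₗ[ℝ] ℝ) : Prop := ∀ h : C(X, ℝ), (∀ x, 0 ≤ h x) → 0 ≤ L h

/-- harmonic functionals -/
def HarmL (L : C(X, ℝ) →ₗ[ℝ] ℝ) : Prop :=
  ∀ f : X → ℝ, ContMDiff 𝓘(ℝ, E4) 𝓘(ℝ, ℝ) ∞ f → ∀ h : C(X, ℝ),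
    (∀ v ∈ D, h (ppi v) = v.1.im ^ 2 * lap (fun v => f (ppi v)) v) → L h = 0

lemma isPositive_cur {L : C(X, ℝ) →ₗ[ℝ] ℝ} (hL : PosL L) : IsPositive (cur L) := by
  intro φ hφ
  apply hL
  intro x
  rw [Q_apply, Qf]
  exact mul_nonneg (sq_nonneg _) (hφ x e1)

lemma posL_fn {T : Current E4 X} (hT : IsPositive T) : PosL (fn T) := by
  intro h hh
  apply hT
  intro x v
  rw [om_apply, ContinuousAlternatingMap.smul_apply, omega0_pair, smul_eq_mul]
  have h1 : 0 < (rep x).1.im := rep_mem x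
  exact mul_nonneg (hh x) (by positivity)

lemma isDdcClosed_cur {L : C(X, ℝ) →ₗ[ℝ] ℝ} (hL : HarmL L) : IsDdcClosed (cur L) := by
  intro f hf φ hφ
  have h1 := hL f hf ((2 * Real.pi) • Q φ) (by
    intro v hv
    rw [ContinuousMap.smul_apply, Q_ddc hf hφ hv, smul_eq_mul]
    have := Real.pi_pos
    field_simp)
  rw [map_smul, smul_eq_mul] at h1
  have h2 : (2 * Real.pi) ≠ 0 := by have := Real.pi_pos; positivity
  exact (mul_eq_zero.mp h1).resolve_left h2

lemma harmL_fn {T : Current E4 X} (hT : IsDdcClosed T) (hd : ∀ φ, T φ = fn T (Q φ)) :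
    HarmL (fn T) := by
  intro f hf h hh
  obtain ⟨φ, hφ⟩ := exists_ddc hf
  have h1 : h = (2 * Real.pi) • Q φ := by
    ext x
    obtain ⟨v, hv, rfl⟩ := ppi_surjective x
    rw [hh v hv, ContinuousMap.smul_apply, Q_ddc hf hφ hv, smul_eq_mul]
    have := Real.pi_pos
    field_simp
  rw [h1, map_smul, ← hd, hT f hf φ hφ, smul_zero]

lemma posL_bound {L : C(X, ℝ) →ₗ[ℝ] ℝ} (hL : PosL L) (h : C(X, ℝ)) {c : ℝ}
    (hc : ∀ x, |h x| ≤ c) : |L h| ≤ c * L 1 := by
  have h1 : 0 ≤ L (c • 1 - h) := hL _ (by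
    intro x
    simp only [ContinuousMap.sub_apply, ContinuousMap.smul_apply, ContinuousMap.one_apply,
      smul_eq_mul, mul_one]
    linarith [(abs_le.mp (hc x)).2])
  have h2 : 0 ≤ L (c • 1 + h) := hL _ (by
    intro x
    simp only [ContinuousMap.add_apply, ContinuousMap.smul_apply, ContinuousMap.one_apply,
      smul_eq_mul, mul_one]
    linarith [(abs_le.mp (hc x)).1])
  rw [map_sub, map_smul, smul_eq_mul] at h1
  rw [map_add, map_smul, smul_eq_mul] at h2
  rw [abs_le]
  constructor <;> linarith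

lemma posL_eq_zero {L : C(X, ℝ) →ₗ[ℝ] ℝ} (hL : PosL L) (h1 : L 1 = 0) : L = 0 := by
  ext h
  have := posL_bound hL h (c := ‖h‖) (fun x => h.norm_coe_le_norm x)
  rw [h1, mul_zero] at this
  simpa using abs_nonpos_iff.mp this

/-- a positive current which only depends on leafwise densities is closed only if it vanishes -/
lemma not_closed {T : Current E4 X} (hp : IsPositive T) (hd : ∀ φ, T φ = fn T (Q φ))
    (h0 : T ≠ 0) : ¬ IsClosedCurrent T := by
  intro hc
  have h1 : T (om 1) = 0 := by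
    apply hc beta0 isSmooth_beta0 (om 1)
    have : (om 1).1 = omega0 := by
      funext x
      rw [om_apply, ContinuousMap.one_apply, one_smul]
    rw [this]
    exact isExtDeriv_beta0
  have h2 := posL_eq_zero (posL_fn hp) h1
  apply h0
  ext φ
  rw [hd, h2]
  rfl

end Pool.Agent.Helper289.Forms
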