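import Mathlib

/-!
Currents and laminations on complex manifolds.

Conventions.  `E` is a complex normed space (the model), `X` a manifold modelled on `E`.
In Mathlib the tangent space of `X` at `x` is a copy of `E` (through the preferred chart at `x`),
so a real differential `k`-form on `X` is a map `X → E [⋀^Fin k]→L[ℝ] ℝ`, and multiplication
by the imaginary unit on `E` is the complex structure of the tangent space.
-/

open scoped Manifold ContDiff Topology
open Set Topology

noncomputable section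

namespace Pool.Agent.Helper289.LamDefs

variable {E : Type} [NormedAddCommGroup E] [NormedSpace ℂ E]
variable {X : Type} [TopologicalSpace X] [ChartedSpace E X]

/-- The expression in the chart `e` of the real `k`-form `φ`: its pull-back by the inverse chart. -/
def localForm {k : ℕ} (e : OpenPartialHomeomorph X E) (φ : X → E [⋀^Fin k]→L[ℝ] ℝ) (y : E) :
    E [⋀^Fin k]→L[ℝ] ℝ :=
  (φ (e.symm y)).compContinuousLinearMap (mfderiv 𝓘(ℝ, E) 𝓘(ℝ, E) e.symm y : E →L[ℝ] E)

/-- A `k`-form is continuous if its expressions in all charts of the atlas are continuous. -/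
def IsContForm {k : ℕ} (φ : X → E [⋀^Fin k]→L[ℝ] ℝ) : Prop :=
  ∀ e ∈ atlas E X, ContinuousOn (localForm e φ) e.target

/-- A `k`-form is smooth if its expressions in all charts of the atlas are `C^∞`. -/
def IsSmoothForm {k : ℕ} (φ : X → E [⋀^Fin k]→L[ℝ] ℝ) : Prop :=
  ∀ e ∈ atlas E X, ContDiffOn ℝ ∞ (localForm e φ) e.target

/-- `ψ = dφ`, the exterior derivative being computed in the charts of the atlas. -/
def IsExtDeriv {k : ℕ} (φ : X → E [⋀^Fin k]→L[ℝ] ℝ) (ψ : X → E [⋀^Fin (k + 1)]→L[ℝ] ℝ) : Prop :=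
  ∀ e ∈ atlas E X, ∀ y ∈ e.target, localForm e ψ y = extDeriv (localForm e φ) y

/-- The real `1`-form `d^c f = - (1 / 2π) df ∘ J`, `J` being multiplication by `i`. With this
normalisation `dd^c = (i / π) ∂ ∂bar`. -/
def dcForm (f : X → ℝ) (x : X) : E [⋀^Fin 1]→L[ℝ] ℝ :=
  ContinuousAlternatingMap.ofSubsingleton ℝ E ℝ (0 : Fin 1)
    ((-(1 / (2 * Real.pi))) •
      ((mfderiv 𝓘(ℝ, E) 𝓘(ℝ, ℝ) f x : E →L[ℝ] ℝ).comp
        (Complex.I • ContinuousLinearMap.id ℝ E)))

variable (E X) in
/-- The space of continuous real `2`-forms on `X`. -/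
def ContForms : Submodule ℝ (X → E [⋀^Fin 2]→L[ℝ] ℝ) where
  carrier := {φ | IsContForm φ}
  add_mem' := by
    intro φ ψ hφ hψ e he
    have : localForm e (φ + ψ) = fun y => localForm e φ y + localForm e ψ y := by
      funext y; ext v; simp [localForm]
    rw [this]
    exact (hφ e he).add (hψ e he)
  zero_mem' := by
    intro e he
    have : localForm e (0 : X → E [⋀^Fin 2]→L[ℝ] ℝ) = fun y => 0 := by
      funext y; ext v; simp [localForm]
    rw [this]
    exact continuousOn_const
  smul_mem' := by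
    intro c φ hφ e he
    have : localForm e (c • φ) = fun y => c • localForm e φ y := by
      funext y; ext v; simp [localForm]
    rw [this]
    exact (hφ e he).const_smul c

variable (E X) in
/-- Real linear functionals on continuous real `2`-forms. A positive current of bidimension
`(1,1)` has measure coefficients, so it acts on continuous forms, and on real `2`-forms through
their `(1,1)`-part; it is such a functional. -/
abbrev Current : Type := ContForms E X →ₗ[ℝ] ℝ

/-- `T` is positive (of bidimension `(1,1)`): `T(φ) ≥ 0` whenever `φ(v, iv) ≥ 0` for every tangent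
vector `v`. (This forces `T(φ) = 0` when `φ(v, iv) = 0` for all `v`, that is, when the
`(1,1)`-part of `φ` vanishes.) -/
def IsPositive (T : Current E X) : Prop :=
  ∀ φ : ContForms E X, (∀ (x : X) (v : E), 0 ≤ φ.1 x ![v, Complex.I • v]) → 0 ≤ T φ

/-- `T` is closed: `T(dβ) = 0` for every smooth real `1`-form `β`. -/
def IsClosedCurrent (T : Current E X) : Prop :=
  ∀ β : X → E [⋀^Fin 1]→L[ℝ] ℝ, IsSmoothForm β →
    ∀ φ : ContForms E X, IsExtDeriv β φ.1 → T φ = 0

/-- `T` is `dd^c`-closed: `T(dd^c f) = 0` for every smooth function `f`. -/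
def IsDdcClosed (T : Current E X) : Prop :=
  ∀ f : X → ℝ, ContMDiff 𝓘(ℝ, E) 𝓘(ℝ, ℝ) ∞ f →
    ∀ φ : ContForms E X, IsExtDeriv (dcForm f) φ.1 → T φ = 0

/-- `T` is a real multiple of `T'`. -/
def IsMultiple (T T' : Current E X) : Prop := ∃ c : ℝ, T = c • T'

variable (E X) in
/-- A holomorphic lamination by Riemann surfaces in `X`: a compact set `carrier` covered by flow
boxes `(ζ, t) ↦ box i ζ t`, each a homeomorphism of (unit disc) `× trans i` onto an open subset of
`carrier`, whose plaques `ζ ↦ box i ζ t` are holomorphically immersed discs that overlap in open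
subsets, so that they glue into leaves. -/
structure Lamination where
  /-- the underlying compact set -/
  carrier : Set X
  isCompact_carrier : IsCompact carrier
  /-- index set of the flow boxes -/
  ι : Type
  /-- the transversals -/
  trans : ι → Type
  /-- topology of the transversals -/
  top : ∀ i, TopologicalSpace (trans i)
  /-- the flow boxes, used for `ζ` in the unit disc -/
  box : ∀ i, ℂ → trans i → X
  box_mem : ∀ i, ∀ ζ ∈ Metric.ball (0 : ℂ) 1, ∀ t, box i ζ t ∈ carrier
  isOpenEmbedding_box : ∀ i, IsOpenEmbedding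
    (fun p : Metric.ball (0 : ℂ) 1 × trans i =>
      (⟨box i p.1 p.2, box_mem i p.1 p.1.2 p.2⟩ : carrier))
  holomorphic_box : ∀ i t, ContMDiffOn 𝓘(ℂ, ℂ) 𝓘(ℂ, E) ω (fun ζ => box i ζ t)
    (Metric.ball (0 : ℂ) 1)
  immersed_box : ∀ i t, ∀ ζ ∈ Metric.ball (0 : ℂ) 1,
    mfderiv 𝓘(ℂ, ℂ) 𝓘(ℂ, E) (fun ζ => box i ζ t) ζ ≠ 0
  cover : ∀ x ∈ carrier, ∃ i, ∃ ζ ∈ Metric.ball (0 : ℂ) 1, ∃ t, box i ζ t = x
  glue : ∀ i j t s, IsOpen {ζ | ζ ∈ Metric.ball (0 : ℂ) 1 ∧
    ∃ ζ' ∈ Metric.ball (0 : ℂ) 1, box i ζ t = box j ζ' s}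

namespace Lamination

variable (L : Lamination E X)

/-- `x` and `y` lie in a common plaque. -/
def SamePlaque (x y : X) : Prop :=
  ∃ i t, ∃ ζ ∈ Metric.ball (0 : ℂ) 1, ∃ ζ' ∈ Metric.ball (0 : ℂ) 1,
    L.box i ζ t = x ∧ L.box i ζ' t = y

/-- The leaf through `x`: the points that can be reached from `x` by a chain of plaques. -/
def leaf (x : X) : Set X := {y | Relation.ReflTransGen L.SamePlaque x y}

/-- The lamination is minimal: nonempty, and every leaf is dense in it. -/
def IsMinimal : Prop :=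
  L.carrier.Nonempty ∧ ∀ x ∈ L.carrier, L.carrier ⊆ closure (L.leaf x)

/-- The complex tangent vector `∂/∂ζ` of the plaque `ζ ↦ box i ζ t` at its point `box i ζ t`. -/
def plaqueVec (i : L.ι) (ζ : ℂ) (t : L.trans i) : E :=
  mfderiv 𝓘(ℂ, ℂ) 𝓘(ℂ, E) (fun ζ => L.box i ζ t) ζ (1 : ℂ)

/-- `T` is directed by the lamination: it is carried by `carrier` and tangent to the leaves, that
is, `T(φ) = 0` whenever the restriction of `φ` to every plaque vanishes. -/
def IsDirected (T : Current E X) : Prop :=
  ∀ φ : ContForms E X,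
    (∀ i, ∀ ζ ∈ Metric.ball (0 : ℂ) 1, ∀ t,
      φ.1 (L.box i ζ t) ![L.plaqueVec i ζ t, Complex.I • L.plaqueVec i ζ t] = 0) → T φ = 0

/-- The convex cone of positive `dd^c`-closed currents directed by the lamination. -/
def cone : Set (Current E X) := {T | IsPositive T ∧ IsDdcClosed T ∧ L.IsDirected T}

/-- `T` spans an extremal ray of the cone of positive `dd^c`-closed currents directed by the
lamination. -/
def IsExtremal (T : Current E X) : Prop :=
  T ∈ L.cone ∧ T ≠ 0 ∧ ∀ T₁ ∈ L.cone, ∀ T₂ ∈ L.cone, T₁ + T₂ = T → IsMultiple T₁ T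

end Lamination

end Pool.Agent.Helper289.LamDefs
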