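import Pool.Agent.Helper289.Quot
import Pool.Agent.Helper289.LamDefs

/-! Forms on `X` as invariant forms on `D`. -/

open Set Topology
open scoped Manifold ContDiff

attribute [-instance] TopCat.of.chartedSpace

noncomputable section

namespace Pool.Agent.Helper289.Forms

open Pool.Agent.Helper289.Base Pool.Agent.Helper289.Quot Pool.Agent.Helper289.LamDefs

/-- pull-back to `D` of a form on `X` -/
def hat {k : ℕ} (φ : X → E4 [⋀^Fin k]→L[ℝ] ℝ) (v : E4) : E4 [⋀^Fin k]→L[ℝ] ℝ :=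
  (φ (ppi v)).compContinuousLinearMap (mfderiv 𝓘(ℝ, E4) 𝓘(ℝ, E4) ppi v : E4 →L[ℝ] E4)

lemma localForm_chart {k : ℕ} (p : D) (φ : X → E4 [⋀^Fin k]→L[ℝ] ℝ) :
    localForm (chart p) φ = hat φ := rfl

lemma hat_eq {k : ℕ} (φ : X → E4 [⋀^Fin k]→L[ℝ] ℝ) {v l : E4} {n : ℤ} (hv : v ∈ D) (hl : l ∈ Lam)
    (h : rep (ppi v) = (g ^ n) v + l) :
    hat φ v = (φ (ppi v)).compContinuousLinearMap (gR n) := by
  have := (hasMFDerivAt_ppi_R hv hl h).mfderiv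
  simp only [hat]
  congr 1

lemma hat_add {k : ℕ} (φ ψ : X → E4 [⋀^Fin k]→L[ℝ] ℝ) (v : E4) :
    hat (φ + ψ) v = hat φ v + hat ψ v := by
  ext m; rfl

lemma hat_smul {k : ℕ} (h : X → ℝ) (φ : X → E4 [⋀^Fin k]→L[ℝ] ℝ) (v : E4) :
    hat (fun x => h x • φ x) v = h (ppi v) • hat φ v := by
  ext m; rfl

/-- invariant forms on `D` -/
def Inv {k : ℕ} (ψ : E4 → E4 [⋀^Fin k]→L[ℝ] ℝ) : Prop :=
  ∀ (n : ℤ) (v l : E4), v ∈ D → l ∈ Lam → (ψ ((g ^ n) v + l)).compContinuousLinearMap (gR n) = ψ v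

lemma gR_zero : gR 0 = ContinuousLinearMap.id ℝ E4 := by
  apply ContinuousLinearMap.ext; intro v; rw [gR_apply, gz_zero]; rfl

lemma gR_comp (m n : ℤ) : (gR m).comp (gR n) = gR (m + n) := by
  apply ContinuousLinearMap.ext; intro v
  rw [ContinuousLinearMap.comp_apply, gR_apply, gR_apply, gR_apply, gz_add]

lemma comp_comp {k : ℕ} (φ : E4 [⋀^Fin k]→L[ℝ] ℝ) (A B : E4 →L[ℝ] E4) :
    (φ.compContinuousLinearMap A).compContinuousLinearMap B =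
      φ.compContinuousLinearMap (A.comp B) := by
  ext m; simp [Function.comp_def]

lemma inv_hat {k : ℕ} (φ : X → E4 [⋀^Fin k]→L[ℝ] ℝ) : Inv (hat φ) := by
  intro n v l hv hl
  have hv' : (g ^ n) v + l ∈ D := add_mem_D (gz_mem_D n hv) hl
  obtain ⟨m, l', hl', hr⟩ := exists_rep hv'
  rw [hat_eq φ hv' hl' hr, comp_comp, gR_comp]
  rw [ppi_gz_add n hv hl] at hr ⊢
  have hr' : rep (ppi v) = (g ^ (m + n)) v + ((g ^ m) l + l') := by
    rw [hr, map_add, ← gz_add]; abel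
  rw [hat_eq φ hv (Lam.add_mem (gz_mem_Lam m hl) hl') hr']

/-- descent of an invariant form to `X` -/
def desc {k : ℕ} (ψ : E4 → E4 [⋀^Fin k]→L[ℝ] ℝ) (x : X) : E4 [⋀^Fin k]→L[ℝ] ℝ := ψ (rep x)

lemma hat_desc {k : ℕ} {ψ : E4 → E4 [⋀^Fin k]→L[ℝ] ℝ} (h : Inv ψ) {v : E4} (hv : v ∈ D) :
    hat (desc ψ) v = ψ v := by
  obtain ⟨n, l, hl, hr⟩ := exists_rep hv
  rw [hat_eq _ hv hl hr, desc, hr, h n v l hv hl]

lemma hat_rep {k : ℕ} (φ : X → E4 [⋀^Fin k]→L[ℝ] ℝ) (x : X) : hat φ (rep x) = φ x := by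
  have hr : rep (ppi (rep x)) = (g ^ (0 : ℤ)) (rep x) + 0 := by
    rw [ppi_rep, gz_zero, add_zero]
  rw [hat_eq φ (rep_mem x) Lam.zero_mem hr, ppi_rep, gR_zero]
  ext m; simp

lemma exists_ball {v : E4} (hv : v ∈ D) : ∃ p : D, v ∈ Metric.ball p.1 (rad p.1) :=
  ⟨⟨v, hv⟩, Metric.mem_ball_self (rad_pos hv)⟩

lemma isContForm_iff {k : ℕ} {φ : X → E4 [⋀^Fin k]→L[ℝ] ℝ} :
    IsContForm φ ↔ ContinuousOn (hat φ) D := by
  constructor
  · intro h v hv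
    have := h (chart ⟨v, hv⟩) ⟨_, rfl⟩
    rw [localForm_chart, chart_target] at this
    exact (this.continuousAt (Metric.ball_mem_nhds _ (rad_pos hv))).continuousWithinAt
  · rintro h e ⟨p, rfl⟩
    rw [localForm_chart, chart_target]
    exact h.mono (ball_subset_D p.2)

lemma isSmoothForm_iff {k : ℕ} {φ : X → E4 [⋀^Fin k]→L[ℝ] ℝ} :
    IsSmoothForm φ ↔ ContDiffOn ℝ ∞ (hat φ) D := by
  constructor
  · intro h v hv
    have := h (chart ⟨v, hv⟩) ⟨_, rfl⟩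
    rw [localForm_chart, chart_target] at this
    exact (this.contDiffAt (Metric.ball_mem_nhds _ (rad_pos hv))).contDiffWithinAt
  · rintro h e ⟨p, rfl⟩
    rw [localForm_chart, chart_target]
    exact h.mono (ball_subset_D p.2)

lemma isExtDeriv_iff {k : ℕ} {φ : X → E4 [⋀^Fin k]→L[ℝ] ℝ}
    {ψ : X → E4 [⋀^Fin (k + 1)]→L[ℝ] ℝ} :
    IsExtDeriv φ ψ ↔ ∀ v ∈ D, hat ψ v = extDeriv (hat φ) v := by
  constructor
  · intro h v hv
    exact h (chart ⟨v, hv⟩) ⟨_, rfl⟩ v (Metric.mem_ball_self (rad_pos hv))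
  · rintro h e ⟨p, rfl⟩ v hv
    exact h v (ball_subset_D p.2 hv)

/-- pulled back functions -/
lemma contDiffOn_comp_ppi {f : X → ℝ} (hf : ContMDiff 𝓘(ℝ, E4) 𝓘(ℝ, ℝ) ∞ f) :
    ContDiffOn ℝ ∞ (fun v => f (ppi v)) D := by
  intro v hv
  have h1 : ContMDiffOn 𝓘(ℝ, E4) 𝓘(ℝ, E4) ∞ (chart ⟨v, hv⟩).symm (chart ⟨v, hv⟩).target := by
    have : IsManifold 𝓘(ℝ, E4) ∞ X := IsManifold.of_le (n := ω) le_top
    exact contMDiffOn_symm_of_mem_maximalAtlas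
      (IsManifold.subset_maximalAtlas ⟨_, rfl⟩)
  have h2 : ContMDiffAt 𝓘(ℝ, E4) 𝓘(ℝ, E4) ∞ ppi v :=
    h1.contMDiffAt (Metric.ball_mem_nhds _ (rad_pos hv))
  have h3 := (hf (ppi v)).comp v h2
  rw [contMDiffAt_iff_contDiffAt] at h3
  exact h3.contDiffWithinAt

lemma contMDiff_of_comp_ppi {f : X → ℝ} (hf : ContDiffOn ℝ ∞ (fun v => f (ppi v)) D) :
    ContMDiff 𝓘(ℝ, E4) 𝓘(ℝ, ℝ) ∞ f := by
  have : IsManifold 𝓘(ℝ, E4) ∞ X := IsManifold.of_le (n := ω) le_top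
  intro x
  have hx : x ∈ (chart ⟨rep x, rep_mem x⟩).source := mem_chart_source E4 x
  have h1 : ContMDiffOn 𝓘(ℝ, E4) 𝓘(ℝ, E4) ∞ (chart ⟨rep x, rep_mem x⟩)
      (chart ⟨rep x, rep_mem x⟩).source :=
    contMDiffOn_of_mem_maximalAtlas (IsManifold.subset_maximalAtlas ⟨_, rfl⟩)
  have h2 := h1.contMDiffAt ((chart ⟨rep x, rep_mem x⟩).open_source.mem_nhds hx)
  have h3 : ContMDiffAt 𝓘(ℝ, E4) 𝓘(ℝ, ℝ) ∞ (fun v => f (ppi v)) ((chart ⟨rep x, rep_mem x⟩) x) := by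
    rw [contMDiffAt_iff_contDiffAt]
    apply hf.contDiffAt (isOpen_D.mem_nhds _)
    exact ball_subset_D (rep_mem x) ((chart ⟨rep x, rep_mem x⟩).map_source hx)
  have h4 := h3.comp x h2
  apply h4.congr_of_eventuallyEq
  filter_upwards [(chart ⟨rep x, rep_mem x⟩).open_source.mem_nhds hx] with y hy
  have := (chart ⟨rep x, rep_mem x⟩).left_inv hy
  simp only [Function.comp]
  rw [chart_symm_apply] at this
  rw [this]

end Pool.Agent.Helper289.Forms
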