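import Pool.Agent.Helper289.Forms

/-! The leafwise density of a 2-form, the forms `y⁻¹ dx` and `y⁻² dx ∧ dy`, and `dd^c`. -/

open Set Topology
open scoped Manifold ContDiff

attribute [-instance] TopCat.of.chartedSpace

noncomputable section

namespace Pool.Agent.Helper289.Forms

open Pool.Agent.Helper289.Base Pool.Agent.Helper289.Quot Pool.Agent.Helper289.LamDefs

/-- the leaf direction -/
def e1 : E4 := (1, 0, 0, 0)

lemma I_smul_e1 : Complex.I • e1 = (Complex.I, 0, 0, 0) := by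
  simp [e1]

lemma gz_thd_zero (n : ℤ) {p : E4} (h : p.2.2 = 0) : ((g ^ n) p).2.2 = 0 := by
  induction n using Int.induction_on with
  | zero => rwa [gz_zero]
  | succ i ih =>
    rw [gz_add_one, g_apply]
    simp only
    rw [Prod.ext_iff] at ih
    simp only [Prod.fst_zero, Prod.snd_zero] at ih
    rw [ih.1, ih.2]
    simp
  | pred i ih =>
    rw [gz_sub_one]
    rw [Prod.ext_iff] at ih
    simp only [Prod.fst_zero, Prod.snd_zero] at ih
    change ((((g ^ (-(i : ℤ))) p).2.2.2, 4 * ((g ^ (-(i : ℤ))) p).2.2.2 -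
      ((g ^ (-(i : ℤ))) p).2.2.1) : ℂ × ℂ) = 0
    rw [ih.1, ih.2]
    simp

lemma gz_e1 (n : ℤ) : (g ^ n) e1 = (((al ^ n : ℝ) : ℂ)) • e1 := by
  refine Prod.ext ?_ (Prod.ext ?_ ?_)
  · rw [gz_fst]; simp [e1]
  · rw [gz_snd]; simp [e1]
  · rw [gz_thd_zero n (p := e1) rfl]; simp [e1]; rfl

/-- the leafwise density of a 2-form (relative to `y⁻² dx ∧ dy`) -/
def Qf (φ : X → E4 [⋀^Fin 2]→L[ℝ] ℝ) (x : X) : ℝ :=
  (rep x).1.im ^ 2 * φ x ![e1, Complex.I • e1]

lemma form_smul_pair (φ : E4 [⋀^Fin 2]→L[ℝ] ℝ) (c : ℝ) (u w : E4) :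
    φ ![c • u, c • w] = c ^ 2 * φ ![u, w] := by
  have h := φ.map_smul_univ (fun _ => c) ![u, w]
  have h2 : (fun i => (fun _ : Fin 2 => c) i • (![u, w] : Fin 2 → E4) i) = ![c • u, c • w] := by
    funext i; fin_cases i <;> rfl
  rw [h2] at h
  rw [h]
  simp

lemma hat_apply_pair (φ : X → E4 [⋀^Fin 2]→L[ℝ] ℝ) {v l : E4} {n : ℤ} (hv : v ∈ D) (hl : l ∈ Lam)
    (h : rep (ppi v) = (g ^ n) v + l) (u w : E4) :
    hat φ v ![u, w] = φ (ppi v) ![(g ^ n) u, (g ^ n) w] := by
  rw [hat_eq φ hv hl h, ContinuousAlternatingMap.compContinuousLinearMap_apply]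
  congr 1
  funext i; fin_cases i <;> rfl

lemma Qf_ppi (φ : X → E4 [⋀^Fin 2]→L[ℝ] ℝ) {v : E4} (hv : v ∈ D) :
    Qf φ (ppi v) = v.1.im ^ 2 * hat φ v ![e1, Complex.I • e1] := by
  obtain ⟨n, l, hl, hr⟩ := exists_rep hv
  have him : (rep (ppi v)).1.im = al ^ n * v.1.im := by
    rw [hr, Prod.fst_add, Complex.add_im, gz_im, Lam_im hl, add_zero]
  have h1 : (g ^ n) e1 = (al ^ n : ℝ) • e1 := by
    rw [gz_e1, Complex.coe_smul]
  have h2 : (g ^ n) (Complex.I • e1) = (al ^ n : ℝ) • (Complex.I • e1) := by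
    rw [map_smul, h1, smul_comm]
  rw [Qf, him, hat_apply_pair φ hv hl hr, h1, h2, form_smul_pair]
  ring

lemma continuous_of_comp_ppi {Y : Type*} [TopologicalSpace Y] {h : X → Y}
    (hc : ContinuousOn (fun v => h (ppi v)) D) : Continuous h := by
  have hq : IsQuotientMap mkX := isQuotientMap_quotient_mk'
  rw [hq.continuous_iff]
  rw [continuousOn_iff_continuous_domRestrict] at hc
  convert hc using 1
  funext v
  simp only [Function.comp, Set.domRestrict, ppi_of_mem v.2]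

lemma continuous_Qf {φ : X → E4 [⋀^Fin 2]→L[ℝ] ℝ} (h : IsContForm φ) : Continuous (Qf φ) := by
  apply continuous_of_comp_ppi
  rw [isContForm_iff] at h
  have h1 : ContinuousOn (fun v : E4 => v.1.im ^ 2 * hat φ v ![e1, Complex.I • e1]) D := by
    apply ContinuousOn.mul
    · fun_prop
    · have : Continuous (fun ψ : E4 [⋀^Fin 2]→L[ℝ] ℝ => ψ ![e1, Complex.I • e1]) := by
        fun_prop
      exact this.comp_continuousOn h
  exact h1.congr (fun v hv => Qf_ppi φ hv)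

/-- the leafwise density as a linear map -/
def Q : ContForms E4 X →ₗ[ℝ] C(X, ℝ) where
  toFun φ := ⟨Qf φ.1, continuous_Qf φ.2⟩
  map_add' φ ψ := by
    ext x
    simp only [ContinuousMap.coe_mk, ContinuousMap.add_apply, Qf, Submodule.coe_add, Pi.add_apply,
      ContinuousAlternatingMap.add_apply]
    ring
  map_smul' c φ := by
    ext x
    simp only [ContinuousMap.coe_mk, ContinuousMap.smul_apply, Qf, Submodule.coe_smul, Pi.smul_apply,
      ContinuousAlternatingMap.smul_apply, RingHom.id_apply, smul_eq_mul]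
    ring

lemma Q_apply (φ : ContForms E4 X) (x : X) : Q φ x = Qf φ.1 x := rfl

/-- `Re w` -/
def reL : E4 →L[ℝ] ℝ := Complex.reCLM.comp (ContinuousLinearMap.fst ℝ ℂ (ℂ × ℂ × ℂ))
/-- `Im w` -/
def imL : E4 →L[ℝ] ℝ := Complex.imCLM.comp (ContinuousLinearMap.fst ℝ ℂ (ℂ × ℂ × ℂ))

lemma reL_apply (v : E4) : reL v = v.1.re := rfl
lemma imL_apply (v : E4) : imL v = v.1.im := rfl

/-- `dx ∧ dy` in the leaf direction -/
def area : E4 [⋀^Fin 2]→L[ℝ] ℝ :=
  ContinuousAlternatingMap.alternatizeUncurryFin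
    (reL.smulRight (ContinuousAlternatingMap.ofSubsingleton ℝ E4 ℝ (0 : Fin 1) imL))

lemma area_apply (m : Fin 2 → E4) :
    area m = (m 0).1.re * (m 1).1.im - (m 1).1.re * (m 0).1.im := by
  rw [area, ContinuousAlternatingMap.alternatizeUncurryFin_apply]
  rw [Fin.sum_univ_two]
  simp only [Fin.val_zero, pow_zero, one_smul, ContinuousLinearMap.smulRight_apply,
    ContinuousAlternatingMap.smul_apply, Fin.val_one, pow_one, smul_eq_mul, reL_apply]
  have ht : ∀ m : Fin 2 → E4, Fin.tail m 0 = m 1 := fun _ => rfl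
  simp [Fin.removeNth, imL_apply, ht]
  ring

/-- the invariant form `y⁻² dx ∧ dy` -/
def psi0 (v : E4) : E4 [⋀^Fin 2]→L[ℝ] ℝ := ((v.1.im ^ 2)⁻¹ : ℝ) • area

lemma inv_psi0 : Inv psi0 := by
  intro n v l hv hl
  ext m
  have hv' : 0 < v.1.im := hv
  have h1 : ((g ^ n) v + l).1.im = al ^ n * v.1.im := by
    rw [Prod.fst_add, Complex.add_im, gz_im, Lam_im hl, add_zero]
  have h2 : ∀ u : E4, (gR n u).1 = ((al ^ n : ℝ) : ℂ) * u.1 := by
    intro u
    rw [gR_apply, gz_fst]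
    push_cast
    rfl
  have h3 : al ^ n ≠ 0 := (zpow_pos al_pos n).ne'
  simp only [psi0, ContinuousAlternatingMap.compContinuousLinearMap_apply,
    ContinuousAlternatingMap.smul_apply, area_apply, Function.comp, h1, h2, Complex.re_ofReal_mul,
    Complex.im_ofReal_mul, smul_eq_mul]
  field_simp

/-- the form `y⁻² dx ∧ dy` on `X` -/
def omega0 : X → E4 [⋀^Fin 2]→L[ℝ] ℝ := desc psi0

lemma contDiffOn_psi0 : ContDiffOn ℝ ∞ psi0 D := by
  unfold psi0
  apply ContDiffOn.fun_smul _ contDiffOn_const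
  apply ContDiffOn.inv
  · exact (imL.contDiff.pow 2).contDiffOn
  · intro v hv
    have : 0 < v.1.im := hv
    positivity

lemma isSmooth_omega0 : IsSmoothForm omega0 := by
  rw [isSmoothForm_iff]
  exact contDiffOn_psi0.congr (fun v hv => hat_desc inv_psi0 hv)

/-- the form `y⁻¹ dx` -/
def chi0 (v : E4) : E4 [⋀^Fin 1]→L[ℝ] ℝ :=
  (v.1.im⁻¹ : ℝ) • ContinuousAlternatingMap.ofSubsingleton ℝ E4 ℝ (0 : Fin 1) reL

lemma inv_chi0 : Inv chi0 := by
  intro n v l hv hl
  ext m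
  have hv' : 0 < v.1.im := hv
  have h1 : ((g ^ n) v + l).1.im = al ^ n * v.1.im := by
    rw [Prod.fst_add, Complex.add_im, gz_im, Lam_im hl, add_zero]
  have h2 : ∀ u : E4, (gR n u).1 = ((al ^ n : ℝ) : ℂ) * u.1 := by
    intro u
    rw [gR_apply, gz_fst]
    push_cast
    rfl
  have h3 : al ^ n ≠ 0 := (zpow_pos al_pos n).ne'
  simp only [chi0, ContinuousAlternatingMap.compContinuousLinearMap_apply,
    ContinuousAlternatingMap.smul_apply, Function.comp, h1, smul_eq_mul,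
    ContinuousAlternatingMap.ofSubsingleton_apply_apply, reL_apply, h2, Complex.re_ofReal_mul]
  field_simp

lemma contDiffOn_chi0 : ContDiffOn ℝ ∞ chi0 D := by
  unfold chi0
  apply ContDiffOn.fun_smul _ contDiffOn_const
  apply ContDiffOn.inv
  · exact imL.contDiff.contDiffOn
  · intro v hv
    have : 0 < v.1.im := hv
    exact this.ne'

/-- the form `y⁻¹ dx` on `X` -/
def beta0 : X → E4 [⋀^Fin 1]→L[ℝ] ℝ := desc chi0

lemma isSmooth_beta0 : IsSmoothForm beta0 := by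
  rw [isSmoothForm_iff]
  exact contDiffOn_chi0.congr (fun v hv => hat_desc inv_chi0 hv)

lemma extDeriv_chi0 {v : E4} (hv : v ∈ D) : extDeriv chi0 v = psi0 v := by
  have hv' : 0 < v.1.im := hv
  have h1 : HasFDerivAt (fun u : E4 => (u.1.im)⁻¹) (-(v.1.im ^ 2)⁻¹ • imL) v := by
    have h2 : HasFDerivAt (fun u : E4 => imL u) imL v := imL.hasFDerivAt
    have h3 := (hasDerivAt_inv (x := imL v) (by rw [imL_apply]; exact hv'.ne')).comp_hasFDerivAt v h2
    exact h3
  have h2 : HasFDerivAt chi0 ((-(v.1.im ^ 2)⁻¹ • imL).smulRight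
      (ContinuousAlternatingMap.ofSubsingleton ℝ E4 ℝ (0 : Fin 1) reL)) v := by
    exact h1.smul_const (ContinuousAlternatingMap.ofSubsingleton ℝ E4 ℝ (0 : Fin 1) reL)
  rw [extDeriv, h2.fderiv]
  ext m
  rw [ContinuousAlternatingMap.alternatizeUncurryFin_apply, Fin.sum_univ_two, psi0,
    ContinuousAlternatingMap.smul_apply, area_apply]
  have ht : ∀ m : Fin (1 + 1) → E4, Fin.tail m 0 = m 1 := fun _ => rfl
  simp [Fin.removeNth, imL_apply, reL_apply, ht]
  ring

lemma isExtDeriv_beta0 : IsExtDeriv beta0 omega0 := by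
  rw [isExtDeriv_iff]
  intro v hv
  rw [omega0, hat_desc inv_psi0 hv, ← extDeriv_chi0 hv]
  apply Filter.EventuallyEq.extDeriv_eq
  filter_upwards [isOpen_D.mem_nhds hv] with u hu
  exact (hat_desc inv_chi0 hu).symm

end Pool.Agent.Helper289.Forms
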