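import Pool.Agent.Helper289.Forms2

/-! `dd^c` on `X`, and the currents attached to positive functionals. -/

open Set Topology
open scoped Manifold ContDiff

attribute [-instance] TopCat.of.chartedSpace

noncomputable section

namespace Pool.Agent.Helper289.Forms

open Pool.Agent.Helper289.Base Pool.Agent.Helper289.Quot Pool.Agent.Helper289.LamDefs

/-- leafwise flat Laplacian -/
def lap (F : E4 → ℝ) (v : E4) : ℝ :=
  fderiv ℝ (fun u => fderiv ℝ F u e1) v e1 +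
    fderiv ℝ (fun u => fderiv ℝ F u (Complex.I • e1)) v (Complex.I • e1)

/-- multiplication by `i` as a real linear map -/
def J : E4 →L[ℝ] E4 := Complex.I • ContinuousLinearMap.id ℝ E4

lemma J_apply (v : E4) : J v = Complex.I • v := rfl

/-- the `1`-form `-(1/2π) dF ∘ J` on `ℂ⁴` -/
def dcF (F : E4 → ℝ) (v : E4) : E4 [⋀^Fin 1]→L[ℝ] ℝ :=
  ContinuousAlternatingMap.ofSubsingleton ℝ E4 ℝ (0 : Fin 1)
    ((-(1 / (2 * Real.pi))) • (fderiv ℝ F v).comp J)

lemma dcF_apply (F : E4 → ℝ) (v : E4) (m : Fin 1 → E4) :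
    dcF F v m = -(1 / (2 * Real.pi)) * fderiv ℝ F v (Complex.I • m 0) := by
  simp [dcF, J_apply]

/-- the derivative of a function on `X`, as a linear form on `ℂ⁴` -/
def mf (f : X → ℝ) (x : X) : E4 →L[ℝ] ℝ := mfderiv 𝓘(ℝ, E4) 𝓘(ℝ, ℝ) f x

lemma fderiv_comp_ppi {f : X → ℝ} (hf : ContMDiff 𝓘(ℝ, E4) 𝓘(ℝ, ℝ) ∞ f) {v l : E4} {n : ℤ}
    (hv : v ∈ D) (hl : l ∈ Lam) (h : rep (ppi v) = (g ^ n) v + l) :
    fderiv ℝ (fun v => f (ppi v)) v = (mf f (ppi v)).comp (gR n) := by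
  have h1 : MDifferentiableAt 𝓘(ℝ, E4) 𝓘(ℝ, ℝ) f (ppi v) :=
    (hf (ppi v)).mdifferentiableAt (by simp)
  have h2 := h1.hasMFDerivAt.comp v (hasMFDerivAt_ppi_R hv hl h)
  have h3 : HasFDerivAt (fun v => f (ppi v)) ((mf f (ppi v)).comp (gR n)) v :=
    hasMFDerivAt_iff_hasFDerivAt.mp h2
  exact h3.fderiv

lemma dcForm_eq (f : X → ℝ) (x : X) : dcForm f x =
    ContinuousAlternatingMap.ofSubsingleton ℝ E4 ℝ (0 : Fin 1)
      ((-(1 / (2 * Real.pi))) • (mf f x).comp J) := rfl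

lemma hat_dcForm {f : X → ℝ} (hf : ContMDiff 𝓘(ℝ, E4) 𝓘(ℝ, ℝ) ∞ f) {v : E4} (hv : v ∈ D) :
    hat (dcForm f) v = dcF (fun v => f (ppi v)) v := by
  obtain ⟨n, l, hl, hr⟩ := exists_rep hv
  rw [hat_eq _ hv hl hr]
  ext m
  rw [dcF_apply, fderiv_comp_ppi hf hv hl hr]
  rw [ContinuousAlternatingMap.compContinuousLinearMap_apply, dcForm_eq]
  have h1 : gR n (Complex.I • m 0) = Complex.I • gR n (m 0) := by
    rw [gR_apply, map_smul, gR_apply]
  rw [ContinuousLinearMap.comp_apply, h1]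
  simp [J_apply]

lemma contDiffOn_dcF {F : E4 → ℝ} (hF : ContDiffOn ℝ ∞ F D) : ContDiffOn ℝ ∞ (dcF F) D := by
  have h1 : ContDiffOn ℝ ∞ (fderiv ℝ F) D := hF.fderiv_of_isOpen isOpen_D (by simp)
  have h2 : ContDiff ℝ ∞ (fun A : E4 →L[ℝ] ℝ =>
      ContinuousAlternatingMap.ofSubsingleton ℝ E4 ℝ (0 : Fin 1)
        ((-(1 / (2 * Real.pi))) • A.comp J)) := by
    have h3 : (fun A : E4 →L[ℝ] ℝ =>
      ContinuousAlternatingMap.ofSubsingleton ℝ E4 ℝ (0 : Fin 1)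
        ((-(1 / (2 * Real.pi))) • A.comp J)) =
        fun A => (ContinuousAlternatingMap.ofSubsingletonLIE (𝕜 := ℝ) (E := E4) (F := ℝ)
          (0 : Fin 1)).toContinuousLinearEquiv
          ((-(1 / (2 * Real.pi))) • (ContinuousLinearMap.compL ℝ E4 E4 ℝ).flip J A) := by
      funext A; rfl
    rw [h3]
    apply ContDiff.comp (ContinuousLinearEquiv.contDiff _)
    fun_prop
  exact h2.comp_contDiffOn h1

lemma contDiffOn_extDeriv {k : ℕ} {ψ : E4 → E4 [⋀^Fin k]→L[ℝ] ℝ} (h : ContDiffOn ℝ ∞ ψ D) :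
    ContDiffOn ℝ ∞ (extDeriv ψ) D := by
  have h1 : ContDiffOn ℝ ∞ (fderiv ℝ ψ) D := h.fderiv_of_isOpen isOpen_D (by simp)
  exact (ContinuousAlternatingMap.alternatizeUncurryFinCLM ℝ E4 ℝ).contDiff.comp_contDiffOn h1

lemma inv_extDeriv {k : ℕ} {ψ : E4 → E4 [⋀^Fin k]→L[ℝ] ℝ} (h : Inv ψ)
    (hs : ContDiffOn ℝ ∞ ψ D) : Inv (extDeriv ψ) := by
  intro n v l hv hl
  have hv' : (g ^ n) v + l ∈ D := add_mem_D (gz_mem_D n hv) hl
  have hA : ∀ u, HasFDerivAt (fun u : E4 => (g ^ n) u + l) (gR n) u := fun u =>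
    (gR n).hasFDerivAt.add_const l
  have hA' : ContDiff ℝ ∞ (fun u : E4 => (g ^ n) u + l) := by
    change ContDiff ℝ ∞ (fun u : E4 => gR n u + l)
    fun_prop
  have h1 : extDeriv (fun x => (ψ ((g ^ n) x + l)).compContinuousLinearMap
      (fderiv ℝ (fun u : E4 => (g ^ n) u + l) x)) v =
      (extDeriv ψ ((g ^ n) v + l)).compContinuousLinearMap
        (fderiv ℝ (fun u : E4 => (g ^ n) u + l) v) :=
    extDeriv_pullback (r := ∞)
    ((hs.contDiffAt (isOpen_D.mem_nhds hv')).differentiableAt (by simp)) hA'.contDiffAt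
    (by rw [minSmoothness_of_isRCLikeNormedField]; exact ENat.LEInfty.out)
  simp only [(hA _).fderiv] at h1
  rw [← h1]
  apply Filter.EventuallyEq.extDeriv_eq
  filter_upwards [isOpen_D.mem_nhds hv] with u hu
  exact h n u l hu hl

lemma inv_congr {k : ℕ} {ψ ψ' : E4 → E4 [⋀^Fin k]→L[ℝ] ℝ} (h : Inv ψ)
    (hc : ∀ v ∈ D, ψ v = ψ' v) : Inv ψ' := by
  intro n v l hv hl
  rw [← hc v hv, ← hc _ (add_mem_D (gz_mem_D n hv) hl)]
  exact h n v l hv hl

lemma extDeriv_dcF_pair {F : E4 → ℝ} (hF : ContDiffOn ℝ ∞ F D) {v : E4} (hv : v ∈ D) :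
    extDeriv (dcF F) v ![e1, Complex.I • e1] = (1 / (2 * Real.pi)) * lap F v := by
  have hd : DifferentiableAt ℝ (dcF F) v :=
    ((contDiffOn_dcF hF).contDiffAt (isOpen_D.mem_nhds hv)).differentiableAt (by simp)
  rw [extDeriv_apply hd, Fin.sum_univ_two]
  have h0 : (fun u => dcF F u ((0 : Fin 2).removeNth ![e1, Complex.I • e1])) =
      fun u => (1 / (2 * Real.pi)) * fderiv ℝ F u e1 := by
    funext u
    rw [dcF_apply]
    have : Complex.I • ((0 : Fin 2).removeNth ![e1, Complex.I • e1]) 0 = -e1 := by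
      change Complex.I • (Complex.I • e1) = -e1
      rw [smul_smul, Complex.I_mul_I, neg_one_smul]
    rw [this, map_neg]
    ring
  have h1 : (fun u => dcF F u ((1 : Fin 2).removeNth ![e1, Complex.I • e1])) =
      fun u => (-(1 / (2 * Real.pi))) * fderiv ℝ F u (Complex.I • e1) := by
    funext u
    rw [dcF_apply]
    rfl
  rw [h0, h1]
  have hF' : ContDiffOn ℝ ∞ (fderiv ℝ F) D := hF.fderiv_of_isOpen isOpen_D (by simp)
  have hdF : ∀ w : E4, DifferentiableAt ℝ (fun u => fderiv ℝ F u w) v := by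
    intro w
    have : DifferentiableAt ℝ (fderiv ℝ F) v :=
      (hF'.contDiffAt (isOpen_D.mem_nhds hv)).differentiableAt (by simp)
    fun_prop
  rw [fderiv_const_mul (hdF _), fderiv_const_mul (hdF _)]
  have hs : ∀ (c : ℝ) (A : E4 →L[ℝ] ℝ) (u : E4), (c • A) u = c * A u := fun _ _ _ => rfl
  simp only [Matrix.cons_val_zero, Matrix.cons_val_one, Fin.val_zero, pow_zero, one_smul,
    Fin.val_one, pow_one, hs, lap]
  ring

/-- existence of `dd^c f` and its leafwise density -/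
lemma exists_ddc {f : X → ℝ} (hf : ContMDiff 𝓘(ℝ, E4) 𝓘(ℝ, ℝ) ∞ f) :
    ∃ φ : ContForms E4 X, IsExtDeriv (dcForm f) φ.1 := by
  have hF := contDiffOn_comp_ppi hf
  have h1 : Inv (dcF (fun v => f (ppi v))) :=
    inv_congr (inv_hat (dcForm f)) (fun v hv => hat_dcForm hf hv)
  have h2 := inv_extDeriv h1 (contDiffOn_dcF hF)
  have h3 := contDiffOn_extDeriv (contDiffOn_dcF hF)
  refine ⟨⟨desc (extDeriv (dcF (fun v => f (ppi v)))), ?_⟩, ?_⟩
  · change IsContForm _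
    rw [isContForm_iff]
    exact (h3.continuousOn).congr (fun v hv => hat_desc h2 hv)
  · rw [isExtDeriv_iff]
    intro v hv
    rw [hat_desc h2 hv]
    apply Filter.EventuallyEq.extDeriv_eq
    filter_upwards [isOpen_D.mem_nhds hv] with u hu
    exact (hat_dcForm hf hu).symm

lemma Q_ddc {f : X → ℝ} (hf : ContMDiff 𝓘(ℝ, E4) 𝓘(ℝ, ℝ) ∞ f) {φ : ContForms E4 X}
    (hφ : IsExtDeriv (dcForm f) φ.1) {v : E4} (hv : v ∈ D) :
    Q φ (ppi v) = (1 / (2 * Real.pi)) * (v.1.im ^ 2 * lap (fun v => f (ppi v)) v) := by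
  rw [Q_apply, Qf_ppi _ hv, isExtDeriv_iff.mp hφ v hv]
  have : extDeriv (hat (dcForm f)) v = extDeriv (dcF (fun v => f (ppi v))) v := by
    apply Filter.EventuallyEq.extDeriv_eq
    filter_upwards [isOpen_D.mem_nhds hv] with u hu
    exact hat_dcForm hf hu
  rw [this, extDeriv_dcF_pair (contDiffOn_comp_ppi hf) hv]
  ring

end Pool.Agent.Helper289.Forms
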