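import Pool.Agent.Helper289.HardyCom

/-! Fixed points of disc automorphisms and the associated multipliers. -/

namespace Pool.Agent.Helper289.Hardy

open Metric Complex Set MeasureTheory Filter Topology
open scoped Real ComplexConjugate InnerProductSpace

variable {a b : ℂ}

theorem su_re (h : SU a b) : a.re ^ 2 + a.im ^ 2 = 1 + (b.re ^ 2 + b.im ^ 2) := by
  unfold SU at h
  rw [normSq_apply, normSq_apply] at h
  nlinarith

/-- The half plane coordinate `(ζ + z) / (ζ - z)`. -/
noncomputable def L0 (ζ z : ℂ) : ℂ := (ζ + z) / (ζ - z)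

theorem zeta_sub_ne {ζ z : ℂ} (hζ : ‖ζ‖ = 1) (hz : z ∈ U) : ζ - z ≠ 0 := by
  intro h
  rw [sub_eq_zero] at h
  have := mem_U_iff.1 hz
  rw [← h, hζ] at this
  exact lt_irrefl _ this

theorem L0_re {ζ z : ℂ} (hζ : ‖ζ‖ = 1) :
    (L0 ζ z).re = (1 - ‖z‖ ^ 2) / ‖ζ - z‖ ^ 2 := by
  have h1 : normSq ζ = 1 := by rw [normSq_eq_norm_sq, hζ]; norm_num
  rw [L0, div_re, ← normSq_eq_norm_sq, ← normSq_eq_norm_sq, ← add_div]
  congr 1
  rw [← h1]
  simp only [normSq_apply, add_re, add_im, sub_re, sub_im]
  ring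

theorem L0_re_pos {ζ z : ℂ} (hζ : ‖ζ‖ = 1) (hz : z ∈ U) : 0 < (L0 ζ z).re := by
  rw [L0_re hζ]
  have := norm_pos_iff.2 (zeta_sub_ne hζ hz)
  have := one_sub_pos hz
  positivity

theorem L0_diff {ζ : ℂ} (hζ : ‖ζ‖ = 1) : DifferentiableOn ℂ (L0 ζ) U := by
  unfold L0
  exact (by fun_prop : DifferentiableOn ℂ (fun z => ζ + z) U).div (by fun_prop)
    fun _ hz => zeta_sub_ne hζ hz

/-- Fixed point dichotomy. -/
theorem dichotomy (h : SU a b) :
    (∃ p ∈ U, mob a b p = p) ∨
    (∃ ζ : ℂ, ∃ κ τ : ℝ, ‖ζ‖ = 1 ∧ 0 < κ ∧ (κ = 1 → τ ≠ 0) ∧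
      ∀ z ∈ U, L0 ζ (mob a b z) = κ * L0 ζ z + τ * I) := by
  have hsu := su_re h
  by_cases hb : b = 0
  · left
    refine ⟨0, zero_mem_U, ?_⟩
    simp [mob, num, hb]
  have hb2 : 0 < b.re ^ 2 + b.im ^ 2 := by
    have := normSq_pos.2 hb
    rw [normSq_apply] at this
    nlinarith
  have hcb : conj b ≠ 0 := (map_ne_zero _).2 hb
  have hbb : b * conj b = ((b.re ^ 2 + b.im ^ 2 : ℝ) : ℂ) := by
    rw [mul_conj, normSq_apply]; congr 1; ring
  by_cases hx : a.re ^ 2 < 1
  · left
    set c : ℝ := √(1 - a.re ^ 2) with hc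
    have hc2 : c ^ 2 = 1 - a.re ^ 2 := Real.sq_sqrt (by linarith)
    have hc0 : 0 < c := Real.sqrt_pos.2 (by linarith)
    have hy2 : a.im ^ 2 - c ^ 2 = b.re ^ 2 + b.im ^ 2 := by rw [hc2]; linarith
    -- choose the root of smaller modulus
    obtain ⟨q, hq1, hq2⟩ : ∃ q : ℝ, -q ^ 2 + 2 * a.im * q = b.re ^ 2 + b.im ^ 2 ∧
        q ^ 2 < b.re ^ 2 + b.im ^ 2 := by
      rcases le_total 0 a.im with hy | hy
      · have hyc : c < a.im := by nlinarith
        exact ⟨a.im - c, by nlinarith, by nlinarith⟩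
      · have hyc : a.im < -c := by nlinarith
        exact ⟨a.im + c, by nlinarith, by nlinarith⟩
    set p : ℂ := I * q / conj b with hp
    have hpU : p ∈ U := by
      rw [mem_U_iff, hp, norm_div, norm_mul, norm_I, one_mul, RCLike.norm_conj,
        div_lt_one (norm_pos_iff.2 hb), Complex.norm_real]
      have h3 : ‖b‖ ^ 2 = b.re ^ 2 + b.im ^ 2 := by
        rw [← normSq_eq_norm_sq, normSq_apply]; ring
      have h4 : ‖q‖ ^ 2 < ‖b‖ ^ 2 := by rw [h3, Real.norm_eq_abs, sq_abs]; exact hq2
      exact (sq_lt_sq₀ (norm_nonneg _) (norm_nonneg _)).1 h4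
    refine ⟨p, hpU, ?_⟩
    rw [mob, div_eq_iff (den_ne h hpU), num, den]
    have e1 : conj b * p = I * q := by rw [hp]; field_simp
    have e2 : conj a = a - 2 * a.im * I := by
      apply Complex.ext <;> simp
      ring
    have e3 : conj b * (a * p + b) = conj b * (p * (conj b * p + conj a)) := by
      have hq1' : (-(q : ℂ) ^ 2 + 2 * a.im * q) = b * conj b := by
        rw [hbb, ← hq1]; push_cast; ring
      calc conj b * (a * p + b) = a * (conj b * p) + b * conj b := by ring
        _ = a * (I * q) + (-(q : ℂ) ^ 2 + 2 * a.im * q) := by rw [e1, hq1']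
        _ = (I * q) * (I * q + (a - 2 * a.im * I)) := by
            have hI : I * I = -1 := I_mul_I
            linear_combination (-(q : ℂ) ^ 2 + 2 * a.im * q) * hI
        _ = (conj b * p) * (conj b * p + conj a) := by rw [e1, e2]
        _ = _ := by ring
    exact mul_left_cancel₀ hcb e3
  · right
    push Not at hx
    set s : ℝ := √(a.re ^ 2 - 1) with hs
    have hs2 : s ^ 2 = a.re ^ 2 - 1 := Real.sq_sqrt (by linarith)
    have hs0 : 0 ≤ s := Real.sqrt_nonneg _
    set ζ : ℂ := (I * a.im + s) / conj b with hζ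
    have e1 : conj b * ζ = I * a.im + s := by rw [hζ]; field_simp
    have hζ1 : ‖ζ‖ = 1 := by
      have h3 : ‖b‖ ^ 2 = b.re ^ 2 + b.im ^ 2 := by
        rw [← normSq_eq_norm_sq, normSq_apply]; ring
      have h4 : ‖(I * a.im + s : ℂ)‖ ^ 2 = ‖b‖ ^ 2 := by
        rw [← normSq_eq_norm_sq, normSq_apply, h3]
        simp only [add_re, mul_re, I_re, ofReal_re, I_im, ofReal_im, add_im, mul_im]
        nlinarith
      have h5 : ‖(I * a.im + s : ℂ)‖ = ‖b‖ := (sq_eq_sq₀ (norm_nonneg _) (norm_nonneg _)).1 h4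
      rw [hζ, norm_div, RCLike.norm_conj, h5, div_self (norm_ne_zero_iff.2 hb)]
    have hζc : ζ * conj ζ = 1 := by
      rw [mul_conj, normSq_eq_norm_sq, hζ1]; norm_num
    have e2 : b * conj ζ = -(I * a.im) + s := by
      have := congrArg conj e1
      simp only [map_mul, conj_conj, map_add, conj_I, conj_ofReal] at this
      rw [this]; ring
    have hD : (a.re + s) * (a.re - s) = 1 := by nlinarith
    have hm : a.re - s ≠ 0 := by
      intro h0; rw [h0, mul_zero] at hD; norm_num at hD
    have hpne : a.re + s ≠ 0 := by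
      intro h0; rw [h0, zero_mul] at hD; norm_num at hD
    have hacr : a = a.re + a.im * I := (re_add_im a).symm
    have haconj : conj a = a.re - a.im * I := by
      apply Complex.ext <;> simp
    have hbz : b = ζ * (-(I * a.im) + s) := by
      rw [← e2]
      calc b = b * (ζ * conj ζ) := by rw [hζc, mul_one]
        _ = _ := by ring
    refine ⟨ζ, (a.re + s) ^ 2, -2 * a.im * (a.re + s), hζ1, by positivity, ?_, fun z hz => ?_⟩
    · intro hκ
      have hs' : s = 0 := by
        have h1 : (a.re + s) * (a.re + s) = (a.re + s) * (a.re - s) := by nlinarith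
        have := mul_left_cancel₀ hpne h1
        linarith
      have hx1 : a.re ^ 2 = 1 := by rw [hs'] at hs2; linarith
      have hy : a.im ≠ 0 := by
        intro h0; rw [h0] at hsu; nlinarith
      have : a.re + s ≠ 0 := hpne
      simp [hy, this]
    · have hden := den_ne h hz
      have hzn := zeta_sub_ne hζ1 hz
      have hzm := zeta_sub_ne hζ1 (mob_mem h hz)
      have n1 : ζ * den a b z - num a b z = (a.re - s) * (ζ - z) := by
        rw [den, num]
        have : ζ * (conj b * z + conj a) - (a * z + b) =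
          z * (conj b * ζ) - a * z + conj a * ζ - b := by ring
        rw [this, e1]
        conv_lhs => rw [hbz]
        rw [haconj]
        conv_lhs => rw [hacr]
        simp only [add_re, ofReal_re, mul_re, I_re, mul_zero, ofReal_im, I_im, mul_one, sub_self,
          add_zero, add_im, mul_im, zero_add]
        ring
      have n2 : ζ * den a b z + num a b z = (a.re + s) * (ζ + z) - 2 * I * a.im * (ζ - z) := by
        rw [den, num]
        have : ζ * (conj b * z + conj a) + (a * z + b) =
          z * (conj b * ζ) + a * z + conj a * ζ + b := by ring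
        rw [this, e1]
        conv_lhs => rw [hbz]
        rw [haconj]
        conv_lhs => rw [hacr]
        simp only [add_re, ofReal_re, mul_re, I_re, mul_zero, ofReal_im, I_im, mul_one, sub_self,
          add_zero, add_im, mul_im, zero_add]
        ring
      have hmC : ((a.re : ℂ) - s) ≠ 0 := by exact_mod_cast hm
      have hDC : ((a.re : ℂ) + s) * ((a.re : ℂ) - s) = 1 := by exact_mod_cast hD
      have e3 : L0 ζ (mob a b z) =
          (ζ * den a b z + num a b z) / (ζ * den a b z - num a b z) := by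
        rw [L0, mob]
        have : ζ - num a b z / den a b z ≠ 0 := hzm
        have h6 : ζ * den a b z - num a b z ≠ 0 := by
          rw [n1]; exact mul_ne_zero hmC hzn
        field_simp
      rw [e3, n1, n2, L0]
      push_cast
      rw [div_eq_iff (mul_ne_zero hmC hzn)]
      have e4 : (((a.re : ℂ) + s) ^ 2 * ((ζ + z) / (ζ - z)) + -2 * a.im * (a.re + s) * I) *
          ((a.re - s) * (ζ - z)) = (((a.re : ℂ) + s) * (a.re - s)) * ((a.re + s) *
          ((ζ + z) / (ζ - z) * (ζ - z)) - 2 * I * a.im * (ζ - z)) := by ring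
      rw [e4, hDC, div_mul_cancel₀ _ hzn, one_mul]

end Pool.Agent.Helper289.Hardy
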