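import Mathlib

/-! The vector space of the Hardy space `H²` of the unit disc. -/

namespace Pool.Agent.Helper289.Hardy

open Metric Complex Set MeasureTheory Filter Topology
open scoped Real

/-- The open unit disc `U = {z : |z| < 1}`. -/
abbrev U : Set ℂ := ball (0 : ℂ) 1

/-- The integral mean `(1/2π) ∫_0^{2π} |f(r e^{it})|² dt`. -/
noncomputable def mean2 (f : ℂ → ℂ) (r : ℝ) : ℝ :=
  (2 * π)⁻¹ * ∫ t in (0 : ℝ)..(2 * π), ‖f (r * exp (t * I))‖ ^ 2

theorem mem_U_iff {z : ℂ} : z ∈ U ↔ ‖z‖ < 1 := by simp [U]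

theorem norm_pt (r t : ℝ) (hr : 0 ≤ r) : ‖(r : ℂ) * exp (t * I)‖ = r := by
  rw [norm_mul, Complex.norm_exp_ofReal_mul_I, Complex.norm_real, Real.norm_of_nonneg hr, mul_one]

theorem pt_mem {r : ℝ} (hr : r ∈ Ioo (0 : ℝ) 1) (t : ℝ) : (r : ℂ) * exp (t * I) ∈ U := by
  rw [mem_U_iff, norm_pt r t hr.1.le]; exact hr.2

theorem continuous_slice {f : ℂ → ℂ} (hf : ContinuousOn f U) {r : ℝ} (hr : r ∈ Ioo (0 : ℝ) 1) :
    Continuous fun t : ℝ => f (r * exp (t * I)) := by
  refine hf.comp_continuous (by fun_prop) (fun t => pt_mem hr t)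

theorem integrable_slice {f : ℂ → ℂ} (hf : ContinuousOn f U) {r : ℝ} (hr : r ∈ Ioo (0 : ℝ) 1) :
    IntervalIntegrable (fun t : ℝ => ‖f (r * exp (t * I))‖ ^ 2) volume 0 (2 * π) :=
  ((continuous_slice hf hr).norm.pow 2).intervalIntegrable _ _

theorem mean2_nonneg (f : ℂ → ℂ) (r : ℝ) : 0 ≤ mean2 f r := by
  unfold mean2
  refine mul_nonneg (by positivity) ?_
  exact intervalIntegral.integral_nonneg (by positivity) (fun t _ => by positivity)

/-- Monotonicity of the integral means. -/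
theorem mean2_mono {f g : ℂ → ℂ} (hf : ContinuousOn f U) (hg : ContinuousOn g U) {K : ℝ}
    (h : ∀ z ∈ U, ‖f z‖ ^ 2 ≤ K * ‖g z‖ ^ 2) {r : ℝ} (hr : r ∈ Ioo (0 : ℝ) 1) :
    mean2 f r ≤ K * mean2 g r := by
  unfold mean2
  have e : K * ((2 * π)⁻¹ * ∫ t in (0 : ℝ)..(2 * π), ‖g (r * exp (t * I))‖ ^ 2) =
      (2 * π)⁻¹ * ∫ t in (0 : ℝ)..(2 * π), K * ‖g (r * exp (t * I))‖ ^ 2 := by
    rw [intervalIntegral.integral_const_mul (μ := volume)]; ring
  rw [e]
  have hpi : (0 : ℝ) ≤ (2 * π)⁻¹ := by positivity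
  refine mul_le_mul_of_nonneg_left ?_ hpi
  refine intervalIntegral.integral_mono_on (by positivity) (integrable_slice hf hr)
    ((integrable_slice hg hr).const_mul K) (fun t _ => h _ (pt_mem hr t))

theorem mean2_add_le {f g : ℂ → ℂ} (hf : ContinuousOn f U) (hg : ContinuousOn g U)
    {r : ℝ} (hr : r ∈ Ioo (0 : ℝ) 1) :
    mean2 (f + g) r ≤ 2 * mean2 f r + 2 * mean2 g r := by
  unfold mean2
  have e : 2 * ((2 * π)⁻¹ * ∫ t in (0 : ℝ)..(2 * π), ‖f (r * exp (t * I))‖ ^ 2) +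
      2 * ((2 * π)⁻¹ * ∫ t in (0 : ℝ)..(2 * π), ‖g (r * exp (t * I))‖ ^ 2) =
      (2 * π)⁻¹ * ∫ t in (0 : ℝ)..(2 * π), (2 * ‖f (r * exp (t * I))‖ ^ 2 +
        2 * ‖g (r * exp (t * I))‖ ^ 2) := by
    rw [intervalIntegral.integral_add ((integrable_slice hf hr).const_mul 2)
      ((integrable_slice hg hr).const_mul 2), intervalIntegral.integral_const_mul (μ := volume),
      intervalIntegral.integral_const_mul (μ := volume)]; ring
  rw [e]
  have hpi : (0 : ℝ) ≤ (2 * π)⁻¹ := by positivity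
  refine mul_le_mul_of_nonneg_left ?_ hpi
  refine intervalIntegral.integral_mono_on (by positivity) (integrable_slice (hf.add hg) hr)
    (((integrable_slice hf hr).const_mul 2).add ((integrable_slice hg hr).const_mul 2))
    (fun t _ => ?_)
  simp only [Pi.add_apply]
  have h := norm_add_le (f (r * exp (t * I))) (g (r * exp (t * I)))
  nlinarith [norm_nonneg (f (r * exp (t * I)) + g (r * exp (t * I))),
    norm_nonneg (f (r * exp (t * I))), norm_nonneg (g (r * exp (t * I))),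
    sq_nonneg (‖f (r * exp (t * I))‖ - ‖g (r * exp (t * I))‖)]

theorem mean2_smul (c : ℂ) (f : ℂ → ℂ) (r : ℝ) : mean2 (c • f) r = ‖c‖ ^ 2 * mean2 f r := by
  unfold mean2
  simp only [Pi.smul_apply, smul_eq_mul, norm_mul, mul_pow]
  rw [intervalIntegral.integral_const_mul]
  ring

/-- The vector space underlying the Hardy space: the functions which are analytic on `U` with
bounded integral means (a function on `U` is represented by its extension by `0`). -/
def hardy : Submodule ℂ (ℂ → ℂ) where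
  carrier := {f | DifferentiableOn ℂ f U ∧ (∀ z, z ∉ U → f z = 0) ∧
    ∃ C : ℝ, ∀ r ∈ Ioo (0 : ℝ) 1, mean2 f r ≤ C}
  add_mem' := by
    rintro f g ⟨hf, hf0, C, hC⟩ ⟨hg, hg0, D, hD⟩
    refine ⟨hf.add hg, fun z hz => by simp [hf0 z hz, hg0 z hz], 2 * C + 2 * D, fun r hr => ?_⟩
    have := mean2_add_le hf.continuousOn hg.continuousOn hr
    have h1 := hC r hr
    have h2 := hD r hr
    linarith
  zero_mem' := by
    refine ⟨differentiableOn_const 0, fun z _ => rfl, 0, fun r _ => ?_⟩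
    simp [mean2]
  smul_mem' := by
    rintro c f ⟨hf, hf0, C, hC⟩
    refine ⟨hf.const_smul c, fun z hz => by simp [hf0 z hz], ‖c‖ ^ 2 * C, fun r hr => ?_⟩
    rw [mean2_smul]
    exact mul_le_mul_of_nonneg_left (hC r hr) (by positivity)

end Pool.Agent.Helper289.Hardy
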