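import Pool.Agent.Helper289.HardyMob

/-! Idempotents commuting with families of multipliers. -/

namespace Pool.Agent.Helper289.Hardy

open Metric Complex Set MeasureTheory Filter Topology
open scoped Real ComplexConjugate InnerProductSpace

/-- `P` commutes with multiplication by `g`. -/
def Com (P : H2 →L[ℂ] H2) (g : ℂ → ℂ) : Prop := ∃ hg : BA g, P * mul g hg = mul g hg * P

variable {P : H2 →L[ℂ] H2}

theorem Com.ba {g : ℂ → ℂ} (h : Com P g) : BA g := h.1

theorem Com.const (c : ℂ) : Com P (fun _ => c) := by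
  refine ⟨BA.const c, ?_⟩
  have : mul (fun _ => c) (BA.const c) = c • (1 : H2 →L[ℂ] H2) := clm_ext fun f z _ => rfl
  rw [this, mul_smul_comm, smul_mul_assoc, mul_one, one_mul]

theorem Com.mul {g h : ℂ → ℂ} (hg : Com P g) (hh : Com P h) : Com P (fun z => g z * h z) := by
  obtain ⟨a, ha⟩ := hg
  obtain ⟨b, hb⟩ := hh
  refine ⟨a.mul b, ?_⟩
  rw [← mul_mul_eq a b, ← mul_assoc, ha, mul_assoc, hb, mul_assoc]

theorem Com.add {g h : ℂ → ℂ} (hg : Com P g) (hh : Com P h) : Com P (fun z => g z + h z) := by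
  obtain ⟨a, ha⟩ := hg
  obtain ⟨b, hb⟩ := hh
  refine ⟨a.add b, ?_⟩
  have : Hardy.mul (fun z => g z + h z) (a.add b) = Hardy.mul g a + Hardy.mul h b :=
    clm_ext fun f z _ => by
      change (g z + h z) * f z = g z * f z + h z * f z
      ring
  rw [this, mul_add, ha, hb, add_mul]

theorem Com.congr {g h : ℂ → ℂ} (hg : Com P g) (e : ∀ z ∈ U, h z = g z) : Com P h := by
  obtain ⟨a, ha⟩ := hg
  have hb : BA h := ⟨a.1.congr e, by
    obtain ⟨C, hC⟩ := a.2
    exact ⟨C, fun z hz => by rw [e z hz]; exact hC z hz⟩⟩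
  refine ⟨hb, ?_⟩
  have : Hardy.mul h hb = Hardy.mul g a := clm_ext fun f z hz => by
    change h z * f z = g z * f z
    rw [e z hz]
  rw [this, ha]

theorem Com.inv {g : ℂ → ℂ} (hg : Com P g) {c : ℝ} (hc : 0 < c) (h : ∀ z ∈ U, c ≤ ‖g z‖) :
    Com P (fun z => (g z)⁻¹) := by
  obtain ⟨a, ha⟩ := hg
  have h0 : ∀ z ∈ U, g z ≠ 0 := fun z hz h' => by
    have := h z hz
    rw [h', norm_zero] at this
    linarith
  have hb := BA.inv a.1 hc h
  refine ⟨hb, ?_⟩
  set M := Hardy.mul g a with hM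
  set N := Hardy.mul _ hb with hN
  have h1 : M * N = 1 := clm_ext fun f z hz => by
    change g z * ((g z)⁻¹ * f z) = f z
    rw [mul_inv_cancel_left₀ (h0 z hz)]
  have h2 : N * M = 1 := clm_ext fun f z hz => by
    change (g z)⁻¹ * (g z * f z) = f z
    rw [inv_mul_cancel_left₀ (h0 z hz)]
  calc P * N = N * M * P * N := by rw [h2, one_mul]
    _ = N * (P * M) * N := by rw [mul_assoc N M P, ha]
    _ = N * P := by rw [mul_assoc, mul_assoc P M N, h1, mul_one]

/-- kernels span a dense subspace -/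
theorem ker_dense (u : H2) {ε : ℝ} (hε : 0 < ε) :
    ∃ v ∈ Submodule.span ℂ (ker '' U), ‖u - v‖ < ε := by
  set K := Submodule.span ℂ (ker '' U) with hK
  have h1 : Kᗮ = ⊥ := by
    rw [Submodule.eq_bot_iff]
    intro f hf
    refine H2.ext fun z hz => ?_
    rw [H2.zero_apply, ← inner_ker hz]
    exact hf (ker z) (Submodule.subset_span ⟨z, hz, rfl⟩)
  have h2 : K.topologicalClosure = ⊤ := by
    rw [Submodule.topologicalClosure_eq_top_iff]; exact h1
  have h3 : u ∈ closure (K : Set H2) := by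
    rw [← Submodule.topologicalClosure_coe, h2]; trivial
  obtain ⟨v, hv, hd⟩ := Metric.mem_closure_iff.1 h3 ε hε
  exact ⟨v, hv, by rwa [dist_eq_norm] at hd⟩

/-- bounded pointwise convergence implies weak convergence -/
theorem weak_lim {F : ℕ → H2} {G : H2} {K : ℝ} (hK : ∀ n, ‖F n‖ ≤ K)
    (h : ∀ z ∈ U, Tendsto (fun n => F n z) atTop (𝓝 (G z))) (u : H2) :
    Tendsto (fun n => ⟪u, F n⟫_ℂ) atTop (𝓝 ⟪u, G⟫_ℂ) := by
  have hspan : ∀ v ∈ Submodule.span ℂ (ker '' U),
      Tendsto (fun n => ⟪v, F n⟫_ℂ) atTop (𝓝 ⟪v, G⟫_ℂ) := by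
    intro v hv
    induction hv using Submodule.span_induction with
    | mem x hx =>
      obtain ⟨z, hz, rfl⟩ := hx
      simp only [inner_ker hz]
      exact h z hz
    | zero => simp
    | add x y _ _ hx hy =>
      simp only [inner_add_left]
      exact hx.add hy
    | smul c x _ hx =>
      simp only [inner_smul_left]
      exact hx.const_mul _
  have hK0 : 0 ≤ K := (norm_nonneg _).trans (hK 0)
  rw [Metric.tendsto_atTop]
  intro ε hε
  set δ : ℝ := ε / (2 * (K + ‖G‖ + 1)) with hδ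
  have hpos : 0 < K + ‖G‖ + 1 := by have := norm_nonneg G; linarith
  have hδ0 : 0 < δ := by positivity
  obtain ⟨v, hv, hd⟩ := ker_dense u hδ0
  obtain ⟨N, hN⟩ := Metric.tendsto_atTop.1 (hspan v hv) (ε / 2) (by positivity)
  refine ⟨N, fun n hn => ?_⟩
  have h1 := hN n hn
  rw [dist_eq_norm] at h1 ⊢
  have e : ⟪u, F n⟫_ℂ - ⟪u, G⟫_ℂ = (⟪v, F n⟫_ℂ - ⟪v, G⟫_ℂ) + ⟪u - v, F n - G⟫_ℂ := by
    simp only [inner_sub_left, inner_sub_right]; ring
  rw [e]
  have h2 : ‖⟪u - v, F n - G⟫_ℂ‖ ≤ δ * (K + ‖G‖) := by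
    refine (norm_inner_le_norm _ _).trans ?_
    refine mul_le_mul hd.le ?_ (norm_nonneg _) hδ0.le
    exact (norm_sub_le _ _).trans (by linarith [hK n])
  have h3 : δ * (K + ‖G‖) < ε / 2 := by
    have e1 : δ * (K + ‖G‖ + 1) = ε / 2 := by rw [hδ]; field_simp
    nlinarith
  calc _ ≤ ‖⟪v, F n⟫_ℂ - ⟪v, G⟫_ℂ‖ + ‖⟪u - v, F n - G⟫_ℂ‖ := norm_add_le _ _
    _ < ε / 2 + ε / 2 := by linarith
    _ = ε := by ring

theorem weak_lim' {F : ℕ → H2} {G : H2} {K : ℝ} (hK : ∀ n, ‖F n‖ ≤ K)
    (h : ∀ z ∈ U, Tendsto (fun n => F n z) atTop (𝓝 (G z))) (Λ : H2 →L[ℂ] ℂ) :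
    Tendsto (fun n => Λ (F n)) atTop (𝓝 (Λ G)) := by
  have := weak_lim hK h ((InnerProductSpace.toDual ℂ H2).symm Λ)
  simpa only [InnerProductSpace.toDual_symm_apply] using this

theorem Com.lim {G : ℕ → ℂ → ℂ} {g : ℂ → ℂ} (hG : ∀ n, Com P (G n)) (hg : BA g) {C : ℝ}
    (hC : ∀ n, ∀ z ∈ U, ‖G n z‖ ≤ C) (h : ∀ z ∈ U, Tendsto (fun n => G n z) atTop (𝓝 (g z))) :
    Com P g := by
  refine ⟨hg, clm_ext fun f z hz => ?_⟩
  have hC0 : 0 ≤ C := (norm_nonneg _).trans (hC 0 0 (by simp [U]))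
  choose a ha using hG
  have h1 : Tendsto (fun n => (ev z ∘L P) (Hardy.mul (G n) (a n) f)) atTop
      (𝓝 ((ev z ∘L P) (Hardy.mul g hg f))) := by
    refine weak_lim' (K := C * ‖f‖) (fun n => ?_) (fun w hw => ?_) _
    · exact (ContinuousLinearMap.le_opNorm _ _).trans
        (mul_le_mul_of_nonneg_right (mul_norm_le (a n) hC0 (hC n)) (norm_nonneg _))
    · exact (h w hw).mul_const _
  have h2 : Tendsto (fun n => G n z * P f z) atTop (𝓝 (g z * P f z)) := (h z hz).mul_const _
  have e : ∀ n, (ev z ∘L P) (Hardy.mul (G n) (a n) f) = G n z * P f z := fun n => by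
    have := congrArg (fun T : H2 →L[ℂ] H2 => T f z) (ha n)
    change P (Hardy.mul (G n) (a n) f) z = G n z * P f z at this
    rw [← this]
    exact ev_apply hz _
  simp only [e] at h1
  have h3 := tendsto_nhds_unique h1 h2
  rw [ContinuousLinearMap.comp_apply, ev_apply hz] at h3
  exact h3

theorem Com.pow {g : ℂ → ℂ} (hg : Com P g) (n : ℕ) : Com P (fun z => g z ^ n) := by
  induction n with
  | zero => simpa using Com.const (P := P) 1
  | succ n ih => simpa only [pow_succ] using ih.mul hg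

theorem Com.sum {g : ℕ → ℂ → ℂ} (hg : ∀ n, Com P (g n)) (n : ℕ) :
    Com P (fun z => ∑ k ∈ Finset.range n, g k z) := by
  induction n with
  | zero => simpa using Com.const (P := P) 0
  | succ n ih => simpa only [Finset.sum_range_succ] using ih.add (hg n)

theorem Com.exp {g : ℂ → ℂ} (hg : Com P g) : Com P (fun z => exp (g z)) := by
  obtain ⟨C, hC⟩ := hg.ba.2
  have hC0 : 0 ≤ C := (norm_nonneg _).trans (hC 0 (by simp [U]))
  have hb : BA (fun z => Complex.exp (g z)) := by
    refine ⟨hg.ba.1.cexp, Real.exp C, fun z hz => ?_⟩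
    rw [Complex.norm_exp]
    exact Real.exp_le_exp.2 ((Complex.re_le_norm _).trans (hC z hz))
  refine Com.lim (G := fun n z => ∑ k ∈ Finset.range n, g z ^ k * ((k.factorial : ℂ)⁻¹))
    (C := Real.exp C) (fun n => ?_) hb (fun n z hz => ?_) (fun z hz => ?_)
  · exact Com.sum (fun k => (hg.pow k).mul (Com.const _)) n
  · refine (norm_sum_le _ _).trans ?_
    have h1 : ∀ k : ℕ, ‖g z ^ k * ((k.factorial : ℂ)⁻¹)‖ ≤ C ^ k / k.factorial := fun k => by
      rw [norm_mul, norm_pow, norm_inv, Complex.norm_natCast, div_eq_mul_inv]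
      exact mul_le_mul_of_nonneg_right (pow_le_pow_left₀ (norm_nonneg _) (hC z hz) k)
        (by positivity)
    refine (Finset.sum_le_sum fun k _ => h1 k).trans ?_
    exact Real.sum_le_exp_of_nonneg hC0 n
  · have := NormedSpace.expSeries_div_hasSum_exp (𝔸 := ℂ) (g z)
    rw [← Complex.exp_eq_exp_ℂ] at this
    have h2 := this.tendsto_sum_nat
    simpa only [div_eq_mul_inv] using h2

/-- The constant function `1`. -/
noncomputable def one : H2 := ker 0

theorem zero_mem_U : (0 : ℂ) ∈ U := by simp [U]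

theorem one_apply {z : ℂ} (hz : z ∈ U) : one z = 1 := by
  rw [one, ker_apply zero_mem_U hz]; simp

theorem iso_single (n : ℕ) (c : ℂ) : iso (lp.single 2 n c) = c • (Mz ^ n) one := by
  refine H2.ext fun z hz => ?_
  rw [iso_apply _ hz, H2.smul_apply]
  have h1 : ∀ m : ℕ, ∀ f : H2, (Mz ^ m) f z = z ^ m * f z := by
    intro m
    induction m with
    | zero => intro f; simp
    | succ m ih =>
      intro f
      rw [pow_succ]
      change (Mz ^ m) (Mz f) z = _
      rw [ih, Mz_apply]; ring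
  rw [h1, one_apply hz, mul_one, tsum_eq_single n]
  · simp
  · intro m hm
    simp [hm]

/-- Linear functionals which agree on monomials are equal. -/
theorem functional_ext {L M : H2 →L[ℂ] ℂ} (h : ∀ n : ℕ, L ((Mz ^ n) one) = M ((Mz ^ n) one))
    (f : H2) : L f = M f := by
  have key : ∀ Λ : H2 →L[ℂ] ℂ, HasSum (fun n : ℕ => (iso.symm f) n * Λ ((Mz ^ n) one)) (Λ f) := by
    intro Λ
    have h1 := lp.hasSum_single (E := fun _ : ℕ => ℂ) (p := 2) (by norm_num) (iso.symm f)
    have h2 := h1.mapL (Λ ∘L (iso : L2 ≃L[ℂ] H2).toContinuousLinearMap)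
    have e : (Λ ∘L (iso : L2 ≃L[ℂ] H2).toContinuousLinearMap) (iso.symm f) = Λ f := by
      change Λ (iso (iso.symm f)) = Λ f
      rw [iso.apply_symm_apply]
    rw [e] at h2
    refine h2.congr_fun fun n => ?_
    change _ = Λ (iso (lp.single 2 n ((iso.symm f) n)))
    rw [iso_single, map_smul, smul_eq_mul]
  have h1 := key L
  simp only [h] at h1
  exact h1.unique (key M)

/-- An idempotent commuting with the shift is trivial. -/
theorem idem_trivial (hP : P * P = P) (hc : Com P (fun z => z)) : P = 0 ∨ P = 1 := by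
  have hMz : P * Mz = Mz * P := by
    obtain ⟨hg, h⟩ := hc
    exact h
  set h := P one with hh
  have hform : ∀ f : H2, ∀ z ∈ U, P f z = h z * f z := by
    intro f z hz
    have := functional_ext (L := ev z ∘L P) (M := (h z) • ev z) (fun n => ?_) f
    · rw [ContinuousLinearMap.comp_apply, ev_apply hz] at this
      rw [this]
      change h z * ev z f = _
      rw [ev_apply hz]
    · have hcn : P * Mz ^ n = Mz ^ n * P := (Commute.pow_right hMz n).eq
      have h1 : P ((Mz ^ n) one) = (Mz ^ n) (P one) :=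
        congrArg (fun T : H2 →L[ℂ] H2 => T one) hcn
      have h2 : ∀ m : ℕ, ∀ f : H2, (Mz ^ m) f z = z ^ m * f z := by
        intro m
        induction m with
        | zero => intro f; simp
        | succ m ih =>
          intro f
          rw [pow_succ]
          change (Mz ^ m) (Mz f) z = _
          rw [ih, Mz_apply]; ring
      rw [ContinuousLinearMap.comp_apply, ev_apply hz, h1, h2]
      change _ = h z * ev z ((Mz ^ n) one)
      rw [ev_apply hz, h2, one_apply hz]
      ring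
  have hsq : ∀ z ∈ U, h z = 0 ∨ h z = 1 := by
    intro z hz
    have h1 : P h = h := by
      have := congrArg (fun T : H2 →L[ℂ] H2 => T one) hP
      exact this
    have h2 := hform h z hz
    rw [h1] at h2
    by_cases h0 : h z = 0
    · exact Or.inl h0
    · right
      have : h z * (h z - 1) = 0 := by rw [mul_sub, mul_one, ← h2, sub_self]
      rcases mul_eq_zero.1 this with h3 | h3
      · exact absurd h3 h0
      · exact sub_eq_zero.1 h3
  have hpre : IsPreconnected U := (convex_ball (0 : ℂ) 1).isPreconnected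
  have hmaps : MapsTo (h : ℂ → ℂ) U ({0, 1} : Set ℂ) := fun z hz => by
    rcases hsq z hz with h1 | h1 <;> simp [h1]
  have hdisc : IsDiscrete ({0, 1} : Set ℂ) := by
    rw [isDiscrete_iff_discreteTopology]
    have : Finite ({0, 1} : Set ℂ) := (Set.toFinite _)
    infer_instance
  obtain ⟨y, hy, hEq⟩ := hpre.eqOn_const_of_mapsTo hdisc h.cont hmaps ⟨0, by simp⟩
  rcases hy with rfl | hy
  · left
    refine clm_ext fun f z hz => ?_
    rw [hform f z hz, hEq hz]
    simp
  · right
    refine clm_ext fun f z hz => ?_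
    rw [hform f z hz, hEq hz]
    rw [mem_singleton_iff] at hy
    simp [hy]

end Pool.Agent.Helper289.Hardy
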