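import Pool.Agent.Helper289.HardyBase

/-! The Hardy space `H²` of the unit disc as a normed space. -/

namespace Pool.Agent.Helper289.Hardy

open Metric Complex Set MeasureTheory Filter Topology
open scoped Real

/-- The Hardy space `H²`. -/
def H2 : Type := hardy

noncomputable instance : AddCommGroup H2 := inferInstanceAs (AddCommGroup hardy)
noncomputable instance : Module ℂ H2 := inferInstanceAs (Module ℂ hardy)

/-- The function given by an element of `H²`. -/
def H2.toFun (f : H2) : ℂ → ℂ := Subtype.val (p := fun g => g ∈ hardy) f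

/-- An element of `H²` is a function. -/
instance : CoeFun H2 (fun _ => ℂ → ℂ) := ⟨H2.toFun⟩

/-- The norm `‖f‖² = sup_{0<r<1} (1/2π) ∫_0^{2π} |f(r e^{it})|² dt` of `H²`. -/
noncomputable instance : Norm H2 := ⟨fun f => √(⨆ r : Ioo (0 : ℝ) 1, mean2 f r)⟩

namespace H2

theorem norm_def (f : H2) : ‖f‖ = √(⨆ r : Ioo (0 : ℝ) 1, mean2 f r) := rfl

theorem ext {f g : H2} (h : ∀ z ∈ U, f z = g z) : f = g := by
  refine Subtype.ext (funext fun z => ?_)
  by_cases hz : z ∈ U
  · exact h z hz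
  · exact (f.2.2.1 z hz).trans (g.2.2.1 z hz).symm

theorem diff (f : H2) : DifferentiableOn ℂ f U := f.2.1

theorem cont (f : H2) : ContinuousOn f U := f.diff.continuousOn

theorem off (f : H2) {z : ℂ} (hz : z ∉ U) : f z = 0 := f.2.2.1 z hz

theorem bdd (f : H2) : BddAbove (range fun r : Ioo (0 : ℝ) 1 => mean2 f r) := by
  obtain ⟨C, hC⟩ := f.2.2.2
  exact ⟨C, by rintro _ ⟨r, rfl⟩; exact hC r r.2⟩

@[simp] theorem add_apply (f g : H2) (z : ℂ) : (f + g) z = f z + g z := rfl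
@[simp] theorem sub_apply (f g : H2) (z : ℂ) : (f - g) z = f z - g z := rfl
@[simp] theorem zero_apply (z : ℂ) : (0 : H2) z = 0 := rfl
@[simp] theorem neg_apply (f : H2) (z : ℂ) : (-f) z = -f z := rfl
@[simp] theorem smul_apply (c : ℂ) (f : H2) (z : ℂ) : (c • f) z = c * f z := rfl

theorem norm_nonneg' (f : H2) : 0 ≤ ‖f‖ := Real.sqrt_nonneg _

theorem norm_sq (f : H2) : ‖f‖ ^ 2 = ⨆ r : Ioo (0 : ℝ) 1, mean2 f r := by
  rw [norm_def, Real.sq_sqrt]
  exact Real.iSup_nonneg fun r => mean2_nonneg _ _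

theorem mean2_le (f : H2) {r : ℝ} (hr : r ∈ Ioo (0 : ℝ) 1) : mean2 f r ≤ ‖f‖ ^ 2 := by
  rw [norm_sq]
  exact le_ciSup f.bdd ⟨r, hr⟩

end H2

end Pool.Agent.Helper289.Hardy
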