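import Pool.Agent.Helper289.HardyRad

/-! Growth rates in the elliptic case. -/

namespace Pool.Agent.Helper289.Hardy

open Metric Complex Set MeasureTheory Filter Topology
open scoped Real ComplexConjugate InnerProductSpace

variable {a b : ℂ} {ψ φ : ℂ → ℂ}

theorem rate_congr {A B : ℕ → ℝ} {K R : ℝ} (hK : 0 < K) (hA : ∀ n, 0 ≤ A n) (hB : ∀ n, 0 ≤ B n)
    (h1 : ∀ n, A n ≤ K * B n) (h2 : ∀ n, B n ≤ K * A n)
    (h : Tendsto (fun n : ℕ => A n ^ (1 / n : ℝ)) atTop (𝓝 R)) :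
    Tendsto (fun n : ℕ => B n ^ (1 / n : ℝ)) atTop (𝓝 R) := by
  have hp : ∀ L : ℝ, 0 < L → Tendsto (fun n : ℕ => L ^ (1 / n : ℝ) * A n ^ (1 / n : ℝ)) atTop
      (𝓝 R) := by
    intro L hL
    have h3 : Tendsto (fun n : ℕ => L ^ (1 / n : ℝ)) atTop (𝓝 (L ^ (0 : ℝ))) :=
      (tendsto_const_nhds).rpow tendsto_one_div_atTop_nhds_zero_nat (Or.inl hL.ne')
    rw [Real.rpow_zero] at h3
    have h4 := h3.mul h
    rwa [one_mul] at h4
  refine tendsto_of_tendsto_of_tendsto_of_le_of_le (hp K⁻¹ (inv_pos.2 hK)) (hp K hK)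
    (fun n => ?_) fun n => ?_
  · simp only
    rw [← Real.mul_rpow (inv_pos.2 hK).le (hA n)]
    refine Real.rpow_le_rpow (mul_nonneg (inv_pos.2 hK).le (hA n)) ?_ (by positivity)
    rw [inv_mul_le_iff₀ hK]
    exact h1 n
  · simp only
    rw [← Real.mul_rpow hK.le (hA n)]
    exact Real.rpow_le_rpow (hB n) (h2 n) (by positivity)

theorem fac_ell (h : SU a b) (hφ : ∀ z ∈ U, φ z = mob a b z) {p : ℂ} (hp : p ∈ U)
    (hfix : φ p = p) : ∃ K : ℝ, 0 < K ∧ ∀ n, ∀ z ∈ U, fac φ n z ≤ K ∧ 1 ≤ K * fac φ n z := by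
  have hmaps : MapsTo φ U U := fun z hz => by rw [hφ z hz]; exact mob_mem h hz
  have hfix' : mob a b p = p := by rw [← hφ p hp]; exact hfix
  obtain ⟨c, hc, hc'⟩ := den_lower (SU_bl hp)
  obtain ⟨C, hC⟩ := (BA.den (a := (sc p : ℂ)⁻¹) (b := -p / sc p)).2
  have hCpos : 0 < C := hc.trans_le ((hc' 0 zero_mem_U).trans (hC 0 zero_mem_U))
  have hbl : ∀ n, ∀ z ∈ U, ‖bl p (φ^[n] z)‖ = ‖bl p z‖ := by
    intro n z hz
    induction n with
    | zero => rfl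
    | succ n ih =>
      rw [Function.iterate_succ_apply', hφ _ (iter_mem hmaps n hz),
        bl_mob h hp hfix' (iter_mem hmaps n hz), norm_mul, om_norm h hp, one_mul, ih]
  have hfac : ∀ n, ∀ z ∈ U, fac φ n z = ‖den ((sc p : ℂ)⁻¹) (-p / sc p) z‖ /
      ‖den ((sc p : ℂ)⁻¹) (-p / sc p) (φ^[n] z)‖ := by
    intro n z hz
    have hz' := iter_mem hmaps n hz
    have h1 := one_sub_mob (SU_bl hp) hz
    have h2 := one_sub_mob (SU_bl hp) hz'
    rw [mob_bl hp hz] at h1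
    rw [mob_bl hp hz', hbl n z hz, h1] at h2
    have d1 : 0 < ‖den ((sc p : ℂ)⁻¹) (-p / sc p) z‖ := norm_pos_iff.2 (den_ne (SU_bl hp) hz)
    have d2 : 0 < ‖den ((sc p : ℂ)⁻¹) (-p / sc p) (φ^[n] z)‖ :=
      norm_pos_iff.2 (den_ne (SU_bl hp) hz')
    have p1 := one_sub_pos hz
    have p2 := one_sub_pos hz'
    rw [fac]
    generalize ‖den ((sc p : ℂ)⁻¹) (-p / sc p) z‖ = x at *
    generalize ‖den ((sc p : ℂ)⁻¹) (-p / sc p) (φ^[n] z)‖ = y at *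
    have e : (1 - ‖z‖ ^ 2) / (1 - ‖φ^[n] z‖ ^ 2) = (x / y) ^ 2 := by
      rw [div_eq_div_iff (by positivity) (by positivity)] at h2
      field_simp
      linarith
    rw [e, Real.sqrt_sq (by positivity)]
  refine ⟨C / c, by positivity, fun n z hz => ?_⟩
  have hz' := iter_mem hmaps n hz
  rw [hfac n z hz]
  have d1 := hc' z hz
  have d2 := hc' _ hz'
  have d3 := hC z hz
  have d4 := hC _ hz'
  generalize ‖den ((sc p : ℂ)⁻¹) (-p / sc p) z‖ = x at *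
  generalize ‖den ((sc p : ℂ)⁻¹) (-p / sc p) (φ^[n] z)‖ = y at *
  have x0 : 0 < x := hc.trans_le d1
  have y0 : 0 < y := hc.trans_le d2
  constructor
  · exact div_le_div₀ hCpos.le d3 hc d2
  · rw [div_mul_div_comm, one_le_div (by positivity), mul_comm C x]
    exact mul_le_mul d1 d4 y0.le x0.le

/-- The growth rates of an elliptic automorphism are those of the weights. -/
theorem ell_rates (hψ : BA ψ) (h : SU a b) (hφ : ∀ z ∈ U, φ z = mob a b z) {p : ℂ} (hp : p ∈ U)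
    (hfix : φ p = p) {r R : ℝ}
    (hr : Tendsto (fun n : ℕ => (⨅ z : U, gain ψ φ n z) ^ (1 / n : ℝ)) atTop (𝓝 r))
    (hR : Tendsto (fun n : ℕ => (⨆ z : U, gain ψ φ n z) ^ (1 / n : ℝ)) atTop (𝓝 R)) :
    Tendsto (fun n : ℕ => (⨅ z : U, ‖wt ψ φ n z‖) ^ (1 / n : ℝ)) atTop (𝓝 r) ∧
    Tendsto (fun n : ℕ => (⨆ z : U, ‖wt ψ φ n z‖) ^ (1 / n : ℝ)) atTop (𝓝 R) := by
  obtain ⟨K, hK, hf⟩ := fac_ell h hφ hp hfix
  have e1 : ∀ n, ∀ z ∈ U, gain ψ φ n z ≤ K * ‖wt ψ φ n z‖ := by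
    intro n z hz
    rw [gain_fac, mul_comm]
    exact mul_le_mul_of_nonneg_right (hf n z hz).1 (norm_nonneg _)
  have e2 : ∀ n, ∀ z ∈ U, ‖wt ψ φ n z‖ ≤ K * gain ψ φ n z := by
    intro n z hz
    rw [gain_fac]
    have := mul_le_mul_of_nonneg_right (hf n z hz).2 (norm_nonneg (wt ψ φ n z))
    linarith
  have hwb : ∀ n, BddAbove (range fun z : U => ‖wt ψ φ n z‖) := fun n => (BA_wt hψ h hφ n).bdd
  have hwb' : ∀ n, ∀ z ∈ U, ⨅ z : U, ‖wt ψ φ n z‖ ≤ ‖wt ψ φ n z‖ := fun n z hz =>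
    inf_le (wt ψ φ n) hz
  constructor
  · refine rate_congr hK gain_inf_nonneg (fun n => inf_nonneg _) (fun n => ?_) (fun n => ?_) hr
    · have h1 : K⁻¹ * (⨅ z : U, gain ψ φ n z) ≤ ⨅ z : U, ‖wt ψ φ n z‖ := by
        refine le_ciInf fun z => ?_
        rw [inv_mul_le_iff₀ hK]
        exact (inf_le_gain n z.2).trans (e1 n z z.2)
      rwa [inv_mul_le_iff₀ hK] at h1
    · have h1 : K⁻¹ * (⨅ z : U, ‖wt ψ φ n z‖) ≤ ⨅ z : U, gain ψ φ n z := by
        refine le_ciInf fun z => ?_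
        rw [inv_mul_le_iff₀ hK]
        exact (hwb' n z z.2).trans (e2 n z z.2)
      rwa [inv_mul_le_iff₀ hK] at h1
  · refine rate_congr hK gain_sup_nonneg
      (fun n => Real.iSup_nonneg fun _ => norm_nonneg _) (fun n => ?_) (fun n => ?_) hR
    · exact ciSup_le fun z => (e1 n z z.2).trans
        (mul_le_mul_of_nonneg_left (le_ciSup (hwb n) z) hK.le)
    · exact ciSup_le fun z => (e2 n z z.2).trans
        (mul_le_mul_of_nonneg_left (gain_le_sup hψ h hφ n z.2) hK.le)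

end Pool.Agent.Helper289.Hardy
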