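import Pool.Agent.Helper289.HardySpec

/-! Rotation invariance of the spectrum, the finite order case. -/

namespace Pool.Agent.Helper289.Hardy

open Metric Complex Set MeasureTheory Filter Topology
open scoped Real ComplexConjugate InnerProductSpace

variable {a b : ℂ}

theorem exp_arg {c : ℂ} (hc : ‖c‖ = 1) : exp (arg c * I) = c := by
  have h1 := Complex.norm_mul_exp_arg_mul_I c
  rwa [hc, ofReal_one, one_mul] at h1

theorem mul_pow_bl_norm {p : ℂ} (hp : p ∈ U) (n : ℕ) (f : H2) :
    ‖((mul (bl p) (BA_bl hp)) ^ n) f‖ = ‖f‖ := by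
  have h1 : ∀ f : H2, ‖mul (bl p) (BA_bl hp) f‖ = ‖f‖ := fun f => by
    have e : mul (bl p) (BA_bl hp) = mul (mob ((sc p : ℂ)⁻¹) (-p / sc p)) (BA.mob (SU_bl hp)) :=
      clm_ext fun f z hz => by
        change bl p z * f z = mob _ _ z * f z
        rw [mob_bl hp hz]
    rw [e]; exact mul_mob_norm (SU_bl hp) f
  induction n generalizing f with
  | zero => simp
  | succ n ih =>
    rw [pow_succ]
    change ‖(mul (bl p) (BA_bl hp) ^ n) (mul (bl p) (BA_bl hp) f)‖ = ‖f‖
    rw [ih, h1]

theorem pow_intertwine {T V : H2 →L[ℂ] H2} {c : ℂ} (h : T * V = c • (V * T)) (n : ℕ) :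
    T * V ^ n = c ^ n • (V ^ n * T) := by
  induction n with
  | zero => simp
  | succ n ih =>
    rw [pow_succ, ← mul_assoc, ih, smul_mul_assoc, mul_assoc, h, mul_smul_comm, smul_smul,
      mul_assoc, pow_succ]

/-- If `φ` has infinite order, the spectrum is rotation invariant. -/
theorem rot_T {ψ φ : ℂ → ℂ} {T : H2 →L[ℂ] H2} (hT : IsWCO ψ φ T) (h : SU a b)
    (hφ : ∀ z ∈ U, φ z = mob a b z) (hinf : ∀ n : ℕ, 0 < n → ∃ z ∈ U, φ^[n] z ≠ z) {l m : ℂ}
    (hl : l ∈ resolventSet ℂ T) (hlm : ‖m‖ = ‖l‖) : m ∈ resolventSet ℂ T := by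
  rcases dichotomy h with ⟨p, hp, hfix⟩ | ⟨ζ, κ, τ, hζ, hκ, hτ, hL⟩
  · -- elliptic
    have hint := intw_comm hT (BA_bl hp) (c := om a b p) fun z hz => by
      rw [hφ z hz]; exact bl_mob h hp hfix hz
    refine Gap.rot_inv (K := 1) zero_le_one ?_ hl hlm
    intro c hc ε hε
    have hw : ∀ n : ℕ, 0 < n → om a b p ^ n ≠ 1 := by
      intro n hn h1
      obtain ⟨z, hz, hne⟩ := hinf n hn
      have hmaps : MapsTo φ U U := fun z hz => by rw [hφ z hz]; exact mob_mem h hz
      have h2 := bl_iter h hφ hp hfix n hz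
      rw [h1, one_mul] at h2
      exact hne (bl_inj hp (iter_mem hmaps n hz) hz h2)
    obtain ⟨n, hn⟩ := dense_pow (om_norm h hp) hw hc hε
    refine ⟨om a b p ^ n, (mul (bl p) (BA_bl hp)) ^ n, ?_, hn, pow_intertwine hint n, ?_, ?_⟩
    · rw [norm_pow, om_norm h hp, one_pow]
    · refine ContinuousLinearMap.opNorm_le_bound _ zero_le_one fun f => ?_
      rw [mul_pow_bl_norm hp, one_mul]
    · intro f; rw [mul_pow_bl_norm hp, one_mul]
  · by_cases hκ1 : κ = 1
    · -- parabolic
      have hτ0 := hτ hκ1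
      refine Gap.rot_inv (K := 1) zero_le_one ?_ hl hlm
      intro c hc ε hε
      obtain ⟨s, hs, hsc⟩ : ∃ s : ℝ, 0 ≤ s ∧ exp ((-(s * τ) : ℝ) * I) = c := by
        have h1 := Complex.neg_pi_lt_arg c
        have h2 := Complex.arg_le_pi c
        have hp := Real.pi_pos
        rcases lt_or_gt_of_ne hτ0 with hneg | hpos
        · refine ⟨(arg c + 2 * π) / (-τ), div_nonneg (by linarith) (by linarith), ?_⟩
          have : -((arg c + 2 * π) / (-τ) * τ) = arg c + 2 * π := by field_simp
          rw [this]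
          push_cast
          rw [add_mul, exp_add, exp_arg hc, Complex.exp_two_pi_mul_I, mul_one]
        · refine ⟨(2 * π - arg c) / τ, div_nonneg (by linarith) (by linarith), ?_⟩
          have : -((2 * π - arg c) / τ * τ) = arg c - 2 * π := by field_simp; ring
          rw [this]
          push_cast
          rw [sub_mul, exp_sub, exp_arg hc, Complex.exp_two_pi_mul_I, div_one]
      have hI := (Intw_par (a := a) (b := b) (τ := τ) hζ
        (fun z hz => by rw [hL z hz, hκ1]; simp) hs).congr_map (φ' := φ) hφ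
      have hint := intw_comm hT (BA_expL0 hζ hs) hI.2.2
      rw [hsc] at hint
      refine ⟨c, _, hc, by simpa using hε, hint, ?_, ?_⟩
      · refine ContinuousLinearMap.opNorm_le_bound _ zero_le_one fun f => ?_
        rw [expL0_isometric hζ hs, one_mul]
      · intro f; rw [expL0_isometric hζ hs, one_mul]
    · -- hyperbolic
      have hlog : Real.log κ ≠ 0 := by
        intro h0
        rcases Real.log_eq_zero.1 h0 with h1 | h1 | h1 <;> first | linarith | exact hκ1 h1
      set η := τ / (1 - κ) with hη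
      set K : ℝ := Real.exp (π / |Real.log κ| * (π / 2)) with hK
      have hK0 : 0 < K := Real.exp_pos _
      refine Gap.rot_inv (K := K) hK0.le ?_ hl hlm
      intro c hc ε hε
      set s : ℝ := arg c / Real.log κ with hs
      have hsK : |s| ≤ π / |Real.log κ| := by
        rw [hs, abs_div]
        exact div_le_div_of_nonneg_right (Complex.abs_arg_le_pi c) (abs_nonneg _)
      have hKs : Real.exp (|s| * (π / 2)) ≤ K := by
        rw [hK, Real.exp_le_exp]
        exact mul_le_mul_of_nonneg_right hsK (by positivity)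
      have hI := (Intw_hyp (a := a) (b := b) hζ hκ hκ1 hL s).congr_map (φ' := φ) hφ
      have hint := intw_comm hT (BA_gh hζ η s) hI.2.2
      have hsc : exp ((s * Real.log κ : ℝ) * I) = c := by
        have : s * Real.log κ = arg c := by rw [hs]; field_simp
        rw [this, exp_arg hc]
      rw [hsc] at hint
      refine ⟨c, _, hc, by simpa using hε, hint, ?_, ?_⟩
      · exact mul_norm_le _ hK0.le fun z hz => (gh_norm_le hζ η s hz).trans hKs
      · intro f
        have hlow : ∀ z ∈ U, Real.exp (-(|s| * (π / 2))) ≤ ‖gh ζ η s z‖ := fun z hz =>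
          gh_norm_ge hζ η s hz
        have hbi := BA.inv (BA_gh hζ η s).1 (Real.exp_pos _) hlow
        have h1 : f = mul _ hbi (mul _ (BA_gh hζ η s) f) := by
          refine H2.ext fun z hz => ?_
          have hne : gh ζ η s z ≠ 0 := Complex.exp_ne_zero _
          change f z = (gh ζ η s z)⁻¹ * (gh ζ η s z * f z)
          rw [inv_mul_cancel_left₀ hne]
        have h2 : ‖mul _ hbi‖ ≤ K := by
          refine mul_norm_le _ hK0.le fun z hz => ?_
          rw [norm_inv, inv_le_comm₀ (lt_of_lt_of_le (Real.exp_pos _) (hlow z hz)) hK0]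
          refine le_trans ?_ (hlow z hz)
          rw [Real.exp_neg]
          exact inv_anti₀ (Real.exp_pos _) hKs
        conv_lhs => rw [h1]
        exact (ContinuousLinearMap.le_opNorm _ _).trans
          (mul_le_mul_of_nonneg_right h2 (norm_nonneg _))

/-! ### Finite order -/

theorem mul_spectrum {g : ℂ → ℂ} (hg : BA g) : spectrum ℂ (mul g hg) = closure (g '' U) := by
  apply Subset.antisymm
  · intro l hl
    by_contra hcl
    apply hl
    -- `l` is at positive distance
    have hopen : IsOpen (closure (g '' U))ᶜ := isClosed_closure.isOpen_compl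
    obtain ⟨ε, hε, hball⟩ := Metric.isOpen_iff.1 hopen l hcl
    have hlow : ∀ z ∈ U, ε ≤ ‖l + (-1) * g z‖ := by
      intro z hz
      by_contra hlt
      push Not at hlt
      have : g z ∈ ball l ε := by
        rw [mem_ball, dist_comm, dist_eq_norm]
        have e : l - g z = l + (-1) * g z := by ring
        rw [e]; exact hlt
      exact hball this (subset_closure ⟨z, hz, rfl⟩)
    have hb1 : BA (fun z => l + (-1) * g z) := (BA.const l).add ((BA.const (-1)).mul hg)
    have hb2 := BA.inv hb1.1 hε hlow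
    have hne : ∀ z ∈ U, l + (-1) * g z ≠ 0 := fun z hz h0 => by
      have := hlow z hz
      rw [h0, norm_zero] at this
      linarith
    have e : l • (1 : H2 →L[ℂ] H2) - mul g hg = mul _ hb1 := clm_ext fun f z _ => by
      change l * f z - g z * f z = (l + (-1) * g z) * f z
      ring
    refine Gap.mem_res_of (s := mul _ hb2) ?_ ?_
    · rw [e]
      refine clm_ext fun f z hz => ?_
      change (l + (-1) * g z) * ((l + (-1) * g z)⁻¹ * f z) = f z
      rw [mul_inv_cancel_left₀ (hne z hz)]
    · rw [e]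
      refine clm_ext fun f z hz => ?_
      change (l + (-1) * g z)⁻¹ * ((l + (-1) * g z) * f z) = f z
      rw [inv_mul_cancel_left₀ (hne z hz)]
  · refine closure_minimal ?_ (spectrum.isClosed _)
    rintro _ ⟨z, hz, rfl⟩ hres
    have h1 := Gap.res_left hres
    have h2 := congrArg (fun S : H2 →L[ℂ] H2 => S one z) h1
    change g z * (resolvent (mul g hg) (g z) one) z - g z * (resolvent (mul g hg) (g z) one) z =
      one z at h2
    rw [sub_self, one_apply hz] at h2
    exact zero_ne_one h2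

theorem mob_fix_bl (p : ℂ) : bl p p = 0 := by simp [bl]

theorem exists_bl {p : ℂ} (hp : p ∈ U) {f : H2} (hf : f p = 0) :
    ∃ g : H2, mul (bl p) (BA_bl hp) g = f := by
  have h := SU_bl hp
  have h' := SU_inv h
  have h0 : mob (conj (sc p : ℂ)⁻¹) (-(-p / sc p)) 0 = p := by
    have h1 : (sc p : ℂ) ≠ 0 := by exact_mod_cast (sc_pos hp).ne'
    rw [mob, num, den]
    simp
    field_simp
  have hv : Uop h' f 0 = 0 := by
    rw [Uop_apply h' f zero_mem_U, h0, hf, mul_zero]
  obtain ⟨g, hg⟩ := exists_Mz hv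
  refine ⟨Uop h g, H2.ext fun z hz => ?_⟩
  have h2 : Uop h (Uop h' f) = f := congrArg (fun S : H2 →L[ℂ] H2 => S f) (Uop_mul_inv h)
  rw [mul_apply, Uop_apply h g hz, ← h2, ← hg, Uop_apply h _ hz, Mz_apply, mob_bl hp hz]
  ring

/-- the fixed point value is in the spectrum -/
theorem psi_mem {ψ φ : ℂ → ℂ} {T : H2 →L[ℂ] H2} (hT : IsWCO ψ φ T) {p : ℂ} (hp : p ∈ U)
    (hfix : φ p = p) : ψ p ∉ resolventSet ℂ T := by
  intro hres
  have h1 := Gap.res_left hres
  have h2 := congrArg (fun S : H2 →L[ℂ] H2 => S one p) h1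
  change ψ p * (resolvent T (ψ p) one) p - T (resolvent T (ψ p) one) p = one p at h2
  rw [hT _ p hp, hfix, sub_self, one_apply hp] at h2
  exact zero_ne_one h2

theorem res_rot {ψ φ : ℂ → ℂ} {T : H2 →L[ℂ] H2} (hT : IsWCO ψ φ T) (h : SU a b)
    (hφ : ∀ z ∈ U, φ z = mob a b z) {p : ℂ} (hp : p ∈ U) (hfix : mob a b p = p) {l : ℂ}
    (hl : l ∈ resolventSet ℂ T) : (om a b p)⁻¹ * l ∈ resolventSet ℂ T := by
  have hφp : φ p = p := by rw [hφ p hp, hfix]
  have hw0 : om a b p ≠ 0 := by
    intro h0; have := om_norm h hp; rw [h0, norm_zero] at this; exact zero_ne_one this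
  have hint := intw_comm hT (BA_bl hp) (c := om a b p) fun z hz => by
    rw [hφ z hz]; exact bl_mob h hp hfix hz
  set B := mul (bl p) (BA_bl hp) with hB
  set w := om a b p with hw
  have hBinj : ∀ f : H2, B f = 0 → f = 0 := fun f hf => by
    have := mul_pow_bl_norm hp 1 f
    rw [pow_one, ← hB, hf, norm_zero] at this
    exact norm_eq_zero.1 this.symm
  have key : ∀ f : H2, l • B f - T (B f) = w • B ((w⁻¹ * l) • f - T f) := by
    intro f
    have h1 : T (B f) = w • B (T f) := congrArg (fun S : H2 →L[ℂ] H2 => S f) hint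
    rw [h1, map_sub, map_smul, smul_sub, smul_smul, mul_inv_cancel_left₀ hw0]
  have hne : l ≠ ψ p := fun h0 => psi_mem hT hp hφp (h0 ▸ hl)
  have hR1 : ∀ f : H2, l • (resolvent T l f) - T (resolvent T l f) = f := fun f =>
    congrArg (fun S : H2 →L[ℂ] H2 => S f) (Gap.res_left hl)
  have hR2 : ∀ f : H2, resolvent T l (l • f - T f) = f := fun f =>
    congrArg (fun S : H2 →L[ℂ] H2 => S f) (Gap.res_right hl)
  change IsUnit (algebraMap ℂ (H2 →L[ℂ] H2) (w⁻¹ * l) - T)
  rw [Algebra.algebraMap_eq_smul_one, ContinuousLinearMap.isUnit_iff_bijective]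
  constructor
  · rw [injective_iff_map_eq_zero]
    intro f hf
    have hf' : (w⁻¹ * l) • f - T f = 0 := hf
    have h1 := key f
    rw [hf', map_zero, smul_zero] at h1
    have h2 := hR2 (B f)
    rw [h1, map_zero] at h2
    exact hBinj f h2.symm
  · intro g
    set k := resolvent T l (B g) with hk
    have hk1 : l • k - T k = B g := hR1 (B g)
    have hkp : k p = 0 := by
      have h1 := congrArg (fun f : H2 => f p) hk1
      change l * k p - T k p = bl p p * g p at h1
      rw [hT k p hp, hφp, mob_fix_bl p, zero_mul, ← sub_mul] at h1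
      rcases mul_eq_zero.1 h1 with h2 | h2
      · exact absurd (sub_eq_zero.1 h2) hne
      · exact h2
    obtain ⟨f, hf⟩ := exists_bl hp hkp
    refine ⟨w • f, ?_⟩
    change (w⁻¹ * l) • (w • f) - T (w • f) = g
    have h3 := key f
    rw [show B f = k from hf, hk1] at h3
    have h4 : B (w • ((w⁻¹ * l) • f - T f) - g) = 0 := by
      rw [map_sub, map_smul, ← h3, sub_self]
    have h5 := sub_eq_zero.1 (hBinj _ h4)
    rw [← h5, smul_sub, map_smul, smul_smul, smul_smul]
    congr 2
    ring

theorem BA_wt {ψ φ : ℂ → ℂ} (hψ : BA ψ) (h : SU a b) (hφ : ∀ z ∈ U, φ z = mob a b z) (n : ℕ) :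
    BA (wt ψ φ n) := by
  have hmaps : MapsTo φ U U := fun z hz => by rw [hφ z hz]; exact mob_mem h hz
  have hd : ∀ j, DifferentiableOn ℂ (φ^[j]) U ∧ MapsTo (φ^[j]) U U := by
    intro j
    induction j with
    | zero => exact ⟨differentiableOn_id, fun z hz => hz⟩
    | succ j ih =>
      have hφd : DifferentiableOn ℂ φ U := (mob_diff h).congr hφ
      rw [Function.iterate_succ]
      exact ⟨ih.1.comp hφd hmaps, ih.2.comp hmaps⟩
  have hb : ∀ j, BA (fun z => ψ (φ^[j] z)) := fun j => by
    obtain ⟨C, hC⟩ := hψ.2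
    exact ⟨hψ.1.comp (hd j).1 (hd j).2, C, fun z hz => hC _ ((hd j).2 hz)⟩
  induction n with
  | zero =>
    have e : wt ψ φ 0 = fun _ => 1 := by funext z; simp [wt]
    rw [e]; exact BA.const 1
  | succ n ih =>
    have e : wt ψ φ (n + 1) = fun z => wt ψ φ n z * ψ (φ^[n] z) := by
      funext z; simp [wt, Finset.prod_range_succ]
    rw [e]; exact ih.mul (hb n)

theorem finite_order {ψ φ : ℂ → ℂ} {T : H2 →L[ℂ] H2} (hT : IsWCO ψ φ T) (hψ : BA ψ) (h : SU a b)
    (hφ : ∀ z ∈ U, φ z = mob a b z) {N : ℕ} (hN : 0 < N) (hNid : ∀ z ∈ U, φ^[N] z = z)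
    (hmin : ∀ m : ℕ, 0 < m → m < N → ∃ z ∈ U, φ^[m] z ≠ z) :
    spectrum ℂ T = {l : ℂ | l ^ N ∈ closure (wt ψ φ N '' U)} := by
  have hmaps : MapsTo φ U U := fun z hz => by rw [hφ z hz]; exact mob_mem h hz
  have hwt : BA (wt ψ φ N) := BA_wt hψ h hφ N
  have hpow : T ^ N = mul (wt ψ φ N) hwt := by
    refine (hT.pow hmaps N).unique ?_
    intro f z hz
    rw [mul_apply, hNid z hz]
  have hspec : spectrum ℂ (T ^ N) = closure (wt ψ φ N '' U) := by rw [hpow, mul_spectrum]
  have hmapspec : spectrum ℂ (T ^ N) = (· ^ N) '' spectrum ℂ T :=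
    spectrum.map_pow_of_pos T hN
  -- there is an interior fixed point
  obtain ⟨p, hp, hfix⟩ : ∃ p ∈ U, mob a b p = p := by
    rcases dichotomy h with hell | ⟨ζ, κ, τ, hζ, hκ, hτ, hL⟩
    · exact hell
    · exfalso
      by_cases hκ1 : κ = 1
      · have hit : ∀ n : ℕ, ∀ z ∈ U, L0 ζ (φ^[n] z) = L0 ζ z + n * τ * I := by
          intro n
          induction n with
          | zero => intro z _; simp
          | succ n ih =>
            intro z hz
            rw [Function.iterate_succ_apply', hφ _ (iter_mem hmaps n hz),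
              hL _ (iter_mem hmaps n hz), ih z hz, hκ1]
            push_cast; ring
        have h1 := hit N 0 zero_mem_U
        rw [hNid 0 zero_mem_U] at h1
        have h2 : (N : ℂ) * τ * I = 0 := by linear_combination -h1
        have h3 : (N : ℂ) ≠ 0 := by exact_mod_cast hN.ne'
        have h4 : (τ : ℂ) ≠ 0 := by exact_mod_cast hτ hκ1
        exact (mul_ne_zero (mul_ne_zero h3 h4) I_ne_zero) h2
      · set η := τ / (1 - κ) with hη
        have hstep : ∀ z ∈ U, Lh ζ η (mob a b z) = κ * Lh ζ η z := by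
          intro z hz
          have h1 : (1 : ℝ) - κ ≠ 0 := sub_ne_zero.2 (Ne.symm hκ1)
          have h2 : (1 : ℂ) - κ ≠ 0 := by exact_mod_cast h1
          rw [Lh, Lh, hL z hz, hη]
          push_cast
          field_simp
          ring
        have hit : ∀ n : ℕ, ∀ z ∈ U, Lh ζ η (φ^[n] z) = κ ^ n * Lh ζ η z := by
          intro n
          induction n with
          | zero => intro z _; simp
          | succ n ih =>
            intro z hz
            rw [Function.iterate_succ_apply', hφ _ (iter_mem hmaps n hz),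
              hstep _ (iter_mem hmaps n hz), ih z hz]
            ring
        have h1 := hit N 0 zero_mem_U
        rw [hNid 0 zero_mem_U] at h1
        have h2 : (κ : ℂ) ^ N = 1 := by
          have h3 := Lh_ne hζ η zero_mem_U
          have h4 : ((κ : ℂ) ^ N - 1) * Lh ζ η 0 = 0 := by linear_combination -h1
          rcases mul_eq_zero.1 h4 with h5 | h5
          · exact sub_eq_zero.1 h5
          · exact absurd h5 h3
        have h3 : κ ^ N = 1 := by exact_mod_cast h2
        exact hκ1 ((pow_eq_one_iff_of_nonneg hκ.le hN.ne').1 h3)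
  set w := om a b p with hw
  -- a point different from `p`
  obtain ⟨q, hq, hqp⟩ : ∃ q ∈ U, q ≠ p := by
    by_cases hp0 : p = 0
    · exact ⟨1 / 2, by rw [mem_U_iff]; norm_num, by rw [hp0]; norm_num⟩
    · exact ⟨0, zero_mem_U, fun h0 => hp0 h0.symm⟩
  have hbq : bl p q ≠ 0 := fun h0 => hqp (bl_inj hp hq hp (by rw [h0, mob_fix_bl p]))
  have hwN : w ^ N = 1 := by
    have h1 := bl_iter h hφ hp hfix N hq
    rw [hNid q hq] at h1
    have h4 : (w ^ N - 1) * bl p q = 0 := by rw [hw]; linear_combination -h1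
    rcases mul_eq_zero.1 h4 with h5 | h5
    · exact sub_eq_zero.1 h5
    · exact absurd h5 hbq
  have hprim : IsPrimitiveRoot w N := by
    rw [IsPrimitiveRoot.iff hN]
    refine ⟨hwN, fun m hm hmN h1 => ?_⟩
    obtain ⟨z, hz, hne⟩ := hmin m hm hmN
    have h2 := bl_iter h hφ hp hfix m hz
    rw [← hw, h1, one_mul] at h2
    exact hne (bl_inj hp (iter_mem hmaps m hz) hz h2)
  have hw0 : w ≠ 0 := hprim.ne_zero hN.ne'
  have hrot : ∀ l ∈ spectrum ℂ T, w * l ∈ spectrum ℂ T := by
    intro l hl hres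
    have := res_rot hT h hφ hp hfix hres
    rw [← hw, inv_mul_cancel_left₀ hw0] at this
    exact hl this
  have hrotn : ∀ n : ℕ, ∀ l ∈ spectrum ℂ T, w ^ n * l ∈ spectrum ℂ T := by
    intro n
    induction n with
    | zero => intro l hl; simpa using hl
    | succ n ih =>
      intro l hl
      have := hrot _ (ih l hl)
      rwa [← mul_assoc, ← pow_succ'] at this
  ext l
  constructor
  · intro hl
    change l ^ N ∈ closure (wt ψ φ N '' U)
    rw [← hspec, hmapspec]
    exact ⟨l, hl, rfl⟩
  · intro hl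
    have hl' : l ^ N ∈ closure (wt ψ φ N '' U) := hl
    rw [← hspec, hmapspec] at hl'
    obtain ⟨m, hm, hml⟩ := hl'
    have hml' : m ^ N = l ^ N := hml
    by_cases hm0 : m = 0
    · rw [hm0, zero_pow hN.ne'] at hml'
      have : l = 0 := (pow_eq_zero_iff hN.ne').1 hml'.symm
      rw [this, ← hm0]; exact hm
    · have h1 : (l / m) ^ N = 1 := by
        rw [div_pow, ← hml', div_self (pow_ne_zero N hm0)]
      have : NeZero N := ⟨hN.ne'⟩
      obtain ⟨j, _, hj⟩ := hprim.eq_pow_of_pow_eq_one h1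
      have h2 := hrotn j m hm
      rwa [hj, div_mul_cancel₀ _ hm0] at h2

end Pool.Agent.Helper289.Hardy
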