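import Mathlib

/-! The Riesz idempotent of a circle in the resolvent set. -/

namespace Pool.Agent.Helper289.Gap

open Metric Complex Set MeasureTheory Filter Topology
open scoped Real

set_option linter.unusedSectionVars false

variable {A : Type*} [NormedRing A] [NormedAlgebra ℂ A] [CompleteSpace A]

theorem res_left {x : A} {z : ℂ} (hz : z ∈ resolventSet ℂ x) :
    (z • (1 : A) - x) * resolvent x z = 1 := by
  rw [resolvent, Algebra.algebraMap_eq_smul_one]
  have : IsUnit (z • (1 : A) - x) := by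
    rw [← Algebra.algebraMap_eq_smul_one]; exact hz
  exact Ring.mul_inverse_cancel _ this

theorem res_right {x : A} {z : ℂ} (hz : z ∈ resolventSet ℂ x) :
    resolvent x z * (z • (1 : A) - x) = 1 := by
  rw [resolvent, Algebra.algebraMap_eq_smul_one]
  have : IsUnit (z • (1 : A) - x) := by
    rw [← Algebra.algebraMap_eq_smul_one]; exact hz
  exact Ring.inverse_mul_cancel _ this

theorem mem_res_of {x s : A} {w : ℂ} (h1 : (w • (1 : A) - x) * s = 1)
    (h2 : s * (w • (1 : A) - x) = 1) : w ∈ resolventSet ℂ x := by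
  change IsUnit (algebraMap ℂ A w - x)
  rw [Algebra.algebraMap_eq_smul_one]
  exact ⟨⟨_, s, h1, h2⟩, rfl⟩

theorem x_mul_res {x : A} {z : ℂ} (hz : z ∈ resolventSet ℂ x) :
    x * resolvent x z = z • resolvent x z - 1 := by
  have := res_left hz
  rw [sub_mul, smul_mul_assoc, one_mul] at this
  rw [← this]; abel

theorem res_cont {x : A} {z : ℂ} (hz : z ∈ resolventSet ℂ x) :
    ContinuousAt (fun z : ℂ => resolvent x z) z :=
  (spectrum.hasDerivAt_resolvent_const_left hz).continuousAt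

theorem norm_cm (r t : ℝ) (hr : 0 ≤ r) : ‖circleMap 0 r t‖ = r := by
  simp [circleMap, abs_of_nonneg hr]

/-- continuity of a slice of a function which is continuous near the circle -/
theorem slice_cont {f : ℂ → A} {r : ℝ} (hr : 0 ≤ r) (hf : ∀ z, ‖z‖ = r → ContinuousAt f z) :
    Continuous fun t : ℝ => f (circleMap 0 r t) := by
  rw [continuous_iff_continuousAt]
  intro t
  exact ContinuousAt.comp (f := fun t : ℝ => circleMap 0 r t) (g := f)
    (hf _ (norm_cm r t hr)) (by fun_prop)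

theorem av_integrable {f : ℂ → A} {r : ℝ} (hr : 0 ≤ r) (hf : ∀ z, ‖z‖ = r → ContinuousAt f z) :
    CircleIntegrable f 0 r := by
  unfold CircleIntegrable
  exact (slice_cont hr hf).intervalIntegrable _ _

theorem av_congr {f g : ℂ → A} {r : ℝ} (hr : 0 ≤ r) (h : ∀ z, ‖z‖ = r → f z = g z) :
    Real.circleAverage f 0 r = Real.circleAverage g 0 r := by
  refine Real.circleAverage_congr_sphere fun z hz => ?_
  refine h z ?_
  rw [abs_of_nonneg hr] at hz
  simpa using hz

theorem av_mul_left (b : A) {f : ℂ → A} {r : ℝ} (hr : 0 ≤ r)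
    (hf : ∀ z, ‖z‖ = r → ContinuousAt f z) :
    b * Real.circleAverage f 0 r = Real.circleAverage (fun z => b * f z) 0 r :=
  ((ContinuousLinearMap.mul ℝ A b).circleAverage_comp_comm (av_integrable hr hf)).symm

theorem av_mul_right (b : A) {f : ℂ → A} {r : ℝ} (hr : 0 ≤ r)
    (hf : ∀ z, ‖z‖ = r → ContinuousAt f z) :
    Real.circleAverage f 0 r * b = Real.circleAverage (fun z => f z * b) 0 r :=
  (((ContinuousLinearMap.mul ℝ A).flip b).circleAverage_comp_comm (av_integrable hr hf)).symm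

theorem av_rotate (f : ℂ → A) (r : ℝ) {u : ℂ} (hu : ‖u‖ = 1) :
    Real.circleAverage (fun z => f (u * z)) 0 r = Real.circleAverage f 0 r := by
  obtain ⟨η, hη⟩ : ∃ η : ℝ, u = exp (η * I) := by
    refine ⟨arg u, ?_⟩
    have := Complex.norm_mul_exp_arg_mul_I u
    rw [hu] at this
    simpa using this.symm
  rw [Real.circleAverage_eq_integral_add (f := f) η, Real.circleAverage]
  congr 1
  refine intervalIntegral.integral_congr fun t _ => ?_
  simp only [circleMap, zero_add]
  congr 1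
  rw [hη]
  push_cast
  rw [add_mul, exp_add]
  ring

theorem av_const (b : A) (r : ℝ) : Real.circleAverage (fun _ => b) (0 : ℂ) r = b :=
  Real.circleAverage_const b 0 r

theorem av_smul_const (g : ℂ → ℂ) (b : A) (r : ℝ) :
    Real.circleAverage (fun z => g z • b) 0 r = (Real.circleAverage g 0 r) • b := by
  unfold Real.circleAverage
  rw [intervalIntegral.integral_smul_const, smul_assoc]

/-- Average of `z^m`. -/
theorem av_zpow (m : ℤ) {r : ℝ} (hr : 0 < r) :
    Real.circleAverage (fun z : ℂ => z ^ m) 0 r = if m = 0 then 1 else 0 := by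
  split_ifs with hm
  · subst hm
    simp only [zpow_zero]
    exact Real.circleAverage_const (1 : ℂ) 0 r
  · rw [Real.circleAverage_eq_circleIntegral hr.ne']
    have : (∮ z in C(0, r), (z - 0)⁻¹ • z ^ m) = ∮ z in C(0, r), (z - 0) ^ (m - 1) := by
      refine circleIntegral.integral_congr hr.le fun z hz => ?_
      have hz0 : z ≠ 0 := by
        rintro rfl
        simp at hz
        exact hr.ne hz
      simp only [sub_zero, smul_eq_mul]
      rw [zpow_sub₀ hz0, zpow_one]
      field_simp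
    rw [this, circleIntegral.integral_sub_zpow_of_ne (by omega), smul_zero]

theorem av_norm_le {f : ℂ → A} {r M : ℝ} (hr : 0 ≤ r) (h : ∀ z, ‖z‖ = r → ‖f z‖ ≤ M) :
    ‖Real.circleAverage f 0 r‖ ≤ M := by
  unfold Real.circleAverage
  rw [norm_smul]
  have h1 := intervalIntegral.norm_integral_le_of_norm_le_const (a := 0) (b := 2 * π)
    (f := fun t => f (circleMap 0 r t)) (C := M) (fun t _ => h _ (norm_cm r t hr))
  rw [sub_zero, abs_of_pos Real.two_pi_pos] at h1
  rw [Real.norm_of_nonneg (by positivity)]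
  have h2 : (2 * π)⁻¹ * (M * (2 * π)) = M := by field_simp
  calc _ ≤ (2 * π)⁻¹ * (M * (2 * π)) := by gcongr
    _ = M := h2

/-- Laurent coefficients of the resolvent. -/
noncomputable def lau (x : A) (r : ℝ) (n : ℤ) : A :=
  Real.circleAverage (fun z : ℂ => z ^ (n + 1) • resolvent x z) 0 r

theorem lau_cont {x : A} {r : ℝ} (hr : 0 < r) (hS : ∀ z : ℂ, ‖z‖ = r → z ∈ resolventSet ℂ x) (n : ℤ)
    (z : ℂ) (hz : ‖z‖ = r) : ContinuousAt (fun z : ℂ => z ^ n • resolvent x z) z := by
  refine ContinuousAt.smul ?_ (res_cont (hS z hz))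
  refine continuousAt_zpow₀ z n (Or.inl ?_)
  rintro rfl
  rw [norm_zero] at hz
  exact hr.ne hz

theorem lau_step {x : A} {r : ℝ} (hr : 0 < r) (hS : ∀ z : ℂ, ‖z‖ = r → z ∈ resolventSet ℂ x)
    (n : ℤ) : x * lau x r n = lau x r (n + 1) - if n + 1 = 0 then 1 else 0 := by
  have h0 : ∀ z : ℂ, ‖z‖ = r → z ≠ 0 := by
    rintro _ hz rfl
    rw [norm_zero] at hz
    exact hr.ne hz
  rw [lau, av_mul_left x hr.le (lau_cont hr hS (n + 1)),
    av_congr (g := fun z : ℂ => z ^ (n + 1 + 1) • resolvent x z - z ^ (n + 1) • (1 : A)) hr.le]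
  · have e : (fun z : ℂ => z ^ (n + 1 + 1) • resolvent x z - z ^ (n + 1) • (1 : A)) =
      (fun z : ℂ => z ^ (n + 1 + 1) • resolvent x z) - (fun z : ℂ => z ^ (n + 1) • (1 : A)) := rfl
    rw [e, Real.circleAverage_sub, ← lau, av_smul_const, av_zpow _ hr]
    · split_ifs <;> simp
    · exact av_integrable hr.le (lau_cont hr hS (n + 1 + 1))
    · refine av_integrable hr.le fun z hz => ?_
      exact (continuousAt_zpow₀ z _ (Or.inl (h0 z hz))).smul continuousAt_const
  · intro z hz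
    rw [mul_smul_comm, x_mul_res (hS z hz), smul_sub, smul_smul, zpow_add_one₀ (h0 z hz) (n + 1)]

theorem lau_comm {x : A} {r : ℝ} (hr : 0 < r) (hS : ∀ z : ℂ, ‖z‖ = r → z ∈ resolventSet ℂ x)
    {b : A} {c : ℂ} (hc : ‖c‖ = 1) (hb : x * b = c • (b * x)) :
    lau x r 0 * b = b * lau x r 0 := by
  have hc0 : c ≠ 0 := by rintro rfl; simp at hc
  have hci : ‖c⁻¹‖ = 1 := by rw [norm_inv, hc, inv_one]
  rw [lau, av_mul_left b hr.le (lau_cont hr hS _), av_mul_right b hr.le (lau_cont hr hS _),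
    ← av_rotate (fun z : ℂ => b * z ^ ((0 : ℤ) + 1) • resolvent x z) r hci]
  refine av_congr hr.le fun z hz => ?_
  have hz' : ‖c⁻¹ * z‖ = r := by rw [norm_mul, hci, one_mul, hz]
  have h1 := res_right (hS z hz)
  have h2 := res_left (hS _ hz')
  have h3 : (z • (1 : A) - x) * b = c • (b * ((c⁻¹ * z) • (1 : A) - x)) := by
    rw [sub_mul, smul_mul_assoc, one_mul, hb, mul_sub, mul_smul_comm, mul_one, smul_sub,
      smul_smul, mul_inv_cancel_left₀ hc0]
  have h4 : resolvent x z * b = c⁻¹ • (b * resolvent x (c⁻¹ * z)) := by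
    have : b * resolvent x (c⁻¹ * z) = c • (resolvent x z * b) := by
      calc b * resolvent x (c⁻¹ * z)
          = resolvent x z * ((z • (1 : A) - x) * b) * resolvent x (c⁻¹ * z) := by
            rw [← mul_assoc, h1, one_mul]
        _ = c • (resolvent x z * b) := by
            rw [h3, mul_smul_comm, smul_mul_assoc, ← mul_assoc, mul_assoc, h2, mul_one]
    rw [this, smul_smul, inv_mul_cancel₀ hc0, one_smul]
  simp only [zero_add, zpow_one]
  rw [smul_mul_assoc, h4, smul_smul, mul_smul_comm]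
  congr 1
  ring

theorem lau_pow {x : A} {r : ℝ} (hr : 0 < r) (hS : ∀ z : ℂ, ‖z‖ = r → z ∈ resolventSet ℂ x)
    (n : ℕ) : x ^ n * lau x r 0 = lau x r n := by
  induction n with
  | zero => simp
  | succ n ih =>
    rw [pow_succ', mul_assoc, ih, lau_step hr hS, if_neg (by omega), sub_zero]
    push_cast; rfl

theorem lau_neg_pow {x : A} {r : ℝ} (hr : 0 < r) (hS : ∀ z : ℂ, ‖z‖ = r → z ∈ resolventSet ℂ x)
    (n : ℕ) : x ^ (n + 1) * lau x r (-(n + 1 : ℕ)) = lau x r 0 - 1 := by
  induction n with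
  | zero =>
    rw [zero_add, pow_one, lau_step hr hS]
    simp
  | succ n ih =>
    rw [pow_succ, mul_assoc, lau_step hr hS, if_neg (by push_cast; omega), sub_zero]
    have : (-((n + 1 + 1 : ℕ) : ℤ) + 1) = -((n + 1 : ℕ) : ℤ) := by push_cast; ring
    rw [this]
    exact ih

theorem lau_indep {x : A} {r r' : ℝ} (hr : 0 < r) (hrr : r ≤ r')
    (hS : ∀ z : ℂ, r ≤ ‖z‖ → ‖z‖ ≤ r' → z ∈ resolventSet ℂ x) (n : ℤ) :
    lau x r' n = lau x r n := by
  have h0 : ∀ z : ℂ, r ≤ ‖z‖ → z ≠ 0 := by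
    rintro _ hz rfl
    rw [norm_zero] at hz
    linarith
  rw [lau, lau, Real.circleAverage_eq_circleIntegral (hr.trans_le hrr).ne',
    Real.circleAverage_eq_circleIntegral hr.ne']
  congr 1
  have hdiff : ∀ z : ℂ, r ≤ ‖z‖ → ‖z‖ ≤ r' →
      DifferentiableAt ℂ (fun z : ℂ => z ^ (n + 1) • resolvent x z) z := fun z h1 h2 =>
    (differentiableAt_zpow.2 (Or.inl (h0 z h1))).smul
      (spectrum.hasDerivAt_resolvent_const_left (hS z h1 h2)).differentiableAt
  refine Complex.circleIntegral_sub_center_inv_smul_eq_of_differentiable_on_annulus_off_countable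
    hr hrr countable_empty ?_ ?_
  · intro z hz
    have h1 : r ≤ ‖z‖ := by
      have := hz.2; simpa using this
    have h2 : ‖z‖ ≤ r' := by
      have := hz.1; simpa using this
    exact (hdiff z h1 h2).continuousAt.continuousWithinAt
  · rintro z ⟨⟨hz1, hz2⟩, -⟩
    have h1 : r < ‖z‖ := by simpa using hz2
    have h2 : ‖z‖ < r' := by simpa using hz1
    exact hdiff z h1.le h2.le

theorem exists_annulus {x : A} {r : ℝ} (hr : 0 < r)
    (hS : ∀ z : ℂ, ‖z‖ = r → z ∈ resolventSet ℂ x) :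
    ∃ r1 r2 : ℝ, 0 < r1 ∧ r1 < r ∧ r < r2 ∧
      ∀ z : ℂ, r1 ≤ ‖z‖ → ‖z‖ ≤ r2 → z ∈ resolventSet ℂ x := by
  have hK : IsCompact ((fun z : ℂ => ‖z‖) '' spectrum ℂ x) :=
    (spectrum.isCompact x).image continuous_norm
  have hr' : r ∉ (fun z : ℂ => ‖z‖) '' spectrum ℂ x := by
    rintro ⟨z, hz, hzr⟩
    exact hz (hS z hzr)
  have hopen := hK.isClosed.isOpen_compl.mem_nhds hr'
  obtain ⟨ε, hε, hball⟩ := Metric.mem_nhds_iff.1 hopen
  refine ⟨max (r - ε / 2) (r / 2), r + ε / 2, by positivity, ?_, by linarith, ?_⟩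
  · refine max_lt (by linarith) (by linarith)
  · intro z h1 h2
    by_contra hz
    have h3 : ‖z‖ ∈ ball r ε := by
      rw [mem_ball, Real.dist_eq, abs_lt]
      have := le_max_left (r - ε / 2) (r / 2)
      constructor <;> linarith
    exact hball h3 ⟨z, hz, rfl⟩

theorem lau_idem {x : A} {r : ℝ} (hr : 0 < r) (hS : ∀ z : ℂ, ‖z‖ = r → z ∈ resolventSet ℂ x) :
    lau x r 0 * lau x r 0 = lau x r 0 := by
  obtain ⟨r1, r2, h0, h1, h2, hann⟩ := exists_annulus hr hS
  have hS1 : ∀ z : ℂ, ‖z‖ = r1 → z ∈ resolventSet ℂ x := fun z hz =>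
    hann z hz.ge (by linarith)
  have hS2 : ∀ z : ℂ, ‖z‖ = r2 → z ∈ resolventSet ℂ x := fun z hz =>
    hann z (by linarith) hz.le
  have e1 : ∀ n, lau x r n = lau x r1 n := fun n =>
    lau_indep h0 h1.le (fun z hz hz' => hann z hz (by linarith)) n
  have e2 : ∀ n, lau x r2 n = lau x r n := fun n =>
    lau_indep hr h2.le (fun z hz hz' => hann z (by linarith) hz') n
  obtain ⟨M, hM⟩ : ∃ M : ℝ, ∀ z : ℂ, r1 ≤ ‖z‖ → ‖z‖ ≤ r2 → ‖resolvent x z‖ ≤ M := by
    have hcomp : IsCompact (closedBall (0 : ℂ) r2 \ ball 0 r1) :=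
      (isCompact_closedBall 0 r2).diff isOpen_ball
    obtain ⟨M, hM⟩ := hcomp.exists_bound_of_continuousOn (f := fun z : ℂ => resolvent x z)
      (fun z hz => (res_cont (hann z (by simpa using hz.2)
        (by simpa using hz.1))).continuousWithinAt)
    exact ⟨M, fun z h h' => hM z ⟨by simpa using h', by simpa using h⟩⟩
  have hM0 : 0 ≤ M := by
    have := hM (r : ℂ) (by simp [abs_of_pos hr, h1.le]) (by simp [abs_of_pos hr, h2.le])
    exact (norm_nonneg _).trans this
  have hr2 : 0 < r2 := hr.trans h2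
  set p := lau x r 0 with hp
  have hcomm : p * x = x * p := lau_comm hr hS (c := 1) (by simp) (by simp)
  have key : ∀ n : ℕ, ‖p * (p - 1)‖ ≤ (M * M * r1 * r1) * (r1 / r2) ^ n := by
    intro n
    have hcn : p * x ^ (n + 1) = x ^ (n + 1) * p := (Commute.pow_right hcomm (n + 1)).eq
    have e3 : p * (p - 1) = lau x r1 (n + 1 : ℕ) * lau x r2 (-(n + 1 : ℕ)) := by
      rw [e2, ← e1, ← lau_pow hr hS, ← hp, ← hcn, mul_assoc, lau_neg_pow hr hS]
    rw [e3]
    have b1 : ‖lau x r1 (n + 1 : ℕ)‖ ≤ r1 ^ (n + 2) * M := by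
      refine av_norm_le h0.le fun z hz => ?_
      rw [norm_smul, norm_zpow, hz]
      have : (r1 : ℝ) ^ (((n + 1 : ℕ) : ℤ) + 1) = r1 ^ (n + 2) := by
        rw [← zpow_natCast]; congr 1
      rw [this]
      exact mul_le_mul_of_nonneg_left (hM z hz.ge (by linarith)) (by positivity)
    have b2 : ‖lau x r2 (-(n + 1 : ℕ))‖ ≤ (r2 ^ n)⁻¹ * M := by
      refine av_norm_le hr2.le fun z hz => ?_
      rw [norm_smul, norm_zpow, hz]
      have : (r2 : ℝ) ^ (-((n + 1 : ℕ) : ℤ) + 1) = (r2 ^ n)⁻¹ := by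
        rw [← zpow_natCast, ← zpow_neg]; congr 1; push_cast; ring
      rw [this]
      exact mul_le_mul_of_nonneg_left (hM z (by linarith) hz.le) (by positivity)
    have hfin : r1 ^ (n + 2) * M * ((r2 ^ n)⁻¹ * M) = (M * M * r1 * r1) * (r1 / r2) ^ n := by
      rw [div_pow]; ring
    rw [← hfin]
    refine (norm_mul_le _ _).trans ?_
    exact mul_le_mul b1 b2 (norm_nonneg _) (by positivity)
  have hlt : r1 / r2 < 1 := by rw [div_lt_one hr2]; linarith
  have hlim : Tendsto (fun n : ℕ => (M * M * r1 * r1) * (r1 / r2) ^ n) atTop (𝓝 0) := by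
    have := (tendsto_pow_atTop_nhds_zero_of_lt_one (by positivity) hlt).const_mul
      (M * M * r1 * r1)
    rwa [mul_zero] at this
  have h5 : ‖p * (p - 1)‖ ≤ 0 := ge_of_tendsto' hlim key
  have h6 : p * (p - 1) = 0 := norm_le_zero_iff.1 h5
  rw [mul_sub, mul_one] at h6
  exact sub_eq_zero.1 h6

/-- The Cauchy transform of the resolvent. -/
noncomputable def cau (x : A) (r : ℝ) (w : ℂ) : A :=
  Real.circleAverage (fun z : ℂ => (z / (z - w)) • resolvent x z) 0 r

theorem cau_cont {x : A} {r : ℝ} (hS : ∀ z : ℂ, ‖z‖ = r → z ∈ resolventSet ℂ x)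
    {w : ℂ} (hw : ‖w‖ ≠ r) (z : ℂ) (hz : ‖z‖ = r) :
    ContinuousAt (fun z : ℂ => (z / (z - w)) • resolvent x z) z := by
  refine ContinuousAt.smul ?_ (res_cont (hS z hz))
  refine ContinuousAt.div continuousAt_id (continuousAt_id.sub continuousAt_const) ?_
  intro h
  rw [sub_eq_zero] at h
  exact hw (h ▸ hz)

theorem cau_eq {x : A} {r : ℝ} (hr : 0 < r) (hS : ∀ z : ℂ, ‖z‖ = r → z ∈ resolventSet ℂ x)
    {w : ℂ} (hw : ‖w‖ ≠ r) :
    (w • (1 : A) - x) * cau x r w =
      (Real.circleAverage (fun z : ℂ => z / (z - w)) 0 r) • (1 : A) - lau x r 0 ∧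
    cau x r w * (w • (1 : A) - x) =
      (Real.circleAverage (fun z : ℂ => z / (z - w)) 0 r) • (1 : A) - lau x r 0 := by
  have hne : ∀ z : ℂ, ‖z‖ = r → z - w ≠ 0 := fun z hz h => by
    rw [sub_eq_zero] at h
    exact hw (h ▸ hz)
  have hfin : Real.circleAverage (fun z : ℂ => (z / (z - w)) • (1 : A) -
      z ^ ((0 : ℤ) + 1) • resolvent x z) 0 r =
      (Real.circleAverage (fun z : ℂ => z / (z - w)) 0 r) • (1 : A) - lau x r 0 := by
    have e : (fun z : ℂ => (z / (z - w)) • (1 : A) - z ^ ((0 : ℤ) + 1) • resolvent x z) =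
      (fun z : ℂ => (z / (z - w)) • (1 : A)) -
        (fun z : ℂ => z ^ ((0 : ℤ) + 1) • resolvent x z) := rfl
    rw [e, Real.circleAverage_sub, ← lau, av_smul_const]
    · refine av_integrable hr.le fun z hz => ?_
      exact (ContinuousAt.div continuousAt_id (continuousAt_id.sub continuousAt_const)
        (hne z hz)).smul continuousAt_const
    · exact av_integrable hr.le (lau_cont hr hS _)
  have hcoef : ∀ z : ℂ, ‖z‖ = r → z / (z - w) * (w - z) = -z := fun z hz => by
    have := hne z hz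
    field_simp
    ring
  constructor
  · rw [← hfin, cau, av_mul_left _ hr.le (cau_cont hS hw)]
    refine av_congr hr.le fun z hz => ?_
    have h1 : (w • (1 : A) - x) * resolvent x z = (w - z) • resolvent x z + 1 := by
      have e : w • (1 : A) - x = (w - z) • (1 : A) + (z • (1 : A) - x) := by
        rw [sub_smul]; abel
      rw [e, add_mul, res_left (hS z hz), smul_mul_assoc, one_mul]
    rw [mul_smul_comm, h1, smul_add, smul_smul, hcoef z hz, zero_add, zpow_one, neg_smul]
    abel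
  · rw [← hfin, cau, av_mul_right _ hr.le (cau_cont hS hw)]
    refine av_congr hr.le fun z hz => ?_
    have h1 : resolvent x z * (w • (1 : A) - x) = (w - z) • resolvent x z + 1 := by
      have e : w • (1 : A) - x = (w - z) • (1 : A) + (z • (1 : A) - x) := by
        rw [sub_smul]; abel
      rw [e, mul_add, res_right (hS z hz), mul_smul_comm, mul_one]
    rw [smul_mul_assoc, h1, smul_add, smul_smul, hcoef z hz, zero_add, zpow_one, neg_smul]
    abel

theorem av_inside {r : ℝ} (hr : 0 < r) {w : ℂ} (hw : ‖w‖ < r) :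
    Real.circleAverage (fun z : ℂ => z / (z - w)) 0 r = 1 := by
  rw [Real.circleAverage_eq_circleIntegral hr.ne']
  have : (∮ z in C(0, r), (z - 0)⁻¹ • (z / (z - w))) = ∮ z in C(0, r), (z - w)⁻¹ := by
    refine circleIntegral.integral_congr hr.le fun z hz => ?_
    have hz0 : z ≠ 0 := by
      rintro rfl
      simp at hz
      exact hr.ne hz
    simp only [sub_zero, smul_eq_mul]
    field_simp
  rw [this, circleIntegral.integral_sub_inv_of_mem_ball (by simpa using hw), smul_eq_mul,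
    inv_mul_cancel₀]
  exact Complex.two_pi_I_ne_zero

theorem av_outside {r : ℝ} (hr : 0 < r) {w : ℂ} (hw : r < ‖w‖) :
    Real.circleAverage (fun z : ℂ => z / (z - w)) 0 r = 0 := by
  rw [Real.circleAverage_eq_circleIntegral hr.ne']
  have : (∮ z in C(0, r), (z - 0)⁻¹ • (z / (z - w))) = ∮ z in C(0, r), (z - w)⁻¹ := by
    refine circleIntegral.integral_congr hr.le fun z hz => ?_
    have hz0 : z ≠ 0 := by
      rintro rfl
      simp at hz
      exact hr.ne hz
    simp only [sub_zero, smul_eq_mul]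
    field_simp
  have hne : ∀ z : ℂ, ‖z‖ ≤ r → z - w ≠ 0 := fun z hz h => by
    rw [sub_eq_zero] at h
    rw [h] at hz
    linarith
  rw [this, Complex.circleIntegral_eq_zero_of_differentiable_on_off_countable hr.le
    countable_empty, smul_zero]
  · intro z hz
    have hd : DifferentiableAt ℂ (fun z : ℂ => (z - w)⁻¹) z :=
      DifferentiableAt.inv (by fun_prop) (hne z (by simpa using hz))
    exact hd.continuousAt.continuousWithinAt
  · rintro z ⟨hz, -⟩
    have hz' : ‖z‖ < r := by simpa using hz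
    exact DifferentiableAt.inv (by fun_prop) (hne z hz'.le)

/-- **Gap lemma.** -/
theorem gap (x : A) {r : ℝ} (hr : 0 < r) (hS : ∀ z : ℂ, ‖z‖ = r → z ∈ resolventSet ℂ x) :
    ∃ p : A, p * p = p ∧ (p = 0 → ∀ z : ℂ, ‖z‖ < r → z ∈ resolventSet ℂ x) ∧
      (p = 1 → ∀ z : ℂ, r < ‖z‖ → z ∈ resolventSet ℂ x) ∧
      (∀ b : A, ∀ c : ℂ, ‖c‖ = 1 → x * b = c • (b * x) → p * b = b * p) := by
  refine ⟨lau x r 0, lau_idem hr hS, ?_, ?_, fun b c hc hb => lau_comm hr hS hc hb⟩
  · intro hp w hw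
    obtain ⟨h1, h2⟩ := cau_eq hr hS hw.ne
    rw [av_inside hr hw, hp, one_smul, sub_zero] at h1 h2
    exact mem_res_of h1 h2
  · intro hp w hw
    obtain ⟨h1, h2⟩ := cau_eq hr hS hw.ne'
    rw [av_outside hr hw, hp, zero_smul, zero_sub] at h1 h2
    refine mem_res_of (s := -cau x r w) ?_ ?_
    · rw [mul_neg, h1, neg_neg]
    · rw [neg_mul, h2, neg_neg]

end Pool.Agent.Helper289.Gap
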