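import Pool.Agent.Helper289.HardyAut

/-! Multipliers which intertwine a disc automorphism with a rotation of the weight. -/

namespace Pool.Agent.Helper289.Hardy

open Metric Complex Set MeasureTheory Filter Topology
open scoped Real ComplexConjugate InnerProductSpace

variable {a b : ℂ}

/-- `g ∘ φ = c g` with `|c| = 1` and `g` bounded analytic. -/
def Intw (φ g : ℂ → ℂ) (c : ℂ) : Prop := BA g ∧ ‖c‖ = 1 ∧ ∀ z ∈ U, g (φ z) = c * g z

/-! ### Elliptic case -/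

/-- The scale factor. -/
noncomputable def sc (p : ℂ) : ℝ := √(1 - ‖p‖ ^ 2)

theorem sc_pos {p : ℂ} (hp : p ∈ U) : 0 < sc p := Real.sqrt_pos.2 (one_sub_pos hp)

theorem sc_sq {p : ℂ} (hp : p ∈ U) : sc p ^ 2 = 1 - ‖p‖ ^ 2 := Real.sq_sqrt (one_sub_pos hp).le

theorem SU_bl {p : ℂ} (hp : p ∈ U) : SU ((sc p : ℂ)⁻¹) (-p / sc p) := by
  have h1 := sc_pos hp
  have h2 := sc_sq hp
  unfold SU
  rw [normSq_eq_norm_sq, normSq_eq_norm_sq, norm_inv, norm_div, norm_neg, Complex.norm_real,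
    Real.norm_of_nonneg h1.le]
  field_simp
  linarith

/-- The Blaschke factor `(z - p) / (1 - p̄ z)`. -/
noncomputable def bl (p z : ℂ) : ℂ := (z - p) / (1 - conj p * z)

theorem bl_den {p z : ℂ} (hp : p ∈ U) (hz : z ∈ U) : 1 - conj p * z ≠ 0 := by
  intro h
  rw [sub_eq_zero] at h
  have h1 : ‖conj p * z‖ < 1 := by
    rw [norm_mul, RCLike.norm_conj]
    have h1 := mem_U_iff.1 hp
    have h2 := mem_U_iff.1 hz
    nlinarith [norm_nonneg p, norm_nonneg z]
  rw [← h, norm_one] at h1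
  exact lt_irrefl _ h1

theorem mob_bl {p z : ℂ} (hp : p ∈ U) (hz : z ∈ U) :
    mob ((sc p : ℂ)⁻¹) (-p / sc p) z = bl p z := by
  have h1 : (sc p : ℂ) ≠ 0 := by exact_mod_cast (sc_pos hp).ne'
  have h2 := bl_den hp hz
  rw [mob, num, den, bl, map_div₀, map_inv₀, map_neg, conj_ofReal]
  have h3 : -conj p / (sc p : ℂ) * z + (sc p : ℂ)⁻¹ = (1 - conj p * z) / sc p := by
    field_simp; ring
  have h4 : (sc p : ℂ)⁻¹ * z + -p / sc p = (z - p) / sc p := by
    field_simp; ring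
  rw [h3, h4, div_div_div_cancel_right₀ h1]

theorem bl_mem {p z : ℂ} (hp : p ∈ U) (hz : z ∈ U) : bl p z ∈ U := by
  rw [← mob_bl hp hz]; exact mob_mem (SU_bl hp) hz

theorem BA_bl {p : ℂ} (hp : p ∈ U) : BA (bl p) :=
  ⟨(mob_diff (SU_bl hp)).congr fun _ hz => (mob_bl hp hz).symm, 1,
    fun _ hz => (mem_U_iff.1 (bl_mem hp hz)).le⟩

/-- The multiplier of the fixed point. -/
noncomputable def om (a b p : ℂ) : ℂ := conj (den a b p) / den a b p

theorem om_norm (h : SU a b) {p : ℂ} (hp : p ∈ U) : ‖om a b p‖ = 1 := by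
  rw [om, norm_div, RCLike.norm_conj, div_self (norm_ne_zero_iff.2 (den_ne h hp))]

theorem su_mul (h : SU a b) : a * conj a - b * conj b = 1 := by
  unfold SU at h
  rw [mul_conj, mul_conj]
  exact_mod_cast h

theorem bl_mob (h : SU a b) {p : ℂ} (hp : p ∈ U) (hfix : mob a b p = p) {z : ℂ} (hz : z ∈ U) :
    bl p (mob a b z) = om a b p * bl p z := by
  have h1 := den_ne h hp
  have h2 := den_ne h hz
  have h1c : conj (den a b p) ≠ 0 := (map_ne_zero _).2 h1
  have h3 : num a b p = p * den a b p := by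
    rw [← div_eq_iff h1]; exact hfix
  have hsu := su_mul h
  have e1 : mob a b z - p = (z - p) / (den a b z * den a b p) := by
    rw [mob, eq_div_iff (mul_ne_zero h2 h1)]
    have : (num a b z / den a b z - p) * (den a b z * den a b p) =
      num a b z / den a b z * den a b z * den a b p - (p * den a b p) * den a b z := by ring
    rw [this, div_mul_cancel₀ _ h2, ← h3]
    simp only [num, den]
    linear_combination (z - p) * hsu
  have e2 : 1 - conj p * mob a b z = (1 - conj p * z) / (conj (den a b p) * den a b z) := by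
    rw [mob, eq_div_iff (mul_ne_zero h1c h2)]
    have h4 : conj (num a b p) = conj p * conj (den a b p) := by rw [h3, map_mul]
    have : (1 - conj p * (num a b z / den a b z)) * (conj (den a b p) * den a b z) =
      conj (den a b p) * den a b z - (conj p * conj (den a b p)) *
        (num a b z / den a b z * den a b z) := by ring
    rw [this, div_mul_cancel₀ _ h2, ← h4]
    simp only [num, den, map_add, map_mul, conj_conj]
    linear_combination (1 - conj p * z) * hsu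
  have h5 := bl_den hp hz
  rw [bl, e1, e2, om, bl]
  field_simp

theorem Com_of_bl {P : H2 →L[ℂ] H2} {p : ℂ} (hp : p ∈ U) (h : Com P (bl p)) :
    Com P (fun z => z) := by
  have h1 : Com P (fun z => 1 + conj p * bl p z) := (Com.const 1).add ((Com.const (conj p)).mul h)
  have hp' := mem_U_iff.1 hp
  have h2 : Com P (fun z => (1 + conj p * bl p z)⁻¹) := by
    refine h1.inv (c := 1 - ‖p‖) (by linarith) fun z hz => ?_
    have h3 : ‖conj p * bl p z‖ ≤ ‖p‖ := by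
      rw [norm_mul, RCLike.norm_conj]
      exact mul_le_of_le_one_right (norm_nonneg _) (mem_U_iff.1 (bl_mem hp hz)).le
    have h4 : ‖(1 : ℂ)‖ ≤ ‖1 + conj p * bl p z‖ + ‖conj p * bl p z‖ := by
      have : (1 : ℂ) = (1 + conj p * bl p z) - conj p * bl p z := by ring
      conv_lhs => rw [this]
      exact norm_sub_le _ _
    rw [norm_one] at h4
    linarith
  refine ((h.add (Com.const p)).mul h2).congr fun z hz => ?_
  have h5 := bl_den hp hz
  have h6 : (1 : ℂ) - conj p * p ≠ 0 := bl_den hp hp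
  have e1 : 1 + conj p * bl p z = (1 - conj p * p) / (1 - conj p * z) := by
    rw [bl]; field_simp; ring
  have e2 : bl p z + p = z * (1 - conj p * p) / (1 - conj p * z) := by
    rw [bl, eq_div_iff h5, add_mul, div_mul_cancel₀ _ h5]; ring
  rw [e1, e2]
  generalize (1 : ℂ) - conj p * p = D at h6
  generalize (1 : ℂ) - conj p * z = E at h5
  field_simp

/-! ### Boundary fixed points -/

theorem BA_expL0 {ζ : ℂ} (hζ : ‖ζ‖ = 1) {s : ℝ} (hs : 0 ≤ s) :
    BA (fun z => exp (-(s : ℂ) * L0 ζ z)) := by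
  refine ⟨((L0_diff hζ).const_mul _).cexp, 1, fun z hz => ?_⟩
  rw [Complex.norm_exp, Real.exp_le_one_iff]
  have h1 := (L0_re_pos hζ hz).le
  simp only [mul_re, neg_re, ofReal_re, neg_im, ofReal_im, neg_zero, zero_mul, sub_zero]
  nlinarith

theorem norm_expL0_le {ζ : ℂ} (hζ : ‖ζ‖ = 1) {s : ℝ} (hs : 0 ≤ s) {z : ℂ} (hz : z ∈ U) :
    ‖exp (-(s : ℂ) * L0 ζ z)‖ ≤ 1 := by
  rw [Complex.norm_exp, Real.exp_le_one_iff]
  have h1 := (L0_re_pos hζ hz).le
  simp only [mul_re, neg_re, ofReal_re, neg_im, ofReal_im, neg_zero, zero_mul, sub_zero]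
  nlinarith

theorem Intw_par {ζ : ℂ} {τ : ℝ} (hζ : ‖ζ‖ = 1)
    (hL : ∀ z ∈ U, L0 ζ (mob a b z) = L0 ζ z + τ * I) {s : ℝ} (hs : 0 ≤ s) :
    Intw (mob a b) (fun z => exp (-(s : ℂ) * L0 ζ z)) (exp ((-(s * τ) : ℝ) * I)) := by
  refine ⟨BA_expL0 hζ hs, Complex.norm_exp_ofReal_mul_I _, fun z hz => ?_⟩
  simp only
  rw [hL z hz, ← Complex.exp_add]
  congr 1
  push_cast
  ring

/-- From commutation with `1 / (1 + L0)` to commutation with `z`. -/
theorem Com_of_cayley {P : H2 →L[ℂ] H2} {ζ : ℂ} (hζ : ‖ζ‖ = 1)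
    (h : Com P (fun z => (1 + L0 ζ z)⁻¹)) : Com P (fun z => z) := by
  refine ((Com.const ζ).add ((Com.const (-(2 * ζ))).mul h)).congr fun z hz => ?_
  have h1 := zeta_sub_ne hζ hz
  have hζ0 : ζ ≠ 0 := by rintro rfl; simp at hζ
  have e : 1 + L0 ζ z = 2 * ζ / (ζ - z) := by
    rw [L0]; field_simp; ring
  rw [e]
  field_simp
  ring

/-- The sequence `1 / (n + 4)`. -/
noncomputable def sq4 (n : ℕ) : ℝ := 1 / ((n : ℝ) + 4)

theorem sq4_pos (n : ℕ) : 0 < sq4 n := by unfold sq4; positivity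

theorem sq4_le (n : ℕ) : sq4 n ≤ 1 / 4 := by
  unfold sq4
  have : (0 : ℝ) ≤ n := Nat.cast_nonneg n
  rw [div_le_div_iff₀ (by linarith) (by norm_num)]
  linarith

theorem sq4_tendsto : Tendsto sq4 atTop (𝓝 0) := by
  unfold sq4
  have h : Tendsto (fun n : ℕ => (n : ℝ) + 4) atTop atTop :=
    tendsto_atTop_add_const_right _ _ tendsto_natCast_atTop_atTop
  simp only [one_div]
  exact h.inv_tendsto_atTop

/-- difference quotients at `0` along `sq4` -/
theorem quot_tendsto {f : ℂ → ℂ} {f' : ℂ} (h : HasDerivAt f f' 0) (h0 : f 0 = 0) :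
    Tendsto (fun n => f (sq4 n) / sq4 n) atTop (𝓝 f') := by
  have h1 := h.tendsto_slope_zero
  have h2 : Tendsto (fun n => ((sq4 n : ℝ) : ℂ)) atTop (𝓝[≠] 0) := by
    refine tendsto_nhdsWithin_iff.2 ⟨?_, Eventually.of_forall fun n => ?_⟩
    · have := (Complex.continuous_ofReal.tendsto 0).comp sq4_tendsto
      rwa [ofReal_zero] at this
    · simpa using (sq4_pos n).ne'
  have h3 := h1.comp h2
  refine h3.congr fun n => ?_
  simp only [Function.comp, zero_add, h0, sub_zero, smul_eq_mul]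
  rw [div_eq_inv_mul]

theorem Com_par {P : H2 →L[ℂ] H2} {ζ : ℂ} (hζ : ‖ζ‖ = 1)
    (h : ∀ s : ℝ, 0 ≤ s → Com P (fun z => exp (-(s : ℂ) * L0 ζ z))) : Com P (fun z => z) := by
  refine Com_of_cayley hζ ?_
  have hre : ∀ n : ℕ, ∀ z ∈ U,
      1 ≤ ‖1 + (1 + (-1) * exp (-(sq4 n : ℂ) * L0 ζ z)) * ((sq4 n : ℂ)⁻¹)‖ := by
    intro n z hz
    refine le_trans ?_ (Complex.re_le_norm _)
    have h1 := norm_expL0_le hζ (sq4_pos n).le hz
    have h2 : (exp (-(sq4 n : ℂ) * L0 ζ z)).re ≤ 1 := (Complex.re_le_norm _).trans h1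
    have h3 : (0 : ℝ) < (sq4 n)⁻¹ := inv_pos.2 (sq4_pos n)
    have h4 : ((1 + (1 + (-1) * exp (-(sq4 n : ℂ) * L0 ζ z)) * ((sq4 n : ℂ)⁻¹))).re =
        1 + (1 - (exp (-(sq4 n : ℂ) * L0 ζ z)).re) * (sq4 n)⁻¹ := by
      rw [← ofReal_inv, add_re, re_mul_ofReal, add_re, one_re, mul_re, neg_re, one_re, neg_im,
        one_im]
      ring
    rw [h4]
    nlinarith
  have hLpos : ∀ z ∈ U, 1 ≤ ‖1 + L0 ζ z‖ := fun z hz => by
    refine le_trans ?_ (Complex.re_le_norm _)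
    rw [add_re, one_re]
    linarith [L0_re_pos hζ hz]
  have hB : BA (fun z => (1 + L0 ζ z)⁻¹) :=
    BA.inv ((differentiableOn_const 1).add (L0_diff hζ)) one_pos hLpos
  refine Com.lim (G := fun n z =>
    (1 + (1 + (-1) * exp (-(sq4 n : ℂ) * L0 ζ z)) * ((sq4 n : ℂ)⁻¹))⁻¹) (C := 1)
    (fun n => ?_) hB (fun n z hz => ?_) (fun z hz => ?_)
  · refine Com.inv ?_ one_pos (hre n)
    exact (Com.const 1).add (((Com.const 1).add ((Com.const (-1)).mul
      (h (sq4 n) (sq4_pos n).le))).mul (Com.const _))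
  · rw [norm_inv]
    exact inv_le_one_of_one_le₀ (hre n z hz)
  · have hd : HasDerivAt (fun s : ℂ => 1 + (-1) * exp (-s * L0 ζ z)) (L0 ζ z) 0 := by
      have h1 : HasDerivAt (fun s : ℂ => -s * L0 ζ z) (-1 * L0 ζ z) 0 :=
        ((hasDerivAt_id (0 : ℂ)).neg).mul_const _
      refine ((h1.cexp.const_mul (-1)).const_add 1).congr_deriv ?_
      simp
    have h2 := quot_tendsto hd (by simp)
    have h3 : 1 + L0 ζ z ≠ 0 := fun h0 => by
      have := hLpos z hz
      rw [h0, norm_zero] at this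
      linarith
    have h4 := (h2.const_add 1).inv₀ h3
    simpa only [div_eq_mul_inv] using h4

/-! ### Hyperbolic case -/

/-- shifted half plane coordinate -/
noncomputable def Lh (ζ : ℂ) (η : ℝ) (z : ℂ) : ℂ := L0 ζ z - η * I

theorem Lh_re {ζ : ℂ} (hζ : ‖ζ‖ = 1) (η : ℝ) {z : ℂ} (hz : z ∈ U) : 0 < (Lh ζ η z).re := by
  have := L0_re_pos hζ hz
  rw [Lh, sub_re, re_ofReal_mul, I_re, mul_zero, sub_zero]
  exact this

theorem Lh_ne {ζ : ℂ} (hζ : ‖ζ‖ = 1) (η : ℝ) {z : ℂ} (hz : z ∈ U) : Lh ζ η z ≠ 0 := by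
  intro h
  have := Lh_re hζ η hz
  rw [h, zero_re] at this
  exact lt_irrefl _ this

theorem Lh_diff {ζ : ℂ} (hζ : ‖ζ‖ = 1) (η : ℝ) : DifferentiableOn ℂ (Lh ζ η) U :=
  (L0_diff hζ).sub (differentiableOn_const _)

theorem log_im_lt {ζ : ℂ} (hζ : ‖ζ‖ = 1) (η : ℝ) {z : ℂ} (hz : z ∈ U) :
    |(log (Lh ζ η z)).im| < π / 2 := by
  rw [log_im]
  exact Complex.abs_arg_lt_pi_div_two_iff.2 (Or.inl (Lh_re hζ η hz))

/-- the multiplier `L^{is}` -/
noncomputable def gh (ζ : ℂ) (η s : ℝ) (z : ℂ) : ℂ := exp (s * log (Lh ζ η z) * I)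

theorem gh_norm {ζ : ℂ} (η s : ℝ) (z : ℂ) :
    ‖gh ζ η s z‖ = Real.exp (-(s * (log (Lh ζ η z)).im)) := by
  rw [gh, Complex.norm_exp]
  congr 1
  simp

theorem gh_norm_le {ζ : ℂ} (hζ : ‖ζ‖ = 1) (η s : ℝ) {z : ℂ} (hz : z ∈ U) :
    ‖gh ζ η s z‖ ≤ Real.exp (|s| * (π / 2)) := by
  rw [gh_norm, Real.exp_le_exp]
  have h1 := log_im_lt hζ η hz
  calc -(s * (log (Lh ζ η z)).im) ≤ |-(s * (log (Lh ζ η z)).im)| := le_abs_self _
    _ = |s| * |(log (Lh ζ η z)).im| := by rw [abs_neg, abs_mul]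
    _ ≤ |s| * (π / 2) := mul_le_mul_of_nonneg_left h1.le (abs_nonneg _)

theorem gh_norm_ge {ζ : ℂ} (hζ : ‖ζ‖ = 1) (η s : ℝ) {z : ℂ} (hz : z ∈ U) :
    Real.exp (-(|s| * (π / 2))) ≤ ‖gh ζ η s z‖ := by
  rw [gh_norm, Real.exp_le_exp]
  have h1 := log_im_lt hζ η hz
  have : s * (log (Lh ζ η z)).im ≤ |s| * (π / 2) :=
    calc s * (log (Lh ζ η z)).im ≤ |s * (log (Lh ζ η z)).im| := le_abs_self _
    _ = |s| * |(log (Lh ζ η z)).im| := by rw [abs_mul]
    _ ≤ |s| * (π / 2) := mul_le_mul_of_nonneg_left h1.le (abs_nonneg _)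
  linarith

theorem BA_gh {ζ : ℂ} (hζ : ‖ζ‖ = 1) (η s : ℝ) : BA (gh ζ η s) := by
  refine ⟨?_, _, fun z hz => gh_norm_le hζ η s hz⟩
  unfold gh
  refine DifferentiableOn.cexp ?_
  refine DifferentiableOn.mul_const ?_ _
  refine DifferentiableOn.const_mul ?_ _
  exact (Lh_diff hζ η).clog fun z hz => Or.inl (Lh_re hζ η hz)

theorem Intw_hyp {ζ : ℂ} {κ τ : ℝ} (hζ : ‖ζ‖ = 1) (hκ : 0 < κ) (hκ1 : κ ≠ 1)
    (hL : ∀ z ∈ U, L0 ζ (mob a b z) = κ * L0 ζ z + τ * I) (s : ℝ) :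
    Intw (mob a b) (gh ζ (τ / (1 - κ)) s) (exp ((s * Real.log κ : ℝ) * I)) := by
  refine ⟨BA_gh hζ _ s, Complex.norm_exp_ofReal_mul_I _, fun z hz => ?_⟩
  have h1 : (1 : ℝ) - κ ≠ 0 := sub_ne_zero.2 (Ne.symm hκ1)
  have e : Lh ζ (τ / (1 - κ)) (mob a b z) = κ * Lh ζ (τ / (1 - κ)) z := by
    rw [Lh, Lh, hL z hz]
    have h2 : (1 : ℂ) - κ ≠ 0 := by exact_mod_cast h1
    push_cast
    field_simp
    ring
  rw [gh, e, Complex.log_ofReal_mul hκ (Lh_ne hζ _ hz), gh, ← Complex.exp_add]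
  congr 1
  push_cast
  ring

theorem abs_sinh_le {x : ℝ} (hx : |x| ≤ 1 / 2) : |Real.sinh x| ≤ 3 / 2 * |x| := by
  have h1 := Real.abs_exp_sub_one_sub_id_le (x := x) (by linarith)
  have h2 := Real.abs_exp_sub_one_sub_id_le (x := -x) (by rw [abs_neg]; linarith)
  have h3 : x ^ 2 ≤ 1 / 2 * |x| := by
    rw [← sq_abs, sq]; exact mul_le_mul_of_nonneg_right hx (abs_nonneg _)
  rw [Real.sinh_eq]
  rw [neg_sq] at h2
  have h4 := abs_le.1 h1
  have h5 := abs_le.1 h2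
  have h6 := le_abs_self x
  have h7 := neg_abs_le x
  rw [abs_le]
  constructor <;> linarith [h4.1, h4.2, h5.1, h5.2]

theorem one_add_exp_ge {ξ : ℂ} (h : |ξ.im| ≤ 3 / 4 * π) : 1 / 2 ≤ ‖1 + exp ξ‖ := by
  have hsq : (1 : ℝ) / 4 ≤ ‖1 + exp ξ‖ ^ 2 := by
    rw [← normSq_eq_norm_sq, normSq_apply]
    simp only [add_re, one_re, add_im, one_im, zero_add, exp_re, exp_im]
    have hc : -(√2 / 2) ≤ Real.cos ξ.im := by
      have h1 : Real.cos (3 / 4 * π) ≤ Real.cos |ξ.im| :=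
        Real.cos_le_cos_of_nonneg_of_le_pi (abs_nonneg _) (by linarith [Real.pi_pos]) h
      rw [Real.cos_abs] at h1
      have h2 : Real.cos (3 / 4 * π) = -(√2 / 2) := by
        rw [show 3 / 4 * π = π - π / 4 by ring, Real.cos_pi_sub, Real.cos_pi_div_four]
      rwa [h2] at h1
    have hs := Real.sin_sq_add_cos_sq ξ.im
    have hρ := Real.exp_pos ξ.re
    have h2 : (√2) ^ 2 = 2 := Real.sq_sqrt (by norm_num)
    have e : (1 + Real.exp ξ.re * Real.cos ξ.im) * (1 + Real.exp ξ.re * Real.cos ξ.im) +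
        Real.exp ξ.re * Real.sin ξ.im * (Real.exp ξ.re * Real.sin ξ.im) =
        1 + 2 * Real.exp ξ.re * Real.cos ξ.im + Real.exp ξ.re ^ 2 := by
      have : Real.sin ξ.im ^ 2 = 1 - Real.cos ξ.im ^ 2 := by linarith
      calc _ = 1 + 2 * Real.exp ξ.re * Real.cos ξ.im + Real.exp ξ.re ^ 2 *
          (Real.cos ξ.im ^ 2 + Real.sin ξ.im ^ 2) := by ring
        _ = _ := by rw [this]; ring
    rw [e]
    nlinarith [sq_nonneg (Real.exp ξ.re - √2 / 2), mul_le_mul_of_nonneg_left hc hρ.le]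
  by_contra hlt
  push Not at hlt
  have := norm_nonneg (1 + exp ξ)
  nlinarith

theorem Com_hyp {P : H2 →L[ℂ] H2} {ζ : ℂ} (hζ : ‖ζ‖ = 1) {η : ℝ}
    (h : ∀ s : ℝ, Com P (gh ζ η s)) : Com P (fun z => z) := by
  refine Com_of_cayley hζ ?_
  -- the bounded approximations of `log L`
  set u : ℕ → ℂ → ℂ := fun n z =>
    (gh ζ η (-sq4 n) z + (-1) * gh ζ η (sq4 n) z) * (I / 2 / sq4 n) with hu
  have hucom : ∀ n, Com P (u n) := fun n =>
    ((h _).add ((Com.const (-1)).mul (h _))).mul (Com.const _)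
  have husin : ∀ n z, u n z = sin (sq4 n * log (Lh ζ η z)) / sq4 n := by
    intro n z
    simp only [hu, gh, Complex.sin]
    have : ((-sq4 n : ℝ) : ℂ) * log (Lh ζ η z) * I = -(sq4 n * log (Lh ζ η z)) * I := by
      push_cast; ring
    rw [this]
    ring
  have huim : ∀ n, ∀ z ∈ U, |(u n z).im| ≤ 3 / 4 * π := by
    intro n z hz
    have hs := sq4_pos n
    have hs4 := sq4_le n
    set ℓ := log (Lh ζ η z) with hℓ
    have hℓi : |ℓ.im| < π / 2 := log_im_lt hζ η hz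
    rw [husin, ← hℓ, div_ofReal_im, Complex.sin_eq]
    have e1 : ((sq4 n : ℂ) * ℓ).re = sq4 n * ℓ.re := by simp
    have e2 : ((sq4 n : ℂ) * ℓ).im = sq4 n * ℓ.im := by simp
    have e3 : (sin (((sq4 n : ℂ) * ℓ).re : ℂ) * cosh (((sq4 n : ℂ) * ℓ).im : ℂ) +
        cos (((sq4 n : ℂ) * ℓ).re : ℂ) * sinh (((sq4 n : ℂ) * ℓ).im : ℂ) * I).im =
        Real.cos (sq4 n * ℓ.re) * Real.sinh (sq4 n * ℓ.im) := by
      rw [e1, e2, ← ofReal_sin, ← ofReal_cosh, ← ofReal_cos, ← ofReal_sinh, ← ofReal_mul,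
        ← ofReal_mul, add_im, ofReal_im, mul_I_im, ofReal_re, zero_add]
    rw [e3, abs_div, abs_mul, abs_of_pos hs, div_le_iff₀ hs]
    have hx : |sq4 n * ℓ.im| ≤ 1 / 2 := by
      rw [abs_mul, abs_of_pos hs]
      have := Real.pi_lt_four
      nlinarith [abs_nonneg ℓ.im]
    have h1 := abs_sinh_le hx
    have h2 := Real.abs_cos_le_one (sq4 n * ℓ.re)
    calc |Real.cos (sq4 n * ℓ.re)| * |Real.sinh (sq4 n * ℓ.im)|
        ≤ 1 * (3 / 2 * |sq4 n * ℓ.im|) := mul_le_mul h2 h1 (abs_nonneg _) zero_le_one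
      _ = 3 / 2 * (sq4 n * |ℓ.im|) := by rw [abs_mul, abs_of_pos hs, one_mul]
      _ ≤ 3 / 4 * π * sq4 n := by nlinarith
  have hEge : ∀ n, ∀ z ∈ U, 1 / 2 ≤ ‖1 + exp (u n z)‖ := fun n z hz =>
    one_add_exp_ge (huim n z hz)
  -- the limit function
  set B : ℂ → ℂ := fun z => (Lh ζ η z - 1) * (1 + Lh ζ η z)⁻¹ with hB
  have hLone : ∀ z ∈ U, 1 ≤ ‖1 + Lh ζ η z‖ := fun z hz => by
    refine le_trans ?_ (Complex.re_le_norm _)
    rw [add_re, one_re]
    linarith [Lh_re hζ η hz]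
  have hLne : ∀ z ∈ U, 1 + Lh ζ η z ≠ 0 := fun z hz h0 => by
    have := hLone z hz
    rw [h0, norm_zero] at this
    linarith
  have hBle : ∀ z ∈ U, ‖B z‖ ≤ 1 := fun z hz => by
    rw [hB]
    simp only [norm_mul, norm_inv]
    rw [← div_eq_mul_inv, div_le_one (norm_pos_iff.2 (hLne z hz))]
    have h1 := Lh_re hζ η hz
    refine (sq_le_sq₀ (norm_nonneg _) (norm_nonneg _)).1 ?_
    rw [← normSq_eq_norm_sq, ← normSq_eq_norm_sq, normSq_apply, normSq_apply]
    simp only [sub_re, sub_im, add_re, add_im, one_re, one_im]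
    nlinarith
  have hBA : BA B := ⟨((Lh_diff hζ η).sub (differentiableOn_const 1)).mul
    (((differentiableOn_const 1).add (Lh_diff hζ η)).inv hLne), 1, hBle⟩
  have hBcom : Com P B := by
    refine Com.lim (G := fun n z => (exp (u n z) + (-1)) * (1 + exp (u n z))⁻¹) (C := 5)
      (fun n => ?_) hBA (fun n z hz => ?_) (fun z hz => ?_)
    · exact ((hucom n).exp.add (Com.const (-1))).mul
        (((Com.const 1).add (hucom n).exp).inv (by norm_num) (hEge n))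
    · have h1 := hEge n z hz
      have h0 : 1 + exp (u n z) ≠ 0 := fun h0 => by
        rw [h0, norm_zero] at h1
        norm_num at h1
      have e : (exp (u n z) + (-1)) * (1 + exp (u n z))⁻¹ = 1 - 2 * (1 + exp (u n z))⁻¹ := by
        field_simp; ring
      rw [e]
      refine (norm_sub_le _ _).trans ?_
      rw [norm_one, norm_mul, norm_inv]
      have h2 : ‖1 + exp (u n z)‖⁻¹ ≤ 2 := by
        rw [inv_le_comm₀ (by linarith) (by norm_num)]
        linarith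
      have h3 : ‖(2 : ℂ)‖ = 2 := by simp
      rw [h3]
      linarith
    · have hd : HasDerivAt (fun s : ℂ => sin (s * log (Lh ζ η z))) (log (Lh ζ η z)) 0 := by
        have h1 : HasDerivAt (fun s : ℂ => s * log (Lh ζ η z)) (1 * log (Lh ζ η z)) 0 :=
          (hasDerivAt_id (0 : ℂ)).mul_const _
        refine h1.csin.congr_deriv ?_
        simp
      have h2 := quot_tendsto hd (by simp)
      have h3 : Tendsto (fun n => u n z) atTop (𝓝 (log (Lh ζ η z))) := by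
        simpa only [husin] using h2
      have h4 : Tendsto (fun n => exp (u n z)) atTop (𝓝 (Lh ζ η z)) := by
        have := (Complex.continuous_exp.tendsto _).comp h3
        rwa [Complex.exp_log (Lh_ne hζ η hz)] at this
      have h5 := (h4.add_const (-1)).mul ((h4.const_add 1).inv₀ (hLne z hz))
      simpa only [hB, sub_eq_add_neg] using h5
  -- from `B` to `1 / (1 + L0)`
  have hlow : ∀ z ∈ U, ‖(2 + η * I : ℂ)‖ - |η| ≤ ‖(2 + η * I : ℂ) + (-(η * I)) * B z‖ := by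
    intro z hz
    have h1 : ‖(-(η * I : ℂ)) * B z‖ ≤ |η| := by
      rw [norm_mul, norm_neg, norm_mul, norm_I, mul_one, Complex.norm_real, Real.norm_eq_abs]
      exact mul_le_of_le_one_right (abs_nonneg _) (hBle z hz)
    have h2 : ‖(2 + η * I : ℂ)‖ ≤ ‖(2 + η * I : ℂ) + (-(η * I)) * B z‖ + ‖(-(η * I : ℂ)) * B z‖ := by
      have : (2 + η * I : ℂ) = ((2 + η * I : ℂ) + (-(η * I)) * B z) - (-(η * I : ℂ)) * B z := by
        ring
      conv_lhs => rw [this]
      exact norm_sub_le _ _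
    linarith
  have hpos : 0 < ‖(2 + η * I : ℂ)‖ - |η| := by
    have h1 : |η| ^ 2 < ‖(2 + η * I : ℂ)‖ ^ 2 := by
      rw [← normSq_eq_norm_sq, normSq_apply, sq_abs]
      simp
      nlinarith
    have h2 := (sq_lt_sq₀ (abs_nonneg _) (norm_nonneg _)).1 h1
    linarith
  have hden : Com P (fun z => (2 + η * I : ℂ) + (-(η * I)) * B z) :=
    (Com.const _).add ((Com.const _).mul hBcom)
  refine (((Com.const 1).add ((Com.const (-1)).mul hBcom)).mul
    (hden.inv hpos hlow)).congr fun z hz => ?_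
  have h0 := hLne z hz
  have e1 : (1 : ℂ) + (-1) * B z = 2 / (1 + Lh ζ η z) := by
    simp only [hB]; field_simp; ring
  have h6 : 1 + L0 ζ z ≠ 0 := fun h7 => by
    have h8 := L0_re_pos hζ hz
    have := congrArg Complex.re h7
    rw [add_re, one_re, zero_re] at this
    linarith
  have e2 : (2 + η * I : ℂ) + (-(η * I)) * B z = 2 * (1 + L0 ζ z) / (1 + Lh ζ η z) := by
    simp only [hB]
    field_simp
    simp only [Lh]
    ring
  rw [e1, e2]
  field_simp

end Pool.Agent.Helper289.Hardy
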