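import Pool.Agent.Helper289.HardyDefs

/-! Parseval, the identification of `H²` with `ℓ²`, the Hilbert space structure. -/

namespace Pool.Agent.Helper289.Hardy

open Metric Complex Set MeasureTheory Filter Topology
open scoped Real

theorem parseval_poly (a : ℕ → ℂ) (r : ℝ) (N : ℕ) :
    (2 * π)⁻¹ * ∫ t in (0 : ℝ)..(2 * π), ‖∑ n ∈ Finset.range N, a n * (r * exp (t * I)) ^ n‖ ^ 2 =
      ∑ n ∈ Finset.range N, ‖a n * r ^ n‖ ^ 2 := by
  classical
  set p : Polynomial ℂ := ∑ n ∈ Finset.range N, Polynomial.monomial n (a n * r ^ n) with hp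
  have hc : ∀ i, p.coeff i = if i < N then a i * r ^ i else 0 := by
    intro i
    rw [hp, Polynomial.finsetSum_coeff]
    simp only [Polynomial.coeff_monomial]
    rw [Finset.sum_ite_eq' (Finset.range N) i (fun n => a n * (r : ℂ) ^ n)]
    simp
  have h := Polynomial.sum_sq_norm_coeff_eq_circleAverage p
  have h1 : ∑ i ∈ p.support, ‖p.coeff i‖ ^ 2 = ∑ n ∈ Finset.range N, ‖a n * r ^ n‖ ^ 2 := by
    have : ∑ i ∈ p.support, ‖p.coeff i‖ ^ 2 = ∑ i ∈ Finset.range N, ‖p.coeff i‖ ^ 2 := by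
      refine Finset.sum_subset ?_ ?_
      · intro i hi
        rw [Polynomial.mem_support_iff, hc] at hi
        by_contra h'
        rw [Finset.mem_range] at h'
        simp [h'] at hi
      · intro i _ hi
        rw [Polynomial.notMem_support_iff] at hi
        simp [hi]
    rw [this]
    refine Finset.sum_congr rfl fun i hi => ?_
    rw [hc, if_pos (Finset.mem_range.1 hi)]
  rw [← h1, h, Real.circleAverage, smul_eq_mul]
  congr 1
  refine intervalIntegral.integral_congr fun t _ => ?_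
  congr 2
  rw [hp, Polynomial.eval_finsetSum]
  refine Finset.sum_congr rfl fun n _ => ?_
  simp only [Polynomial.eval_monomial, circleMap, zero_add, ofReal_one, one_mul, mul_pow]
  ring

/-- Parseval's formula for power series. -/
theorem mean2_series {a : ℕ → ℂ} {r : ℝ} (hr : 0 ≤ r) (ha : Summable fun n => ‖a n‖ * r ^ n)
    {f : ℂ → ℂ} (hf : ∀ z, ‖z‖ = r → f z = ∑' n, a n * z ^ n) :
    HasSum (fun n => ‖a n‖ ^ 2 * r ^ (2 * n)) (mean2 f r) := by
  have hsum : ∀ z : ℂ, ‖z‖ = r → Summable fun n => a n * z ^ n := fun z hz => by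
    refine Summable.of_norm_bounded ha fun n => ?_
    rw [norm_mul, norm_pow, hz]
  have hT : Tendsto (fun N : ℕ => (2 * π)⁻¹ * ∫ t in (0 : ℝ)..(2 * π),
      ‖∑ n ∈ Finset.range N, a n * (r * exp (t * I)) ^ n‖ ^ 2) atTop (𝓝 (mean2 f r)) := by
    unfold mean2
    refine Tendsto.const_mul _ ?_
    refine intervalIntegral.tendsto_integral_filter_of_dominated_convergence
      (fun _ => (∑' n, ‖a n‖ * r ^ n) ^ 2) ?_ ?_ ?_ ?_
    · refine Eventually.of_forall fun N => ?_
      exact (Continuous.aestronglyMeasurable (by fun_prop))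
    · refine Eventually.of_forall fun N => Eventually.of_forall fun t _ => ?_
      rw [Real.norm_of_nonneg (by positivity)]
      refine pow_le_pow_left₀ (norm_nonneg _) ?_ 2
      refine (norm_sum_le _ _).trans ?_
      have : ∀ n, ‖a n * ((r : ℂ) * exp (t * I)) ^ n‖ = ‖a n‖ * r ^ n := fun n => by
        rw [norm_mul, norm_pow, norm_pt r t hr]
      simp only [this]
      exact ha.sum_le_tsum _ (fun n _ => by positivity)
    · exact intervalIntegrable_const
    · refine Eventually.of_forall fun t _ => ?_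
      have hz := norm_pt r t hr
      rw [hf _ hz]
      exact ((hsum _ hz).hasSum.tendsto_sum_nat.norm).pow 2
  simp only [parseval_poly] at hT
  have hs : Summable fun n => ‖a n‖ ^ 2 * r ^ (2 * n) := by
    have h2 : Summable fun n => (‖a n‖ * r ^ n) ^ 2 := by
      obtain ⟨C, hC⟩ := ha.tendsto_atTop_zero.bddAbove_range
      refine Summable.of_nonneg_of_le (fun n => by positivity) (fun n => ?_) (ha.mul_left C)
      rw [sq]
      exact mul_le_mul_of_nonneg_right (hC ⟨n, rfl⟩) (by positivity)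
    refine h2.congr fun n => ?_
    rw [mul_pow, ← pow_mul, mul_comm n 2]
  have e : ∀ n, ‖a n * (r : ℂ) ^ n‖ ^ 2 = ‖a n‖ ^ 2 * r ^ (2 * n) := fun n => by
    rw [norm_mul, norm_pow, Complex.norm_real, Real.norm_of_nonneg hr, mul_pow, ← pow_mul,
      mul_comm n 2]
  simp only [e] at hT
  have h3 := hs.hasSum.tendsto_sum_nat
  rw [tendsto_nhds_unique hT h3]
  exact hs.hasSum

/-- Abbreviation for `ℓ²`. -/
abbrev L2 : Type := lp (fun _ : ℕ => ℂ) 2

theorem two_toReal : (2 : ENNReal).toReal = 2 := by norm_num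

theorem L2_summable (a : L2) : Summable fun n => ‖a n‖ ^ 2 := by
  have := (memℓp_gen_iff (p := 2) (E := fun _ : ℕ => ℂ) (by norm_num)).1 a.2
  simpa [two_toReal] using this

theorem L2_norm_sq (a : L2) : ‖a‖ ^ 2 = ∑' n, ‖a n‖ ^ 2 := by
  have := lp.norm_rpow_eq_tsum (p := 2) (E := fun _ : ℕ => ℂ) (by norm_num) a
  simpa [two_toReal] using this

theorem L2_summable_geom (a : L2) {r : ℝ} (hr0 : 0 ≤ r) (hr1 : r < 1) :
    Summable fun n => ‖a n‖ * r ^ n := by
  refine Summable.of_nonneg_of_le (fun n => by positivity) (fun n => ?_)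
    ((summable_geometric_of_lt_one hr0 hr1).mul_left ‖a‖)
  exact mul_le_mul_of_nonneg_right (lp.norm_apply_le_norm (by norm_num) a n) (by positivity)

/-- The analytic function with coefficients `a`, as a function on `ℂ` vanishing off `U`. -/
noncomputable def ser (a : ℕ → ℂ) (z : ℂ) : ℂ := by
  classical exact if z ∈ U then ∑' n, a n * z ^ n else 0

theorem ser_of_mem (a : ℕ → ℂ) {z : ℂ} (hz : z ∈ U) : ser a z = ∑' n, a n * z ^ n := by
  simp only [ser, if_pos hz]

theorem ser_of_notMem (a : ℕ → ℂ) {z : ℂ} (hz : z ∉ U) : ser a z = 0 := by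
  simp only [ser, if_neg hz]

theorem L2_summable_pt (a : L2) {z : ℂ} (hz : z ∈ U) : Summable fun n => a n * z ^ n := by
  refine Summable.of_norm_bounded (L2_summable_geom a (norm_nonneg z) (mem_U_iff.1 hz)) fun n => ?_
  rw [norm_mul, norm_pow]

theorem ser_diff (a : L2) : DifferentiableOn ℂ (ser a) U := by
  intro z hz
  obtain ⟨ρ, h1, h2⟩ := exists_between (mem_U_iff.1 hz)
  have hρ : 0 ≤ ρ := (norm_nonneg z).trans h1.le
  have hsub : ball (0 : ℂ) ρ ⊆ U := ball_subset_ball h2.le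
  have hd : DifferentiableOn ℂ (fun w => ∑' n, a n * w ^ n) (ball (0 : ℂ) ρ) := by
    refine differentiableOn_tsum_of_summable_norm (L2_summable_geom a hρ h2) (fun n => ?_)
      isOpen_ball (fun n w hw => ?_)
    · exact ((differentiable_id.pow n).const_mul (a n)).differentiableOn
    · rw [norm_mul, norm_pow]
      refine mul_le_mul_of_nonneg_left ?_ (norm_nonneg _)
      exact pow_le_pow_left₀ (norm_nonneg _) (by simpa using (mem_ball_zero_iff.1 hw).le) n
  have hzρ : z ∈ ball (0 : ℂ) ρ := by simpa using h1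
  have h3 : DifferentiableAt ℂ (fun w => ∑' n, a n * w ^ n) z :=
    hd.differentiableAt (isOpen_ball.mem_nhds hzρ)
  refine (h3.congr_of_eventuallyEq ?_).differentiableWithinAt
  filter_upwards [isOpen_ball.mem_nhds hz] with w hw
  exact ser_of_mem a hw

theorem ser_mean (a : L2) {r : ℝ} (hr : r ∈ Ioo (0 : ℝ) 1) :
    HasSum (fun n => ‖a n‖ ^ 2 * r ^ (2 * n)) (mean2 (ser a) r) := by
  refine mean2_series hr.1.le (L2_summable_geom a hr.1.le hr.2) (fun z hz => ?_)
  exact ser_of_mem a (mem_U_iff.2 (hz ▸ hr.2))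

theorem ser_mean_le (a : L2) {r : ℝ} (hr : r ∈ Ioo (0 : ℝ) 1) : mean2 (ser a) r ≤ ‖a‖ ^ 2 := by
  rw [L2_norm_sq, ← (ser_mean a hr).tsum_eq]
  refine (ser_mean a hr).summable.tsum_le_tsum (fun n => ?_) (L2_summable a)
  refine mul_le_of_le_one_right (by positivity) ?_
  exact pow_le_one₀ hr.1.le hr.2.le

/-- The element of `H²` with given Taylor coefficients. -/
noncomputable def ofSeq (a : L2) : H2 :=
  ⟨ser a, ser_diff a, fun _ hz => ser_of_notMem a hz, ‖a‖ ^ 2, fun _ hr => ser_mean_le a hr⟩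

theorem ofSeq_apply (a : L2) {z : ℂ} (hz : z ∈ U) : ofSeq a z = ∑' n, a n * z ^ n :=
  ser_of_mem a hz

theorem ofSeq_hasSum (a : L2) {z : ℂ} (hz : z ∈ U) :
    HasSum (fun n => a n * z ^ n) (ofSeq a z) := by
  rw [ofSeq_apply a hz]; exact (L2_summable_pt a hz).hasSum

/-- `ofSeq` as a linear map. -/
noncomputable def ofSeqₗ : L2 →ₗ[ℂ] H2 where
  toFun := ofSeq
  map_add' a b := H2.ext fun z hz => by
    rw [H2.add_apply, ofSeq_apply _ hz]
    refine HasSum.tsum_eq ?_
    refine ((ofSeq_hasSum a hz).add (ofSeq_hasSum b hz)).congr_fun ?_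
    intro n; simp [add_mul]
  map_smul' c a := H2.ext fun z hz => by
    rw [RingHom.id_apply, H2.smul_apply, ofSeq_apply _ hz]
    refine HasSum.tsum_eq ?_
    refine ((ofSeq_hasSum a hz).mul_left c).congr_fun ?_
    intro n; simp [mul_assoc]

theorem sum_le_of_mean {a : ℕ → ℂ} {m : ℝ → ℝ} {C : ℝ}
    (h : ∀ r ∈ Ioo (0 : ℝ) 1, HasSum (fun n => ‖a n‖ ^ 2 * r ^ (2 * n)) (m r))
    (hC : ∀ r ∈ Ioo (0 : ℝ) 1, m r ≤ C) (s : Finset ℕ) : ∑ n ∈ s, ‖a n‖ ^ 2 ≤ C := by
  have hcont : Tendsto (fun r : ℝ => ∑ n ∈ s, ‖a n‖ ^ 2 * r ^ (2 * n)) (𝓝[<] 1)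
      (𝓝 (∑ n ∈ s, ‖a n‖ ^ 2)) := by
    have : ContinuousAt (fun r : ℝ => ∑ n ∈ s, ‖a n‖ ^ 2 * r ^ (2 * n)) 1 := by fun_prop
    have h2 := this.tendsto.mono_left (nhdsWithin_le_nhds (s := Iio 1))
    simpa using h2
  refine le_of_tendsto hcont ?_
  have : Ioo (0 : ℝ) 1 ∈ 𝓝[<] (1 : ℝ) := Ioo_mem_nhdsLT (by norm_num)
  filter_upwards [this] with r hr
  refine ((h r hr).summable.sum_le_tsum s (fun n _ => ?_)).trans
    ((h r hr).tsum_eq.le.trans (hC r hr))
  have := hr.1
  positivity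

theorem ofSeq_norm (a : L2) : ‖ofSeq a‖ = ‖a‖ := by
  have h2 : ‖ofSeq a‖ ^ 2 = ‖a‖ ^ 2 := by
    refine le_antisymm ?_ ?_
    · rw [H2.norm_sq]
      have : Nonempty (Ioo (0 : ℝ) 1) := ⟨⟨1 / 2, by norm_num, by norm_num⟩⟩
      exact ciSup_le fun r => ser_mean_le a r.2
    · rw [L2_norm_sq]
      refine Real.tsum_le_of_sum_le (fun n => by positivity) fun s => ?_
      exact sum_le_of_mean (m := fun r => mean2 (ser a) r) (fun r hr => ser_mean a hr)
        (fun r hr => (ofSeq a).mean2_le hr) s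
  exact (sq_eq_sq₀ (Real.sqrt_nonneg _) (norm_nonneg _)).1 h2

theorem ofSeq_surj (f : H2) : ∃ a : L2, ofSeq a = f := by
  set c : ℕ → ℂ := fun n => (n.factorial : ℂ)⁻¹ * iteratedDeriv n f 0 with hc
  have hs : ∀ z ∈ U, HasSum (fun n => c n * z ^ n) (f z) := fun z hz => by
    have := Complex.hasSum_taylorSeries_on_ball (f := (f : ℂ → ℂ)) (c := 0) (r := 1) f.diff hz
    refine this.congr_fun fun n => ?_
    simp only [hc, sub_zero, smul_eq_mul]; ring
  have hs' : ∀ r ∈ Ioo (0 : ℝ) 1, Summable fun n => ‖c n‖ * r ^ n := fun r hr => by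
    have h1 := (hs (r : ℂ) (mem_U_iff.2 (by
      rw [Complex.norm_real, Real.norm_of_nonneg hr.1.le]; exact hr.2))).summable.norm
    refine h1.congr fun n => ?_
    rw [norm_mul, norm_pow, Complex.norm_real, Real.norm_of_nonneg hr.1.le]
  have hm : ∀ r ∈ Ioo (0 : ℝ) 1, HasSum (fun n => ‖c n‖ ^ 2 * r ^ (2 * n)) (mean2 f r) :=
    fun r hr => mean2_series hr.1.le (hs' r hr) fun z hz =>
      ((hs z (mem_U_iff.2 (hz ▸ hr.2))).tsum_eq).symm
  have hmem : Memℓp c 2 := by
    refine memℓp_gen' (C := ‖f‖ ^ 2) fun s => ?_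
    have := sum_le_of_mean hm (fun r hr => f.mean2_le hr) s
    simpa [two_toReal] using this
  refine ⟨⟨c, hmem⟩, H2.ext fun z hz => ?_⟩
  rw [ofSeq_apply _ hz]
  exact (hs z hz).tsum_eq

theorem ofSeqₗ_bij : Function.Bijective ofSeqₗ := by
  refine ⟨?_, fun f => ofSeq_surj f⟩
  rw [injective_iff_map_eq_zero]
  intro a ha
  have h : ‖ofSeq a‖ = 0 := by
    change ‖ofSeqₗ a‖ = 0
    rw [ha, H2.norm_def]
    have : ∀ r : Ioo (0 : ℝ) 1, mean2 ((0 : H2) : ℂ → ℂ) r = 0 := fun r => by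
      simp [mean2]
    simp [this]
  rw [ofSeq_norm] at h
  exact norm_eq_zero.1 h

/-- The identification of `ℓ²` with `H²`. -/
noncomputable def isoₗ : L2 ≃ₗ[ℂ] H2 := LinearEquiv.ofBijective ofSeqₗ ofSeqₗ_bij

theorem isoₗ_norm (a : L2) : ‖isoₗ a‖ = ‖a‖ := ofSeq_norm a

theorem isoₗ_symm_norm (f : H2) : ‖isoₗ.symm f‖ = ‖f‖ := by
  rw [← isoₗ_norm, LinearEquiv.apply_symm_apply]

theorem H2core : NormedSpace.Core ℂ H2 where
  norm_nonneg f := H2.norm_nonneg' f
  norm_smul c f := by rw [← isoₗ_symm_norm, map_smul, norm_smul, isoₗ_symm_norm]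
  norm_triangle f g := by
    rw [← isoₗ_symm_norm, map_add, ← isoₗ_symm_norm f, ← isoₗ_symm_norm g]
    exact norm_add_le _ _
  norm_eq_zero_iff f := by
    rw [← isoₗ_symm_norm, norm_eq_zero, LinearEquiv.map_eq_zero_iff]

noncomputable instance : NormedAddCommGroup H2 := NormedAddCommGroup.ofCore H2core

/-- The Hilbert space structure of `H²`. -/
noncomputable instance : InnerProductSpace ℂ H2 where
  norm_smul_le c f := (H2core.norm_smul c f).le
  inner f g := inner ℂ (isoₗ.symm f) (isoₗ.symm g)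
  norm_sq_eq_re_inner f := by
    rw [← isoₗ_symm_norm]; exact norm_sq_eq_re_inner _
  conj_inner_symm f g := inner_conj_symm _ _
  add_left f g h := by
    change inner ℂ (isoₗ.symm (f + g)) _ = _
    rw [map_add, inner_add_left]
  smul_left f g c := by
    change inner ℂ (isoₗ.symm (c • f)) _ = _
    rw [map_smul, inner_smul_left]

/-- The isometric identification of `ℓ²` with `H²`. -/
noncomputable def iso : L2 ≃ₗᵢ[ℂ] H2 := ⟨isoₗ, isoₗ_norm⟩

instance : CompleteSpace H2 := by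
  have := iso.toIsometryEquiv.completeSpace_iff
  exact this.1 inferInstance

theorem iso_apply (a : L2) {z : ℂ} (hz : z ∈ U) : iso a z = ∑' n, a n * z ^ n :=
  ofSeq_apply a hz

theorem iso_hasSum (a : L2) {z : ℂ} (hz : z ∈ U) : HasSum (fun n => a n * z ^ n) (iso a z) :=
  ofSeq_hasSum a hz

theorem norm_sq_formula (f : H2) : ‖f‖ ^ 2 = ⨆ r : Ioo (0 : ℝ) 1, mean2 f r := H2.norm_sq f

end Pool.Agent.Helper289.Hardy
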