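import Pool.Agent.Helper289.HardyMain

/-! Localisation of the growth rates at the boundary fixed points. -/

namespace Pool.Agent.Helper289.Hardy

open Metric Complex Set MeasureTheory Filter Topology
open scoped Real ComplexConjugate InnerProductSpace

variable {a b : ℂ}

/-! ### Counting -/

theorem count_bad (x s M : ℝ) (hs : s ≠ 0) (q : ℕ) :
    ((Finset.range q).filter (fun j : ℕ => |x + j * s| ≤ M)).card ≤ ⌊2 * M / |s|⌋₊ + 1 := by
  classical
  set F := (Finset.range q).filter (fun j : ℕ => |x + j * s| ≤ M) with hF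
  rcases F.eq_empty_or_nonempty with h0 | hne
  · rw [h0]; simp
  set j0 := F.min' hne with hj0
  have hj0F : j0 ∈ F := F.min'_mem hne
  have hsub : F ⊆ Finset.Icc j0 (j0 + ⌊2 * M / |s|⌋₊) := by
    intro j hj
    have h1 : j0 ≤ j := F.min'_le j hj
    rw [Finset.mem_Icc]
    refine ⟨h1, ?_⟩
    have hb : |x + j * s| ≤ M := (Finset.mem_filter.1 hj).2
    have hb0 : |x + j0 * s| ≤ M := (Finset.mem_filter.1 hj0F).2
    have h2 : ((j - j0 : ℕ) : ℝ) * |s| ≤ 2 * M := by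
      have e : ((j - j0 : ℕ) : ℝ) * |s| = |(x + j * s) - (x + j0 * s)| := by
        rw [Nat.cast_sub h1]
        have : (x + j * s) - (x + j0 * s) = ((j : ℝ) - j0) * s := by ring
        rw [this, abs_mul, abs_of_nonneg (sub_nonneg.2 (by exact_mod_cast h1 : (j0 : ℝ) ≤ j))]
      rw [e]
      calc |(x + j * s) - (x + j0 * s)| ≤ |x + j * s| + |x + j0 * s| := abs_sub _ _
        _ ≤ 2 * M := by linarith
    have h3 : ((j - j0 : ℕ) : ℝ) ≤ 2 * M / |s| := by
      rw [le_div_iff₀ (abs_pos.2 hs)]; exact h2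
    have h4 : j - j0 ≤ ⌊2 * M / |s|⌋₊ := Nat.le_floor h3
    omega
  refine (Finset.card_le_card hsub).trans ?_
  rw [Nat.card_Icc]
  omega

theorem prod_le_of_bad {g : ℕ → ℝ} {bad : ℕ → Prop} [DecidablePred bad] {A B : ℝ} {K q : ℕ}
    (h0 : ∀ j, 0 ≤ g j) (hB : 0 < B) (hBA : B ≤ A) (hA : ∀ j, g j ≤ A)
    (hgood : ∀ j, ¬ bad j → g j ≤ B) (hK : ((Finset.range q).filter bad).card ≤ K) :
    ∏ j ∈ Finset.range q, g j ≤ B ^ q * (A / B) ^ K := by
  have h1 : ∏ j ∈ Finset.range q, g j ≤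
      ∏ j ∈ Finset.range q, (B * if bad j then A / B else 1) := by
    refine Finset.prod_le_prod (fun j _ => h0 j) fun j _ => ?_
    split_ifs with hb
    · rw [mul_div_cancel₀ _ hB.ne']; exact hA j
    · rw [mul_one]; exact hgood j hb
  refine h1.trans ?_
  rw [Finset.prod_mul_distrib, Finset.prod_const, Finset.card_range, Finset.prod_ite]
  simp only [Finset.prod_const, one_pow, mul_one]
  refine mul_le_mul_of_nonneg_left ?_ (by positivity)
  exact pow_le_pow_right₀ ((one_le_div hB).2 hBA) hK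

theorem le_prod_of_bad {g : ℕ → ℝ} {bad : ℕ → Prop} [DecidablePred bad] {A B : ℝ} {K q : ℕ}
    (hA0 : 0 < A) (hAB : A ≤ B) (hA : ∀ j, A ≤ g j)
    (hgood : ∀ j, ¬ bad j → B ≤ g j) (hK : ((Finset.range q).filter bad).card ≤ K) :
    B ^ q * (A / B) ^ K ≤ ∏ j ∈ Finset.range q, g j := by
  have hB : 0 < B := hA0.trans_le hAB
  have h1 : ∏ j ∈ Finset.range q, (B * if bad j then A / B else 1) ≤
      ∏ j ∈ Finset.range q, g j := by
    refine Finset.prod_le_prod (fun j _ => ?_) fun j _ => ?_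
    · split_ifs <;> positivity
    split_ifs with hb
    · rw [mul_div_cancel₀ _ hB.ne']; exact hA j
    · rw [mul_one]; exact hgood j hb
  refine le_trans ?_ h1
  rw [Finset.prod_mul_distrib, Finset.prod_const, Finset.card_range, Finset.prod_ite]
  simp only [Finset.prod_const, one_pow, mul_one]
  refine mul_le_mul_of_nonneg_left ?_ (by positivity)
  exact pow_le_pow_of_le_one (by positivity) ((div_le_one hB).2 hAB) hK

/-! ### Rates -/

theorem rate_le {A : ℕ → ℝ} {R B C : ℝ} {m : ℕ} (hm : 0 < m) (hA0 : ∀ n, 0 ≤ A n) (hB : 0 < B)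
    (hC : 0 < C) (hA : Tendsto (fun n : ℕ => A n ^ (1 / n : ℝ)) atTop (𝓝 R))
    (h : ∀ q : ℕ, A (q * m) ≤ B ^ q * C) : R ^ m ≤ B := by
  have hmul : Tendsto (fun q : ℕ => (q + 1) * m) atTop atTop := by
    refine tendsto_atTop_mono (fun q => ?_) (tendsto_add_atTop_nat 1)
    exact Nat.le_mul_of_pos_right _ hm
  have h1 := (hA.comp hmul).pow m
  have h2 : Tendsto (fun q : ℕ => B * C ^ (1 / ((q : ℝ) + 1))) atTop (𝓝 (B * C ^ (0 : ℝ))) := by
    refine Tendsto.const_mul _ ?_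
    exact (tendsto_const_nhds).rpow tendsto_one_div_add_atTop_nhds_zero_nat (Or.inl hC.ne')
  rw [Real.rpow_zero, mul_one] at h2
  refine le_of_tendsto_of_tendsto' h1 h2 fun q => ?_
  simp only [Function.comp]
  have hq : (0 : ℝ) < (q : ℝ) + 1 := by positivity
  have hmR : (0 : ℝ) < m := by exact_mod_cast hm
  have e : (A ((q + 1) * m) ^ (1 / (((q + 1) * m : ℕ) : ℝ))) ^ m =
      A ((q + 1) * m) ^ (1 / ((q : ℝ) + 1)) := by
    rw [← Real.rpow_natCast, ← Real.rpow_mul (hA0 _)]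
    congr 1
    push_cast
    field_simp
  rw [e]
  calc A ((q + 1) * m) ^ (1 / ((q : ℝ) + 1)) ≤ (B ^ (q + 1) * C) ^ (1 / ((q : ℝ) + 1)) :=
        Real.rpow_le_rpow (hA0 _) (h (q + 1)) (by positivity)
    _ = B * C ^ (1 / ((q : ℝ) + 1)) := by
        rw [Real.mul_rpow (by positivity) hC.le, ← Real.rpow_natCast, ← Real.rpow_mul hB.le]
        have : ((q + 1 : ℕ) : ℝ) * (1 / ((q : ℝ) + 1)) = 1 := by
          push_cast; field_simp
        rw [this, Real.rpow_one]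

theorem le_rate {A : ℕ → ℝ} {R B C : ℝ} {m : ℕ} (hm : 0 < m) (hA0 : ∀ n, 0 ≤ A n) (hB : 0 < B)
    (hC : 0 < C) (hA : Tendsto (fun n : ℕ => A n ^ (1 / n : ℝ)) atTop (𝓝 R))
    (h : ∀ q : ℕ, B ^ q * C ≤ A (q * m)) : B ≤ R ^ m := by
  have hmul : Tendsto (fun q : ℕ => (q + 1) * m) atTop atTop := by
    refine tendsto_atTop_mono (fun q => ?_) (tendsto_add_atTop_nat 1)
    exact Nat.le_mul_of_pos_right _ hm
  have h1 := (hA.comp hmul).pow m
  have h2 : Tendsto (fun q : ℕ => B * C ^ (1 / ((q : ℝ) + 1))) atTop (𝓝 (B * C ^ (0 : ℝ))) := by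
    refine Tendsto.const_mul _ ?_
    exact (tendsto_const_nhds).rpow tendsto_one_div_add_atTop_nhds_zero_nat (Or.inl hC.ne')
  rw [Real.rpow_zero, mul_one] at h2
  refine le_of_tendsto_of_tendsto' h2 h1 fun q => ?_
  simp only [Function.comp]
  have hq : (0 : ℝ) < (q : ℝ) + 1 := by positivity
  have hmR : (0 : ℝ) < m := by exact_mod_cast hm
  have e : (A ((q + 1) * m) ^ (1 / (((q + 1) * m : ℕ) : ℝ))) ^ m =
      A ((q + 1) * m) ^ (1 / ((q : ℝ) + 1)) := by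
    rw [← Real.rpow_natCast, ← Real.rpow_mul (hA0 _)]
    congr 1
    push_cast
    field_simp
  rw [e]
  calc B * C ^ (1 / ((q : ℝ) + 1)) = (B ^ (q + 1) * C) ^ (1 / ((q : ℝ) + 1)) := by
        rw [Real.mul_rpow (by positivity) hC.le, ← Real.rpow_natCast, ← Real.rpow_mul hB.le]
        have : ((q + 1 : ℕ) : ℝ) * (1 / ((q : ℝ) + 1)) = 1 := by
          push_cast; field_simp
        rw [this, Real.rpow_one]
    _ ≤ A ((q + 1) * m) ^ (1 / ((q : ℝ) + 1)) :=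
        Real.rpow_le_rpow (by positivity) (h (q + 1)) (by positivity)

/-! ### The cocycle property of the growth function -/

theorem wt_add (ψ φ : ℂ → ℂ) (m n : ℕ) (z : ℂ) :
    wt ψ φ (m + n) z = wt ψ φ m z * wt ψ φ n (φ^[m] z) := by
  rw [wt, Finset.prod_range_add, wt, wt]
  congr 1
  refine Finset.prod_congr rfl fun j _ => ?_
  rw [add_comm m j, Function.iterate_add_apply]

theorem gain_add {ψ φ : ℂ → ℂ} (hφ : MapsTo φ U U) (m n : ℕ) {z : ℂ} (hz : z ∈ U) :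
    gain ψ φ (m + n) z = gain ψ φ m z * gain ψ φ n (φ^[m] z) := by
  have h0 := one_sub_pos hz
  have h1 := one_sub_pos (iter_mem hφ m hz)
  have h2 := one_sub_pos (iter_mem hφ n (iter_mem hφ m hz))
  rw [gain, gain, gain, wt_add, norm_mul]
  have e : φ^[m + n] z = φ^[n] (φ^[m] z) := by rw [add_comm, Function.iterate_add_apply]
  rw [e]
  have e2 : √((1 - ‖z‖ ^ 2) / (1 - ‖φ^[n] (φ^[m] z)‖ ^ 2)) =
      √((1 - ‖z‖ ^ 2) / (1 - ‖φ^[m] z‖ ^ 2)) *
      √((1 - ‖φ^[m] z‖ ^ 2) / (1 - ‖φ^[n] (φ^[m] z)‖ ^ 2)) := by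
    rw [← Real.sqrt_mul (by positivity)]
    congr 1
    field_simp
  rw [e2]
  ring

theorem gain_mul {ψ φ : ℂ → ℂ} (hφ : MapsTo φ U U) (m q : ℕ) {z : ℂ} (hz : z ∈ U) :
    gain ψ φ (q * m) z = ∏ j ∈ Finset.range q, gain ψ φ m (φ^[j * m] z) := by
  induction q with
  | zero =>
    have := one_sub_pos hz
    simp [gain, wt, this.ne']
  | succ q ih =>
    rw [Finset.prod_range_succ, ← ih, add_mul, one_mul, gain_add hφ _ _ hz]

theorem gain_nonneg (ψ φ : ℂ → ℂ) (n : ℕ) (z : ℂ) : 0 ≤ gain ψ φ n z := by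
  unfold gain; positivity

/-! ### The height function -/

theorem L0_norm_ge {ζ z : ℂ} (hζ : ‖ζ‖ = 1) (hz : z ∈ U) :
    ‖z - ζ‖ * (‖L0 ζ z‖ - 1) ≤ 2 := by
  have h1 := zeta_sub_ne hζ hz
  have h2 : (ζ - z) * (1 + L0 ζ z) = 2 * ζ := by
    rw [L0]; field_simp; ring
  have h3 := congrArg norm h2
  rw [norm_mul, norm_mul, hζ] at h3
  have h4 : ‖L0 ζ z‖ ≤ ‖1 + L0 ζ z‖ + 1 := by
    have : L0 ζ z = (1 + L0 ζ z) - 1 := by ring
    calc ‖L0 ζ z‖ = ‖(1 + L0 ζ z) - 1‖ := by rw [← this]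
      _ ≤ ‖1 + L0 ζ z‖ + ‖(1 : ℂ)‖ := norm_sub_le _ _
      _ = _ := by rw [norm_one]
  have h5 : ‖(2 : ℂ)‖ = 2 := by simp
  rw [h5, mul_one] at h3
  rw [norm_sub_rev]
  nlinarith [norm_nonneg (ζ - z)]

/-- The height function of a fixed point free automorphism. -/
theorem exists_height (h : SU a b) (hno : ∀ p ∈ U, mob a b p ≠ p) :
    ∃ (H : ℂ → ℝ) (t : ℝ) (ζ₁ ζ₂ : ℂ), t ≠ 0 ∧ (∀ z ∈ U, H (mob a b z) = H z + t) ∧
      ‖ζ₁‖ = 1 ∧ ‖ζ₂‖ = 1 ∧ mob a b ζ₁ = ζ₁ ∧ mob a b ζ₂ = ζ₂ ∧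
      ∀ δ : ℝ, 0 < δ → ∃ M : ℝ, ∀ z ∈ U, M < |H z| → ‖z - ζ₁‖ < δ ∨ ‖z - ζ₂‖ < δ := by
  rcases dichotomy h with ⟨p, hp, hfix⟩ | ⟨ζ, κ, τ, hζ, hκ, hτ, hL⟩
  · exact absurd hfix (hno p hp)
  -- boundary behaviour by continuity
  have hdenb : ∀ ξ : ℂ, ‖ξ‖ = 1 → den a b ξ ≠ 0 := by
    intro ξ hξ h0
    have h1 := normSq_den_sub h ξ
    rw [h0, map_zero, normSq_eq_norm_sq ξ, hξ] at h1
    have h2 : normSq (num a b ξ) = 0 := by linarith
    have h3 : num a b ξ = 0 := normSq_eq_zero.1 h2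
    have h4 : a * ξ = -b := by rw [num] at h3; linear_combination h3
    have h5 := congrArg norm h4
    rw [norm_mul, hξ, mul_one, norm_neg] at h5
    unfold SU at h
    rw [normSq_eq_norm_sq, normSq_eq_norm_sq, h5, sub_self] at h
    exact zero_ne_one h
  have hcontmob : ∀ ξ : ℂ, ‖ξ‖ = 1 → ContinuousAt (mob a b) ξ := by
    intro ξ hξ
    unfold mob
    refine ContinuousAt.div ?_ ?_ (hdenb ξ hξ)
    · unfold num; fun_prop
    · unfold den; fun_prop
  -- radial approach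
  have hrad : ∀ ξ : ℂ, ‖ξ‖ = 1 → Tendsto (fun r : ℝ => (r : ℂ) * ξ) (𝓝[<] 1) (𝓝 ξ) ∧
      ∀ᶠ r : ℝ in 𝓝[<] 1, (r : ℂ) * ξ ∈ U := by
    intro ξ hξ
    constructor
    · have : ContinuousAt (fun r : ℝ => (r : ℂ) * ξ) 1 := by fun_prop
      have h2 := this.tendsto.mono_left (nhdsWithin_le_nhds (s := Iio 1))
      simpa using h2
    · have hIoo : Ioo (0 : ℝ) 1 ∈ 𝓝[<] (1 : ℝ) := Ioo_mem_nhdsLT (by norm_num)
      filter_upwards [hIoo] with r hr
      rw [mem_U_iff, norm_mul, hξ, mul_one, Complex.norm_real, Real.norm_of_nonneg hr.1.le]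
      exact hr.2
  -- the first fixed point
  have hfix1 : mob a b ζ = ζ := by
    -- `(ζ - φ(z)) (1 + κ L0 z + τ i) = 2 ζ`
    have hkey : ∀ z ∈ U, (ζ - mob a b z) * (2 * κ * ζ + (ζ - z) * (1 - κ + τ * I)) =
        2 * ζ * (ζ - z) := by
      intro z hz
      have h1 := zeta_sub_ne hζ hz
      have h2 := zeta_sub_ne hζ (mob_mem h hz)
      have h3 := hL z hz
      rw [L0, L0, div_eq_iff h2] at h3
      have h4 : (ζ + mob a b z) * (ζ - z) =
          (κ * (ζ + z) + τ * I * (ζ - z)) * (ζ - mob a b z) := by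
        rw [h3]; field_simp
      linear_combination -h4
    obtain ⟨hr1, hr2⟩ := hrad ζ hζ
    have hm : Tendsto (fun r : ℝ => mob a b ((r : ℂ) * ζ)) (𝓝[<] 1) (𝓝 (mob a b ζ)) :=
      (hcontmob ζ hζ).tendsto.comp hr1
    have hl : Tendsto (fun r : ℝ => (ζ - mob a b ((r : ℂ) * ζ)) *
        (2 * κ * ζ + (ζ - (r : ℂ) * ζ) * (1 - κ + τ * I))) (𝓝[<] 1)
        (𝓝 ((ζ - mob a b ζ) * (2 * κ * ζ + (ζ - ζ) * (1 - κ + τ * I)))) := by
      exact (hm.const_sub ζ).mul (((hr1.const_sub ζ).mul_const _).const_add _)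
    have hr' : Tendsto (fun r : ℝ => 2 * ζ * (ζ - (r : ℂ) * ζ)) (𝓝[<] 1)
        (𝓝 (2 * ζ * (ζ - ζ))) := (hr1.const_sub ζ).const_mul _
    have heq : (fun r : ℝ => (ζ - mob a b ((r : ℂ) * ζ)) *
        (2 * κ * ζ + (ζ - (r : ℂ) * ζ) * (1 - κ + τ * I))) =ᶠ[𝓝[<] 1]
        fun r : ℝ => 2 * ζ * (ζ - (r : ℂ) * ζ) := by
      filter_upwards [hr2] with r hr
      exact hkey _ hr
    have h5 := tendsto_nhds_unique (hl.congr' heq) hr'
    rw [sub_self, mul_zero, zero_mul, add_zero] at h5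
    have hζ0 : ζ ≠ 0 := by rintro rfl; simp at hζ
    have hκ0 : (κ : ℂ) ≠ 0 := by exact_mod_cast hκ.ne'
    rcases mul_eq_zero.1 h5 with h6 | h6
    · exact (sub_eq_zero.1 h6).symm
    · exact absurd h6 (mul_ne_zero (mul_ne_zero two_ne_zero hκ0) hζ0)
  by_cases hκ1 : κ = 1
  · -- parabolic
    refine ⟨fun z => (L0 ζ z).im, τ, ζ, ζ, hτ hκ1, fun z hz => ?_, hζ, hζ, hfix1, hfix1, ?_⟩
    · simp only
      rw [hL z hz, hκ1]; simp
    · intro δ hδ
      refine ⟨2 / δ + 1, fun z hz hM => Or.inl ?_⟩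
      have h1 := L0_norm_ge hζ hz
      have h2 : |(L0 ζ z).im| ≤ ‖L0 ζ z‖ := Complex.abs_im_le_norm _
      have h3 : 2 / δ < ‖L0 ζ z‖ - 1 := by linarith
      by_contra h4
      push Not at h4
      have h5 : δ * (2 / δ) = 2 := by field_simp
      have h6 : 0 < 2 / δ := by positivity
      nlinarith
  · -- hyperbolic
    set η := τ / (1 - κ) with hη
    have h1κ : (1 : ℝ) - κ ≠ 0 := sub_ne_zero.2 (Ne.symm hκ1)
    have hlog : Real.log κ ≠ 0 := by
      intro h0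
      rcases Real.log_eq_zero.1 h0 with h1 | h1 | h1 <;> first | linarith | exact hκ1 h1
    have hstep : ∀ z ∈ U, Lh ζ η (mob a b z) = κ * Lh ζ η z := by
      intro z hz
      have h2 : (1 : ℂ) - κ ≠ 0 := by exact_mod_cast h1κ
      rw [Lh, Lh, hL z hz, hη]
      push_cast
      field_simp
      ring
    have hηne : (1 : ℂ) + η * I ≠ 0 := by
      intro h0
      have := congrArg Complex.re h0
      simp at this
    set ζ₂ : ℂ := ζ * ((η * I - 1) / (1 + η * I)) with hζ₂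
    have hζ₂n : ‖ζ₂‖ = 1 := by
      rw [hζ₂, norm_mul, hζ, one_mul, norm_div]
      have h3 : ‖(η * I - 1 : ℂ)‖ = ‖(1 + η * I : ℂ)‖ := by
        refine (sq_eq_sq₀ (norm_nonneg _) (norm_nonneg _)).1 ?_
        rw [← normSq_eq_norm_sq, ← normSq_eq_norm_sq, normSq_apply, normSq_apply]
        simp
      rw [h3, div_self (norm_ne_zero_iff.2 hηne)]
    have hdist : ∀ z ∈ U, (z - ζ₂) * ((1 + L0 ζ z) * (1 + η * I)) = 2 * ζ * Lh ζ η z := by
      intro z hz
      have h3 := zeta_sub_ne hζ hz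
      rw [hζ₂, Lh, L0]
      field_simp
      ring
    have hone : ∀ z ∈ U, 1 ≤ ‖1 + L0 ζ z‖ := fun z hz => by
      refine le_trans ?_ (Complex.re_le_norm _)
      rw [add_re, one_re]
      linarith [L0_re_pos hζ hz]
    have hfix2 : mob a b ζ₂ = ζ₂ := by
      have hζ0 : ζ ≠ 0 := by rintro rfl; simp at hζ
      have hζζ₂ : ζ - ζ₂ ≠ 0 := by
        have : ζ - ζ₂ = 2 * ζ / (1 + η * I) := by rw [hζ₂]; field_simp; ring
        rw [this]
        exact div_ne_zero (mul_ne_zero two_ne_zero hζ0) hηne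
      have hLζ₂ : Lh ζ η ζ₂ = 0 := by
        have e1 : ζ + ζ₂ = 2 * ζ * (η * I) / (1 + η * I) := by
          rw [hζ₂]; field_simp; ring
        have e2 : ζ - ζ₂ = 2 * ζ / (1 + η * I) := by rw [hζ₂]; field_simp; ring
        rw [Lh, L0, e1, e2]
        field_simp
        ring
      have hLcont : ContinuousAt (Lh ζ η) ζ₂ := by
        unfold Lh L0
        refine ContinuousAt.sub (ContinuousAt.div (by fun_prop) (by fun_prop) hζζ₂)
          continuousAt_const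
      obtain ⟨hr1, hr2⟩ := hrad ζ₂ hζ₂n
      have hm : Tendsto (fun r : ℝ => mob a b ((r : ℂ) * ζ₂)) (𝓝[<] 1) (𝓝 (mob a b ζ₂)) :=
        (hcontmob ζ₂ hζ₂n).tendsto.comp hr1
      -- `(φ(z) - ζ₂) ((1 + L0 (φ z)) (1 + η i)) = 2 ζ κ Lh z`, with a bounded inverse factor
      have hle : ∀ᶠ r : ℝ in 𝓝[<] 1, ‖mob a b ((r : ℂ) * ζ₂) - ζ₂‖ ≤
          2 * κ * ‖Lh ζ η ((r : ℂ) * ζ₂)‖ / ‖(1 + η * I : ℂ)‖ := by
        filter_upwards [hr2] with r hr
        have h3 := hdist _ (mob_mem h hr)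
        rw [hstep _ hr] at h3
        have h4 := congrArg norm h3
        rw [norm_mul, norm_mul, norm_mul, norm_mul, norm_mul, hζ, Complex.norm_real,
          Real.norm_of_nonneg hκ.le] at h4
        have h5 : ‖(2 : ℂ)‖ = 2 := by simp
        rw [h5, mul_one] at h4
        have h6 := hone _ (mob_mem h hr)
        have h7 : 0 < ‖(1 + η * I : ℂ)‖ := norm_pos_iff.2 hηne
        rw [le_div_iff₀ h7]
        have h8 := norm_nonneg (mob a b ((r : ℂ) * ζ₂) - ζ₂)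
        calc ‖mob a b ((r : ℂ) * ζ₂) - ζ₂‖ * ‖(1 + η * I : ℂ)‖
            ≤ ‖mob a b ((r : ℂ) * ζ₂) - ζ₂‖ *
              (‖1 + L0 ζ (mob a b ((r : ℂ) * ζ₂))‖ * ‖(1 + η * I : ℂ)‖) := by
              refine mul_le_mul_of_nonneg_left ?_ h8
              exact le_mul_of_one_le_left h7.le h6
          _ = 2 * κ * ‖Lh ζ η ((r : ℂ) * ζ₂)‖ := by rw [h4]; ring
      have hlim1 : Tendsto (fun r : ℝ => ‖mob a b ((r : ℂ) * ζ₂) - ζ₂‖) (𝓝[<] 1)
          (𝓝 ‖mob a b ζ₂ - ζ₂‖) := (hm.sub_const ζ₂).norm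
      have hlim2 : Tendsto (fun r : ℝ => 2 * κ * ‖Lh ζ η ((r : ℂ) * ζ₂)‖ / ‖(1 + η * I : ℂ)‖)
          (𝓝[<] 1) (𝓝 (2 * κ * ‖Lh ζ η ζ₂‖ / ‖(1 + η * I : ℂ)‖)) :=
        (((hLcont.tendsto.comp hr1).norm).const_mul _).div_const _
      have hfin := le_of_tendsto_of_tendsto hlim1 hlim2 hle
      rw [hLζ₂, norm_zero, mul_zero, zero_div] at hfin
      exact sub_eq_zero.1 (norm_le_zero_iff.1 hfin)
    refine ⟨fun z => Real.log ‖Lh ζ η z‖, Real.log κ, ζ, ζ₂, hlog, fun z hz => ?_, hζ, hζ₂n,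
      hfix1, hfix2, ?_⟩
    · simp only
      rw [hstep z hz, norm_mul, Complex.norm_real, Real.norm_of_nonneg hκ.le,
        Real.log_mul hκ.ne' (norm_ne_zero_iff.2 (Lh_ne hζ η hz))]
      ring
    · intro δ hδ
      set c : ℝ := ‖(1 + η * I : ℂ)‖ with hc
      have hc0 : 0 < c := norm_pos_iff.2 hηne
      refine ⟨max (Real.log (2 / δ + 1 + |η|)) (Real.log (2 / (δ * c) + 1)), fun z hz hM => ?_⟩
      have hLpos : 0 < ‖Lh ζ η z‖ := norm_pos_iff.2 (Lh_ne hζ η hz)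
      rcases lt_abs.1 hM with h3 | h3
      · left
        have h4 : Real.log (2 / δ + 1 + |η|) < Real.log ‖Lh ζ η z‖ := (le_max_left _ _).trans_lt h3
        have h5 : 2 / δ + 1 + |η| < ‖Lh ζ η z‖ :=
          (Real.log_lt_log_iff (by positivity) hLpos).1 h4
        have h6 : ‖Lh ζ η z‖ ≤ ‖L0 ζ z‖ + |η| := by
          rw [Lh]
          refine (norm_sub_le _ _).trans ?_
          rw [norm_mul, norm_I, mul_one, Complex.norm_real, Real.norm_eq_abs]
        have h7 := L0_norm_ge hζ hz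
        by_contra h8
        push Not at h8
        have h9 : δ * (2 / δ) = 2 := by field_simp
        have h10 : 0 < 2 / δ := by positivity
        nlinarith
      · right
        have h4 : Real.log (2 / (δ * c) + 1) < -Real.log ‖Lh ζ η z‖ :=
          (le_max_right _ _).trans_lt h3
        rw [← Real.log_inv] at h4
        have h5 : 2 / (δ * c) + 1 < ‖Lh ζ η z‖⁻¹ :=
          (Real.log_lt_log_iff (by positivity) (inv_pos.2 hLpos)).1 h4
        have h6 := congrArg norm (hdist z hz)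
        rw [norm_mul, norm_mul, norm_mul, norm_mul, hζ, ← hc] at h6
        have h7 : ‖(2 : ℂ)‖ = 2 := by simp
        rw [h7, mul_one] at h6
        have h8 := hone z hz
        have h9 : ‖z - ζ₂‖ * c ≤ 2 * ‖Lh ζ η z‖ := by
          rw [← h6]
          refine mul_le_mul_of_nonneg_left ?_ (norm_nonneg _)
          exact le_mul_of_one_le_left hc0.le h8
        have h10 : 2 / (δ * c) < ‖Lh ζ η z‖⁻¹ := by linarith
        rw [div_lt_iff₀ (by positivity), inv_mul_eq_div, lt_div_iff₀ hLpos] at h10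
        have h11 : ‖z - ζ₂‖ * c < δ * c := by linarith
        exact lt_of_mul_lt_mul_right h11 hc0.le

end Pool.Agent.Helper289.Hardy
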