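import Pool.Agent.Helper289.HardyFin

/-! Norm formulas and the spectrum in the infinite order case. -/

namespace Pool.Agent.Helper289.Hardy

open Metric Complex Set MeasureTheory Filter Topology
open scoped Real ComplexConjugate InnerProductSpace

variable {a b : ℂ}

instance : Nonempty U := ⟨⟨0, zero_mem_U⟩⟩

theorem BA.bdd {g : ℂ → ℂ} (hg : BA g) : BddAbove (range fun z : U => ‖g z‖) := by
  obtain ⟨C, hC⟩ := hg.2
  exact ⟨C, by rintro _ ⟨z, rfl⟩; exact hC z z.2⟩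

theorem mul_norm_eq {g : ℂ → ℂ} (hg : BA g) : ‖mul g hg‖ = ⨆ z : U, ‖g z‖ := by
  refine le_antisymm ?_ (ciSup_le fun z => le_mul_norm hg z.2)
  refine mul_norm_le hg ?_ fun z hz => le_ciSup hg.bdd ⟨z, hz⟩
  exact Real.iSup_nonneg fun z => norm_nonneg _

theorem mul_Uop_norm {g : ℂ → ℂ} (hg : BA g) (h : SU a b) :
    ‖mul g hg * Uop h‖ = ⨆ z : U, ‖g z‖ := by
  rw [← mul_norm_eq hg]
  refine le_antisymm ?_ ?_
  · exact (norm_mul_le _ _).trans (mul_le_of_le_one_right (norm_nonneg _) (Uop_norm_le h))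
  · have e : mul g hg = mul g hg * Uop h * Uop (SU_inv h) := by
      rw [mul_assoc, Uop_mul_inv, mul_one]
    conv_lhs => rw [e]
    exact (norm_mul_le _ _).trans (mul_le_of_le_one_right (norm_nonneg _) (Uop_norm_le _))

theorem inf_nonneg (g : ℂ → ℂ) : 0 ≤ ⨅ z : U, ‖g z‖ := Real.iInf_nonneg fun _ => norm_nonneg _

theorem inf_le (g : ℂ → ℂ) {z : ℂ} (hz : z ∈ U) : ⨅ z : U, ‖g z‖ ≤ ‖g z‖ :=
  ciInf_le ⟨0, by rintro _ ⟨z, rfl⟩; exact norm_nonneg _⟩ (⟨z, hz⟩ : U)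

theorem right_inv_bound {g : ℂ → ℂ} (hg : BA g) {N : H2 →L[ℂ] H2} (hN : mul g hg * N = 1)
    {z : ℂ} (hz : z ∈ U) : 1 ≤ ‖g z‖ * ‖N‖ := by
  have h1 : g z * (N (ker z)) z = ker z z :=
    congrArg (fun S : H2 →L[ℂ] H2 => S (ker z) z) hN
  have h2 : ker z z = ((‖ker z‖ ^ 2 : ℝ) : ℂ) := by
    rw [← inner_ker hz, inner_self_eq_norm_sq_to_K (𝕜 := ℂ) (ker z)]
    push_cast; rfl
  have h3 := congrArg norm h1
  rw [h2, norm_mul, Complex.norm_real, Real.norm_of_nonneg (by positivity)] at h3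
  have h4 := eval_le hz (N (ker z))
  have h5 := N.le_opNorm (ker z)
  have h6 := norm_ker_pos hz
  have h7 : 1 * ‖ker z‖ ^ 2 ≤ (‖g z‖ * ‖N‖) * ‖ker z‖ ^ 2 := by
    calc 1 * ‖ker z‖ ^ 2 = ‖g z‖ * ‖(N (ker z)) z‖ := by rw [one_mul, h3]
      _ ≤ ‖g z‖ * (‖ker z‖ * (‖N‖ * ‖ker z‖)) := by
          refine mul_le_mul_of_nonneg_left ?_ (norm_nonneg _)
          exact h4.trans (mul_le_mul_of_nonneg_left h5 h6.le)
      _ = _ := by ring
  exact le_of_mul_le_mul_right h7 (by positivity)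

theorem mul_inv_of_pos {g : ℂ → ℂ} (hg : BA g) (hpos : 0 < ⨅ z : U, ‖g z‖) :
    ∃ hb : BA (fun z => (g z)⁻¹), mul g hg * mul _ hb = 1 ∧ mul _ hb * mul g hg = 1 ∧
      ‖mul _ hb‖ ≤ (⨅ z : U, ‖g z‖)⁻¹ := by
  have hlow : ∀ z ∈ U, (⨅ z : U, ‖g z‖) ≤ ‖g z‖ := fun z hz => inf_le g hz
  have hb := BA.inv hg.1 hpos hlow
  have hne : ∀ z ∈ U, g z ≠ 0 := fun z hz h0 => by
    have := hlow z hz
    rw [h0, norm_zero] at this
    linarith
  refine ⟨hb, ?_, ?_, ?_⟩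
  · refine clm_ext fun f z hz => ?_
    change g z * ((g z)⁻¹ * f z) = f z
    rw [mul_inv_cancel_left₀ (hne z hz)]
  · refine clm_ext fun f z hz => ?_
    change (g z)⁻¹ * (g z * f z) = f z
    rw [inv_mul_cancel_left₀ (hne z hz)]
  · refine mul_norm_le hb (inv_nonneg.2 hpos.le) fun z hz => ?_
    rw [norm_inv]
    exact inv_anti₀ hpos (hlow z hz)

theorem inv_norm {g : ℂ → ℂ} (hg : BA g) (h : SU a b) (u : (H2 →L[ℂ] H2)ˣ)
    (hu : (u : H2 →L[ℂ] H2) = mul g hg * Uop h) :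
    ‖((u⁻¹ : (H2 →L[ℂ] H2)ˣ) : H2 →L[ℂ] H2)‖ = (⨅ z : U, ‖g z‖)⁻¹ := by
  set N : H2 →L[ℂ] H2 := Uop h * ((u⁻¹ : (H2 →L[ℂ] H2)ˣ) : H2 →L[ℂ] H2) with hN
  have h1 : mul g hg * N = 1 := by rw [hN, ← mul_assoc, ← hu, Units.mul_inv]
  have hNle : ‖N‖ ≤ ‖((u⁻¹ : (H2 →L[ℂ] H2)ˣ) : H2 →L[ℂ] H2)‖ :=
    (norm_mul_le _ _).trans (mul_le_of_le_one_left (norm_nonneg _) (Uop_norm_le h))
  have hNpos : 0 < ‖N‖ := by
    have := right_inv_bound hg h1 zero_mem_U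
    by_contra h0
    have h00 : ‖N‖ = 0 := le_antisymm (not_lt.1 h0) (norm_nonneg _)
    rw [h00, mul_zero] at this
    linarith
  have hlow : ‖N‖⁻¹ ≤ ⨅ z : U, ‖g z‖ := by
    refine le_ciInf fun z => ?_
    rw [inv_le_iff_one_le_mul₀ hNpos]
    exact right_inv_bound hg h1 z.2
  have hpos : 0 < ⨅ z : U, ‖g z‖ := (inv_pos.2 hNpos).trans_le hlow
  refine le_antisymm ?_ ?_
  · obtain ⟨hb, h2, -, h4⟩ := mul_inv_of_pos hg hpos
    have e : ((u⁻¹ : (H2 →L[ℂ] H2)ˣ) : H2 →L[ℂ] H2) = Uop (SU_inv h) * mul _ hb := by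
      have h5 : (u : H2 →L[ℂ] H2) * (Uop (SU_inv h) * mul _ hb) = 1 := by
        rw [hu, mul_assoc, ← mul_assoc (Uop h), Uop_mul_inv, one_mul, h2]
      calc ((u⁻¹ : (H2 →L[ℂ] H2)ˣ) : H2 →L[ℂ] H2)
          = ((u⁻¹ : (H2 →L[ℂ] H2)ˣ) : H2 →L[ℂ] H2) *
            ((u : H2 →L[ℂ] H2) * (Uop (SU_inv h) * mul _ hb)) := by rw [h5, mul_one]
        _ = _ := by rw [← mul_assoc, Units.inv_mul, one_mul]
    rw [e]
    exact ((norm_mul_le _ _).trans
      (mul_le_of_le_one_left (norm_nonneg _) (Uop_norm_le _))).trans h4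
  · refine le_trans ?_ hNle
    exact inv_le_of_inv_le₀ hNpos hlow

theorem isUnit_of_pos {g : ℂ → ℂ} (hg : BA g) (h : SU a b) (hpos : 0 < ⨅ z : U, ‖g z‖) :
    IsUnit (mul g hg * Uop h) := by
  obtain ⟨hb, h2, h3, -⟩ := mul_inv_of_pos hg hpos
  have h1 : IsUnit (mul g hg) := ⟨⟨_, _, h2, h3⟩, rfl⟩
  have h4 : IsUnit (Uop h) := ⟨⟨_, _, Uop_mul_inv h, Uop_inv_mul h⟩, rfl⟩
  exact h1.mul h4

/-- Gelfand's formula with the extremal modulus. -/
theorem gelf (S : H2 →L[ℂ] H2) {l : ℂ} (hl : l ∈ spectrum ℂ S)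
    (hmax : ∀ m ∈ spectrum ℂ S, ‖m‖ ≤ ‖l‖) :
    Tendsto (fun n : ℕ => ‖S ^ n‖ ^ (1 / n : ℝ)) atTop (𝓝 ‖l‖) := by
  have h1 := spectrum.pow_norm_pow_one_div_tendsto_nhds_spectralRadius S
  have h2 : spectralRadius ℂ S = ENNReal.ofReal ‖l‖ := by
    rw [spectralRadius]
    refine le_antisymm ?_ ?_
    · refine iSup₂_le fun m hm => ?_
      rw [← ENNReal.ofReal_coe_nnreal, coe_nnnorm]
      exact ENNReal.ofReal_le_ofReal (hmax m hm)
    · rw [← coe_nnnorm, ENNReal.ofReal_coe_nnreal]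
      exact le_iSup₂ (f := fun (k : ℂ) (_ : k ∈ spectrum ℂ S) => (‖k‖₊ : ENNReal)) l hl
  rw [h2] at h1
  have h3 := (ENNReal.tendsto_toReal ENNReal.ofReal_ne_top).comp h1
  rw [ENNReal.toReal_ofReal (norm_nonneg _)] at h3
  refine h3.congr fun n => ?_
  simp only [Function.comp]
  rw [ENNReal.toReal_ofReal (by positivity)]

/-- The growth function `|ψ_n(z)| ((1 - |z|²) / (1 - |φ^n(z)|²))^{1/2}`. -/
noncomputable def gain (ψ φ : ℂ → ℂ) (n : ℕ) (z : ℂ) : ℝ :=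
  ‖wt ψ φ n z‖ * √((1 - ‖z‖ ^ 2) / (1 - ‖φ^[n] z‖ ^ 2))

theorem gain_eq {ψ φ : ℂ → ℂ} {n : ℕ} {c d : ℂ} (h : SU c d)
    (hφ : ∀ z ∈ U, φ^[n] z = mob c d z) {z : ℂ} (hz : z ∈ U) :
    gain ψ φ n z = ‖wt ψ φ n z * den c d z‖ := by
  rw [gain, hφ z hz, one_sub_mob h hz, norm_mul]
  congr 1
  have h1 := one_sub_pos hz
  have h2 : ‖den c d z‖ ≠ 0 := norm_ne_zero_iff.2 (den_ne h hz)
  have : (1 - ‖z‖ ^ 2) / ((1 - ‖z‖ ^ 2) / ‖den c d z‖ ^ 2) = ‖den c d z‖ ^ 2 := by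
    field_simp
  rw [this, Real.sqrt_sq (norm_nonneg _)]

theorem infinite_order {ψ φ : ℂ → ℂ} {T : H2 →L[ℂ] H2} (hT : IsWCO ψ φ T) (hψ : BA ψ)
    (h : SU a b) (hφ : ∀ z ∈ U, φ z = mob a b z)
    (hinf : ∀ n : ℕ, 0 < n → ∃ z ∈ U, φ^[n] z ≠ z) :
    ∃ r R : ℝ,
      Tendsto (fun n : ℕ => (⨅ z : U, gain ψ φ n z) ^ (1 / n : ℝ)) atTop (𝓝 r) ∧
      Tendsto (fun n : ℕ => (⨆ z : U, gain ψ φ n z) ^ (1 / n : ℝ)) atTop (𝓝 R) ∧
      spectrum ℂ T = {l : ℂ | r ≤ ‖l‖ ∧ ‖l‖ ≤ R} := by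
  have hmaps : MapsTo φ U U := fun z hz => by rw [hφ z hz]; exact mob_mem h hz
  obtain ⟨l1, hl1, l2, hl2, hmin, hmax, hspec⟩ := Gap.annulus (T := T)
    (fun l m hl hlm => rot_T hT h hφ hinf hl hlm)
    (fun r hr hS => no_gap hT h hφ hr hS)
  -- the powers
  have hpow : ∀ n : ℕ, ∃ (c d : ℂ) (hcd : SU c d) (hg : BA (fun z => wt ψ φ n z * den c d z)),
      T ^ n = mul _ hg * Uop hcd ∧ ∀ z : U, gain ψ φ n z = ‖wt ψ φ n z * den c d z‖ := by
    intro n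
    obtain ⟨c, d, hcd, hc⟩ := exists_iter h hφ n
    refine ⟨c, d, hcd, (BA_wt hψ h hφ n).mul BA.den, ?_, fun z => gain_eq hcd hc z.2⟩
    exact (hT.pow hmaps n).unique (wco_isWCO hcd (BA_wt hψ h hφ n) hc)
  have hsup : ∀ n : ℕ, ⨆ z : U, gain ψ φ n z = ‖T ^ n‖ := by
    intro n
    obtain ⟨c, d, hcd, hg, h1, h2⟩ := hpow n
    rw [h1, mul_Uop_norm hg hcd]
    exact iSup_congr h2
  refine ⟨‖l1‖, ‖l2‖, ?_, ?_, hspec⟩
  · by_cases hu : IsUnit T
    · obtain ⟨u, hu⟩ := hu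
      have hinf' : ∀ n : ℕ, ⨅ z : U, gain ψ φ n z =
          ‖((u⁻¹ : (H2 →L[ℂ] H2)ˣ) : H2 →L[ℂ] H2) ^ n‖⁻¹ := by
        intro n
        obtain ⟨c, d, hcd, hg, h1, h2⟩ := hpow n
        have h3 := inv_norm hg hcd (u ^ n) (by rw [Units.val_pow_eq_pow_val, hu, h1])
        rw [← inv_pow, Units.val_pow_eq_pow_val] at h3
        rw [h3, inv_inv]
        exact iInf_congr h2
      have hl10 : l1 ≠ 0 := by
        intro h0
        rw [h0] at hl1
        refine hl1 ?_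
        change IsUnit (algebraMap ℂ (H2 →L[ℂ] H2) 0 - T)
        rw [map_zero, zero_sub, ← hu]
        exact u.isUnit.neg
      have hmapinv : (spectrum ℂ T)⁻¹ =
          spectrum ℂ ((u⁻¹ : (H2 →L[ℂ] H2)ˣ) : H2 →L[ℂ] H2) := by
        rw [← hu]; exact spectrum.map_inv u
      have hmem : l1⁻¹ ∈ spectrum ℂ ((u⁻¹ : (H2 →L[ℂ] H2)ˣ) : H2 →L[ℂ] H2) := by
        rw [← hmapinv]; simpa using hl1
      have hg := gelf _ hmem (fun m hm => by
        rw [← hmapinv] at hm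
        have h4 : m⁻¹ ∈ spectrum ℂ T := hm
        have h5 := hmin _ h4
        have hm0 : m ≠ 0 := by
          rintro rfl
          rw [inv_zero, norm_zero] at h5
          exact hl10 (norm_le_zero_iff.1 h5)
        rw [norm_inv] at h5 ⊢
        exact (le_inv_comm₀ (norm_pos_iff.2 hm0) (norm_pos_iff.2 hl10)).2 h5)
      have hne : ‖l1⁻¹‖ ≠ 0 := norm_ne_zero_iff.2 (inv_ne_zero hl10)
      have hlim := hg.inv₀ hne
      rw [norm_inv, inv_inv] at hlim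
      refine hlim.congr fun n => ?_
      rw [hinf', Real.inv_rpow (norm_nonneg _)]
    · have h0 : l1 = 0 := by
        have h0' : (0 : ℂ) ∈ spectrum ℂ T := by
          intro hres
          apply hu
          have : IsUnit (algebraMap ℂ (H2 →L[ℂ] H2) 0 - T) := hres
          rw [map_zero, zero_sub] at this
          simpa using this.neg
        have := hmin 0 h0'
        rw [norm_zero] at this
        exact norm_le_zero_iff.1 this
      rw [h0, norm_zero]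
      refine tendsto_const_nhds.congr' ?_
      filter_upwards [eventually_gt_atTop 0] with n hn
      obtain ⟨c, d, hcd, hg, h1, h2⟩ := hpow n
      have h3 : ⨅ z : U, gain ψ φ n z = 0 := by
        rw [iInf_congr h2]
        by_contra hne
        have hpos : 0 < ⨅ z : U, ‖wt ψ φ n z * den c d z‖ :=
          lt_of_le_of_ne (inf_nonneg (fun z => wt ψ φ n z * den c d z)) (Ne.symm hne)
        have h4 := isUnit_of_pos hg hcd hpos
        rw [← h1] at h4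
        exact hu ((isUnit_pow_iff hn.ne').1 h4)
      rw [h3, Real.zero_rpow]
      have : (0 : ℝ) < n := by exact_mod_cast hn
      positivity
  · refine (gelf T hl2 hmax).congr fun n => ?_
    rw [hsup]

/-- Every disc automorphism has `SU(1,1)` form. -/
theorem exists_SU_of {l a : ℂ} (hl : ‖l‖ = 1) (ha : ‖a‖ < 1) :
    ∃ α β : ℂ, SU α β ∧ ∀ z ∈ U, l * ((a - z) / (1 - conj a * z)) = mob α β z := by
  have haU : a ∈ U := mem_U_iff.2 ha
  obtain ⟨μ, hμ⟩ := IsAlgClosed.exists_pow_nat_eq (-l) (n := 2) (by norm_num)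
  have hμ1 : ‖μ‖ = 1 := by
    have h1 : ‖μ‖ ^ 2 = 1 := by rw [← norm_pow, hμ, norm_neg, hl]
    have := norm_nonneg μ
    nlinarith
  have hs := sc_pos haU
  have hs2 := sc_sq haU
  have hsC : (sc a : ℂ) ≠ 0 := by exact_mod_cast hs.ne'
  refine ⟨μ / sc a, -(μ * a) / sc a, ?_, fun z hz => ?_⟩
  · unfold SU
    rw [normSq_eq_norm_sq, normSq_eq_norm_sq, norm_div, norm_div, norm_neg, norm_mul, hμ1,
      Complex.norm_real, Real.norm_of_nonneg hs.le]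
    field_simp
    linarith
  · have hd := bl_den haU hz
    have hμc : μ * conj μ = 1 := by
      rw [mul_conj, normSq_eq_norm_sq, hμ1]; norm_num
    have hc0 : conj μ ≠ 0 := by
      intro h0; rw [h0, mul_zero] at hμc; exact zero_ne_one hμc
    rw [mob, num, den, map_div₀, map_div₀, map_neg, map_mul, conj_ofReal]
    have e1 : μ / (sc a : ℂ) * z + -(μ * a) / sc a = μ * (z - a) / sc a := by
      field_simp; ring
    have e2 : -(conj μ * conj a) / (sc a : ℂ) * z + conj μ / sc a =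
        conj μ * (1 - conj a * z) / sc a := by
      field_simp; ring
    rw [e1, e2, div_div_div_cancel_right₀ hsC, eq_div_iff (mul_ne_zero hc0 hd)]
    have hl' : l = -μ ^ 2 := by rw [hμ, neg_neg]
    rw [hl']
    have e3 : -μ ^ 2 * ((a - z) / (1 - conj a * z)) * (conj μ * (1 - conj a * z)) =
        μ * (μ * conj μ) * (z - a) * ((1 - conj a * z) / (1 - conj a * z)) := by
      ring
    rw [e3, hμc, div_self hd]
    ring

end Pool.Agent.Helper289.Hardy
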