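import Pool.Agent.Helper289.HardyOps

/-! Disc automorphisms in `SU(1,1)` form and their isometric action on `H²`. -/

namespace Pool.Agent.Helper289.Hardy

open Metric Complex Set MeasureTheory Filter Topology
open scoped Real ComplexConjugate InnerProductSpace

/-- The matrix condition `|a|² - |b|² = 1`. -/
def SU (a b : ℂ) : Prop := normSq a - normSq b = 1

/-- numerator -/
def num (a b z : ℂ) : ℂ := a * z + b

/-- denominator -/
def den (a b z : ℂ) : ℂ := conj b * z + conj a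

/-- The automorphism `z ↦ (a z + b) / (b̄ z + ā)`. -/
noncomputable def mob (a b z : ℂ) : ℂ := num a b z / den a b z

variable {a b : ℂ}

theorem normSq_den_sub (h : SU a b) (z : ℂ) :
    normSq (den a b z) - normSq (num a b z) = 1 - normSq z := by
  unfold SU at h
  have h2 : (normSq a - normSq b) * (1 - normSq z) = 1 - normSq z := by rw [h, one_mul]
  rw [← h2]
  simp only [den, num, normSq_apply, mul_re, mul_im, add_re, add_im, conj_re, conj_im]
  ring

theorem den_gt (h : SU a b) {z : ℂ} (hz : z ∈ U) : normSq (num a b z) < normSq (den a b z) := by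
  have h1 := normSq_den_sub h z
  have h2 : normSq z < 1 := by
    rw [normSq_eq_norm_sq]; have := one_sub_pos hz; linarith
  linarith

theorem den_ne (h : SU a b) {z : ℂ} (hz : z ∈ U) : den a b z ≠ 0 := by
  intro h0
  have := den_gt h hz
  rw [h0, map_zero] at this
  linarith [normSq_nonneg (num a b z)]

theorem mob_mem (h : SU a b) {z : ℂ} (hz : z ∈ U) : mob a b z ∈ U := by
  rw [mem_U_iff, mob, norm_div, div_lt_one (norm_pos_iff.2 (den_ne h hz))]
  have := den_gt h hz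
  rw [normSq_eq_norm_sq, normSq_eq_norm_sq] at this
  exact (sq_lt_sq₀ (norm_nonneg _) (norm_nonneg _)).1 this

theorem one_sub_mob (h : SU a b) {z : ℂ} (hz : z ∈ U) :
    1 - ‖mob a b z‖ ^ 2 = (1 - ‖z‖ ^ 2) / ‖den a b z‖ ^ 2 := by
  have h1 := normSq_den_sub h z
  rw [normSq_eq_norm_sq, normSq_eq_norm_sq, normSq_eq_norm_sq] at h1
  have h2 : ‖den a b z‖ ^ 2 ≠ 0 := pow_ne_zero 2 (norm_ne_zero_iff.2 (den_ne h hz))
  rw [mob, norm_div, div_pow, ← h1, sub_div, div_self h2]

theorem num_diff : DifferentiableOn ℂ (num a b) U := by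
  unfold num; fun_prop

theorem den_diff : DifferentiableOn ℂ (den a b) U := by
  unfold den; fun_prop

theorem mob_diff (h : SU a b) : DifferentiableOn ℂ (mob a b) U :=
  num_diff.div den_diff fun _ hz => den_ne h hz

theorem BA.mob (h : SU a b) : BA (mob a b) :=
  ⟨mob_diff h, 1, fun _ hz => (mem_U_iff.1 (mob_mem h hz)).le⟩

theorem den_lower (h : SU a b) : ∃ c : ℝ, 0 < c ∧ ∀ z ∈ U, c ≤ ‖den a b z‖ := by
  have h1 : ‖b‖ < ‖a‖ := by
    unfold SU at h
    rw [normSq_eq_norm_sq, normSq_eq_norm_sq] at h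
    exact (sq_lt_sq₀ (norm_nonneg _) (norm_nonneg _)).1 (by linarith)
  refine ⟨‖a‖ - ‖b‖, by linarith, fun z hz => ?_⟩
  have h2 : ‖conj a‖ ≤ ‖den a b z‖ + ‖conj b * z‖ := by
    have : conj a = den a b z - conj b * z := by unfold den; ring
    rw [this]
    exact norm_sub_le _ _
  rw [norm_mul, RCLike.norm_conj, RCLike.norm_conj] at h2
  have h3 := mem_U_iff.1 hz
  nlinarith [norm_nonneg b, norm_nonneg z]

theorem BA.den : BA (den a b) := by
  refine ⟨den_diff, ‖b‖ + ‖a‖, fun z hz => ?_⟩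
  unfold Hardy.den
  refine (norm_add_le _ _).trans ?_
  rw [norm_mul, RCLike.norm_conj, RCLike.norm_conj]
  have := mem_U_iff.1 hz
  nlinarith [norm_nonneg b]

theorem BA.den_inv (h : SU a b) : BA (fun z => (Hardy.den a b z)⁻¹) := by
  obtain ⟨c, hc, h1⟩ := den_lower h
  exact BA.inv den_diff hc h1

theorem add_norm_eq {x y x' y' : H2} (hx : ‖x‖ = ‖x'‖) (hy : ‖y‖ = ‖y'‖)
    (hi : ⟪x, y⟫_ℂ = ⟪x', y'⟫_ℂ) : ‖x + y‖ ^ 2 = ‖x' + y'‖ ^ 2 := by
  rw [norm_add_sq (𝕜 := ℂ), norm_add_sq (𝕜 := ℂ), hx, hy, hi]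

theorem Mz_inner (f g : H2) : ⟪Mz f, Mz g⟫_ℂ = ⟪f, g⟫_ℂ := by
  let V : H2 →ₗᵢ[ℂ] H2 := ⟨(Mz : H2 →ₗ[ℂ] H2), Mz_norm⟩
  exact V.inner_map_map f g

theorem sq_norm_inj {x y : H2} (h : ‖x‖ ^ 2 = ‖y‖ ^ 2) : ‖x‖ = ‖y‖ :=
  (sq_eq_sq₀ (norm_nonneg _) (norm_nonneg _)).1 h

/-- Multiplication by a disc automorphism is isometric. -/
theorem mul_mob_norm (h : SU a b) (f : H2) : ‖mul (mob a b) (BA.mob h) f‖ = ‖f‖ := by
  set g := mul (fun z => (den a b z)⁻¹) (BA.den_inv h) f with hg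
  have e1 : mul (mob a b) (BA.mob h) f = a • Mz g + b • g := by
    refine H2.ext fun z hz => ?_
    simp only [mul_apply, H2.add_apply, H2.smul_apply, Mz_apply, hg, mob, num]
    ring
  have e2 : f = conj b • Mz g + conj a • g := by
    refine H2.ext fun z hz => ?_
    simp only [mul_apply, H2.add_apply, H2.smul_apply, Mz_apply, hg]
    have := den_ne h hz
    have e : conj b * (z * ((den a b z)⁻¹ * f z)) + conj a * ((den a b z)⁻¹ * f z) =
      (den a b z) * (den a b z)⁻¹ * f z := by unfold den; ring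
    rw [e, mul_inv_cancel₀ this, one_mul]
  rw [e1]
  conv_rhs => rw [e2]
  refine sq_norm_inj ?_
  have h1 : ‖a • Mz g + b • g‖ ^ 2 = (normSq a + normSq b) * ‖g‖ ^ 2 +
      2 * RCLike.re (conj a * b * ⟪Mz g, g⟫_ℂ) := by
    rw [norm_add_sq (𝕜 := ℂ), norm_smul, norm_smul, Mz_norm, inner_smul_left, inner_smul_right,
      normSq_eq_norm_sq, normSq_eq_norm_sq, ← mul_assoc (conj a)]
    ring
  have h2 : ‖conj b • Mz g + conj a • g‖ ^ 2 = (normSq a + normSq b) * ‖g‖ ^ 2 +
      2 * RCLike.re (conj a * b * ⟪Mz g, g⟫_ℂ) := by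
    rw [norm_add_sq (𝕜 := ℂ), norm_smul, norm_smul, Mz_norm, inner_smul_left, inner_smul_right,
      normSq_eq_norm_sq, normSq_eq_norm_sq, RCLike.norm_conj, RCLike.norm_conj, conj_conj,
      ← mul_assoc b, mul_comm b]
    ring
  rw [h1, h2]

/-- Multiplication by a disc automorphism as a linear isometry. -/
noncomputable def mobIsom (h : SU a b) : H2 →ₗᵢ[ℂ] H2 :=
  ⟨(mul (mob a b) (BA.mob h) : H2 →ₗ[ℂ] H2), mul_mob_norm h⟩

theorem mobIsom_apply (h : SU a b) (f : H2) (z : ℂ) : mobIsom h f z = mob a b z * f z := rfl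

theorem a_ne (h : SU a b) : a ≠ 0 := by
  rintro rfl
  unfold SU at h
  rw [map_zero] at h
  linarith [normSq_nonneg b]

/-- The zero of the automorphism. -/
noncomputable def w0 (a b : ℂ) : ℂ := -b / a

theorem w0_mem (h : SU a b) : w0 a b ∈ U := by
  have h1 : ‖b‖ < ‖a‖ := by
    unfold SU at h
    rw [normSq_eq_norm_sq, normSq_eq_norm_sq] at h
    exact (sq_lt_sq₀ (norm_nonneg _) (norm_nonneg _)).1 (by linarith)
  rw [mem_U_iff, w0, norm_div, norm_neg, div_lt_one (norm_pos_iff.2 (a_ne h))]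
  exact h1

/-- `e₀ = 1 / den`. -/
noncomputable def e0 (a b : ℂ) : H2 := (conj a)⁻¹ • ker (w0 a b)

theorem e0_apply (h : SU a b) {z : ℂ} (hz : z ∈ U) : e0 a b z = (den a b z)⁻¹ := by
  rw [e0, H2.smul_apply, ker_apply (w0_mem h) hz, ← mul_inv]
  congr 1
  have ha : conj a ≠ 0 := (map_ne_zero _).2 (a_ne h)
  rw [w0, den, map_div₀, map_neg]
  field_simp
  ring

theorem e0_norm (h : SU a b) : ‖e0 a b‖ = 1 := by
  have h2 : ‖e0 a b‖ ^ 2 = 1 := by
    rw [e0, norm_smul, mul_pow, norm_ker_sq (w0_mem h), norm_inv, RCLike.norm_conj, w0, norm_div,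
      norm_neg]
    have ha : ‖a‖ ≠ 0 := norm_ne_zero_iff.2 (a_ne h)
    have h3 : ‖a‖ ^ 2 - ‖b‖ ^ 2 = 1 := by
      rw [← normSq_eq_norm_sq, ← normSq_eq_norm_sq]; exact h
    have h4 : 1 - (‖b‖ / ‖a‖) ^ 2 = 1 / ‖a‖ ^ 2 := by
      field_simp
      linarith
    rw [h4]
    field_simp
  have := norm_nonneg (e0 a b)
  nlinarith

/-- The orthonormal family `e_n = num^n / den^(n+1)`. -/
noncomputable def en (h : SU a b) (n : ℕ) : H2 := ((mobIsom h) ^ n) (e0 a b)

theorem pow_isom_apply (h : SU a b) (n : ℕ) (f : H2) (z : ℂ) :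
    ((mobIsom h) ^ n) f z = mob a b z ^ n * f z := by
  induction n generalizing f with
  | zero => simp
  | succ n ih =>
    rw [pow_succ]
    change ((mobIsom h) ^ n) (mobIsom h f) z = _
    rw [ih, mobIsom_apply]; ring

theorem en_apply (h : SU a b) (n : ℕ) {z : ℂ} (hz : z ∈ U) :
    en h n z = mob a b z ^ n * (den a b z)⁻¹ := by
  rw [en, pow_isom_apply, e0_apply h hz]

theorem mob_w0 (h : SU a b) : mob a b (w0 a b) = 0 := by
  have ha := a_ne h
  rw [mob, num, w0]
  have : a * (-b / a) + b = 0 := by field_simp; ring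
  rw [this, zero_div]

theorem en_inner (h : SU a b) (i k : ℕ) :
    ⟪en h i, en h (i + k)⟫_ℂ = if k = 0 then 1 else 0 := by
  have h1 : en h (i + k) = ((mobIsom h) ^ i) (((mobIsom h) ^ k) (e0 a b)) := by
    rw [en, pow_add]; rfl
  rw [h1, en, LinearIsometry.inner_map_map]
  split_ifs with hk
  · subst hk
    rw [pow_zero]
    change ⟪e0 a b, e0 a b⟫_ℂ = 1
    rw [inner_self_eq_norm_sq_to_K, e0_norm h]
    simp
  · rw [e0, inner_smul_left, inner_ker (w0_mem h), ← e0, pow_isom_apply, mob_w0 h, zero_pow hk,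
      zero_mul, mul_zero]

theorem en_orthonormal (h : SU a b) : Orthonormal ℂ (en h) := by
  rw [orthonormal_iff_ite]
  intro i j
  rcases le_total i j with hij | hij
  · obtain ⟨k, rfl⟩ := Nat.exists_eq_add_of_le hij
    rw [en_inner]
    by_cases hk : k = 0
    · simp [hk]
    · simp [hk]
  · obtain ⟨k, rfl⟩ := Nat.exists_eq_add_of_le hij
    rw [← inner_conj_symm, en_inner]
    by_cases hk : k = 0
    · simp [hk]
    · simp [hk]

/-- The isometry `f ↦ den⁻¹ · (f ∘ mob)`. -/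
noncomputable def Uiso (h : SU a b) : H2 →ₗᵢ[ℂ] H2 :=
  (en_orthonormal h).orthogonalFamily.linearIsometry.comp iso.symm.toLinearIsometry

theorem Uiso_apply (h : SU a b) (f : H2) {z : ℂ} (hz : z ∈ U) :
    Uiso h f z = (den a b z)⁻¹ * f (mob a b z) := by
  have h1 := (en_orthonormal h).orthogonalFamily.hasSum_linearIsometry (iso.symm f)
  have h2 := h1.mapL (ev z)
  have h3 : HasSum (fun n => (iso.symm f) n * (mob a b z) ^ n) (f (mob a b z)) := by
    have := iso_hasSum (iso.symm f) (mob_mem h hz)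
    rwa [iso.apply_symm_apply] at this
  have h4 : (ev z) ((en_orthonormal h).orthogonalFamily.linearIsometry (iso.symm f)) =
      Uiso h f z := ev_apply hz _
  rw [← h4]
  refine h2.unique ((h3.mul_left (den a b z)⁻¹).congr_fun fun n => ?_)
  rw [ev_apply hz]
  change ((iso.symm f) n • en h n) z = _
  rw [H2.smul_apply, en_apply h n hz]
  ring

end Pool.Agent.Helper289.Hardy
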