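import Pool.Agent.Helper289.HardyIso

/-! Kernels, multipliers, disc automorphisms acting isometrically. -/

namespace Pool.Agent.Helper289.Hardy

open Metric Complex Set MeasureTheory Filter Topology
open scoped Real ComplexConjugate InnerProductSpace

theorem geom_mem {w : ℂ} (hw : w ∈ U) : Memℓp (fun n : ℕ => (conj w) ^ n) 2 := by
  refine memℓp_gen ?_
  have h : ‖w‖ ^ 2 < 1 := by
    have := mem_U_iff.1 hw
    nlinarith [norm_nonneg w]
  refine (summable_geometric_of_lt_one (by positivity) h).congr fun n => ?_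
  simp [← pow_mul, mul_comm]

/-- The reproducing kernel at `w`. -/
noncomputable def ker (w : ℂ) : H2 := by
  classical exact if h : w ∈ U then iso ⟨fun n => (conj w) ^ n, geom_mem h⟩ else 0

theorem ker_def {w : ℂ} (h : w ∈ U) : ker w = iso ⟨fun n => (conj w) ^ n, geom_mem h⟩ := by
  simp only [ker, dif_pos h]

theorem inner_def (f g : H2) : ⟪f, g⟫_ℂ = ⟪iso.symm f, iso.symm g⟫_ℂ := rfl

/-- The reproducing property. -/
theorem inner_ker {w : ℂ} (h : w ∈ U) (f : H2) : ⟪ker w, f⟫_ℂ = f w := by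
  rw [inner_def, ker_def h, LinearIsometryEquiv.symm_apply_apply, lp.inner_eq_tsum]
  conv_rhs => rw [← iso.apply_symm_apply f]
  rw [iso_apply _ h]
  refine tsum_congr fun n => ?_
  simp only [RCLike.inner_apply, map_pow, conj_conj]

theorem ker_apply {w : ℂ} (hw : w ∈ U) {z : ℂ} (hz : z ∈ U) : ker w z = (1 - conj w * z)⁻¹ := by
  rw [ker_def hw, iso_apply _ hz]
  have : ‖conj w * z‖ < 1 := by
    rw [norm_mul, RCLike.norm_conj]
    have h1 := mem_U_iff.1 hw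
    have h2 := mem_U_iff.1 hz
    nlinarith [norm_nonneg w, norm_nonneg z]
  rw [← tsum_geometric_of_norm_lt_one this]
  refine tsum_congr fun n => ?_
  rw [mul_pow]

theorem one_sub_pos {w : ℂ} (hw : w ∈ U) : 0 < 1 - ‖w‖ ^ 2 := by
  have := mem_U_iff.1 hw
  nlinarith [norm_nonneg w]

theorem norm_ker_sq {w : ℂ} (hw : w ∈ U) : ‖ker w‖ ^ 2 = (1 - ‖w‖ ^ 2)⁻¹ := by
  have h := inner_self_eq_norm_sq_to_K (𝕜 := ℂ) (ker w)
  rw [inner_ker hw, ker_apply hw hw] at h
  have e : conj w * w = ((‖w‖ ^ 2 : ℝ) : ℂ) := by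
    rw [mul_comm, Complex.mul_conj, Complex.normSq_eq_norm_sq]
  rw [e] at h
  have h2 : (((1 - ‖w‖ ^ 2)⁻¹ : ℝ) : ℂ) = ((‖ker w‖ ^ 2 : ℝ) : ℂ) := by
    push_cast
    push_cast at h
    exact h
  exact (Complex.ofReal_injective h2).symm

theorem norm_ker_pos {w : ℂ} (hw : w ∈ U) : 0 < ‖ker w‖ := by
  have h := norm_ker_sq hw
  have h2 : 0 < ‖ker w‖ ^ 2 := by rw [h]; exact inv_pos.2 (one_sub_pos hw)
  rcases (norm_nonneg (ker w)).eq_or_lt with h3 | h3
  · rw [← h3] at h2; norm_num at h2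
  · exact h3

theorem eval_le {w : ℂ} (hw : w ∈ U) (f : H2) : ‖f w‖ ≤ ‖ker w‖ * ‖f‖ := by
  rw [← inner_ker hw]; exact norm_inner_le_norm _ _

/-- Evaluation at a point as a continuous functional. -/
noncomputable def ev (w : ℂ) : H2 →L[ℂ] ℂ := innerSL ℂ (ker w)

theorem ev_apply {w : ℂ} (hw : w ∈ U) (f : H2) : ev w f = f w := by
  rw [ev, innerSL_apply_apply, inner_ker hw]

/-- Bounded analytic functions on `U`. -/
def BA (g : ℂ → ℂ) : Prop := DifferentiableOn ℂ g U ∧ ∃ C : ℝ, ∀ z ∈ U, ‖g z‖ ≤ C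

theorem mul_mem {g : ℂ → ℂ} (hg : DifferentiableOn ℂ g U) {C : ℝ} (hC : ∀ z ∈ U, ‖g z‖ ≤ C)
    (f : H2) {r : ℝ} (hr : r ∈ Ioo (0 : ℝ) 1) :
    mean2 (fun z => g z * f z) r ≤ C ^ 2 * ‖f‖ ^ 2 := by
  refine (mean2_mono (f := fun z => g z * f z) (g := f) (K := C ^ 2)
    (hg.continuousOn.mul f.cont) f.cont (fun z hz => ?_) hr).trans ?_
  · rw [norm_mul, mul_pow]
    exact mul_le_mul_of_nonneg_right (pow_le_pow_left₀ (norm_nonneg _) (hC z hz) 2)
      (by positivity)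
  · exact mul_le_mul_of_nonneg_left (f.mean2_le hr) (by positivity)

/-- The function `g f`. -/
noncomputable def mulFun (g : ℂ → ℂ) (hg : BA g) (f : H2) : H2 :=
  ⟨fun z => g z * f z, hg.1.mul f.diff, fun z hz => by
    change g z * f z = 0
    rw [f.off hz, mul_zero],
    by obtain ⟨C, hC⟩ := hg.2; exact ⟨C ^ 2 * ‖f‖ ^ 2, fun r hr => mul_mem hg.1 hC f hr⟩⟩

theorem mulFun_norm {g : ℂ → ℂ} (hg : BA g) {C : ℝ} (hC0 : 0 ≤ C) (hC : ∀ z ∈ U, ‖g z‖ ≤ C)
    (f : H2) : ‖mulFun g hg f‖ ≤ C * ‖f‖ := by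
  have h : ‖mulFun g hg f‖ ^ 2 ≤ (C * ‖f‖) ^ 2 := by
    rw [H2.norm_sq, mul_pow]
    have : Nonempty (Ioo (0 : ℝ) 1) := ⟨⟨1 / 2, by norm_num, by norm_num⟩⟩
    exact ciSup_le fun r => mul_mem hg.1 hC f r.2
  exact (sq_le_sq₀ (norm_nonneg _) (by positivity)).1 h

/-- The multiplication operator by a bounded analytic function. -/
noncomputable def mul (g : ℂ → ℂ) (hg : BA g) : H2 →L[ℂ] H2 :=
  LinearMap.mkContinuousOfExistsBound
    { toFun := mulFun g hg
      map_add' := fun f h => H2.ext fun z _ => by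
        change g z * (f z + h z) = g z * f z + g z * h z
        ring
      map_smul' := fun c f => H2.ext fun z _ => by
        change g z * (c * f z) = c * (g z * f z)
        ring }
    (by
      obtain ⟨C, hC⟩ := hg.2
      exact ⟨|C|, fun f => mulFun_norm hg (abs_nonneg C)
        (fun z hz => (hC z hz).trans (le_abs_self C)) f⟩)

@[simp] theorem mul_apply (g : ℂ → ℂ) (hg : BA g) (f : H2) (z : ℂ) : mul g hg f z = g z * f z := rfl

theorem mul_norm_le {g : ℂ → ℂ} (hg : BA g) {C : ℝ} (hC0 : 0 ≤ C) (hC : ∀ z ∈ U, ‖g z‖ ≤ C) :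
    ‖mul g hg‖ ≤ C :=
  ContinuousLinearMap.opNorm_le_bound _ hC0 (mulFun_norm hg hC0 hC)

theorem le_mul_norm {g : ℂ → ℂ} (hg : BA g) {z : ℂ} (hz : z ∈ U) : ‖g z‖ ≤ ‖mul g hg‖ := by
  have h1 : ⟪ker z, mul g hg (ker z)⟫_ℂ = g z * (ker z z) := by
    rw [inner_ker hz, mul_apply]
  have h2 : ker z z = ((‖ker z‖ ^ 2 : ℝ) : ℂ) := by
    rw [← inner_ker hz, inner_self_eq_norm_sq_to_K (𝕜 := ℂ) (ker z)]
    push_cast; rfl
  have h3 := norm_inner_le_norm (𝕜 := ℂ) (ker z) (mul g hg (ker z))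
  rw [h1, h2, norm_mul, Complex.norm_real, Real.norm_of_nonneg (by positivity)] at h3
  have h4 := (mul g hg).le_opNorm (ker z)
  have h5 := norm_ker_pos hz
  have h6 : ‖g z‖ * ‖ker z‖ ^ 2 ≤ ‖mul g hg‖ * ‖ker z‖ ^ 2 := by
    calc _ ≤ ‖ker z‖ * ‖mul g hg (ker z)‖ := h3
      _ ≤ ‖ker z‖ * (‖mul g hg‖ * ‖ker z‖) := by gcongr
      _ = _ := by ring
  exact le_of_mul_le_mul_right h6 (by positivity)

theorem clm_ext {S T : H2 →L[ℂ] H2} (h : ∀ f : H2, ∀ z ∈ U, S f z = T f z) : S = T :=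
  ContinuousLinearMap.ext fun f => H2.ext (h f)

theorem BA.mul {g h : ℂ → ℂ} (hg : BA g) (hh : BA h) : BA (fun z => g z * h z) := by
  obtain ⟨C, hC⟩ := hg.2
  obtain ⟨D, hD⟩ := hh.2
  refine ⟨hg.1.mul hh.1, |C| * |D|, fun z hz => ?_⟩
  rw [norm_mul]
  exact mul_le_mul ((hC z hz).trans (le_abs_self C)) ((hD z hz).trans (le_abs_self D))
    (norm_nonneg _) (abs_nonneg _)

theorem BA.add {g h : ℂ → ℂ} (hg : BA g) (hh : BA h) : BA (fun z => g z + h z) := by
  obtain ⟨C, hC⟩ := hg.2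
  obtain ⟨D, hD⟩ := hh.2
  exact ⟨hg.1.add hh.1, C + D, fun z hz => (norm_add_le _ _).trans (add_le_add (hC z hz) (hD z hz))⟩

theorem BA.const (c : ℂ) : BA (fun _ => c) := ⟨differentiableOn_const c, ‖c‖, fun _ _ => le_rfl⟩

theorem BA.id : BA (fun z => z) :=
  ⟨differentiableOn_id, 1, fun _ hz => (mem_U_iff.1 hz).le⟩

theorem BA.inv {g : ℂ → ℂ} (hg : DifferentiableOn ℂ g U) {c : ℝ} (hc : 0 < c)
    (h : ∀ z ∈ U, c ≤ ‖g z‖) : BA (fun z => (g z)⁻¹) := by
  have h0 : ∀ z ∈ U, g z ≠ 0 := fun z hz h' => by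
    have := h z hz
    rw [h', norm_zero] at this
    linarith
  refine ⟨hg.inv h0, c⁻¹, fun z hz => ?_⟩
  rw [norm_inv]
  exact inv_anti₀ hc (h z hz)

theorem mul_mul_eq {g h : ℂ → ℂ} (hg : BA g) (hh : BA h) :
    mul g hg * mul h hh = mul (fun z => g z * h z) (hg.mul hh) :=
  clm_ext fun f z _ => by
    change g z * (h z * f z) = (g z * h z) * f z
    ring

theorem mul_comm' {g h : ℂ → ℂ} (hg : BA g) (hh : BA h) :
    mul g hg * mul h hh = mul h hh * mul g hg :=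
  clm_ext fun f z _ => by
    change g z * (h z * f z) = h z * (g z * f z)
    ring

theorem mul_eq_one {g : ℂ → ℂ} (hg : BA g) (h : ∀ z ∈ U, g z = 1) : mul g hg = 1 :=
  clm_ext fun f z hz => by simp [h z hz]

/-- The right shift on `ℓ²`. -/
noncomputable def shiftSeq (a : L2) : L2 :=
  ⟨fun n => Nat.casesOn n 0 a, by
    refine memℓp_gen ?_
    rw [← summable_nat_add_iff 1]
    have := L2_summable a
    simpa [two_toReal] using this⟩

theorem shiftSeq_norm (a : L2) : ‖shiftSeq a‖ = ‖a‖ := by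
  have h : ‖shiftSeq a‖ ^ 2 = ‖a‖ ^ 2 := by
    rw [L2_norm_sq, L2_norm_sq, (L2_summable (shiftSeq a)).tsum_eq_zero_add]
    simp [shiftSeq]
  exact (sq_eq_sq₀ (norm_nonneg _) (norm_nonneg _)).1 h

/-- The shift, multiplication by `z`. -/
noncomputable def Mz : H2 →L[ℂ] H2 := mul (fun z => z) BA.id

@[simp] theorem Mz_apply (f : H2) (z : ℂ) : Mz f z = z * f z := rfl

theorem Mz_iso (a : L2) : Mz (iso a) = iso (shiftSeq a) :=
  H2.ext fun z hz => by
    rw [Mz_apply, iso_apply _ hz, iso_apply _ hz,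
      (L2_summable_pt (shiftSeq a) hz).tsum_eq_zero_add, ← tsum_mul_left]
    have h0 : shiftSeq a 0 * z ^ 0 = 0 := by
      change (0 : ℂ) * z ^ 0 = 0
      simp
    rw [h0, zero_add]
    refine tsum_congr fun n => ?_
    change z * (a n * z ^ n) = a n * z ^ (n + 1)
    ring

theorem Mz_norm (f : H2) : ‖Mz f‖ = ‖f‖ := by
  rw [← iso.apply_symm_apply f, Mz_iso, LinearIsometryEquiv.norm_map, shiftSeq_norm,
    iso.apply_symm_apply, LinearIsometryEquiv.norm_map]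

/-- Elements vanishing at `0` are divisible by `z`. -/
theorem exists_Mz {f : H2} (hf : f 0 = 0) : ∃ g : H2, Mz g = f := by
  set a := iso.symm f with ha
  have h0 : a 0 = 0 := by
    have h : iso a 0 = 0 := by rw [ha, LinearIsometryEquiv.apply_symm_apply]; exact hf
    rw [iso_apply _ (by simp [U]), tsum_eq_single 0] at h
    · simpa using h
    · intro n hn; simp [hn]
  have hmem : Memℓp (fun n => a (n + 1)) 2 := by
    refine memℓp_gen ?_
    have := (summable_nat_add_iff 1).2 (L2_summable a)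
    simpa [two_toReal] using this
  refine ⟨iso ⟨fun n => a (n + 1), hmem⟩, ?_⟩
  rw [Mz_iso]
  have : shiftSeq ⟨fun n => a (n + 1), hmem⟩ = a := by
    refine lp.ext (funext fun n => ?_)
    cases n with
    | zero => exact h0.symm
    | succ n => rfl
  rw [this, ha, LinearIsometryEquiv.apply_symm_apply]

end Pool.Agent.Helper289.Hardy
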