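import Pool.Agent.Helper289.HardyGap

/-! Rotation invariance of the resolvent set. -/

namespace Pool.Agent.Helper289.Gap

open Metric Complex Set MeasureTheory Filter Topology
open scoped Real

variable {E : Type*} [NormedAddCommGroup E] [NormedSpace ℂ E] [CompleteSpace E]

/-- the hypothesis on intertwiners -/
def HasInt (T : E →L[ℂ] E) (K : ℝ) : Prop :=
  ∀ c : ℂ, ‖c‖ = 1 → ∀ ε > 0, ∃ c' : ℂ, ∃ V : E →L[ℂ] E, ‖c'‖ = 1 ∧ ‖c' - c‖ < ε ∧
    T * V = c' • (V * T) ∧ ‖V‖ ≤ K ∧ ∀ f, ‖f‖ ≤ K * ‖V f‖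

theorem res_transfer {T V : E →L[ℂ] E} {c : ℂ} (hc : ‖c‖ = 1) (hV : T * V = c • (V * T))
    {l : ℂ} (hl : l ∈ resolventSet ℂ T) (hm : c⁻¹ * l ∈ resolventSet ℂ T) :
    V * resolvent T (c⁻¹ * l) = c • (resolvent T l * V) := by
  have hc0 : c ≠ 0 := by rintro rfl; simp at hc
  have h1 := res_right hl
  have h2 := res_left hm
  have h3 : (l • (1 : E →L[ℂ] E) - T) * V = c • (V * ((c⁻¹ * l) • (1 : E →L[ℂ] E) - T)) := by
    rw [sub_mul, smul_mul_assoc, one_mul, hV, mul_sub, mul_smul_comm, mul_one, smul_sub,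
      smul_smul, mul_inv_cancel_left₀ hc0]
  calc V * resolvent T (c⁻¹ * l)
      = resolvent T l * ((l • (1 : E →L[ℂ] E) - T) * V) * resolvent T (c⁻¹ * l) := by
        rw [← mul_assoc, h1, one_mul]
    _ = c • (resolvent T l * V) := by
        rw [h3, mul_smul_comm, smul_mul_assoc, ← mul_assoc, mul_assoc, h2, mul_one]

theorem res_bound_int {T V : E →L[ℂ] E} {c : ℂ} {K : ℝ} (hc : ‖c‖ = 1)
    (hV : T * V = c • (V * T)) (hK : ‖V‖ ≤ K) (hK2 : ∀ f, ‖f‖ ≤ K * ‖V f‖) (hK0 : 0 ≤ K)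
    {l : ℂ} (hl : l ∈ resolventSet ℂ T) (hm : c⁻¹ * l ∈ resolventSet ℂ T) :
    ‖resolvent T (c⁻¹ * l)‖ ≤ K * (‖resolvent T l‖ * K) := by
  refine ContinuousLinearMap.opNorm_le_bound _ (by positivity) fun f => ?_
  have h1 := res_transfer hc hV hl hm
  have h2 : V (resolvent T (c⁻¹ * l) f) = c • resolvent T l (V f) :=
    congrArg (fun S : E →L[ℂ] E => S f) h1
  calc ‖resolvent T (c⁻¹ * l) f‖ ≤ K * ‖V (resolvent T (c⁻¹ * l) f)‖ := hK2 _
    _ = K * ‖resolvent T l (V f)‖ := by rw [h2, norm_smul, hc, one_mul]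
    _ ≤ K * (‖resolvent T l‖ * (K * ‖f‖)) := by
        refine mul_le_mul_of_nonneg_left ?_ hK0
        refine (ContinuousLinearMap.le_opNorm _ _).trans ?_
        refine mul_le_mul_of_nonneg_left ?_ (norm_nonneg _)
        exact (V.le_opNorm f).trans (mul_le_mul_of_nonneg_right hK (norm_nonneg _))
    _ = _ := by ring

theorem res_bound {T : E →L[ℂ] E} {K : ℝ} (hK0 : 0 ≤ K) (hyp : HasInt T K) {l m : ℂ}
    (hl : l ∈ resolventSet ℂ T) (hm : m ∈ resolventSet ℂ T) (hlm : ‖m‖ = ‖l‖) (hl0 : l ≠ 0) :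
    ‖resolvent T m‖ ≤ K * (‖resolvent T l‖ * K) := by
  have hm0 : m ≠ 0 := by
    rw [← norm_ne_zero_iff, hlm]; exact norm_ne_zero_iff.2 hl0
  set c : ℂ := l / m with hc
  have hc1 : ‖c‖ = 1 := by rw [hc, norm_div, hlm, div_self (norm_ne_zero_iff.2 hl0)]
  have hcm : c⁻¹ * l = m := by rw [hc]; field_simp
  choose c' V h1 h2 h3 h4 h5 using fun n : ℕ => hyp c hc1 (1 / ((n : ℝ) + 1)) (by positivity)
  have hlim : Tendsto c' atTop (𝓝 c) := by
    rw [tendsto_iff_norm_sub_tendsto_zero]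
    exact squeeze_zero (fun n => norm_nonneg _) (fun n => (h2 n).le)
      tendsto_one_div_add_atTop_nhds_zero_nat
  have hc0 : c ≠ 0 := by rintro h; rw [h, norm_zero] at hc1; exact zero_ne_one hc1
  have hlim2 : Tendsto (fun n => (c' n)⁻¹ * l) atTop (𝓝 m) := by
    have := (hlim.inv₀ hc0).mul_const l
    rwa [hcm] at this
  have hev : ∀ᶠ n in atTop, (c' n)⁻¹ * l ∈ resolventSet ℂ T :=
    hlim2.eventually ((spectrum.isOpen_resolventSet T).mem_nhds hm)
  have hres : Tendsto (fun n => ‖resolvent T ((c' n)⁻¹ * l)‖) atTop (𝓝 ‖resolvent T m‖) :=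
    ((res_cont hm).tendsto.comp hlim2).norm
  refine le_of_tendsto hres ?_
  filter_upwards [hev] with n hn
  exact res_bound_int (h1 n) (h3 n) (h4 n) (h5 n) hK0 hl hn

theorem near_res {T : E →L[ℂ] E} {m m' : ℂ} {M : ℝ} (hm : m ∈ resolventSet ℂ T)
    (hM : ‖resolvent T m‖ ≤ M) (hd : ‖m' - m‖ * M < 1) : m' ∈ resolventSet ℂ T := by
  have h1 : ‖-((m' - m) • resolvent T m)‖ < 1 := by
    rw [norm_neg, norm_smul]
    exact (mul_le_mul_of_nonneg_left hM (norm_nonneg _)).trans_lt hd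
  have hu : IsUnit (1 - -((m' - m) • resolvent T m)) := isUnit_one_sub_of_norm_lt_one h1
  have hu2 : IsUnit (m • (1 : E →L[ℂ] E) - T) := by
    rw [← Algebra.algebraMap_eq_smul_one]; exact hm
  have e : m' • (1 : E →L[ℂ] E) - T = (m • (1 : E →L[ℂ] E) - T) *
      (1 - -((m' - m) • resolvent T m)) := by
    rw [mul_sub, mul_one, mul_neg, mul_smul_comm, res_left hm, sub_smul]
    abel
  change IsUnit (algebraMap ℂ (E →L[ℂ] E) m' - T)
  rw [Algebra.algebraMap_eq_smul_one, e]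
  exact hu2.mul hu

/-- **Rotation invariance.** -/
theorem rot_inv {T : E →L[ℂ] E} {K : ℝ} (hK0 : 0 ≤ K) (hyp : HasInt T K) {l m : ℂ}
    (hl : l ∈ resolventSet ℂ T) (hlm : ‖m‖ = ‖l‖) : m ∈ resolventSet ℂ T := by
  by_cases hl0 : l = 0
  · subst hl0
    rw [norm_zero, norm_eq_zero] at hlm
    rwa [hlm]
  set M := K * (‖resolvent T l‖ * K) with hM
  have hM0 : 0 ≤ M := by positivity
  set S : Set ℝ := {θ | exp (θ * I) * l ∈ resolventSet ℂ T} with hS
  have hcont : Continuous fun θ : ℝ => exp (θ * I) * l := by fun_prop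
  have hopen : IsOpen S := (spectrum.isOpen_resolventSet T).preimage hcont
  have hclosed : IsClosed S := by
    refine isClosed_of_closure_subset fun θ hθ => ?_
    have hnh : {θ' : ℝ | ‖exp (θ * I) * l - exp (θ' * I) * l‖ < 1 / (M + 1)} ∈ 𝓝 θ := by
      have h1 : Continuous fun θ' : ℝ => ‖exp (θ * I) * l - exp (θ' * I) * l‖ := by fun_prop
      refine h1.continuousAt.preimage_mem_nhds (Iio_mem_nhds ?_)
      rw [sub_self, norm_zero]; positivity
    obtain ⟨θ', h1, h2⟩ := mem_closure_iff_nhds.1 hθ _ hnh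
    have hn : ‖exp (θ' * I) * l‖ = ‖l‖ := by
      rw [norm_mul, Complex.norm_exp_ofReal_mul_I, one_mul]
    have h3 := res_bound hK0 hyp hl h2 hn hl0
    refine near_res h2 (h3.trans (by linarith : M ≤ M + 1)) ?_
    have h1' : ‖exp (θ * I) * l - exp (θ' * I) * l‖ < 1 / (M + 1) := h1
    rwa [lt_div_iff₀ (by positivity)] at h1'
  have huniv : S = univ := IsClopen.eq_univ ⟨hclosed, hopen⟩ ⟨0, by simpa [hS] using hl⟩
  have h1 : ‖m / l‖ = 1 := by rw [norm_div, hlm, div_self (norm_ne_zero_iff.2 hl0)]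
  have h2 := Complex.norm_mul_exp_arg_mul_I (m / l)
  rw [h1, ofReal_one, one_mul] at h2
  have h3 : (arg (m / l)) ∈ S := by rw [huniv]; trivial
  have h4 : exp (arg (m / l) * I) * l ∈ resolventSet ℂ T := h3
  rwa [h2, div_mul_cancel₀ _ hl0] at h4

/-- If `σ(T)` is rotation invariant and has no circular gap, it is an annulus. -/
theorem annulus [Nontrivial E] {T : E →L[ℂ] E}
    (hrot : ∀ l m : ℂ, l ∈ resolventSet ℂ T → ‖m‖ = ‖l‖ → m ∈ resolventSet ℂ T)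
    (hgap : ∀ r : ℝ, 0 < r → (∀ z : ℂ, ‖z‖ = r → z ∈ resolventSet ℂ T) →
      (∀ z : ℂ, ‖z‖ < r → z ∈ resolventSet ℂ T) ∨ (∀ z : ℂ, r < ‖z‖ → z ∈ resolventSet ℂ T)) :
    ∃ l1 ∈ spectrum ℂ T, ∃ l2 ∈ spectrum ℂ T, (∀ l ∈ spectrum ℂ T, ‖l1‖ ≤ ‖l‖) ∧
      (∀ l ∈ spectrum ℂ T, ‖l‖ ≤ ‖l2‖) ∧
      spectrum ℂ T = {l : ℂ | ‖l1‖ ≤ ‖l‖ ∧ ‖l‖ ≤ ‖l2‖} := by
  have hcomp : IsCompact (spectrum ℂ T) := spectrum.isCompact T
  have hne : (spectrum ℂ T).Nonempty := spectrum.nonempty T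
  obtain ⟨l1, h1, h1'⟩ := hcomp.exists_isMinOn hne continuous_norm.continuousOn
  obtain ⟨l2, h2, h2'⟩ := hcomp.exists_isMaxOn hne continuous_norm.continuousOn
  refine ⟨l1, h1, l2, h2, fun l hl => h1' hl, fun l hl => h2' hl, ?_⟩
  ext l
  constructor
  · exact fun hl => ⟨h1' hl, h2' hl⟩
  · rintro ⟨ha, hb⟩
    by_contra hl
    have hl' : l ∈ resolventSet ℂ T := by
      by_contra h; exact hl h
    by_cases hl0 : l = 0
    · rw [hl0, norm_zero] at ha
      have : l1 = 0 := norm_le_zero_iff.1 ha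
      rw [this] at h1
      rw [hl0] at hl
      exact hl h1
    have hc := hgap ‖l‖ (norm_pos_iff.2 hl0) fun z hz => hrot l z hl' hz
    rcases hc with hc | hc
    · rcases ha.lt_or_eq with h | h
      · exact h1 (hc l1 h)
      · exact h1 (hrot l l1 hl' h)
    · rcases hb.lt_or_eq with h | h
      · exact h2 (hc l2 h)
      · exact h2 (hrot l l2 hl' h.symm)

end Pool.Agent.Helper289.Gap
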