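import Pool.Agent.Helper289.HardyInt
import Pool.Agent.Helper289.HardyRot

/-! The multipliers in the three cases are bounded below; existence of intertwiners. -/

namespace Pool.Agent.Helper289.Hardy

open Metric Complex Set MeasureTheory Filter Topology
open scoped Real ComplexConjugate InnerProductSpace

theorem mean2_mono_r (f : H2) {r r' : ℝ} (hr : r ∈ Ioo (0 : ℝ) 1) (hr' : r' ∈ Ioo (0 : ℝ) 1)
    (h : r ≤ r') : mean2 f r ≤ mean2 f r' := by
  have h1 := ser_mean (iso.symm f) hr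
  have h2 := ser_mean (iso.symm f) hr'
  have e : ser (iso.symm f) = (f : ℂ → ℂ) := by
    change ((iso (iso.symm f) : H2) : ℂ → ℂ) = f
    rw [iso.apply_symm_apply]
  rw [e] at h1 h2
  refine hasSum_le (fun n => ?_) h1 h2
  exact mul_le_mul_of_nonneg_left (pow_le_pow_left₀ hr.1.le h _) (by positivity)

/-- The bounded functions form a dense subspace. -/
theorem bounded_dense (f : H2) {ε : ℝ} (hε : 0 < ε) :
    ∃ g : H2, (∃ C : ℝ, ∀ z ∈ U, ‖g z‖ ≤ C) ∧ ‖f - g‖ < ε := by
  obtain ⟨v, hv, hd⟩ := ker_dense f hε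
  refine ⟨v, ?_, hd⟩
  clear hd
  induction hv using Submodule.span_induction with
  | mem x hx =>
    obtain ⟨w, hw, rfl⟩ := hx
    refine ⟨(1 - ‖w‖)⁻¹, fun z hz => ?_⟩
    have hw1 := mem_U_iff.1 hw
    have hz1 := mem_U_iff.1 hz
    rw [ker_apply hw hz, norm_inv]
    refine inv_anti₀ (by linarith) ?_
    have h1 : ‖(1 : ℂ)‖ ≤ ‖1 - conj w * z‖ + ‖conj w * z‖ := by
      have : (1 : ℂ) = (1 - conj w * z) + conj w * z := by ring
      conv_lhs => rw [this]
      exact norm_add_le _ _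
    rw [norm_one, norm_mul, RCLike.norm_conj] at h1
    nlinarith [norm_nonneg w, norm_nonneg z]
  | zero => exact ⟨0, fun z _ => by simp⟩
  | add x y _ _ hx hy =>
    obtain ⟨C, hC⟩ := hx
    obtain ⟨D, hD⟩ := hy
    exact ⟨C + D, fun z hz => (norm_add_le _ _).trans (add_le_add (hC z hz) (hD z hz))⟩
  | smul c x _ hx =>
    obtain ⟨C, hC⟩ := hx
    refine ⟨‖c‖ * C, fun z hz => ?_⟩
    rw [H2.smul_apply, norm_mul]
    exact mul_le_mul_of_nonneg_left (hC z hz) (norm_nonneg _)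

theorem isometric_of_inner {g : ℂ → ℂ} (hg : BA g) (h1 : ∀ z ∈ U, ‖g z‖ ≤ 1)
    (h2 : ∀ᵐ t : ℝ, Tendsto (fun r : ℝ => ‖g (r * exp (t * I))‖) (𝓝[<] 1) (𝓝 1)) (f : H2) :
    ‖mul g hg f‖ = ‖f‖ := by
  have hle : ∀ f : H2, ‖mul g hg f‖ ≤ ‖f‖ := fun f => by
    have := mulFun_norm hg zero_le_one h1 f
    rwa [one_mul] at this
  -- the defect
  have hδ : Tendsto (fun r : ℝ => ∫ t in (0 : ℝ)..(2 * π), (1 - ‖g (r * exp (t * I))‖ ^ 2))
      (𝓝[<] 1) (𝓝 (∫ t in (0 : ℝ)..(2 * π), (0 : ℝ))) := by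
    have hIoo : Ioo (0 : ℝ) 1 ∈ 𝓝[<] (1 : ℝ) := Ioo_mem_nhdsLT (by norm_num)
    refine intervalIntegral.tendsto_integral_filter_of_dominated_convergence (μ := volume)
      (fun _ => (1 : ℝ)) ?_ ?_ ?_ ?_
    · filter_upwards [hIoo] with r hr
      have := continuous_slice hg.1.continuousOn hr
      exact (continuous_const.sub (this.norm.pow 2)).aestronglyMeasurable
    · filter_upwards [hIoo] with r hr
      refine Eventually.of_forall fun t _ => ?_
      have h3 := h1 _ (pt_mem hr t)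
      have h4 := norm_nonneg (g (r * exp (t * I)))
      rw [Real.norm_eq_abs, abs_le]
      constructor <;> nlinarith
    · exact intervalIntegrable_const
    · filter_upwards [h2] with t ht _
      have := (tendsto_const_nhds (x := (1 : ℝ))).sub (ht.pow 2)
      simpa using this
  rw [intervalIntegral.integral_zero] at hδ
  have hbd : ∀ f : H2, (∃ C : ℝ, ∀ z ∈ U, ‖f z‖ ≤ C) → ‖f‖ ≤ ‖mul g hg f‖ := by
    rintro f ⟨C, hC⟩
    have hsq : ‖f‖ ^ 2 ≤ ‖mul g hg f‖ ^ 2 := by
      rw [H2.norm_sq f]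
      have : Nonempty (Ioo (0 : ℝ) 1) := ⟨⟨1 / 2, by norm_num, by norm_num⟩⟩
      refine ciSup_le fun r0 => ?_
      have hlim : Tendsto (fun r : ℝ => ‖mul g hg f‖ ^ 2 + (2 * π)⁻¹ * (C ^ 2 *
          ∫ t in (0 : ℝ)..(2 * π), (1 - ‖g (r * exp (t * I))‖ ^ 2))) (𝓝[<] 1)
          (𝓝 (‖mul g hg f‖ ^ 2)) := by
        have := (((hδ.const_mul (C ^ 2)).const_mul (2 * π)⁻¹)).const_add (‖mul g hg f‖ ^ 2)
        simpa using this
      refine ge_of_tendsto hlim ?_
      have hIoo : Ioo (r0 : ℝ) 1 ∈ 𝓝[<] (1 : ℝ) := Ioo_mem_nhdsLT r0.2.2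
      filter_upwards [hIoo] with r hr
      have hr' : r ∈ Ioo (0 : ℝ) 1 := ⟨r0.2.1.trans hr.1, hr.2⟩
      refine (mean2_mono_r f r0.2 hr' hr.1.le).trans ?_
      have h5 := (mul g hg f).mean2_le hr'
      have h6 : mean2 f r - mean2 (mul g hg f) r ≤ (2 * π)⁻¹ * (C ^ 2 *
          ∫ t in (0 : ℝ)..(2 * π), (1 - ‖g (r * exp (t * I))‖ ^ 2)) := by
        unfold mean2
        have hpi : (0 : ℝ) ≤ (2 * π)⁻¹ := by positivity
        rw [← mul_sub, ← intervalIntegral.integral_sub (integrable_slice f.cont hr')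
          (integrable_slice (mul g hg f).cont hr')]
        refine mul_le_mul_of_nonneg_left ?_ hpi
        have hcg := continuous_slice hg.1.continuousOn hr'
        rw [← intervalIntegral.integral_const_mul]
        refine intervalIntegral.integral_mono_on (by positivity)
          ((integrable_slice f.cont hr').sub (integrable_slice (mul g hg f).cont hr'))
          ((((continuous_const.sub (hcg.norm.pow 2))).const_mul _).intervalIntegrable _ _)
          (fun t _ => ?_)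
        rw [mul_apply, norm_mul, mul_pow]
        have h7 := hC _ (pt_mem hr' t)
        have h8 := h1 _ (pt_mem hr' t)
        have h9 := norm_nonneg (f (r * exp (t * I)))
        have h10 := norm_nonneg (g (r * exp (t * I)))
        have h11 : ‖f (r * exp (t * I))‖ ^ 2 ≤ C ^ 2 := pow_le_pow_left₀ h9 h7 2
        have h12 : 0 ≤ 1 - ‖g (r * exp (t * I))‖ ^ 2 := by nlinarith
        nlinarith
      linarith
    exact (sq_le_sq₀ (norm_nonneg _) (norm_nonneg _)).1 hsq
  refine le_antisymm (hle f) ?_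
  refine le_of_forall_pos_le_add fun ε hε => ?_
  obtain ⟨v, hv, hd⟩ := bounded_dense f (half_pos hε)
  have h3 := hbd v hv
  have h4 : ‖f‖ ≤ ‖v‖ + ‖f - v‖ := by
    have : f = v + (f - v) := by abel
    conv_lhs => rw [this]
    exact norm_add_le _ _
  have h5 : ‖mul g hg v‖ ≤ ‖mul g hg f‖ + ‖f - v‖ := by
    have : mul g hg v = mul g hg f - mul g hg (f - v) := by rw [map_sub]; abel
    rw [this]
    exact (norm_sub_le _ _).trans (add_le_add le_rfl (hle _))
  linarith

theorem expL0_isometric {ζ : ℂ} (hζ : ‖ζ‖ = 1) {s : ℝ} (hs : 0 ≤ s) (f : H2) :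
    ‖mul (fun z => exp (-(s : ℂ) * L0 ζ z)) (BA_expL0 hζ hs) f‖ = ‖f‖ := by
  refine isometric_of_inner _ (fun z hz => norm_expL0_le hζ hs hz) ?_ f
  have hcount : {t : ℝ | exp (t * I) = ζ}.Countable := by
    refine (countable_range (fun n : ℤ => arg ζ + n * (2 * π))).mono ?_
    intro t ht
    have ht' : exp (t * I) = ζ := ht
    have h1 := Complex.norm_mul_exp_arg_mul_I ζ
    rw [hζ, ofReal_one, one_mul, ← ht'] at h1
    rw [ht'] at h1
    obtain ⟨n, hn⟩ := Complex.exp_eq_exp_iff_exists_int.1 (ht'.trans h1.symm)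
    refine ⟨n, ?_⟩
    have h2 : ((t : ℂ)) * I = ((arg ζ + n * (2 * π) : ℝ) : ℂ) * I := by
      rw [hn]; push_cast; ring
    have h3 := mul_right_cancel₀ I_ne_zero h2
    exact (ofReal_injective h3).symm
  filter_upwards [hcount.ae_notMem volume] with t ht
  have hne : ζ - exp (t * I) ≠ 0 := fun h => ht (sub_eq_zero.1 h).symm
  have hform : ∀ r : ℝ, ‖exp (-(s : ℂ) * L0 ζ (r * exp (t * I)))‖ =
      Real.exp (-s * ((1 - ‖(r : ℂ) * exp (t * I)‖ ^ 2) / ‖ζ - r * exp (t * I)‖ ^ 2)) := by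
    intro r
    rw [Complex.norm_exp, ← ofReal_neg, re_ofReal_mul, L0_re hζ]
  simp only [hform]
  have hcont : ContinuousAt (fun r : ℝ => Real.exp (-s * ((1 - ‖(r : ℂ) * exp (t * I)‖ ^ 2) /
      ‖ζ - r * exp (t * I)‖ ^ 2))) 1 := by
    refine (Real.continuous_exp.continuousAt).comp ?_
    refine continuousAt_const.mul ?_
    refine ContinuousAt.div (by fun_prop) (by fun_prop) ?_
    refine pow_ne_zero 2 (norm_ne_zero_iff.2 ?_)
    simpa using hne
  have h1 := hcont.tendsto.mono_left (nhdsWithin_le_nhds (s := Iio 1))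
  have h2 : ‖((1 : ℝ) : ℂ) * exp (t * I)‖ = 1 := norm_pt 1 t zero_le_one
  rw [h2] at h1
  simpa using h1

end Pool.Agent.Helper289.Hardy
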