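import Pool.Agent.Helper289.HardyLoc

/-! The growth rates in terms of the behaviour of the weight at the boundary fixed points. -/

namespace Pool.Agent.Helper289.Hardy

open Metric Complex Set MeasureTheory Filter Topology
open scoped Real ComplexConjugate InnerProductSpace

variable {a b : ℂ} {ψ φ : ℂ → ℂ}

/-- boundary fixed points -/
def bf (a b : ℂ) : Set ℂ := {ζ | ‖ζ‖ = 1 ∧ mob a b ζ = ζ}

theorem den_bdry_ne (h : SU a b) {ξ : ℂ} (hξ : ‖ξ‖ = 1) : den a b ξ ≠ 0 := by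
  intro h0
  have h1 := normSq_den_sub h ξ
  rw [h0, map_zero, normSq_eq_norm_sq ξ, hξ] at h1
  have h2 : normSq (num a b ξ) = 0 := by linarith
  have h3 : num a b ξ = 0 := normSq_eq_zero.1 h2
  have h4 : a * ξ = -b := by rw [num] at h3; linear_combination h3
  have h5 := congrArg norm h4
  rw [norm_mul, hξ, mul_one, norm_neg] at h5
  unfold SU at h
  rw [normSq_eq_norm_sq, normSq_eq_norm_sq, h5, sub_self] at h
  exact zero_ne_one h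

theorem mob_cont (h : SU a b) {ξ : ℂ} (hξ : ‖ξ‖ = 1) : ContinuousAt (mob a b) ξ := by
  unfold mob
  refine ContinuousAt.div ?_ ?_ (den_bdry_ne h hξ)
  · unfold num; fun_prop
  · unfold den; fun_prop

theorem neBot_bdry {ζ : ℂ} (hζ : ‖ζ‖ = 1) : (𝓝[U] ζ).NeBot := by
  rw [← mem_closure_iff_nhdsWithin_neBot]
  change ζ ∈ closure (ball (0 : ℂ) 1)
  rw [closure_ball _ one_ne_zero, mem_closedBall, dist_zero_right, hζ]

theorem iter_tendsto (h : SU a b) (hφ : ∀ z ∈ U, φ z = mob a b z) {ζ : ℂ} (hζ : ζ ∈ bf a b)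
    (m : ℕ) : Tendsto (φ^[m]) (𝓝[U] ζ) (𝓝[U] ζ) := by
  have h1 : Tendsto φ (𝓝[U] ζ) (𝓝[U] ζ) := by
    have h2 : Tendsto (mob a b) (𝓝[U] ζ) (𝓝[U] ζ) := by
      refine tendsto_nhdsWithin_iff.2 ⟨?_, ?_⟩
      · have := (mob_cont h hζ.1).tendsto.mono_left (nhdsWithin_le_nhds (s := U))
        rwa [hζ.2] at this
      · filter_upwards [self_mem_nhdsWithin] with z hz
        exact mob_mem h hz
    refine h2.congr' ?_
    filter_upwards [self_mem_nhdsWithin] with z hz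
    exact (hφ z hz).symm
  exact h1.iterate m

/-- The geometric factor. -/
noncomputable def fac (φ : ℂ → ℂ) (m : ℕ) (z : ℂ) : ℝ :=
  √((1 - ‖z‖ ^ 2) / (1 - ‖φ^[m] z‖ ^ 2))

theorem gain_fac (ψ φ : ℂ → ℂ) (m : ℕ) (z : ℂ) : gain ψ φ m z = ‖wt ψ φ m z‖ * fac φ m z := rfl

theorem fac_eq (h : SU a b) (hφ : ∀ z ∈ U, φ z = mob a b z) (m : ℕ) {z : ℂ} (hz : z ∈ U) :
    fac φ m z = ∏ j ∈ Finset.range m, ‖den a b (φ^[j] z)‖ := by
  have hmaps : MapsTo φ U U := fun z hz => by rw [hφ z hz]; exact mob_mem h hz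
  have h1 := gain_mul (ψ := fun _ => 1) hmaps 1 m hz
  have h2 : ∀ n w, gain (fun _ => (1 : ℂ)) φ n w = fac φ n w := by
    intro n w
    rw [gain_fac, wt]; simp
  rw [mul_one, h2] at h1
  rw [h1]
  refine Finset.prod_congr rfl fun j _ => ?_
  rw [mul_one, gain_eq h (fun z hz => by rw [Function.iterate_one]; exact hφ z hz)
    (iter_mem hmaps j hz), wt]
  simp

theorem fac_pos (h : SU a b) (hφ : ∀ z ∈ U, φ z = mob a b z) (m : ℕ) {z : ℂ} (hz : z ∈ U) :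
    0 < fac φ m z := by
  have hmaps : MapsTo φ U U := fun z hz => by rw [hφ z hz]; exact mob_mem h hz
  rw [fac_eq h hφ m hz]
  exact Finset.prod_pos fun j _ => norm_pos_iff.2 (den_ne h (iter_mem hmaps j hz))

theorem fac_tendsto (h : SU a b) (hφ : ∀ z ∈ U, φ z = mob a b z) {ζ : ℂ} (hζ : ζ ∈ bf a b)
    (m : ℕ) : Tendsto (fac φ m) (𝓝[U] ζ) (𝓝 (‖den a b ζ‖ ^ m)) := by
  have h1 : Tendsto (fun z => ∏ j ∈ Finset.range m, ‖den a b (φ^[j] z)‖) (𝓝[U] ζ)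
      (𝓝 (∏ _j ∈ Finset.range m, ‖den a b ζ‖)) := by
    refine tendsto_finsetProd _ fun j _ => ?_
    have h2 : Continuous (fun z => ‖den a b z‖) := by unfold den; fun_prop
    exact (h2.tendsto ζ).comp ((iter_tendsto h hφ hζ j).mono_right nhdsWithin_le_nhds)
  rw [Finset.prod_const, Finset.card_range] at h1
  refine h1.congr' ?_
  filter_upwards [self_mem_nhdsWithin] with z hz
  exact (fac_eq h hφ m hz).symm

/-- the local supremum of the weight -/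
noncomputable def wsup (ψ φ : ℂ → ℂ) (n : ℕ) (ζ : ℂ) : ℝ :=
  limsup (fun z => ‖wt ψ φ n z‖) (𝓝[U] ζ)

/-- the local infimum of the weight -/
noncomputable def winf (ψ φ : ℂ → ℂ) (n : ℕ) (ζ : ℂ) : ℝ :=
  liminf (fun z => ‖wt ψ φ n z‖) (𝓝[U] ζ)

theorem wt_bdd_le (hψ : BA ψ) (h : SU a b) (hφ : ∀ z ∈ U, φ z = mob a b z) (n : ℕ) (ζ : ℂ) :
    IsBoundedUnder (· ≤ ·) (𝓝[U] ζ) (fun z => ‖wt ψ φ n z‖) := by
  obtain ⟨C, hC⟩ := (BA_wt hψ h hφ n).2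
  refine isBoundedUnder_of_eventually_le (a := C) ?_
  filter_upwards [self_mem_nhdsWithin] with z hz
  exact hC z hz

theorem wt_bdd_ge (n : ℕ) (ζ : ℂ) :
    IsBoundedUnder (· ≥ ·) (𝓝[U] ζ) (fun z => ‖wt ψ φ n z‖) :=
  isBoundedUnder_of_eventually_ge (a := 0) (Eventually.of_forall fun _ => norm_nonneg _)

theorem gain_bdd (hψ : BA ψ) (h : SU a b) (hφ : ∀ z ∈ U, φ z = mob a b z) (n : ℕ) :
    BddAbove (range fun z : U => gain ψ φ n z) := by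
  obtain ⟨c, d, hcd, hc⟩ := exists_iter h hφ n
  have hg : BA (fun z => wt ψ φ n z * den c d z) := (BA_wt hψ h hφ n).mul BA.den
  obtain ⟨C, hC⟩ := hg.2
  refine ⟨C, ?_⟩
  rintro _ ⟨z, rfl⟩
  change gain ψ φ n z ≤ C
  rw [gain_eq hcd hc z.2]
  exact hC z z.2

theorem gain_le_sup (hψ : BA ψ) (h : SU a b) (hφ : ∀ z ∈ U, φ z = mob a b z) (n : ℕ) {z : ℂ}
    (hz : z ∈ U) : gain ψ φ n z ≤ ⨆ z : U, gain ψ φ n z :=
  le_ciSup (gain_bdd hψ h hφ n) ⟨z, hz⟩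

theorem inf_le_gain (n : ℕ) {z : ℂ} (hz : z ∈ U) : ⨅ z : U, gain ψ φ n z ≤ gain ψ φ n z :=
  ciInf_le (f := fun z : U => gain ψ φ n z)
    ⟨0, by rintro _ ⟨z, rfl⟩; exact gain_nonneg _ _ _ _⟩ (⟨z, hz⟩ : U)

theorem gain_inf_nonneg (n : ℕ) : 0 ≤ ⨅ z : U, gain ψ φ n z :=
  Real.iInf_nonneg fun _ => gain_nonneg _ _ _ _

theorem gain_sup_nonneg (n : ℕ) : 0 ≤ ⨆ z : U, gain ψ φ n z :=
  Real.iSup_nonneg fun _ => gain_nonneg _ _ _ _

theorem denpow_pos (h : SU a b) {ζ : ℂ} (hζ : ζ ∈ bf a b) (n : ℕ) : 0 < ‖den a b ζ‖ ^ n :=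
  pow_pos (norm_pos_iff.2 (den_bdry_ne h hζ.1)) n

/-- local supremum is at most the global one -/
theorem wsup_le (hψ : BA ψ) (h : SU a b) (hφ : ∀ z ∈ U, φ z = mob a b z) (n : ℕ) {ζ : ℂ}
    (hζ : ζ ∈ bf a b) : wsup ψ φ n ζ * ‖den a b ζ‖ ^ n ≤ ⨆ z : U, gain ψ φ n z := by
  have := neBot_bdry hζ.1
  have hd := denpow_pos h hζ n
  set A := ⨆ z : U, gain ψ φ n z with hA
  have h1 : Tendsto (fun z => A / fac φ n z) (𝓝[U] ζ) (𝓝 (A / ‖den a b ζ‖ ^ n)) :=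
    tendsto_const_nhds.div (fac_tendsto h hφ hζ n) hd.ne'
  have h2 : wsup ψ φ n ζ ≤ limsup (fun z => A / fac φ n z) (𝓝[U] ζ) := by
    refine limsup_le_limsup ?_ (wt_bdd_ge n ζ).isCoboundedUnder_le h1.isBoundedUnder_le
    filter_upwards [self_mem_nhdsWithin] with z hz
    rw [le_div_iff₀ (fac_pos h hφ n hz)]
    exact gain_le_sup hψ h hφ n hz
  rw [h1.limsup_eq] at h2
  rwa [le_div_iff₀ hd] at h2

theorem le_winf (hψ : BA ψ) (h : SU a b) (hφ : ∀ z ∈ U, φ z = mob a b z) (n : ℕ) {ζ : ℂ}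
    (hζ : ζ ∈ bf a b) : ⨅ z : U, gain ψ φ n z ≤ winf ψ φ n ζ * ‖den a b ζ‖ ^ n := by
  have := neBot_bdry hζ.1
  have hd := denpow_pos h hζ n
  set A := ⨅ z : U, gain ψ φ n z with hA
  have h1 : Tendsto (fun z => A / fac φ n z) (𝓝[U] ζ) (𝓝 (A / ‖den a b ζ‖ ^ n)) :=
    tendsto_const_nhds.div (fac_tendsto h hφ hζ n) hd.ne'
  have h2 : liminf (fun z => A / fac φ n z) (𝓝[U] ζ) ≤ winf ψ φ n ζ := by
    refine liminf_le_liminf ?_ h1.isBoundedUnder_ge (wt_bdd_le hψ h hφ n ζ).isCoboundedUnder_ge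
    filter_upwards [self_mem_nhdsWithin] with z hz
    rw [div_le_iff₀ (fac_pos h hφ n hz)]
    exact inf_le_gain n hz
  rw [h1.liminf_eq] at h2
  rwa [div_le_iff₀ hd] at h2

theorem ev_gain_lt (hψ : BA ψ) (h : SU a b) (hφ : ∀ z ∈ U, φ z = mob a b z) (n : ℕ) {ζ : ℂ}
    (hζ : ζ ∈ bf a b) {B : ℝ} (hB : wsup ψ φ n ζ * ‖den a b ζ‖ ^ n < B) :
    ∀ᶠ z in 𝓝[U] ζ, gain ψ φ n z < B := by
  have := neBot_bdry hζ.1
  have hc : ContinuousAt (fun e : ℝ => (wsup ψ φ n ζ + e) * (‖den a b ζ‖ ^ n + e)) 0 := by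
    fun_prop
  have h1 : ∀ᶠ e : ℝ in 𝓝[>] 0, (wsup ψ φ n ζ + e) * (‖den a b ζ‖ ^ n + e) < B := by
    refine (hc.tendsto.mono_left nhdsWithin_le_nhds).eventually (Iio_mem_nhds ?_)
    simpa using hB
  obtain ⟨e, he, he0⟩ := (h1.and self_mem_nhdsWithin).exists
  have he0 : 0 < e := he0
  have h2 : ∀ᶠ z in 𝓝[U] ζ, ‖wt ψ φ n z‖ < wsup ψ φ n ζ + e :=
    eventually_lt_of_limsup_lt (lt_add_of_pos_right _ he0) (wt_bdd_le hψ h hφ n ζ)
  have h3 : ∀ᶠ z in 𝓝[U] ζ, fac φ n z < ‖den a b ζ‖ ^ n + e :=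
    (fac_tendsto h hφ hζ n).eventually (Iio_mem_nhds (lt_add_of_pos_right _ he0))
  filter_upwards [h2, h3, self_mem_nhdsWithin] with z h4 h5 hz
  rw [gain_fac]
  exact (mul_lt_mul'' h4 h5 (norm_nonneg _) (fac_pos h hφ n hz).le).trans he

theorem ev_lt_gain (h : SU a b) (hφ : ∀ z ∈ U, φ z = mob a b z) (n : ℕ) {ζ : ℂ}
    (hζ : ζ ∈ bf a b) {B : ℝ} (hB0 : 0 ≤ B) (hB : B < winf ψ φ n ζ * ‖den a b ζ‖ ^ n) :
    ∀ᶠ z in 𝓝[U] ζ, B < gain ψ φ n z := by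
  have := neBot_bdry hζ.1
  have hd := denpow_pos h hζ n
  have hw : 0 < winf ψ φ n ζ := by
    by_contra h0
    push Not at h0
    nlinarith
  have hc : ContinuousAt (fun e : ℝ => (winf ψ φ n ζ - e) * (‖den a b ζ‖ ^ n - e)) 0 := by
    fun_prop
  have h1 : ∀ᶠ e : ℝ in 𝓝[>] 0, B < (winf ψ φ n ζ - e) * (‖den a b ζ‖ ^ n - e) := by
    refine (hc.tendsto.mono_left nhdsWithin_le_nhds).eventually (Ioi_mem_nhds ?_)
    simpa using hB
  have h1' : ∀ᶠ e : ℝ in 𝓝[>] 0, e < winf ψ φ n ζ :=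
    (tendsto_id.mono_left nhdsWithin_le_nhds).eventually (Iio_mem_nhds hw)
  have h1'' : ∀ᶠ e : ℝ in 𝓝[>] 0, e < ‖den a b ζ‖ ^ n :=
    (tendsto_id.mono_left nhdsWithin_le_nhds).eventually (Iio_mem_nhds hd)
  obtain ⟨e, ⟨⟨he, hew⟩, hed⟩, he0⟩ := (((h1.and h1').and h1'').and self_mem_nhdsWithin).exists
  have he0 : 0 < e := he0
  have h2 : ∀ᶠ z in 𝓝[U] ζ, winf ψ φ n ζ - e < ‖wt ψ φ n z‖ :=
    eventually_lt_of_lt_liminf (sub_lt_self _ he0) (wt_bdd_ge n ζ)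
  have h3 : ∀ᶠ z in 𝓝[U] ζ, ‖den a b ζ‖ ^ n - e < fac φ n z :=
    (fac_tendsto h hφ hζ n).eventually (Ioi_mem_nhds (sub_lt_self _ he0))
  filter_upwards [h2, h3, self_mem_nhdsWithin] with z h4 h5 hz
  rw [gain_fac]
  exact he.trans (mul_lt_mul'' h4 h5 (by linarith) (by linarith))

theorem mem_nbhd {P : ℂ → Prop} {ζ : ℂ} (hP : ∀ᶠ z in 𝓝[U] ζ, P z) :
    ∃ δ : ℝ, 0 < δ ∧ ∀ z ∈ U, ‖z - ζ‖ < δ → P z := by
  rw [eventually_nhdsWithin_iff, Metric.eventually_nhds_iff] at hP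
  obtain ⟨δ, hδ, h1⟩ := hP
  exact ⟨δ, hδ, fun z hz hd => h1 (by rwa [dist_eq_norm]) hz⟩

/-- Outside a bounded number of steps an orbit is near a boundary fixed point. -/
theorem exists_bad (h : SU a b) (hφ : ∀ z ∈ U, φ z = mob a b z) (hno : ∀ p ∈ U, φ p ≠ p)
    {P : ℂ → Prop} (hP : ∀ ζ ∈ bf a b, ∀ᶠ z in 𝓝[U] ζ, P z) {m : ℕ} (hm : 0 < m) :
    ∃ K : ℕ, ∀ z ∈ U, ∀ q : ℕ, ∃ bad : ℕ → Prop, ∃ _ : DecidablePred bad,
      (∀ j, ¬ bad j → P (φ^[j * m] z)) ∧ ((Finset.range q).filter bad).card ≤ K := by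
  classical
  have hmaps : MapsTo φ U U := fun z hz => by rw [hφ z hz]; exact mob_mem h hz
  obtain ⟨H, t, ζ₁, ζ₂, ht, hH, h1, h2, hf1, hf2, hM⟩ :=
    exists_height h (fun p hp => by rw [← hφ p hp]; exact hno p hp)
  obtain ⟨δ₁, hδ₁, hP1⟩ := mem_nbhd (hP ζ₁ ⟨h1, hf1⟩)
  obtain ⟨δ₂, hδ₂, hP2⟩ := mem_nbhd (hP ζ₂ ⟨h2, hf2⟩)
  obtain ⟨M, hM⟩ := hM (min δ₁ δ₂) (lt_min hδ₁ hδ₂)
  have hs : (m : ℝ) * t ≠ 0 := mul_ne_zero (by exact_mod_cast hm.ne') ht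
  refine ⟨⌊2 * M / |(m : ℝ) * t|⌋₊ + 1, fun z hz q => ?_⟩
  have hHi : ∀ n : ℕ, H (φ^[n] z) = H z + n * t := by
    intro n
    induction n with
    | zero => simp
    | succ n ih =>
      rw [Function.iterate_succ_apply', hφ _ (iter_mem hmaps n hz), hH _ (iter_mem hmaps n hz), ih]
      push_cast; ring
  refine ⟨fun j => |H z + j * (m * t)| ≤ M, inferInstance, fun j hj => ?_,
    count_bad (H z) (m * t) M hs q⟩
  push Not at hj
  have h3 : M < |H (φ^[j * m] z)| := by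
    rw [hHi]
    push_cast
    rwa [mul_assoc]
  rcases hM _ (iter_mem hmaps _ hz) h3 with h4 | h4
  · exact hP1 _ (iter_mem hmaps _ hz) (h4.trans_le (min_le_left _ _))
  · exact hP2 _ (iter_mem hmaps _ hz) (h4.trans_le (min_le_right _ _))

theorem rate_le_local (hψ : BA ψ) (h : SU a b) (hφ : ∀ z ∈ U, φ z = mob a b z)
    (hno : ∀ p ∈ U, φ p ≠ p) {R : ℝ}
    (hR : Tendsto (fun n : ℕ => (⨆ z : U, gain ψ φ n z) ^ (1 / n : ℝ)) atTop (𝓝 R))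
    {m : ℕ} (hm : 0 < m) {B : ℝ} (hB0 : 0 < B)
    (hB : ∀ ζ ∈ bf a b, wsup ψ φ m ζ * ‖den a b ζ‖ ^ m < B) : R ^ m ≤ B := by
  have hmaps : MapsTo φ U U := fun z hz => by rw [hφ z hz]; exact mob_mem h hz
  obtain ⟨K, hK⟩ := exists_bad h hφ hno
    (P := fun z => gain ψ φ m z < B) (fun ζ hζ => ev_gain_lt hψ h hφ m hζ (hB ζ hζ)) hm
  set A := max B (⨆ z : U, gain ψ φ m z) with hA
  have hAB : B ≤ A := le_max_left _ _
  refine rate_le hm (fun n => gain_sup_nonneg n) hB0 (C := (A / B) ^ K) (by positivity) hR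
    fun q => ciSup_le fun z => ?_
  rw [gain_mul hmaps m q z.2]
  obtain ⟨bad, hdec, hgood, hcard⟩ := hK z z.2 q
  exact prod_le_of_bad (fun j => gain_nonneg _ _ _ _) hB0 hAB
    (fun j => (gain_le_sup hψ h hφ m (iter_mem hmaps _ z.2)).trans (le_max_right _ _))
    (fun j hj => (hgood j hj).le) hcard

theorem local_le_rate (h : SU a b) (hφ : ∀ z ∈ U, φ z = mob a b z)
    (hno : ∀ p ∈ U, φ p ≠ p) {r : ℝ}
    (hr : Tendsto (fun n : ℕ => (⨅ z : U, gain ψ φ n z) ^ (1 / n : ℝ)) atTop (𝓝 r))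
    {m : ℕ} (hm : 0 < m) {B : ℝ} (hB0 : 0 < B) (hpos : 0 < ⨅ z : U, gain ψ φ m z)
    (hB : ∀ ζ ∈ bf a b, B < winf ψ φ m ζ * ‖den a b ζ‖ ^ m) : B ≤ r ^ m := by
  have hmaps : MapsTo φ U U := fun z hz => by rw [hφ z hz]; exact mob_mem h hz
  obtain ⟨K, hK⟩ := exists_bad h hφ hno
    (P := fun z => B < gain ψ φ m z) (fun ζ hζ => ev_lt_gain h hφ m hζ hB0.le (hB ζ hζ)) hm
  set A := min B (⨅ z : U, gain ψ φ m z) with hA
  have hAB : A ≤ B := min_le_left _ _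
  have hA0 : 0 < A := lt_min hB0 hpos
  refine le_rate hm (fun n => gain_inf_nonneg n) hB0 (C := (A / B) ^ K) (by positivity) hr
    fun q => le_ciInf fun z => ?_
  rw [gain_mul hmaps m q z.2]
  obtain ⟨bad, hdec, hgood, hcard⟩ := hK z z.2 q
  exact le_prod_of_bad hA0 hAB
    (fun j => (min_le_right _ _).trans (inf_le_gain m (iter_mem hmaps _ z.2)))
    (fun j hj => (hgood j hj).le) hcard

theorem bf_nonempty (h : SU a b) (hφ : ∀ z ∈ U, φ z = mob a b z) (hno : ∀ p ∈ U, φ p ≠ p) :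
    (bf a b).Nonempty := by
  obtain ⟨H, t, ζ₁, ζ₂, ht, hH, h1, h2, hf1, hf2, hM⟩ :=
    exists_height h (fun p hp => by rw [← hφ p hp]; exact hno p hp)
  exact ⟨ζ₁, h1, hf1⟩

theorem rpow_inv_pow {x : ℝ} (hx : 0 ≤ x) {n : ℕ} (hn : 0 < n) : (x ^ n) ^ (1 / n : ℝ) = x := by
  rw [← Real.rpow_natCast, ← Real.rpow_mul hx]
  have : (n : ℝ) * (1 / n) = 1 := by
    have : (n : ℝ) ≠ 0 := by exact_mod_cast hn.ne'
    field_simp
  rw [this, Real.rpow_one]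

/-- The outer radius is localised at the boundary fixed points. -/
theorem outer_local (hψ : BA ψ) (h : SU a b) (hφ : ∀ z ∈ U, φ z = mob a b z)
    (hno : ∀ p ∈ U, φ p ≠ p) {R : ℝ}
    (hR : Tendsto (fun n : ℕ => (⨆ z : U, gain ψ φ n z) ^ (1 / n : ℝ)) atTop (𝓝 R)) :
    Tendsto (fun n : ℕ => (⨆ ζ : bf a b, wsup ψ φ n ζ * ‖den a b ζ‖ ^ n) ^ (1 / n : ℝ))
      atTop (𝓝 R) ∧
    ∀ n : ℕ, 0 < n → R ^ n ≤ ⨆ ζ : bf a b, wsup ψ φ n ζ * ‖den a b ζ‖ ^ n := by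
  have : Nonempty (bf a b) := (bf_nonempty h hφ hno).to_subtype
  have hR0 : 0 ≤ R := ge_of_tendsto' hR fun n => Real.rpow_nonneg (gain_sup_nonneg n) _
  have hbdd : ∀ n, BddAbove (range fun ζ : bf a b => wsup ψ φ n ζ * ‖den a b ζ‖ ^ n) := by
    intro n
    refine ⟨⨆ z : U, gain ψ φ n z, ?_⟩
    rintro _ ⟨ζ, rfl⟩
    exact wsup_le hψ h hφ n ζ.2
  have hws0 : ∀ n (ζ : bf a b), 0 ≤ wsup ψ φ n ζ * ‖den a b ζ‖ ^ n := by
    intro n ζ
    have := neBot_bdry ζ.2.1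
    refine mul_nonneg ?_ (by positivity)
    refine le_limsup_of_frequently_le (Frequently.of_forall fun _ => norm_nonneg _)
      (wt_bdd_le hψ h hφ n ζ)
  have hlow : ∀ n : ℕ, 0 < n → R ^ n ≤ ⨆ ζ : bf a b, wsup ψ φ n ζ * ‖den a b ζ‖ ^ n := by
    intro n hn
    refine le_of_forall_pos_lt_add fun e he => ?_
    have h0 : 0 ≤ ⨆ ζ : bf a b, wsup ψ φ n ζ * ‖den a b ζ‖ ^ n := Real.iSup_nonneg (hws0 n)
    have h1 := rate_le_local hψ h hφ hno hR hn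
      (B := (⨆ ζ : bf a b, wsup ψ φ n ζ * ‖den a b ζ‖ ^ n) + e / 2) (by positivity)
      (fun ζ hζ => lt_of_le_of_lt (le_ciSup (hbdd n) ⟨ζ, hζ⟩) (by linarith))
    linarith
  refine ⟨?_, hlow⟩
  refine tendsto_of_tendsto_of_tendsto_of_le_of_le' tendsto_const_nhds hR ?_ ?_
  · filter_upwards [eventually_gt_atTop 0] with n hn
    rw [← rpow_inv_pow hR0 hn]
    exact Real.rpow_le_rpow (by positivity) (hlow n hn) (by positivity)
  · filter_upwards with n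
    refine Real.rpow_le_rpow (Real.iSup_nonneg (hws0 n)) ?_ (by positivity)
    exact ciSup_le fun ζ => wsup_le hψ h hφ n ζ.2

theorem gain_lower (h : SU a b) (hφ : ∀ z ∈ U, φ z = mob a b z)
    {c : ℝ} (hc : 0 < c) (hlow : ∀ z ∈ U, c ≤ ‖ψ z‖) (n : ℕ) :
    0 < ⨅ z : U, gain ψ φ n z := by
  have hmaps : MapsTo φ U U := fun z hz => by rw [hφ z hz]; exact mob_mem h hz
  obtain ⟨α, β, hαβ, hc'⟩ := exists_iter h hφ n
  obtain ⟨d, hd, hd'⟩ := den_lower hαβ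
  refine lt_of_lt_of_le (b := c ^ n * d) (by positivity) (le_ciInf fun z => ?_)
  rw [gain_eq hαβ hc' z.2, norm_mul]
  refine mul_le_mul ?_ (hd' z z.2) hd.le (norm_nonneg _)
  rw [wt, norm_prod]
  have : c ^ n = ∏ _j ∈ Finset.range n, c := by rw [Finset.prod_const, Finset.card_range]
  rw [this]
  exact Finset.prod_le_prod (fun _ _ => hc.le) fun j _ => hlow _ (iter_mem hmaps j z.2)

/-- The inner radius is localised at the boundary fixed points. -/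
theorem inner_local (hψ : BA ψ) (h : SU a b) (hφ : ∀ z ∈ U, φ z = mob a b z)
    (hno : ∀ p ∈ U, φ p ≠ p) {r : ℝ}
    (hr : Tendsto (fun n : ℕ => (⨅ z : U, gain ψ φ n z) ^ (1 / n : ℝ)) atTop (𝓝 r))
    {c : ℝ} (hc : 0 < c) (hlo : ∀ z ∈ U, c ≤ ‖ψ z‖) :
    Tendsto (fun n : ℕ => (⨅ ζ : bf a b, winf ψ φ n ζ * ‖den a b ζ‖ ^ n) ^ (1 / n : ℝ))
      atTop (𝓝 r) ∧
    ∀ n : ℕ, 0 < n → ⨅ ζ : bf a b, winf ψ φ n ζ * ‖den a b ζ‖ ^ n ≤ r ^ n := by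
  have : Nonempty (bf a b) := (bf_nonempty h hφ hno).to_subtype
  have hr0 : 0 ≤ r := ge_of_tendsto' hr fun n => Real.rpow_nonneg (gain_inf_nonneg n) _
  have hpos : ∀ n, 0 < ⨅ z : U, gain ψ φ n z := gain_lower h hφ hc hlo
  have hI : ∀ n, ⨅ z : U, gain ψ φ n z ≤ ⨅ ζ : bf a b, winf ψ φ n ζ * ‖den a b ζ‖ ^ n :=
    fun n => le_ciInf fun ζ => le_winf hψ h hφ n ζ.2
  have hbdd : ∀ n, BddBelow (range fun ζ : bf a b => winf ψ φ n ζ * ‖den a b ζ‖ ^ n) := by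
    intro n
    refine ⟨⨅ z : U, gain ψ φ n z, ?_⟩
    rintro _ ⟨ζ, rfl⟩
    exact le_winf hψ h hφ n ζ.2
  have hup : ∀ n : ℕ, 0 < n → ⨅ ζ : bf a b, winf ψ φ n ζ * ‖den a b ζ‖ ^ n ≤ r ^ n := by
    intro n hn
    refine le_of_forall_lt fun B hB => ?_
    obtain ⟨B', hB1, hB2⟩ := exists_between (max_lt hB ((hpos n).trans_le (hI n)))
    have h1 := local_le_rate h hφ hno hr hn (B := B') ((le_max_right _ _).trans_lt hB1) (hpos n)
      (fun ζ hζ => hB2.trans_le (ciInf_le (hbdd n) ⟨ζ, hζ⟩))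
    exact ((le_max_left _ _).trans_lt hB1).trans_le h1
  refine ⟨?_, hup⟩
  refine tendsto_of_tendsto_of_tendsto_of_le_of_le' hr tendsto_const_nhds ?_ ?_
  · filter_upwards with n
    exact Real.rpow_le_rpow (hpos n).le (hI n) (by positivity)
  · filter_upwards [eventually_gt_atTop 0] with n hn
    rw [← rpow_inv_pow hr0 hn]
    exact Real.rpow_le_rpow ((hpos n).le.trans (hI n)) (hup n hn) (by positivity)

theorem inner_zero (hψ : BA ψ) (h : SU a b) (hφ : ∀ z ∈ U, φ z = mob a b z) {r : ℝ}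
    (hr : Tendsto (fun n : ℕ => (⨅ z : U, gain ψ φ n z) ^ (1 / n : ℝ)) atTop (𝓝 r))
    (hnot : ¬ ∃ c : ℝ, 0 < c ∧ ∀ z ∈ U, c ≤ ‖ψ z‖) : r = 0 := by
  have hmaps : MapsTo φ U U := fun z hz => by rw [hφ z hz]; exact mob_mem h hz
  have hz0 : ∀ n : ℕ, ⨅ z : U, gain ψ φ (n + 1) z = 0 := by
    intro n
    obtain ⟨α, β, hαβ, hc'⟩ := exists_iter h hφ (n + 1)
    obtain ⟨C, hC⟩ := (BA_wt hψ h hφ n).2
    obtain ⟨D, hD⟩ := (BA.den (a := α) (b := β)).2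
    refine le_antisymm ?_ (gain_inf_nonneg _)
    refine le_of_forall_pos_le_add fun e he => ?_
    rw [zero_add]
    by_contra hlt
    push Not at hlt
    refine hnot ⟨e / ((|C| + 1) * (|D| + 1)), by positivity, fun z hz => ?_⟩
    rw [div_le_iff₀ (by positivity)]
    have h1 := hlt.le.trans (inf_le_gain (n + 1) hz)
    rw [gain_eq hαβ hc' hz, wt_succ, norm_mul, norm_mul] at h1
    have h2 : ‖wt ψ φ n (φ z)‖ ≤ |C| + 1 :=
      (hC _ (hmaps hz)).trans ((le_abs_self _).trans (by linarith))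
    have h3 : ‖den α β z‖ ≤ |D| + 1 := (hD z hz).trans ((le_abs_self _).trans (by linarith))
    calc e ≤ ‖ψ z‖ * ‖wt ψ φ n (φ z)‖ * ‖den α β z‖ := h1
      _ = ‖ψ z‖ * (‖wt ψ φ n (φ z)‖ * ‖den α β z‖) := by ring
      _ ≤ ‖ψ z‖ * ((|C| + 1) * (|D| + 1)) := by
          refine mul_le_mul_of_nonneg_left ?_ (norm_nonneg _)
          exact mul_le_mul h2 h3 (norm_nonneg _) (by positivity)
  refine tendsto_nhds_unique hr ?_
  refine tendsto_const_nhds.congr' ?_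
  filter_upwards [eventually_gt_atTop 0] with n hn
  obtain ⟨k, rfl⟩ : ∃ k, n = k + 1 := ⟨n - 1, by omega⟩
  rw [hz0, Real.zero_rpow]
  have : (0 : ℝ) < ((k + 1 : ℕ) : ℝ) := by exact_mod_cast hn
  positivity

/-! ### The closed form -/

theorem wt_tendsto (h : SU a b) (hφ : ∀ z ∈ U, φ z = mob a b z) {ζ : ℂ} (hζ : ζ ∈ bf a b) {v : ℂ}
    (hv : Tendsto ψ (𝓝[U] ζ) (𝓝 v)) (n : ℕ) :
    Tendsto (fun z => ‖wt ψ φ n z‖) (𝓝[U] ζ) (𝓝 (‖v‖ ^ n)) := by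
  have h1 : Tendsto (fun z => wt ψ φ n z) (𝓝[U] ζ) (𝓝 (∏ _j ∈ Finset.range n, v)) := by
    unfold wt
    exact tendsto_finsetProd _ fun j _ => hv.comp (iter_tendsto h hφ hζ j)
  rw [Finset.prod_const, Finset.card_range] at h1
  rw [← norm_pow]
  exact h1.norm

theorem outer_closed (hψ : BA ψ) (h : SU a b) (hφ : ∀ z ∈ U, φ z = mob a b z)
    (hno : ∀ p ∈ U, φ p ≠ p) {R : ℝ}
    (hR : Tendsto (fun n : ℕ => (⨆ z : U, gain ψ φ n z) ^ (1 / n : ℝ)) atTop (𝓝 R))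
    {v : ℂ → ℂ} (hv : ∀ ζ ∈ bf a b, Tendsto ψ (𝓝[U] ζ) (𝓝 (v ζ))) :
    R = ⨆ ζ : bf a b, ‖v ζ‖ * ‖den a b ζ‖ := by
  have : Nonempty (bf a b) := (bf_nonempty h hφ hno).to_subtype
  have hw : ∀ (n : ℕ) (ζ : bf a b), wsup ψ φ n ζ = ‖v ζ‖ ^ n := fun n ζ => by
    have := neBot_bdry ζ.2.1
    exact (wt_tendsto h hφ ζ.2 (hv ζ ζ.2) n).limsup_eq
  refine le_antisymm ?_ (ciSup_le fun ζ => ?_)
  · have h1 := (outer_local hψ h hφ hno hR).2 1 one_pos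
    rw [pow_one] at h1
    refine h1.trans_eq (iSup_congr fun ζ => ?_)
    rw [hw, pow_one, pow_one]
  · refine ge_of_tendsto hR ?_
    filter_upwards [eventually_gt_atTop 0] with n hn
    have h1 := wsup_le hψ h hφ n ζ.2
    rw [hw, ← mul_pow] at h1
    rw [← rpow_inv_pow (x := ‖v ζ‖ * ‖den a b ζ‖) (by positivity) hn]
    exact Real.rpow_le_rpow (by positivity) h1 (by positivity)

theorem inner_closed (hψ : BA ψ) (h : SU a b) (hφ : ∀ z ∈ U, φ z = mob a b z)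
    (hno : ∀ p ∈ U, φ p ≠ p) {r : ℝ}
    (hr : Tendsto (fun n : ℕ => (⨅ z : U, gain ψ φ n z) ^ (1 / n : ℝ)) atTop (𝓝 r))
    {c : ℝ} (hc : 0 < c) (hlo : ∀ z ∈ U, c ≤ ‖ψ z‖)
    {v : ℂ → ℂ} (hv : ∀ ζ ∈ bf a b, Tendsto ψ (𝓝[U] ζ) (𝓝 (v ζ))) :
    r = ⨅ ζ : bf a b, ‖v ζ‖ * ‖den a b ζ‖ := by
  have : Nonempty (bf a b) := (bf_nonempty h hφ hno).to_subtype
  have hw : ∀ (n : ℕ) (ζ : bf a b), winf ψ φ n ζ = ‖v ζ‖ ^ n := fun n ζ => by
    have := neBot_bdry ζ.2.1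
    exact (wt_tendsto h hφ ζ.2 (hv ζ ζ.2) n).liminf_eq
  refine le_antisymm (le_ciInf fun ζ => ?_) ?_
  · refine le_of_tendsto hr ?_
    filter_upwards [eventually_gt_atTop 0] with n hn
    have h1 := le_winf hψ h hφ n ζ.2
    rw [hw, ← mul_pow] at h1
    rw [← rpow_inv_pow (x := ‖v ζ‖ * ‖den a b ζ‖) (by positivity) hn]
    exact Real.rpow_le_rpow (gain_inf_nonneg n) h1 (by positivity)
  · have h1 := (inner_local hψ h hφ hno hr hc hlo).2 1 one_pos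
    rw [pow_one] at h1
    refine le_trans (le_of_eq (iInf_congr fun ζ => ?_)) h1
    rw [hw, pow_one, pow_one]

/-- Every disc automorphism has `SU(1,1)` form, with an explicit denominator. -/
theorem exists_SU_closed {l a : ℂ} (hl : ‖l‖ = 1) (ha : ‖a‖ < 1) :
    ∃ α β : ℂ, SU α β ∧ (∀ z : ℂ, ‖z‖ ≤ 1 → l * ((a - z) / (1 - conj a * z)) = mob α β z) ∧
      ∀ z : ℂ, ‖den α β z‖ = ‖1 - conj a * z‖ / √(1 - ‖a‖ ^ 2) := by
  have haU : a ∈ U := mem_U_iff.2 ha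
  obtain ⟨μ, hμ⟩ := IsAlgClosed.exists_pow_nat_eq (-l) (n := 2) (by norm_num)
  have hμ1 : ‖μ‖ = 1 := by
    have h1 : ‖μ‖ ^ 2 = 1 := by rw [← norm_pow, hμ, norm_neg, hl]
    have := norm_nonneg μ
    nlinarith
  have hs := sc_pos haU
  have hs2 := sc_sq haU
  have hsC : (sc a : ℂ) ≠ 0 := by exact_mod_cast hs.ne'
  have hμc : μ * conj μ = 1 := by
    rw [mul_conj, normSq_eq_norm_sq, hμ1]; norm_num
  have hc0 : conj μ ≠ 0 := by
    intro h0; rw [h0, mul_zero] at hμc; exact zero_ne_one hμc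
  have eden : ∀ z : ℂ, den (μ / sc a) (-(μ * a) / sc a) z =
      conj μ * (1 - conj a * z) / sc a := by
    intro z
    rw [den, map_div₀, map_div₀, map_neg, map_mul, conj_ofReal]
    field_simp; ring
  refine ⟨μ / sc a, -(μ * a) / sc a, ?_, fun z hz => ?_, fun z => ?_⟩
  · unfold SU
    rw [normSq_eq_norm_sq, normSq_eq_norm_sq, norm_div, norm_div, norm_neg, norm_mul, hμ1,
      Complex.norm_real, Real.norm_of_nonneg hs.le]
    field_simp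
    linarith
  · have hd : 1 - conj a * z ≠ 0 := by
      intro h
      rw [sub_eq_zero] at h
      have h1 : ‖conj a * z‖ < 1 := by
        rw [norm_mul, RCLike.norm_conj]
        nlinarith [norm_nonneg a, norm_nonneg z]
      rw [← h, norm_one] at h1
      exact lt_irrefl _ h1
    rw [mob, eden, num]
    have e1 : μ / (sc a : ℂ) * z + -(μ * a) / sc a = μ * (z - a) / sc a := by
      field_simp; ring
    rw [e1, div_div_div_cancel_right₀ hsC, eq_div_iff (mul_ne_zero hc0 hd)]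
    have hl' : l = -μ ^ 2 := by rw [hμ, neg_neg]
    rw [hl']
    have e3 : -μ ^ 2 * ((a - z) / (1 - conj a * z)) * (conj μ * (1 - conj a * z)) =
        μ * (μ * conj μ) * (z - a) * ((1 - conj a * z) / (1 - conj a * z)) := by
      ring
    rw [e3, hμc, div_self hd]
    ring
  · rw [eden, norm_div, norm_mul, RCLike.norm_conj, hμ1, one_mul, Complex.norm_real,
      Real.norm_of_nonneg hs.le]
    rfl

end Pool.Agent.Helper289.Hardy
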