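import Pool.Agent.Helper289.HardyPar

/-! Weighted composition operators: iterates, intertwiners, structure of the spectrum. -/

namespace Pool.Agent.Helper289.Hardy

open Metric Complex Set MeasureTheory Filter Topology
open scoped Real ComplexConjugate InnerProductSpace

variable {a b : ℂ}

instance : Nontrivial H2 := by
  refine ⟨⟨one, 0, fun h => ?_⟩⟩
  have := congrArg (fun f : H2 => f 0) h
  simp only [one_apply zero_mem_U, H2.zero_apply] at this
  exact one_ne_zero this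

/-- `T` is the weighted composition operator `f ↦ ψ · (f ∘ φ)`. -/
def IsWCO (ψ φ : ℂ → ℂ) (T : H2 →L[ℂ] H2) : Prop := ∀ f : H2, ∀ z ∈ U, T f z = ψ z * f (φ z)

/-- The weights of the powers, `ψ_n = ∏_{j<n} ψ ∘ φ^j`. -/
noncomputable def wt (ψ φ : ℂ → ℂ) (n : ℕ) (z : ℂ) : ℂ := ∏ j ∈ Finset.range n, ψ (φ^[j] z)

theorem wt_succ (ψ φ : ℂ → ℂ) (n : ℕ) (z : ℂ) : wt ψ φ (n + 1) z = ψ z * wt ψ φ n (φ z) := by
  rw [wt, Finset.prod_range_succ', wt, mul_comm]
  rfl

theorem iter_mem {φ : ℂ → ℂ} (hφ : MapsTo φ U U) (n : ℕ) {z : ℂ} (hz : z ∈ U) : φ^[n] z ∈ U :=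
  hφ.iterate n hz

theorem IsWCO.pow {ψ φ : ℂ → ℂ} {T : H2 →L[ℂ] H2} (hT : IsWCO ψ φ T) (hφ : MapsTo φ U U) (n : ℕ) :
    IsWCO (wt ψ φ n) (φ^[n]) (T ^ n) := by
  induction n with
  | zero => intro f z _; simp [wt]
  | succ n ih =>
    intro f z hz
    rw [pow_succ']
    change T ((T ^ n) f) z = _
    rw [hT _ z hz, ih f _ (hφ hz), wt_succ, Function.iterate_succ_apply]
    ring

theorem IsWCO.unique {ψ φ : ℂ → ℂ} {T S : H2 →L[ℂ] H2} (hT : IsWCO ψ φ T) (hS : IsWCO ψ φ S) :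
    T = S := clm_ext fun f z hz => by rw [hT f z hz, hS f z hz]

/-- Composition of matrices. -/
theorem SU_comp {c d : ℂ} (h : SU a b) (h' : SU c d) :
    SU (a * c + b * conj d) (a * d + b * conj c) := by
  unfold SU at *
  have e : normSq (a * c + b * conj d) - normSq (a * d + b * conj c) =
      (normSq a - normSq b) * (normSq c - normSq d) := by
    simp only [normSq_apply, add_re, add_im, mul_re, mul_im, conj_re, conj_im]
    ring
  rw [e, h, h', one_mul]

theorem mob_comp {c d : ℂ} (h : SU a b) (h' : SU c d) {z : ℂ} (hz : z ∈ U) :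
    mob (a * c + b * conj d) (a * d + b * conj c) z = mob a b (mob c d z) := by
  have h1 := den_ne h' hz
  have h2 := den_ne h (mob_mem h' hz)
  have h3 := den_ne (SU_comp h h') hz
  have e1 : den (a * c + b * conj d) (a * d + b * conj c) z =
      den a b (mob c d z) * den c d z := by
    rw [den, mob, den, add_mul, mul_assoc (conj b), div_mul_cancel₀ _ h1]
    simp only [map_add, map_mul, conj_conj, num, den]
    ring
  have e2 : num (a * c + b * conj d) (a * d + b * conj c) z =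
      num a b (mob c d z) * den c d z := by
    have e3 : num a b (mob c d z) * den c d z =
        a * (num c d z / den c d z * den c d z) + b * den c d z := by
      rw [num, mob]; ring
    rw [e3, div_mul_cancel₀ _ h1]
    simp only [num, den]
    ring
  rw [mob, e1, e2, mul_div_mul_right _ _ h1, ← mob]

theorem exists_iter {φ : ℂ → ℂ} (h : SU a b) (hφ : ∀ z ∈ U, φ z = mob a b z) (n : ℕ) :
    ∃ c d : ℂ, SU c d ∧ ∀ z ∈ U, φ^[n] z = mob c d z := by
  induction n with
  | zero =>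
    refine ⟨1, 0, by simp [SU], fun z _ => by simp [mob, num, den]⟩
  | succ n ih =>
    obtain ⟨c, d, h1, h2⟩ := ih
    refine ⟨_, _, SU_comp h1 h, fun z hz => ?_⟩
    rw [mob_comp h1 h hz, Function.iterate_succ_apply, hφ z hz, h2 _ (mob_mem h hz)]

theorem SU_inv (h : SU a b) : SU (conj a) (-b) := by
  unfold SU at *
  rw [normSq_conj, normSq_neg]; exact h

theorem den_inv_mob (h : SU a b) {z : ℂ} (hz : z ∈ U) :
    den (conj a) (-b) (mob a b z) * den a b z = 1 := by
  have h1 := den_ne h hz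
  have hsu := su_mul h
  rw [den, mob, add_mul, mul_assoc, div_mul_cancel₀ _ h1]
  simp only [num, den, map_neg, conj_conj]
  linear_combination hsu

theorem mob_inv_mob (h : SU a b) {z : ℂ} (hz : z ∈ U) : mob (conj a) (-b) (mob a b z) = z := by
  have h1 := den_ne h hz
  have h2 := den_ne (SU_inv h) (mob_mem h hz)
  have hsu := su_mul h
  rw [mob, div_eq_iff h2]
  refine mul_right_cancel₀ h1 ?_
  rw [mul_assoc, den_inv_mob h hz, num, mob, add_mul, mul_assoc, div_mul_cancel₀ _ h1]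
  simp only [num, den]
  linear_combination z * hsu

/-- `Uiso` as an operator. -/
noncomputable def Uop (h : SU a b) : H2 →L[ℂ] H2 := (Uiso h).toContinuousLinearMap

theorem Uop_apply (h : SU a b) (f : H2) {z : ℂ} (hz : z ∈ U) :
    Uop h f z = (den a b z)⁻¹ * f (mob a b z) := Uiso_apply h f hz

theorem Uop_norm_le (h : SU a b) : ‖Uop h‖ ≤ 1 :=
  ContinuousLinearMap.opNorm_le_bound _ zero_le_one fun f => by
    rw [one_mul]; exact ((Uiso h).norm_map f).le

theorem Uop_mul_inv (h : SU a b) : Uop h * Uop (SU_inv h) = 1 :=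
  clm_ext fun f z hz => by
    change Uop h (Uop (SU_inv h) f) z = f z
    rw [Uop_apply h _ hz, Uop_apply _ _ (mob_mem h hz), mob_inv_mob h hz, ← mul_assoc, ← mul_inv,
      mul_comm (den a b z), den_inv_mob h hz, inv_one, one_mul]

theorem Uop_inv_mul (h : SU a b) : Uop (SU_inv h) * Uop h = 1 := by
  have key : ∀ (c d : ℂ) (h' : SU c d), c = conj (conj a) → d = - -b →
      Uop h' = Uop h := by
    rintro c d h' rfl rfl
    refine clm_ext fun f z hz => ?_
    rw [Uop_apply _ _ hz, Uop_apply _ _ hz]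
    simp only [conj_conj, neg_neg]
  have h1 := Uop_mul_inv (SU_inv h)
  rwa [key _ _ (SU_inv (SU_inv h)) rfl rfl] at h1

/-- The weighted composition operator. -/
noncomputable def wco (h : SU a b) {ψ : ℂ → ℂ} (hψ : BA ψ) : H2 →L[ℂ] H2 :=
  mul (fun z => ψ z * den a b z) (hψ.mul BA.den) * Uop h

theorem wco_isWCO (h : SU a b) {ψ : ℂ → ℂ} (hψ : BA ψ) {φ : ℂ → ℂ}
    (hφ : ∀ z ∈ U, φ z = mob a b z) : IsWCO ψ φ (wco h hψ) := by
  intro f z hz
  change (ψ z * den a b z) * (Uop h f z) = _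
  rw [Uop_apply h f hz, hφ z hz, mul_assoc, mul_inv_cancel_left₀ (den_ne h hz)]

/-- Intertwining. -/
theorem intw_comm {ψ φ : ℂ → ℂ} {T : H2 →L[ℂ] H2} (hT : IsWCO ψ φ T)
    {g : ℂ → ℂ} {c : ℂ} (hg : BA g) (hgc : ∀ z ∈ U, g (φ z) = c * g z) :
    T * mul g hg = c • (mul g hg * T) :=
  clm_ext fun f z hz => by
    change T (mul g hg f) z = c * (g z * T f z)
    rw [hT _ z hz, hT f z hz, mul_apply, hgc z hz]
    ring

theorem Intw.congr_map {φ φ' g : ℂ → ℂ} {c : ℂ} (h : Intw φ g c) (e : ∀ z ∈ U, φ' z = φ z) :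
    Intw φ' g c := ⟨h.1, h.2.1, fun z hz => by rw [e z hz]; exact h.2.2 z hz⟩

/-- No circular gap. -/
theorem no_gap {ψ φ : ℂ → ℂ} {T : H2 →L[ℂ] H2} (hT : IsWCO ψ φ T) (h : SU a b)
    (hφ : ∀ z ∈ U, φ z = mob a b z) {r : ℝ} (hr : 0 < r)
    (hS : ∀ z : ℂ, ‖z‖ = r → z ∈ resolventSet ℂ T) :
    (∀ z : ℂ, ‖z‖ < r → z ∈ resolventSet ℂ T) ∨ (∀ z : ℂ, r < ‖z‖ → z ∈ resolventSet ℂ T) := by
  obtain ⟨P, hP, hin, hout, hcomm⟩ := Gap.gap T hr hS
  have hcom : ∀ g : ℂ → ℂ, ∀ c : ℂ, Intw (mob a b) g c → Com P g := by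
    intro g c hg
    have hg' := hg.congr_map (φ' := φ) hφ
    exact ⟨hg.1, hcomm _ c hg.2.1 (intw_comm hT hg.1 hg'.2.2)⟩
  have hz : Com P (fun z => z) := by
    rcases dichotomy h with ⟨p, hp, hfix⟩ | ⟨ζ, κ, τ, hζ, hκ, hτ, hL⟩
    · exact Com_of_bl hp (hcom _ _ ⟨BA_bl hp, om_norm h hp, fun z hz => bl_mob h hp hfix hz⟩)
    · by_cases hκ1 : κ = 1
      · refine Com_par hζ fun s hs => hcom _ _ (Intw_par (τ := τ) hζ (fun z hz => ?_) hs)
        rw [hL z hz, hκ1]; simp
      · exact Com_hyp hζ fun s => hcom _ _ (Intw_hyp hζ hκ hκ1 hL s)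
  rcases idem_trivial hP hz with h0 | h1
  · exact Or.inl (hin h0)
  · exact Or.inr (hout h1)

/-! ### Iterates of the intertwining functions -/

theorem bl_iter {φ : ℂ → ℂ} (h : SU a b) (hφ : ∀ z ∈ U, φ z = mob a b z) {p : ℂ} (hp : p ∈ U)
    (hfix : mob a b p = p) (n : ℕ) {z : ℂ} (hz : z ∈ U) :
    bl p (φ^[n] z) = om a b p ^ n * bl p z := by
  have hmaps : MapsTo φ U U := fun z hz => by rw [hφ z hz]; exact mob_mem h hz
  induction n with
  | zero => simp
  | succ n ih =>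
    rw [Function.iterate_succ_apply', hφ _ (iter_mem hmaps n hz),
      bl_mob h hp hfix (iter_mem hmaps n hz), ih]
    ring

theorem bl_inj {p z w : ℂ} (hp : p ∈ U) (hz : z ∈ U) (hw : w ∈ U) (h : bl p z = bl p w) :
    z = w := by
  rw [bl, bl, div_eq_div_iff (bl_den hp hz) (bl_den hp hw)] at h
  have h6 : (1 : ℂ) - conj p * p ≠ 0 := bl_den hp hp
  have : (z - w) * (1 - conj p * p) = 0 := by linear_combination h
  rcases mul_eq_zero.1 this with h1 | h1
  · exact sub_eq_zero.1 h1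
  · exact absurd h1 h6

/-- powers of `ω` are dense when `φ` has infinite order -/
theorem dense_pow {w : ℂ} (hw : ‖w‖ = 1) (hinf : ∀ n : ℕ, 0 < n → w ^ n ≠ 1) {c : ℂ}
    (hc : ‖c‖ = 1) {ε : ℝ} (hε : 0 < ε) : ∃ n : ℕ, ‖w ^ n - c‖ < ε := by
  have : Fact (0 < 2 * π) := ⟨Real.two_pi_pos⟩
  set θ : AddCircle (2 * π) := ((arg w : ℝ) : AddCircle (2 * π)) with hθ
  have hcirc : ∀ n : ℕ, ((AddCircle.toCircle (n • θ) : Circle) : ℂ) = w ^ n := by
    intro n
    rw [AddCircle.toCircle_nsmul, hθ, AddCircle.toCircle_apply_mk]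
    simp only [Circle.coe_pow, Circle.coe_exp]
    congr 1
    have h1 := Complex.norm_mul_exp_arg_mul_I w
    rw [hw, ofReal_one, one_mul] at h1
    conv_rhs => rw [← h1]
    congr 2
    field_simp
  have hord : addOrderOf θ = 0 := by
    rw [addOrderOf_eq_zero_iff']
    intro n hn h0
    refine hinf n hn ?_
    rw [← hcirc n, h0]
    simp
  have hd : DenseRange (fun n : ℕ => n • θ) :=
    denseRange_zsmul_iff_nsmul.1 (AddCircle.denseRange_zsmul_iff.2 hord)
  have hcont : Continuous fun x : AddCircle (2 * π) => ((AddCircle.toCircle x : Circle) : ℂ) :=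
    (by fun_prop : Continuous ((↑) : Circle → ℂ)).comp AddCircle.continuous_toCircle
  have hopen : IsOpen {x : AddCircle (2 * π) | ‖((AddCircle.toCircle x : Circle) : ℂ) - c‖ < ε} :=
    isOpen_lt (hcont.sub continuous_const).norm continuous_const
  have hne : {x : AddCircle (2 * π) | ‖((AddCircle.toCircle x : Circle) : ℂ) - c‖ < ε}.Nonempty := by
    refine ⟨((arg c : ℝ) : AddCircle (2 * π)), ?_⟩
    have h1 := Complex.norm_mul_exp_arg_mul_I c
    rw [hc, ofReal_one, one_mul] at h1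
    have h2 : ((AddCircle.toCircle ((arg c : ℝ) : AddCircle (2 * π)) : Circle) : ℂ) = c := by
      rw [AddCircle.toCircle_apply_mk]
      simp only [Circle.coe_exp]
      conv_rhs => rw [← h1]
      congr 2
      field_simp
    change ‖_ - c‖ < ε
    rw [h2, sub_self, norm_zero]
    exact hε
  obtain ⟨n, hn⟩ := hd.exists_mem_open hopen hne
  refine ⟨n, ?_⟩
  have : ‖((AddCircle.toCircle (n • θ) : Circle) : ℂ) - c‖ < ε := hn
  rwa [hcirc] at this

end Pool.Agent.Helper289.Hardy
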