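import Pool.Agent.Helper289.Per

/-! Leafwise Laplacian of periodised functions. -/

open Set Topology
open scoped Manifold ContDiff

attribute [-instance] TopCat.of.chartedSpace

noncomputable section

namespace Pool.Agent.Helper289.Per

open Pool.Agent.Helper289.Base Pool.Agent.Helper289.Quot
open Pool.Agent.Helper289.LamX Pool.Agent.Helper289.Torus Pool.Agent.Helper289.Forms

/-- basic functions on `ℂ⁴` -/
def bas (G : ℝ → ℝ) (ℓ : E4 →L[ℝ] ℝ) (a : ℝ) (v : E4) : ℝ :=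
  G (imL v) * Real.cos (2 * Real.pi * ℓ v + a)

/-- auxiliary: the same with a sine -/
def bas' (G : ℝ → ℝ) (ℓ : E4 →L[ℝ] ℝ) (a : ℝ) (v : E4) : ℝ :=
  G (imL v) * Real.sin (2 * Real.pi * ℓ v + a)

lemma hasFDerivAt_phase (ℓ : E4 →L[ℝ] ℝ) (a : ℝ) (v : E4) :
    HasFDerivAt (fun v => 2 * Real.pi * ℓ v + a) ((2 * Real.pi) • ℓ) v :=
  (ℓ.hasFDerivAt.const_mul (2 * Real.pi)).add_const a

lemma hasFDerivAt_G {G : ℝ → ℝ} (hG : Differentiable ℝ G) (v : E4) :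
    HasFDerivAt (fun v => G (imL v)) (deriv G (imL v) • imL) v := by
  have h1 := (hG (imL v)).hasDerivAt.comp_hasFDerivAt v imL.hasFDerivAt
  exact h1

lemma hasFDerivAt_bas {G : ℝ → ℝ} (hG : Differentiable ℝ G) (ℓ : E4 →L[ℝ] ℝ) (a : ℝ) (v : E4) :
    HasFDerivAt (bas G ℓ a) (G (imL v) • (-Real.sin (2 * Real.pi * ℓ v + a)) • ((2 * Real.pi) • ℓ) +
      Real.cos (2 * Real.pi * ℓ v + a) • (deriv G (imL v) • imL)) v :=
  (hasFDerivAt_G hG v).mul (hasFDerivAt_phase ℓ a v).cos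

lemma hasFDerivAt_bas' {G : ℝ → ℝ} (hG : Differentiable ℝ G) (ℓ : E4 →L[ℝ] ℝ) (a : ℝ) (v : E4) :
    HasFDerivAt (bas' G ℓ a) (G (imL v) • (Real.cos (2 * Real.pi * ℓ v + a)) • ((2 * Real.pi) • ℓ) +
      Real.sin (2 * Real.pi * ℓ v + a) • (deriv G (imL v) • imL)) v :=
  (hasFDerivAt_G hG v).mul (hasFDerivAt_phase ℓ a v).sin

lemma imL_e1 : imL e1 = 0 := by simp [imL_apply, e1]
lemma imL_Ie1 : imL (Complex.I • e1) = 1 := by rw [imL_apply, I_smul_e1]; simp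

lemma fderiv_bas_e1 {G : ℝ → ℝ} (hG : Differentiable ℝ G) (ℓ : E4 →L[ℝ] ℝ) (a : ℝ) (v : E4) :
    fderiv ℝ (bas G ℓ a) v e1 = -(2 * Real.pi * ℓ e1) * bas' G ℓ a v := by
  rw [(hasFDerivAt_bas hG ℓ a v).fderiv]
  simp only [_root_.add_apply, _root_.smul_apply, smul_eq_mul, imL_e1, bas']
  ring

lemma fderiv_bas'_e1 {G : ℝ → ℝ} (hG : Differentiable ℝ G) (ℓ : E4 →L[ℝ] ℝ) (a : ℝ) (v : E4) :
    fderiv ℝ (bas' G ℓ a) v e1 = (2 * Real.pi * ℓ e1) * bas G ℓ a v := by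
  rw [(hasFDerivAt_bas' hG ℓ a v).fderiv]
  simp only [_root_.add_apply, _root_.smul_apply, smul_eq_mul, imL_e1, bas]
  ring

lemma fderiv_bas_Ie1 {G : ℝ → ℝ} (hG : Differentiable ℝ G) {ℓ : E4 →L[ℝ] ℝ}
    (hℓ : ℓ (Complex.I • e1) = 0) (a : ℝ) (v : E4) :
    fderiv ℝ (bas G ℓ a) v (Complex.I • e1) = bas (deriv G) ℓ a v := by
  rw [(hasFDerivAt_bas hG ℓ a v).fderiv]
  simp only [_root_.add_apply, _root_.smul_apply, smul_eq_mul, imL_Ie1, hℓ, bas]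
  ring

lemma lap_bas {G : ℝ → ℝ} (hG : ContDiff ℝ ∞ G) {ℓ : E4 →L[ℝ] ℝ}
    (hℓ : ℓ (Complex.I • e1) = 0) (a : ℝ) (v : E4) :
    lap (bas G ℓ a) v = (deriv (deriv G) (imL v) - (2 * Real.pi * ℓ e1) ^ 2 * G (imL v)) *
      Real.cos (2 * Real.pi * ℓ v + a) := by
  have h1 : Differentiable ℝ G := hG.differentiable (by simp)
  have h2 : ContDiff ℝ ∞ (deriv G) := ((contDiff_infty_iff_deriv (𝕜 := ℝ)).mp hG).2
  have h3 : Differentiable ℝ (deriv G) := h2.differentiable (by simp)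
  rw [lap]
  have e1' : (fun u => fderiv ℝ (bas G ℓ a) u e1) =
      fun u => -(2 * Real.pi * ℓ e1) * bas' G ℓ a u := funext (fderiv_bas_e1 h1 ℓ a)
  have e2' : (fun u => fderiv ℝ (bas G ℓ a) u (Complex.I • e1)) = bas (deriv G) ℓ a :=
    funext (fderiv_bas_Ie1 h1 hℓ a)
  rw [e1', e2', fderiv_bas_Ie1 h3 hℓ, fderiv_const_mul (hasFDerivAt_bas' h1 ℓ a v).differentiableAt,
    _root_.smul_apply, fderiv_bas'_e1 h1, bas, bas, smul_eq_mul]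
  ring

lemma contDiff_bas {G : ℝ → ℝ} (hG : ContDiff ℝ ∞ G) (ℓ : E4 →L[ℝ] ℝ) (a : ℝ) :
    ContDiff ℝ ∞ (bas G ℓ a) := by
  unfold bas
  have := imL.contDiff (n := ∞)
  have := ℓ.contDiff (n := ∞)
  fun_prop

lemma lap_congr {f h : E4 → ℝ} {v : E4} (hfh : ∀ᶠ u in 𝓝 v, f u = h u) : lap f v = lap h v := by
  have h1 : ∀ w : E4, (fun u => fderiv ℝ f u w) =ᶠ[𝓝 v] fun u => fderiv ℝ h u w := by
    intro w
    filter_upwards [Filter.EventuallyEq.fderiv (𝕜 := ℝ) hfh] with u hu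
    rw [hu]
  rw [lap, lap, (h1 e1).fderiv_eq, (h1 (Complex.I • e1)).fderiv_eq]

lemma lap_add {f h : E4 → ℝ} (hf : ContDiff ℝ ∞ f) (hh : ContDiff ℝ ∞ h) (v : E4) :
    lap (fun u => f u + h u) v = lap f v + lap h v := by
  have df : Differentiable ℝ f := hf.differentiable (by simp)
  have dh : Differentiable ℝ h := hh.differentiable (by simp)
  have df2 : Differentiable ℝ (fderiv ℝ f) := (hf.fderiv_right (m := ∞) (by simp)).differentiable (by simp)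
  have dh2 : Differentiable ℝ (fderiv ℝ h) := (hh.fderiv_right (m := ∞) (by simp)).differentiable (by simp)
  have h1 : ∀ w : E4, (fun u => fderiv ℝ (fun u => f u + h u) u w) =
      fun u => fderiv ℝ f u w + fderiv ℝ h u w := by
    intro w
    funext u
    rw [fderiv_fun_add (df u) (dh u), _root_.add_apply]
  have h2 : ∀ w : E4, DifferentiableAt ℝ (fun u => fderiv ℝ f u w) v := fun w => by fun_prop
  have h3 : ∀ w : E4, DifferentiableAt ℝ (fun u => fderiv ℝ h u w) v := fun w => by fun_prop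
  rw [lap, h1, h1, fderiv_fun_add (h2 _) (h3 _), fderiv_fun_add (h2 _) (h3 _), _root_.add_apply,
    _root_.add_apply, lap, lap]
  ring

lemma lap_const_zero (v : E4) : lap (fun _ => (0 : ℝ)) v = 0 := by
  simp [lap]

lemma lap_sum {f : ℤ → E4 → ℝ} (hf : ∀ n, ContDiff ℝ ∞ (f n)) (s : Finset ℤ) (v : E4) :
    lap (fun u => ∑ n ∈ s, f n u) v = ∑ n ∈ s, lap (f n) v := by
  induction s using Finset.induction_on with
  | empty => simp only [Finset.sum_empty]; exact lap_const_zero v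
  | insert n s hn ih =>
    simp only [Finset.sum_insert hn]
    rw [lap_add (hf n) (ContDiff.sum fun i _ => hf i), ih]

/-- `y² (G'' - p² G)` -/
def dg (p : ℝ) (G : ℝ → ℝ) (y : ℝ) : ℝ := y ^ 2 * (deriv (deriv G) y - p ^ 2 * G y)

lemma contDiff_dg (p : ℝ) {G : ℝ → ℝ} (hG : ContDiff ℝ ∞ G) : ContDiff ℝ ∞ (dg p G) := by
  have h2 : ContDiff ℝ ∞ (deriv G) := ((contDiff_infty_iff_deriv (𝕜 := ℝ)).mp hG).2
  have h3 : ContDiff ℝ ∞ (deriv (deriv G)) := ((contDiff_infty_iff_deriv (𝕜 := ℝ)).mp h2).2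
  unfold dg
  fun_prop

lemma dg_supp (p : ℝ) {G : ℝ → ℝ} {a b : ℝ} (h : ∀ y, G y ≠ 0 → a ≤ y ∧ y ≤ b) (y : ℝ)
    (hy : dg p G y ≠ 0) : a ≤ y ∧ y ≤ b := by
  by_contra hc
  apply hy
  have h1 : ∀ᶠ z in 𝓝 y, G z = 0 := by
    have : (Icc a b)ᶜ ∈ 𝓝 y := isClosed_Icc.isOpen_compl.mem_nhds hc
    filter_upwards [this] with z hz
    by_contra hz'
    exact hz (h z hz')
  have h2 : G =ᶠ[𝓝 y] fun _ => 0 := h1
  have h3 : deriv G =ᶠ[𝓝 y] fun _ => 0 := by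
    have := h2.deriv
    simpa using this
  rw [dg, h3.deriv_eq, h1.self_of_nhds]
  simp

/-- `y² (G'' - p² G)` for cut-off functions -/
def DG (p : ℝ) (G : Cut) : Cut :=
  ⟨dg p G.1, contDiff_dg p G.2.1, by
    obtain ⟨-, a, b, ha, hs⟩ := G.2
    exact ⟨a, b, ha, dg_supp p hs⟩⟩

/-- pull-back of a functional by a power of `g` -/
def elln (ℓ : E4 →L[ℝ] ℝ) (n : ℤ) : E4 →L[ℝ] ℝ := ℓ.comp (gR n)

lemma elln_apply (ℓ : E4 →L[ℝ] ℝ) (n : ℤ) (v : E4) : elln ℓ n v = ℓ ((g ^ n) v) := rfl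

lemma gz_e1_real (n : ℤ) : (g ^ n) e1 = (al ^ n : ℝ) • e1 := by
  rw [gz_e1, Complex.coe_smul]

lemma elln_e1 (ℓ : E4 →L[ℝ] ℝ) (n : ℤ) : elln ℓ n e1 = al ^ n * ℓ e1 := by
  rw [elln_apply, gz_e1_real, map_smul, smul_eq_mul]

lemma elln_Ie1 {ℓ : E4 →L[ℝ] ℝ} (hℓ : ℓ (Complex.I • e1) = 0) (n : ℤ) :
    elln ℓ n (Complex.I • e1) = 0 := by
  rw [elln_apply, map_smul (g ^ n) Complex.I e1, gz_e1_real, smul_comm Complex.I, map_smul, hℓ,
    smul_zero]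

lemma Phi_kap (G : ℝ → ℝ) (m : ℤ × ℤ × ℤ) (k : ℤ × ℤ × ℤ × ℤ) (a : ℝ) (n : ℤ) (v : E4) :
    Phi G (kap m k a) ((g ^ n) v) = bas (fun y => G (al ^ n * y)) (elln (ell m k) n) a v := by
  rw [Phi, kap_cl, gz_im]
  rfl

lemma deriv_scale (G : ℝ → ℝ) (c : ℝ) : deriv (fun y => G (c * y)) = fun y => c * deriv G (c * y) := by
  funext y
  rw [deriv_comp_mul_left]; rfl

lemma sq_lap_term {G : ℝ → ℝ} (hG : ContDiff ℝ ∞ G) (m : ℤ × ℤ × ℤ) (k : ℤ × ℤ × ℤ × ℤ) (a : ℝ)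
    (n : ℤ) (v : E4) :
    v.1.im ^ 2 * lap (fun v => Phi G (kap m k a) ((g ^ n) v)) v =
      Phi (dg (2 * Real.pi * ell m k e1) G) (kap m k a) ((g ^ n) v) := by
  have h1 : (fun v => Phi G (kap m k a) ((g ^ n) v)) =
      bas (fun y => G (al ^ n * y)) (elln (ell m k) n) a := funext (Phi_kap G m k a n)
  have h2 : ContDiff ℝ ∞ (fun y => G (al ^ n * y)) := by fun_prop
  rw [h1, lap_bas h2 (elln_Ie1 (ell_Ie1 m k) n), Phi_kap, bas, elln_e1, deriv_scale, dg]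
  have h3 : deriv (fun y => al ^ n * deriv G (al ^ n * y)) (imL v) =
      al ^ n * (al ^ n * deriv (deriv G) (al ^ n * imL v)) := by
    have h4 := congrFun (deriv_scale (deriv G) (al ^ n)) (imL v)
    rw [deriv_const_mul_field, h4]
  rw [h3]
  simp only [imL_apply]
  ring

/-- the leafwise Laplacian of a periodised trigonometric function -/
lemma ev_sum (G : Cut) (m : ℤ × ℤ × ℤ) (k : ℤ × ℤ × ℤ × ℤ) (a : ℝ) {v : E4} (hv : v ∈ D) :
    ∃ s : Finset ℤ, (∀ᶠ u in 𝓝 v, P G (kap m k a) (ppi u) =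
      ∑ n ∈ s, Phi G.1 (kap m k a) ((g ^ n) u)) ∧
      ∀ p, Pf (dg p G.1) (kap m k a) v = ∑ n ∈ s, Phi (dg p G.1) (kap m k a) ((g ^ n) v) := by
  obtain ⟨-, α, β, hα, hs⟩ := G.2
  obtain ⟨s, hs'⟩ := loc_fin hα β hv
  refine ⟨s, ?_, ?_⟩
  · filter_upwards [near_im hv] with u hu
    rw [P_ppi _ _ hu.1]
    apply tsum_eq_sum
    intro n hn
    by_contra h
    exact hn (hs' _ hu.2 n (Phi_ne hs h).1 (Phi_ne hs h).2)
  · intro p
    apply tsum_eq_sum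
    intro n hn
    by_contra h
    have h1 := Phi_ne (dg_supp p hs) h
    exact hn (hs' _ ((near_im hv).self_of_nhds).2 n h1.1 h1.2)

lemma contDiff_Phi_term {G : ℝ → ℝ} (hG : ContDiff ℝ ∞ G) (m : ℤ × ℤ × ℤ) (k : ℤ × ℤ × ℤ × ℤ)
    (a : ℝ) (n : ℤ) : ContDiff ℝ ∞ (fun v => Phi G (kap m k a) ((g ^ n) v)) := by
  have h1 : (fun v => Phi G (kap m k a) ((g ^ n) v)) =
      bas (fun y => G (al ^ n * y)) (elln (ell m k) n) a := funext (Phi_kap G m k a n)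
  rw [h1]
  apply contDiff_bas
  fun_prop

lemma contMDiff_P (G : Cut) (m : ℤ × ℤ × ℤ) (k : ℤ × ℤ × ℤ × ℤ) (a : ℝ) :
    ContMDiff 𝓘(ℝ, E4) 𝓘(ℝ, ℝ) ∞ (P G (kap m k a)) := by
  apply contMDiff_of_comp_ppi
  intro v hv
  obtain ⟨s, hs, -⟩ := ev_sum G m k a hv
  have h1 : ContDiff ℝ ∞ (fun u => ∑ n ∈ s, Phi G.1 (kap m k a) ((g ^ n) u)) :=
    ContDiff.sum fun n _ => contDiff_Phi_term G.2.1 m k a n
  exact (h1.contDiffAt.congr_of_eventuallyEq hs).contDiffWithinAt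

/-- harmonic functionals kill `y²(G'' - p² G)` -/
lemma harm_P {L : C(X, ℝ) →ₗ[ℝ] ℝ} (hL : HarmL L) (G : Cut) (m : ℤ × ℤ × ℤ)
    (k : ℤ × ℤ × ℤ × ℤ) (a : ℝ) : L (P (DG (2 * Real.pi * ell m k e1) G) (kap m k a)) = 0 := by
  apply hL _ (contMDiff_P G m k a)
  intro v hv
  obtain ⟨s, hs, hs2⟩ := ev_sum G m k a hv
  rw [P_ppi _ _ hv]
  change Pf (dg _ G.1) (kap m k a) v = _
  rw [hs2, lap_congr hs, lap_sum (fun n => contDiff_Phi_term G.2.1 m k a n), Finset.mul_sum]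
  apply Finset.sum_congr rfl
  intro n _
  exact (sq_lap_term G.2.1 m k a n v).symm

end Pool.Agent.Helper289.Per
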