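import Pool.Agent.Helper289.LamX

/-! Minimality of the lamination. -/

open Set Topology
open scoped Manifold ContDiff

attribute [-instance] TopCat.of.chartedSpace

noncomputable section

namespace Pool.Agent.Helper289.LamX

open Pool.Agent.Helper289.Base Pool.Agent.Helper289.Quot Pool.Agent.Helper289.LamDefs
open Pool.Agent.Helper289.Forms

variable {K : Set T4}

lemma SamePlaque.symm {L : Lamination E4 X} {x y : X} (h : L.SamePlaque x y) : L.SamePlaque y x := by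
  obtain ⟨i, t, ζ, hζ, ζ', hζ', h1, h2⟩ := h
  exact ⟨i, t, ζ', hζ', ζ, hζ, h2, h1⟩

lemma samePlaque_near (hK : MinSet K) {w : ℂ} {t : ℂ × ℂ × ℂ} (hw : 0 < w.im)
    (ht : tau ((0 : ℂ), t) ∈ K) :
    ∀ᶠ w' in 𝓝 w, (lamK hK).SamePlaque (ppi (w, t)) (ppi (w', t)) := by
  have hp : ((w, t) : E4) ∈ D := hw
  have hr := rad_pos hp
  have htau : tau ((w, t) : E4) ∈ K := by
    have h : tau ((w, t) : E4) = tau ((0 : ℂ), t) := tau_snd rfl
    rw [h]; exact ht
  filter_upwards [Metric.ball_mem_nhds w hr] with w' hw'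
  have hrc : (rad ((w, t) : E4) : ℂ) ≠ 0 := by exact_mod_cast hr.ne'
  refine ⟨⟨(w, t), hp, htau⟩, ⟨t, ?_, ht⟩, 0, Metric.mem_ball_self one_pos,
    (w' - w) / rad ((w, t) : E4), ?_, ?_, ?_⟩
  · simpa using hr
  · rw [mem_ball_zero_iff, norm_div, Complex.norm_real, Real.norm_eq_abs, abs_of_pos hr,
      div_lt_one hr]
    exact mem_ball_iff_norm.mp hw'
  · change ppi (w + _ * 0, t) = ppi (w, t)
    rw [mul_zero, add_zero]
  · change ppi (w + (rad ((w, t) : E4) : ℂ) * ((w' - w) / rad ((w, t) : E4)), t) = ppi (w', t)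
    rw [mul_div_cancel₀ _ hrc, add_sub_cancel]

lemma reach (hK : MinSet K) {t : ℂ × ℂ × ℂ} (ht : tau ((0 : ℂ), t) ∈ K) {w w' : ℂ}
    (hw : 0 < w.im) (hw' : 0 < w'.im) :
    Relation.ReflTransGen (lamK hK).SamePlaque (ppi (w, t)) (ppi (w', t)) := by
  have hconv : IsPreconnected {w : ℂ | 0 < w.im} := (convex_halfSpace_im_gt 0).isPreconnected
  refine hconv.induction₂ (fun w w' =>
    Relation.ReflTransGen (lamK hK).SamePlaque (ppi (w, t)) (ppi (w', t))) ?_ ?_ ?_ hw hw'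
  · intro x hx
    apply mem_nhdsWithin_of_mem_nhds
    filter_upwards [samePlaque_near hK hx ht] with y hy
    exact Relation.ReflTransGen.single hy
  · intro x y z _ _ _ h1 h2
    exact h1.trans h2
  · intro x y _ _ h
    have : Std.Symm (lamK hK).SamePlaque := ⟨fun _ _ h => SamePlaque.symm h⟩
    exact (Relation.ReflTransGen.stdSymm (r := (lamK hK).SamePlaque)).symm _ _ h

lemma near_int {a b δ : ℝ} (h : dist (a : S1) (b : S1) < δ) : ∃ k : ℤ, |a + k - b| < δ := by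
  refine ⟨-round (a - b), ?_⟩
  rw [dist_eq_norm, ← AddCircle.coe_sub, UnitAddCircle.norm_eq] at h
  convert h using 2
  push_cast
  ring

/-- density of `ℤ[β]` in `ℂ`, in a convenient form -/
lemma dense_be (c : ℂ) {ε : ℝ} (hε : 0 < ε) :
    ∃ (N : ℕ) (m k : ℤ), ‖be ^ N * (m + k * be) - c‖ < ε := by
  obtain ⟨N, hN⟩ := exists_pow_lt_of_lt_one hε norm_be_lt
  have hb := be_ne
  set d := c / be ^ N with hd
  have hc : c = be ^ N * d := by rw [hd]; field_simp
  set b := d.im / be.im with hbd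
  set a := d.re - b * be.re with had
  have hdab : d = a + b * be := by
    apply Complex.ext
    · simp [had]
    · simp [hbd, be_im_ne]
  refine ⟨N, round a, round b, ?_⟩
  rw [hc, ← mul_sub, norm_mul, norm_pow, hdab]
  have h1 : ((round a : ℤ) : ℂ) + (round b : ℤ) * be - (a + b * be) =
      ((round a - a : ℝ) : ℂ) + ((round b - b : ℝ) : ℂ) * be := by
    push_cast; ring
  rw [h1]
  have h2 : ‖((round a - a : ℝ) : ℂ) + ((round b - b : ℝ) : ℂ) * be‖ ≤ 1 := by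
    refine (norm_add_le _ _).trans ?_
    rw [norm_mul, Complex.norm_real, Complex.norm_real, Real.norm_eq_abs, Real.norm_eq_abs]
    have h3 := abs_sub_round a
    have h4 := abs_sub_round b
    rw [abs_sub_comm] at h3 h4
    have h5 := norm_be_lt
    have h6 := norm_nonneg be
    nlinarith [abs_nonneg ((round b : ℝ) - b)]
  calc ‖be‖ ^ N * _ ≤ ‖be‖ ^ N * 1 := mul_le_mul_of_nonneg_left h2 (by positivity)
    _ < ε := by rw [mul_one]; exact hN

lemma gn_snd_snd (N : ℕ) {p : E4} (h : p.2.2 = 0) : ((g ^ (N : ℤ)) p).2.2 = 0 := by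
  induction N with
  | zero => rw [Nat.cast_zero, gz_zero]; exact h
  | succ n ih =>
    rw [Nat.cast_succ, gz_add_one, g_apply]
    have h1 : ((g ^ (n : ℤ)) p).2.2.1 = 0 := by rw [ih]; rfl
    have h2 : ((g ^ (n : ℤ)) p).2.2.2 = 0 := by rw [ih]; rfl
    rw [h1, h2]
    simp

lemma pt_mem_Lam (m : ℤ × ℤ × ℤ) (k : ℤ × ℤ × ℤ × ℤ) : pt (0, i3 m, i4 k) ∈ Lam :=
  ⟨m, k, co_pt _⟩

lemma approx (p q : E4) {δ : ℝ} (hδ : 0 < δ) (h : dist (tau p) (tau q) < δ) :
    ∃ l ∈ Lam, ‖(p + l).2 - q.2‖ < 2 * δ := by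
  have h1 : dist (p.2.2.1.re : S1) (q.2.2.1.re : S1) < δ :=
    (le_max_left _ _).trans_lt h
  have h' : dist (tau p).2 (tau q).2 < δ := (le_max_right _ _).trans_lt h
  have h2 : dist (p.2.2.2.re : S1) (q.2.2.2.re : S1) < δ := (le_max_left _ _).trans_lt h'
  have h'' : dist (tau p).2.2 (tau q).2.2 < δ := (le_max_right _ _).trans_lt h'
  have h3 : dist (p.2.2.1.im : S1) (q.2.2.1.im : S1) < δ := (le_max_left _ _).trans_lt h''
  have h4 : dist (p.2.2.2.im : S1) (q.2.2.2.im : S1) < δ := (le_max_right _ _).trans_lt h''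
  obtain ⟨k1, hk1⟩ := near_int h1
  obtain ⟨k2, hk2⟩ := near_int h2
  obtain ⟨k3, hk3⟩ := near_int h3
  obtain ⟨k4, hk4⟩ := near_int h4
  obtain ⟨N, m, k, hm⟩ := dense_be (q.2.1 - p.2.1) (mul_pos two_pos hδ)
  set l1 := (g ^ (N : ℤ)) (pt (0, i3 (m, k, 0), i4 0)) with hl1
  set l2 := pt (0, i3 0, i4 (k1, k2, k3, k4)) with hl2
  refine ⟨l1 + l2, Lam.add_mem (gz_mem_Lam _ (pt_mem_Lam _ _)) (pt_mem_Lam _ _), ?_⟩
  have e1' : l1.2.2 = 0 := by
    apply gn_snd_snd
    simp only [pt, i4_apply]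
    simp
  have e2 : l1.2.1 = be ^ N * (m + k * be) := by
    rw [hl1, gz_snd]
    simp only [pt, i3_apply]
    simp
  have e3 : l2.2.1 = 0 := by
    simp only [hl2, pt, i3_apply]
    simp
  have e4 : l2.2.2.1 = (k1 : ℂ) + k3 * Complex.I := by
    simp only [hl2, pt, i4_apply]
    simp
  have e5 : l2.2.2.2 = (k2 : ℂ) + k4 * Complex.I := by
    simp only [hl2, pt, i4_apply]
    simp
  have e6 : l1.2.2.1 = 0 := by rw [e1']; rfl
  have e7 : l1.2.2.2 = 0 := by rw [e1']; rfl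
  rw [Prod.norm_def, Prod.norm_def, sup_lt_iff, sup_lt_iff]
  refine ⟨?_, ?_, ?_⟩
  · simp only [Prod.snd_add, Prod.fst_add, Prod.fst_sub]
    have a1 : p.2.1 + (l1.2.1 + l2.2.1) - q.2.1 =
        be ^ N * (m + k * be) - (q.2.1 - p.2.1) := by
      rw [e2, e3]; ring
    exact (congrArg norm a1).trans_lt hm
  · simp only [Prod.snd_add, Prod.fst_add, Prod.fst_sub, Prod.snd_sub]
    rw [e4, e6]
    refine (Complex.norm_le_abs_re_add_abs_im _).trans_lt ?_
    have a1 : (p.2.2.1 + (0 + ((k1 : ℂ) + k3 * Complex.I)) - q.2.2.1).re =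
      p.2.2.1.re + k1 - q.2.2.1.re := by simp
    have a2 : (p.2.2.1 + (0 + ((k1 : ℂ) + k3 * Complex.I)) - q.2.2.1).im =
      p.2.2.1.im + k3 - q.2.2.1.im := by simp
    rw [a1, a2]
    linarith
  · simp only [Prod.snd_add, Prod.snd_sub]
    rw [e5, e7]
    refine (Complex.norm_le_abs_re_add_abs_im _).trans_lt ?_
    have a1 : (p.2.2.2 + (0 + ((k2 : ℂ) + k4 * Complex.I)) - q.2.2.2).re =
      p.2.2.2.re + k2 - q.2.2.2.re := by simp
    have a2 : (p.2.2.2 + (0 + ((k2 : ℂ) + k4 * Complex.I)) - q.2.2.2).im =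
      p.2.2.2.im + k4 - q.2.2.2.im := by simp
    rw [a1, a2]
    linarith

lemma exists_tau (s : T4) : ∃ v ∈ D, tau v = s := by
  obtain ⟨s1, s2, s3, s4⟩ := s
  obtain ⟨a1, rfl⟩ := QuotientAddGroup.mk_surjective s1
  obtain ⟨a2, rfl⟩ := QuotientAddGroup.mk_surjective s2
  obtain ⟨a3, rfl⟩ := QuotientAddGroup.mk_surjective s3
  obtain ⟨a4, rfl⟩ := QuotientAddGroup.mk_surjective s4
  refine ⟨pt (1, 0, (a1, a2, a3, a4)), ?_, ?_⟩
  · exact pt_mem_D one_pos
  · rw [tau, co_pt]; rfl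

theorem isMinimal_lamK (hK : MinSet K) : (lamK hK).IsMinimal := by
  constructor
  · obtain ⟨s, hs⟩ := hK.nonempty
    obtain ⟨v, hv, rfl⟩ := exists_tau s
    exact ⟨ppi v, (hK.mem_car hv).mpr hs⟩
  · intro x hx y hy
    have hx' : tau (rep x) ∈ K := hx
    have hy' : tau (rep y) ∈ K := hy
    set v := rep x with hv
    set v' := rep y with hv'
    have hvD : v ∈ D := rep_mem x
    have hvD' : v' ∈ D := rep_mem y
    rw [_root_.mem_closure_iff]
    intro U hU hyU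
    have hO : IsOpen (D ∩ ppi ⁻¹' U) := continuousOn_ppi.isOpen_inter_preimage isOpen_D hU
    have hm : v' ∈ D ∩ ppi ⁻¹' U := by
      refine ⟨hvD', ?_⟩
      rw [mem_preimage, hv', ppi_rep]; exact hyU
    obtain ⟨ε, hε, hball⟩ := Metric.isOpen_iff.mp hO _ hm
    obtain ⟨n, hn⟩ := hK.minimal _ hx' _ hy' (ε / 2) (by positivity)
    rw [← tau_gz] at hn
    obtain ⟨l, hl, hd⟩ := approx _ _ (by positivity : 0 < ε / 2) hn
    rw [mul_div_cancel₀ _ two_ne_zero] at hd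
    set q := (g ^ n) v + l with hq
    have hqD : q ∈ D := add_mem_D (gz_mem_D n hvD) hl
    have hqx : ppi q = x := by rw [hq, ppi_gz_add n hvD hl, hv, ppi_rep]
    have hqt : tau ((0 : ℂ), q.2) ∈ K := by
      have h : tau ((0 : ℂ), q.2) = tau q := tau_snd rfl
      rw [h, hq, tau_add _ hl, tau_gz, hK.inv_zpow]
      exact hx'
    have hmem : ((v'.1, q.2) : E4) ∈ Metric.ball v' ε := by
      rw [mem_ball_iff_norm, Prod.norm_def, sup_lt_iff]
      refine ⟨?_, hd⟩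
      simpa using hε
    refine ⟨ppi (v'.1, q.2), (hball hmem).2, ?_⟩
    have h1 := reach hK hqt (w := q.1) (w' := v'.1) hqD hvD'
    have h2 : ((q.1, q.2) : E4) = q := rfl
    rw [h2, hqx] at h1
    exact h1

end Pool.Agent.Helper289.LamX
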