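import Pool.Agent.Helper289.Curr

/-! The lamination of `X` attached to a minimal set of the torus automorphism. -/

open Set Topology
open scoped Manifold ContDiff

attribute [-instance] TopCat.of.chartedSpace

noncomputable section

namespace Pool.Agent.Helper289.LamX

open Pool.Agent.Helper289.Base Pool.Agent.Helper289.Quot Pool.Agent.Helper289.LamDefs
open Pool.Agent.Helper289.Forms

/-- the circle `ℝ/ℤ` -/
abbrev S1 : Type := UnitAddCircle
/-- the four-dimensional torus -/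
abbrev T4 : Type := S1 × S1 × S1 × S1

/-- class of a quadruple -/
def cls4 : R4 →+ T4 :=
  (QuotientAddGroup.mk' _).prodMap ((QuotientAddGroup.mk' _).prodMap
    ((QuotientAddGroup.mk' _).prodMap (QuotientAddGroup.mk' _)))

lemma cls4_apply (s : R4) : cls4 s = ((s.1 : S1), (s.2.1 : S1), (s.2.2.1 : S1), (s.2.2.2 : S1)) :=
  rfl

lemma continuous_cls4 : Continuous cls4 := by
  have : ∀ s, cls4 s = ((s.1 : S1), (s.2.1 : S1), (s.2.2.1 : S1), (s.2.2.2 : S1)) := fun _ => rfl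
  have h : (cls4 : R4 → T4) = fun s => ((s.1 : S1), (s.2.1 : S1), (s.2.2.1 : S1), (s.2.2.2 : S1)) :=
    funext this
  rw [h]
  have hc := AddCircle.continuous_mk' (1 : ℝ)
  have hc' : Continuous (fun x : ℝ => (x : S1)) := hc
  fun_prop

lemma coe_int (m : ℤ) : ((m : ℝ) : S1) = 0 := by
  rw [AddCircle.coe_eq_zero_iff]
  exact ⟨m, by simp⟩

lemma cls4_i4 (k : ℤ × ℤ × ℤ × ℤ) : cls4 (i4 k) = 0 := by
  rw [cls4_apply, i4_apply]
  simp only [coe_int]
  rfl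

lemma cls4_A4 (s : R4) : cls4 (A4 ℝ s) = A4 S1 (cls4 s) := by
  obtain ⟨a, b, c, d⟩ := s
  rw [cls4_apply, cls4_apply, A4_apply, A4_apply]
  simp only [AddCircle.coe_sub, AddCircle.coe_nsmul]

/-- the torus class of a point of `ℂ⁴` -/
def tau (p : E4) : T4 := cls4 (co p).2.2

lemma continuous_tau : Continuous tau :=
  continuous_cls4.comp (continuous_snd.comp (continuous_snd.comp continuous_co))

/-- the torus automorphism as a permutation -/
def AP : Equiv.Perm T4 := (A4 S1).toEquiv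

lemma AP_apply (s : T4) : AP s = A4 S1 s := rfl

lemma tau_g (p : E4) : tau (g p) = AP (tau p) := by
  rw [tau, co_g, gc_apply, cls4_A4]; rfl

lemma tau_gz (n : ℤ) (p : E4) : tau ((g ^ n) p) = (AP ^ n) (tau p) := by
  induction n using Int.induction_on with
  | zero => rw [gz_zero]; simp
  | succ i ih => rw [gz_add_one, tau_g, ih, zpow_add_one, ← (Commute.self_zpow AP _).eq]; rfl
  | pred i ih =>
    rw [gz_sub_one, zpow_sub_one, ← ((Commute.refl AP).inv_left.zpow_right _).eq]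
    apply AP.injective
    rw [← tau_g, g.apply_symm_apply, ih]
    simp

lemma tau_add (p : E4) {l : E4} (hl : l ∈ Lam) : tau (p + l) = tau p := by
  obtain ⟨m, k, h⟩ := hl
  rw [tau, co_add, h, tau, Prod.snd_add, Prod.snd_add, map_add, cls4_i4, add_zero]

lemma tau_snd {p q : E4} (h : p.2.2 = q.2.2) : tau p = tau q := by
  simp only [tau, co, h]

/-- a minimal set of the torus automorphism -/
structure MinSet (K : Set T4) : Prop where
  compact : IsCompact K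
  nonempty : K.Nonempty
  inv : ∀ s, AP s ∈ K ↔ s ∈ K
  minimal : ∀ k ∈ K, ∀ k' ∈ K, ∀ ε > 0, ∃ n : ℤ, dist ((AP ^ n) k) k' < ε

variable {K : Set T4}

lemma MinSet.inv_zpow (hK : MinSet K) (n : ℤ) (s : T4) : (AP ^ n) s ∈ K ↔ s ∈ K := by
  induction n using Int.induction_on with
  | zero => simp
  | succ i ih =>
    rw [zpow_add_one, ← (Commute.self_zpow AP _).eq]
    change AP ((AP ^ (i : ℤ)) s) ∈ K ↔ _
    rw [hK.inv, ih]
  | pred i ih =>
    rw [zpow_sub_one, ← ((Commute.refl AP).inv_left.zpow_right _).eq]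
    change (AP⁻¹) ((AP ^ (-(i : ℤ))) s) ∈ K ↔ _
    rw [← ih, ← hK.inv]
    simp

lemma MinSet.tau_rep (hK : MinSet K) {v : E4} (hv : v ∈ D) : tau (rep (ppi v)) ∈ K ↔ tau v ∈ K := by
  obtain ⟨n, l, hl, hr⟩ := exists_rep hv
  rw [hr, tau_add _ hl, tau_gz, hK.inv_zpow]

/-- the underlying set of the lamination -/
def car (K : Set T4) : Set X := {x | tau (rep x) ∈ K}

lemma MinSet.mem_car (hK : MinSet K) {v : E4} (hv : v ∈ D) : ppi v ∈ car K ↔ tau v ∈ K :=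
  hK.tau_rep hv

lemma MinSet.isClosed_car (hK : MinSet K) : IsClosed (car K) := by
  have h1 : IsClosed (mkX ⁻¹' (car K)) := by
    have h2 : mkX ⁻¹' (car K) = (fun v : D => tau v.1) ⁻¹' K := by
      ext v
      rw [mem_preimage, mem_preimage, ← hK.mem_car v.2, ppi_of_mem v.2]
    rw [h2]
    exact hK.compact.isClosed.preimage (continuous_tau.comp continuous_subtype_val)
  have hq : IsQuotientMap mkX := isQuotientMap_quotient_mk'
  exact hq.isClosed_preimage.mp h1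

lemma MinSet.isCompact_car (hK : MinSet K) : IsCompact (car K) := hK.isClosed_car.isCompact

/-- centres of flow boxes -/
def Idx (K : Set T4) : Type := {p : E4 // p ∈ D ∧ tau p ∈ K}

/-- transversals -/
def Tr (p : Idx K) : Type := {t : ℂ × ℂ × ℂ // ‖t - p.1.2‖ < rad p.1 ∧ tau ((0 : ℂ), t) ∈ K}

instance (p : Idx K) : TopologicalSpace (Tr p) := inferInstanceAs (TopologicalSpace {_t : ℂ × ℂ × ℂ // _})

/-- coordinates in `D` of a point of a flow box -/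
def bx (p : Idx K) (ζ : ℂ) (t : ℂ × ℂ × ℂ) : E4 := (p.1.1 + rad p.1 * ζ, t)

lemma bx_mem {p : Idx K} {ζ : ℂ} (hζ : ζ ∈ Metric.ball (0 : ℂ) 1) {t : ℂ × ℂ × ℂ}
    (ht : ‖t - p.1.2‖ < rad p.1) : bx p ζ t ∈ Metric.ball p.1 (rad p.1) := by
  have hr := rad_pos p.2.1
  rw [mem_ball_iff_norm, bx, Prod.norm_def, sup_lt_iff]
  refine ⟨?_, ht⟩
  simp only [Prod.fst_sub, add_sub_cancel_left, norm_mul, Complex.norm_real, Real.norm_eq_abs,
    abs_of_pos hr]
  rw [mem_ball_zero_iff] at hζ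
  calc rad p.1 * ‖ζ‖ < rad p.1 * 1 := mul_lt_mul_of_pos_left hζ hr
    _ = rad p.1 := mul_one _

lemma bx_mem_D {p : Idx K} {ζ : ℂ} (hζ : ζ ∈ Metric.ball (0 : ℂ) 1) (t : Tr p) :
    bx p ζ t.1 ∈ D := ball_subset_D p.2.1 (bx_mem hζ t.2.1)

lemma tau_bx {p : Idx K} (ζ : ℂ) (t : Tr p) : tau (bx p ζ t.1) ∈ K := by
  have h : tau (bx p ζ t.1) = tau ((0 : ℂ), t.1) := tau_snd rfl
  rw [h]
  exact t.2.2

/-- the flow box map -/
def boxm (p : Idx K) (ζ : ℂ) (t : Tr p) : X := ppi (bx p ζ t.1)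

lemma boxm_mem (hK : MinSet K) (p : Idx K) {ζ : ℂ} (hζ : ζ ∈ Metric.ball (0 : ℂ) 1) (t : Tr p) :
    boxm p ζ t ∈ car K := (hK.mem_car (bx_mem_D hζ t)).mpr (tau_bx ζ t)

lemma isOpenEmbedding_boxm (hK : MinSet K) (p : Idx K) : IsOpenEmbedding
    (fun q : Metric.ball (0 : ℂ) 1 × Tr p =>
      (⟨boxm p q.1 q.2, boxm_mem hK p q.1.2 q.2⟩ : car K)) := by
  have hr := rad_pos p.2.1
  have hr' : (rad p.1 : ℂ) ≠ 0 := by exact_mod_cast hr.ne'
  apply IsOpenEmbedding.of_continuous_injective_isOpenMap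
  · apply Continuous.subtype_mk
    have h1 : Continuous (fun q : Metric.ball (0 : ℂ) 1 × Tr p =>
        (⟨bx p q.1 q.2.1, bx_mem_D q.1.2 q.2⟩ : D)) := by
      apply Continuous.subtype_mk
      have h2 : Continuous (fun q : Metric.ball (0 : ℂ) 1 × Tr p => (q.2.1 : ℂ × ℂ × ℂ)) :=
        continuous_subtype_val.comp continuous_snd
      exact Continuous.prodMk (by fun_prop) h2
    have h3 := continuous_mkX.comp h1
    convert h3 using 1
    funext q
    exact ppi_of_mem _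
  · rintro ⟨ζ, t⟩ ⟨ζ', t'⟩ h
    have h1 : ppi (bx p ζ t.1) = ppi (bx p ζ' t'.1) := congrArg Subtype.val h
    have h2 := injOn_ball p.2.1 (bx_mem ζ.2 t.2.1) (bx_mem ζ'.2 t'.2.1) h1
    rw [bx, bx, Prod.ext_iff] at h2
    refine Prod.ext ?_ ?_
    · apply Subtype.ext
      have h3 := h2.1
      simp only at h3
      exact mul_left_cancel₀ hr' (add_left_cancel h3)
    · exact Subtype.ext h2.2
  · intro U hU
    have hind : IsInducing (fun q : Metric.ball (0 : ℂ) 1 × Tr p =>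
        ((q.1 : ℂ), (q.2.1 : ℂ × ℂ × ℂ))) :=
      IsInducing.subtypeVal.prodMap IsInducing.subtypeVal
    obtain ⟨V, hV, rfl⟩ := hind.isOpen_iff.mp hU
    set e := chart ⟨p.1, p.2.1⟩ with he
    have hO : IsOpen (e.source ∩ (fun x => (((e x).1 - p.1.1) / (rad p.1 : ℂ), (e x).2)) ⁻¹' V) := by
      apply ContinuousOn.isOpen_inter_preimage _ e.open_source hV
      have := e.continuousOn
      fun_prop
    refine ⟨_, hO, ?_⟩
    ext ⟨x, hx⟩
    simp only [mem_preimage, mem_inter_iff, mem_image, Prod.exists, Subtype.mk.injEq]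
    constructor
    · rintro ⟨⟨u, hu, rfl⟩, hxV⟩
      have hu' : u ∈ Metric.ball p.1 (rad p.1) := hu
      rw [he, chart_ppi hu] at hxV
      have hud := ball_subset_D p.2.1 hu'
      have hut : tau u ∈ K := (hK.mem_car hud).mp hx
      have hn := hu'
      rw [mem_ball_iff_norm, Prod.norm_def, sup_lt_iff] at hn
      have hζ : (u.1 - p.1.1) / (rad p.1 : ℂ) ∈ Metric.ball (0 : ℂ) 1 := by
        rw [mem_ball_zero_iff, norm_div, Complex.norm_real, Real.norm_eq_abs, abs_of_pos hr,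
          div_lt_one hr]
        exact hn.1
      refine ⟨⟨_, hζ⟩, ⟨u.2, hn.2, ?_⟩, hxV, ?_⟩
      · have h : tau ((0 : ℂ), u.2) = tau u := tau_snd rfl
        rwa [h]
      · simp only [boxm, bx]
        congr 1
        refine Prod.ext ?_ rfl
        simp only
        field_simp
        ring
    · rintro ⟨ζ, t, hV', rfl⟩
      have hb := bx_mem (p := p) ζ.2 t.2.1
      refine ⟨⟨_, hb, rfl⟩, ?_⟩
      have : e (boxm p ζ t) = bx p ζ t.1 := chart_ppi hb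
      rw [this]
      convert hV' using 1
      refine Prod.ext ?_ rfl
      simp only [bx, add_sub_cancel_left]
      field_simp

lemma contMDiffAt_ppi_C {v : E4} (hv : v ∈ D) : ContMDiffAt 𝓘(ℂ, E4) 𝓘(ℂ, E4) ω ppi v := by
  have h1 : ContMDiffOn 𝓘(ℂ, E4) 𝓘(ℂ, E4) ω (chart ⟨v, hv⟩).symm (chart ⟨v, hv⟩).target :=
    contMDiffOn_symm_of_mem_maximalAtlas (IsManifold.subset_maximalAtlas ⟨_, rfl⟩)
  exact h1.contMDiffAt (Metric.ball_mem_nhds _ (rad_pos hv))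

/-- the inclusion of the first factor -/
def inl : ℂ →L[ℂ] E4 := ContinuousLinearMap.inl ℂ ℂ (ℂ × ℂ × ℂ)

lemma inl_apply (z : ℂ) : inl z = (z, 0) := rfl

lemma hasFDerivAt_bx (p : Idx K) (ζ : ℂ) (t : ℂ × ℂ × ℂ) :
    HasFDerivAt (fun ζ : ℂ => bx p ζ t) ((rad p.1 : ℂ) • inl) ζ := by
  have h1 : (fun ζ : ℂ => bx p ζ t) = fun ζ => ((rad p.1 : ℂ) • inl) ζ + (p.1.1, t) := by
    funext ζ
    refine Prod.ext ?_ ?_
    · simp only [bx, Prod.fst_add, _root_.smul_apply, Prod.smul_fst, inl_apply,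
        smul_eq_mul]
      ring
    · simp only [bx, Prod.snd_add, _root_.smul_apply, Prod.smul_snd, inl_apply,
        smul_zero, zero_add]
  rw [h1]
  exact ((rad p.1 : ℂ) • inl).hasFDerivAt.add_const _

lemma contDiff_bx (p : Idx K) (t : ℂ × ℂ × ℂ) : ContDiff ℂ ω (fun ζ : ℂ => bx p ζ t) := by
  unfold bx
  fun_prop

lemma contMDiffOn_boxm (p : Idx K) (t : Tr p) :
    ContMDiffOn 𝓘(ℂ, ℂ) 𝓘(ℂ, E4) ω (fun ζ => boxm p ζ t) (Metric.ball (0 : ℂ) 1) := by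
  intro ζ hζ
  have h1 : ContMDiffAt 𝓘(ℂ, ℂ) 𝓘(ℂ, E4) ω (fun ζ : ℂ => bx p ζ t.1) ζ :=
    (contDiff_bx p t.1).contDiffAt.contMDiffAt
  exact ((contMDiffAt_ppi_C (bx_mem_D hζ t)).comp ζ h1).contMDiffWithinAt

lemma hasMFDerivAt_boxm (p : Idx K) (t : Tr p) {ζ : ℂ} (hζ : ζ ∈ Metric.ball (0 : ℂ) 1) {n : ℤ}
    {l : E4} (hl : l ∈ Lam) (h : rep (boxm p ζ t) = (g ^ n) (bx p ζ t.1) + l) :
    HasMFDerivAt 𝓘(ℂ, ℂ) 𝓘(ℂ, E4) (fun ζ => boxm p ζ t) ζ
      (((g ^ n : E4 ≃L[ℂ] E4) : E4 →L[ℂ] E4).comp ((rad p.1 : ℂ) • inl)) := by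
  have h1 : HasMFDerivAt 𝓘(ℂ, ℂ) 𝓘(ℂ, E4) (fun ζ : ℂ => bx p ζ t.1) ζ ((rad p.1 : ℂ) • inl) :=
    (hasFDerivAt_bx p ζ t.1).hasMFDerivAt
  exact (hasMFDerivAt_ppi_C (bx_mem_D hζ t) hl h).comp ζ h1

lemma gz_inl (n : ℤ) (c : ℝ) : (g ^ n) ((c : ℂ) • inl 1) = (al ^ n * c : ℝ) • e1 := by
  have h1 : inl 1 = e1 := rfl
  rw [h1, map_smul, gz_e1, smul_smul, ← Complex.ofReal_mul, Complex.coe_smul, mul_comm]

lemma glue_boxm (p q : Idx K) (t : Tr p) (s : Tr q) :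
    IsOpen {ζ | ζ ∈ Metric.ball (0 : ℂ) 1 ∧ ∃ ζ' ∈ Metric.ball (0 : ℂ) 1, boxm p ζ t = boxm q ζ' s} := by
  rw [isOpen_iff_mem_nhds]
  rintro ζ0 ⟨hζ0, ζ0', hζ0', h⟩
  have hq : (rad q.1 : ℂ) ≠ 0 := by exact_mod_cast (rad_pos q.2.1).ne'
  obtain ⟨n, hn⟩ := (ppi_eq_iff (bx_mem_D hζ0 t) (bx_mem_D hζ0' s)).mp h
  have hc : Continuous (fun ζ : ℂ => ζ0' + (al : ℂ) ^ n * (rad p.1 : ℂ) * (ζ - ζ0) / (rad q.1 : ℂ)) := by
    fun_prop
  have hm : (fun ζ : ℂ => ζ0' + (al : ℂ) ^ n * (rad p.1 : ℂ) * (ζ - ζ0) / (rad q.1 : ℂ)) ζ0 ∈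
      Metric.ball (0 : ℂ) 1 := by
    simp only [sub_self, mul_zero, zero_div, add_zero]
    exact hζ0'
  filter_upwards [Metric.isOpen_ball.mem_nhds hζ0,
    (Metric.isOpen_ball.preimage hc).mem_nhds hm] with ζ h1 h2
  refine ⟨h1, _, h2, ?_⟩
  rw [boxm, boxm, ppi_eq_iff (bx_mem_D h1 t) (bx_mem_D h2 s)]
  refine ⟨n, ?_⟩
  convert hn using 1
  have h3 : bx p ζ t.1 = bx p ζ0 t.1 + ((rad p.1 : ℂ) * (ζ - ζ0)) • e1 := by
    refine Prod.ext ?_ ?_
    · simp [bx, e1]; ring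
    · simp [bx, e1]
  have h4 : bx q (ζ0' + (al : ℂ) ^ n * (rad p.1 : ℂ) * (ζ - ζ0) / (rad q.1 : ℂ)) s.1 =
      bx q ζ0' s.1 + ((al : ℂ) ^ n * ((rad p.1 : ℂ) * (ζ - ζ0))) • e1 := by
    refine Prod.ext ?_ ?_
    · simp [bx, e1]; field_simp; ring
    · simp [bx, e1]
  rw [h3, h4, map_add, map_smul, gz_e1, smul_smul]
  push_cast
  rw [mul_comm ((al : ℂ) ^ n) ((rad p.1 : ℂ) * (ζ - ζ0))]
  abel

/-- the lamination attached to a minimal set -/
def lamK (hK : MinSet K) : Lamination E4 X where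
  carrier := car K
  isCompact_carrier := hK.isCompact_car
  ι := Idx K
  trans := Tr
  top := fun _ => inferInstance
  box := boxm
  box_mem := fun p _ hζ t => boxm_mem hK p hζ t
  isOpenEmbedding_box := fun p => isOpenEmbedding_boxm hK p
  holomorphic_box := fun p t => contMDiffOn_boxm p t
  immersed_box := by
    intro p t ζ hζ h0
    obtain ⟨n, l, hl, hr⟩ := exists_rep (bx_mem_D hζ t)
    have h1 := (hasMFDerivAt_boxm p t hζ hl hr).mfderiv
    have h2 : (((g ^ n : E4 ≃L[ℂ] E4) : E4 →L[ℂ] E4).comp ((rad p.1 : ℂ) • inl)) = 0 := by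
      exact (h1.symm.trans h0 : _)
    have h3 : (g ^ n) ((rad p.1 : ℂ) • inl 1) = 0 := by
      have := congrArg (fun A : ℂ →L[ℂ] E4 => A 1) h2
      exact this
    rw [gz_inl] at h3
    have h4 : al ^ n * rad p.1 ≠ 0 :=
      (mul_pos (zpow_pos al_pos n) (rad_pos p.2.1)).ne'
    have h5 := (smul_eq_zero.mp h3).resolve_left h4
    have h6 : (e1 : E4).1 = 0 := by rw [h5]; rfl
    exact one_ne_zero h6
  cover := by
    intro x hx
    have hz : (0 : ℂ) ∈ Metric.ball (0 : ℂ) 1 := Metric.mem_ball_self one_pos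
    refine ⟨⟨rep x, rep_mem x, hx⟩, 0, hz, ⟨(rep x).2, ?_, ?_⟩, ?_⟩
    · simp [rad_pos (rep_mem x)]
    · have h : tau ((0 : ℂ), (rep x).2) = tau (rep x) := tau_snd rfl
      rw [h]; exact hx
    · simp only [boxm, bx, mul_zero, add_zero]
      exact ppi_rep x
  glue := fun p q t s => glue_boxm p q t s

lemma plaqueVec_eq (hK : MinSet K) (p : Idx K) (t : Tr p) {ζ : ℂ} (hζ : ζ ∈ Metric.ball (0 : ℂ) 1)
    {n : ℤ} {l : E4} (hl : l ∈ Lam) (h : rep (boxm p ζ t) = (g ^ n) (bx p ζ t.1) + l) :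
    (lamK hK).plaqueVec p ζ t = (al ^ n * rad p.1 : ℝ) • e1 := by
  have h1 := (hasMFDerivAt_boxm p t hζ hl h).mfderiv
  rw [← gz_inl]
  exact congrArg (fun A : ℂ →L[ℂ] E4 => A 1) h1

lemma exists_plaqueVec (hK : MinSet K) (p : Idx K) (t : Tr p) {ζ : ℂ}
    (hζ : ζ ∈ Metric.ball (0 : ℂ) 1) : ∃ c : ℝ, c ≠ 0 ∧ (lamK hK).plaqueVec p ζ t = c • e1 := by
  obtain ⟨n, l, hl, hr⟩ := exists_rep (bx_mem_D hζ t)
  exact ⟨_, (mul_pos (zpow_pos al_pos n) (rad_pos p.2.1)).ne', plaqueVec_eq hK p t hζ hl hr⟩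

/-- a directed current only depends on leafwise densities -/
lemma directed_fn (hK : MinSet K) {T : Current E4 X} (hT : (lamK hK).IsDirected T)
    (φ : ContForms E4 X) : T φ = fn T (Q φ) := by
  have h1 : T (φ - om (Q φ)) = 0 := by
    apply hT
    intro p ζ hζ t
    obtain ⟨c, -, hc⟩ := exists_plaqueVec hK p t hζ
    rw [hc]
    have h2 : Complex.I • (c • e1 : E4) = c • (Complex.I • e1) := smul_comm _ _ _
    rw [h2, form_smul_pair]
    have h3 : (φ - om (Q φ)).1 ((lamK hK).box p ζ t) =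
      φ.1 ((lamK hK).box p ζ t) - (om (Q φ)).1 ((lamK hK).box p ζ t) := rfl
    rw [h3, ContinuousAlternatingMap.sub_apply, om_apply, ContinuousAlternatingMap.smul_apply,
      omega0_pair, Q_apply, Qf]
    have h4 : 0 < (rep ((lamK hK).box p ζ t)).1.im := rep_mem _
    have h5 : ‖(e1 : E4).1‖ = 1 := by simp [e1]
    rw [h5, smul_eq_mul]
    field_simp
    ring
  have h2 := T.map_sub φ (om (Q φ))
  rw [h1] at h2
  rw [fn_apply]
  linarith

/-- the current of a functional carried by `car K` is directed -/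
lemma isDirected_cur (hK : MinSet K) {L : C(X, ℝ) →ₗ[ℝ] ℝ}
    (hL : ∀ h : C(X, ℝ), (∀ x ∈ car K, h x = 0) → L h = 0) : (lamK hK).IsDirected (cur L) := by
  intro φ hφ
  rw [cur_apply]
  apply hL
  intro x hx
  obtain ⟨p, ζ, hζ, t, rfl⟩ := (lamK hK).cover x hx
  have h1 := hφ p ζ hζ t
  obtain ⟨c, hc0, hc⟩ := exists_plaqueVec hK p t hζ
  rw [hc] at h1
  have h2 : Complex.I • (c • e1 : E4) = c • (Complex.I • e1) := smul_comm _ _ _
  rw [h2, form_smul_pair] at h1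
  rw [Q_apply, Qf]
  rw [(mul_eq_zero.mp h1).resolve_left (pow_ne_zero 2 hc0), mul_zero]

end Pool.Agent.Helper289.LamX
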