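import Pool.Agent.Helper289.Cls

/-! Harmonic functionals attached to invariant measures. -/

open Set Topology MeasureTheory
open scoped Manifold ContDiff

attribute [-instance] TopCat.of.chartedSpace

noncomputable section

namespace Pool.Agent.Helper289.Mean

open Pool.Agent.Helper289.Base Pool.Agent.Helper289.Quot Pool.Agent.Helper289.Per
open Pool.Agent.Helper289.LamX Pool.Agent.Helper289.Torus Pool.Agent.Helper289.Forms

/-! ### The parametrisation `ℝ × T7 → X` -/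

/-- `(v, σ) ↦ [exp v, σ]` -/
def PI (z : ℝ × T7) : X := ppi (pt (Real.exp z.1, out7 z.2))

lemma pt_add_int (y : ℝ) (p : R7) (m : ℤ × ℤ × ℤ) (k : ℤ × ℤ × ℤ × ℤ) :
    pt (y, p + (i3 m, i4 k)) = pt (y, p) + pt (0, i3 m, i4 k) := by
  rw [← pt_add]
  congr 1
  exact Prod.ext (add_zero y).symm rfl

lemma PI_q7 (v : ℝ) (p : R7) : PI (v, q7 p) = ppi (pt (Real.exp v, p)) := by
  obtain ⟨m, k, h⟩ := exists_out7 p
  have hl : pt (0, i3 m, i4 k) ∈ Lam := ⟨m, k, co_pt _⟩
  rw [PI]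
  simp only [h]
  rw [pt_add_int, ppi_add (pt_mem_D (Real.exp_pos v)) hl]

lemma pt_exp_mem (v : ℝ) (p : R7) : pt (Real.exp v, p) ∈ D := pt_mem_D (Real.exp_pos v)

lemma continuous_PI : Continuous PI := by
  have hq : IsOpenQuotientMap (Prod.map (id : ℝ → ℝ) q7) :=
    IsOpenQuotientMap.id.prodMap isOpenQuotientMap_q7
  rw [← hq.continuous_comp_iff]
  have h : PI ∘ (Prod.map (id : ℝ → ℝ) q7) = fun z : ℝ × R7 => ppi (pt (Real.exp z.1, z.2)) := by
    funext z
    exact PI_q7 z.1 z.2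
  rw [h]
  have hc : Continuous (fun z : ℝ × R7 => pt (Real.exp z.1, z.2)) :=
    continuous_pt.comp (by fun_prop)
  exact continuousOn_ppi.comp_continuous hc (fun z => pt_exp_mem z.1 z.2)

lemma PI_shift (v : ℝ) (σ : T7) : PI (v + Real.log al, GP σ) = PI (v, σ) := by
  obtain ⟨p, rfl⟩ := q7_surjective σ
  have h1 : GP (q7 p) = q7 (M3 ℝ p.1, A4 ℝ p.2) := by
    rw [q7_apply, q7_apply, GP_apply, cls3_M3, cls4_A4]; rfl
  rw [h1, PI_q7, PI_q7, Real.exp_add, Real.exp_log al_pos]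
  have h2 : pt (Real.exp v * al, M3 ℝ p.1, A4 ℝ p.2) = g (pt (Real.exp v, p)) := by
    rw [g_pt, gc_apply, mul_comm]
  have h3 := ppi_gz 1 (pt_exp_mem v p)
  rw [zpow_one] at h3
  rw [h2, h3]

/-! ### Measures -/

/-- Haar measure of the three-dimensional torus -/
def lam3 : Measure T3 := Measure.addHaarMeasure ⊤

instance : lam3.IsAddHaarMeasure := by unfold lam3; infer_instance

instance : IsProbabilityMeasure lam3 := ⟨by
  have := Measure.addHaarMeasure_self (K₀ := (⊤ : TopologicalSpace.PositiveCompacts T3))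
  rwa [TopologicalSpace.PositiveCompacts.coe_top] at this⟩

lemma mp_M3 : MeasurePreserving (M3 S1) lam3 lam3 :=
  AddMonoidHom.measurePreserving (f := (M3 S1).toAddMonoidHom) continuous_M3 (M3 S1).surjective rfl

variable (ρ : Measure T4) [IsProbabilityMeasure ρ]

/-- product measure on the seven-dimensional torus -/
def lam7 : Measure T7 := lam3.prod ρ

instance : IsProbabilityMeasure (lam7 ρ) := by unfold lam7; infer_instance

lemma mp_GP (hρ : MeasurePreserving AP ρ ρ) : MeasurePreserving GP (lam7 ρ) (lam7 ρ) :=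
  mp_M3.prod hρ

/-- the measure on `ℝ × T7` -/
def nu : Measure (ℝ × T7) := (volume.restrict (Ioc 0 (Real.log al))).prod (lam7 ρ)

instance : IsFiniteMeasure (nu ρ) := by unfold nu; infer_instance

instance : BorelSpace (ℝ × T7) := Prod.borelSpace

lemma integrable_PI {μ : Measure (ℝ × T7)} [IsFiniteMeasure μ] (h : C(X, ℝ)) :
    Integrable (fun z => h (PI z)) μ := by
  apply Integrable.of_bound (C := ‖h‖)
  · exact (h.continuous.comp continuous_PI).aestronglyMeasurable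
  · exact Filter.Eventually.of_forall fun z => h.norm_coe_le_norm _

/-- the functional attached to an invariant measure -/
def Lr : C(X, ℝ) →ₗ[ℝ] ℝ where
  toFun h := ∫ z, h (PI z) ∂(nu ρ)
  map_add' h h' := integral_add (integrable_PI h) (integrable_PI h')
  map_smul' c h := integral_smul c (fun z => h (PI z))

lemma Lr_apply (h : C(X, ℝ)) : Lr ρ h = ∫ z, h (PI z) ∂(nu ρ) := rfl

lemma posL_Lr : PosL (Lr ρ) := fun h hh => integral_nonneg fun z => hh _

/-! ### Leafwise vector fields -/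

/-- `y ∂_w f` for a direction `w` scaled by `g` -/
def DDf (w : E4) (f : X → ℝ) (x : X) : ℝ :=
  (rep x).1.im * fderiv ℝ (fun v => f (ppi v)) (rep x) w

/-- directions scaled by `g` -/
def Dir (w : E4) : Prop := ∀ n : ℤ, (g ^ n) w = (al ^ n : ℝ) • w

lemma dir_e1 : Dir e1 := gz_e1_real

lemma dir_Ie1 : Dir (Complex.I • e1) := fun n => by
  rw [map_smul (g ^ n) Complex.I e1, gz_e1_real, smul_comm Complex.I]

lemma diff_comp_ppi {f : X → ℝ} (hf : ContMDiff 𝓘(ℝ, E4) 𝓘(ℝ, ℝ) ∞ f) {v : E4} (hv : v ∈ D) :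
    DifferentiableAt ℝ (fun v => f (ppi v)) v :=
  ((contDiffOn_comp_ppi hf).contDiffAt (isOpen_D.mem_nhds hv)).differentiableAt (by simp)

lemma fderiv_inv {f : X → ℝ} (hf : ContMDiff 𝓘(ℝ, E4) 𝓘(ℝ, ℝ) ∞ f) (n : ℤ) {v l : E4}
    (hv : v ∈ D) (hl : l ∈ Lam) (w : E4) :
    fderiv ℝ (fun v => f (ppi v)) ((g ^ n) v + l) ((g ^ n) w) =
      fderiv ℝ (fun v => f (ppi v)) v w := by
  have hv' : (g ^ n) v + l ∈ D := add_mem_D (gz_mem_D n hv) hl
  have hA : HasFDerivAt (fun u : E4 => (g ^ n) u + l) (gR n) v := (gR n).hasFDerivAt.add_const l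
  have h1 := ((diff_comp_ppi hf hv').hasFDerivAt).comp v hA
  have h2 : (fun v => f (ppi v)) ∘ (fun u : E4 => (g ^ n) u + l) =ᶠ[𝓝 v] fun v => f (ppi v) := by
    filter_upwards [isOpen_D.mem_nhds hv] with u hu
    simp only [Function.comp]
    rw [ppi_gz_add n hu hl]
  have h3 := h1.congr_of_eventuallyEq h2.symm
  rw [h3.fderiv]
  rfl

lemma DDf_ppi {w : E4} (hw : Dir w) {f : X → ℝ} (hf : ContMDiff 𝓘(ℝ, E4) 𝓘(ℝ, ℝ) ∞ f) {v : E4}
    (hv : v ∈ D) : DDf w f (ppi v) = v.1.im * fderiv ℝ (fun v => f (ppi v)) v w := by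
  obtain ⟨n, l, hl, hr⟩ := exists_rep hv
  have him : ((g ^ n) v + l).1.im = al ^ n * v.1.im := by
    rw [Prod.fst_add, Complex.add_im, gz_im, Lam_im hl, add_zero]
  have h1 := fderiv_inv hf n hv hl w
  rw [hw n, map_smul, smul_eq_mul] at h1
  rw [DDf, hr, him, ← h1]
  ring

lemma contDiffOn_dd {F : E4 → ℝ} (hF : ContDiffOn ℝ ∞ F D) (w : E4) :
    ContDiffOn ℝ ∞ (fun v : E4 => v.1.im * fderiv ℝ F v w) D := by
  have h1 : ContDiffOn ℝ ∞ (fderiv ℝ F) D := hF.fderiv_of_isOpen isOpen_D (by simp)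
  have h2 : ContDiffOn ℝ ∞ (fun v : E4 => v.1.im) D := imL.contDiff.contDiffOn
  exact h2.mul (h1.clm_apply contDiffOn_const)

lemma smooth_DDf {w : E4} (hw : Dir w) {f : X → ℝ} (hf : ContMDiff 𝓘(ℝ, E4) 𝓘(ℝ, ℝ) ∞ f) :
    ContMDiff 𝓘(ℝ, E4) 𝓘(ℝ, ℝ) ∞ (DDf w f) := by
  apply contMDiff_of_comp_ppi
  exact (contDiffOn_dd (contDiffOn_comp_ppi hf) w).congr (fun v hv => DDf_ppi hw hf hv)

/-- `y ∂_w f` as a continuous function -/
def DDc (w : E4) (hw : Dir w) (f : X → ℝ) (hf : ContMDiff 𝓘(ℝ, E4) 𝓘(ℝ, ℝ) ∞ f) : C(X, ℝ) :=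
  ⟨DDf w f, (smooth_DDf hw hf).continuous⟩

lemma pt_fst_im (y : ℝ) (p : R7) : (pt (y, p)).1.im = y := by
  have := co_fst (pt (y, p))
  rw [co_pt] at this
  exact this.symm

instance : BorelSpace ((ℝ × T7) × ℝ) := Prod.borelSpace

/-! ### The horocyclic direction -/

/-- the vector `ξ` of lattice coordinates of `e1` -/
def xi : R3 := (co e1).2.1

lemma co_e1 : co e1 = (0, xi, 0) := by
  refine Prod.ext ?_ (Prod.ext rfl ?_)
  · rw [co_fst]; simp [e1]
  · simp only [co, e1]; simp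

lemma pt_e1 (t : ℝ) : pt (0, t • xi, 0) = t • e1 := by
  have h1 : ((0, t • xi, 0) : ℝ × R3 × R4) = t • co e1 := by
    rw [co_e1]
    refine Prod.ext ?_ (Prod.ext rfl ?_)
    · simp
    · simp
  rw [h1]
  have h2 : pt (t • co e1) = t • pt (co e1) := ptE.map_smul t (co e1)
  rw [h2, pt_co]

/-- translation of `ℝ × T7` along the horocyclic direction -/
def tr (t : ℝ) (z : ℝ × T7) : ℝ × T7 := (z.1, z.2 + (cls3 (t • xi), 0))

lemma continuous_tr : Continuous (fun q : ℝ × (ℝ × T7) => tr q.1 q.2) := by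
  unfold tr
  have h1 : Continuous (fun q : ℝ × (ℝ × T7) => cls3 (q.1 • xi)) :=
    isOpenQuotientMap_cls3.continuous.comp (by fun_prop)
  fun_prop

lemma PI_tr (t v : ℝ) (p : R7) : PI (tr t (v, q7 p)) = ppi (pt (Real.exp v, p) + t • e1) := by
  have h1 : tr t (v, q7 p) = (v, q7 (p + (t • xi, 0))) := by
    rw [tr, map_add, q7_apply (t • xi, 0), map_zero]
  have h2 : ((Real.exp v, p + (t • xi, 0)) : ℝ × R3 × R4) =
      (Real.exp v, p) + (0, t • xi, 0) := Prod.ext (add_zero _).symm rfl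
  rw [h1, PI_q7, ← pt_e1, ← pt_add, h2]

lemma mp_tr (t : ℝ) : MeasurePreserving (tr t) (nu ρ) (nu ρ) := by
  have h1 : MeasurePreserving (fun σ : T7 => σ + (cls3 (t • xi), 0)) (lam7 ρ) (lam7 ρ) := by
    have h2 := (measurePreserving_add_right lam3 (cls3 (t • xi))).prod (MeasurePreserving.id ρ)
    have h3 : Prod.map (fun x => x + cls3 (t • xi)) id =
        fun σ : T7 => σ + (cls3 (t • xi), 0) := by
      funext σ
      exact Prod.ext rfl (add_zero _).symm
    rw [h3] at h2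
    exact h2
  exact (MeasurePreserving.id _).prod h1

lemma mp_integral {α β : Type*} [MeasurableSpace α] [MeasurableSpace β] {μ : Measure α}
    {ν : Measure β} {f : α → β} (hf : MeasurePreserving f μ ν) {h : β → ℝ}
    (hh : AEStronglyMeasurable h ν) : ∫ x, h (f x) ∂μ = ∫ y, h y ∂ν := by
  rw [← hf.map_eq, integral_map hf.measurable.aemeasurable]
  rw [hf.map_eq]; exact hh

lemma hasDerivAt_tr {f : X → ℝ} (hf : ContMDiff 𝓘(ℝ, E4) 𝓘(ℝ, ℝ) ∞ f) (z : ℝ × T7) (t : ℝ) :
    HasDerivAt (fun t => Real.exp z.1 * f (PI (tr t z))) (DDf e1 f (PI (tr t z))) t := by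
  obtain ⟨v, σ⟩ := z
  obtain ⟨p, rfl⟩ := q7_surjective σ
  simp only [PI_tr]
  set u := pt (Real.exp v, p) with hu
  have him : (u + t • e1).1.im = Real.exp v := by
    rw [hu, Prod.fst_add, Complex.add_im, pt_fst_im]
    simp [e1]
  have hD : u + t • e1 ∈ D := by
    change 0 < (u + t • e1).1.im
    rw [him]; exact Real.exp_pos v
  rw [DDf_ppi dir_e1 hf hD, him]
  have h1 : HasDerivAt (fun t : ℝ => u + t • e1) e1 t := by
    have := ((hasDerivAt_id t).smul_const e1).const_add u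
    simpa using this
  have h2 := (diff_comp_ppi hf hD).hasFDerivAt.comp_hasDerivAt t h1
  exact h2.const_mul _

lemma tr_cont (t : ℝ) : Continuous (tr t) :=
  continuous_tr.comp (by fun_prop : Continuous fun z : ℝ × T7 => (t, z))

lemma hI_aux (h : C(X, ℝ)) : Integrable
    (Function.uncurry fun (z : ℝ × T7) (t : ℝ) => h (PI (tr t z)))
    ((nu ρ).prod (volume.restrict (Ioc (0 : ℝ) 1))) := by
  have h0 : Continuous (fun q : (ℝ × T7) × ℝ => (q.2, q.1)) := continuous_snd.prodMk continuous_fst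
  have h1 : Continuous (fun q : (ℝ × T7) × ℝ => tr q.2 q.1) := continuous_tr.comp h0
  have h2 : Continuous (fun q : (ℝ × T7) × ℝ => h (PI (tr q.2 q.1))) :=
    h.continuous.comp (continuous_PI.comp h1)
  have h3 : Continuous (Function.uncurry fun (z : ℝ × T7) (t : ℝ) => h (PI (tr t z))) := h2
  exact Integrable.of_bound (C := ‖h‖) h3.aestronglyMeasurable
    (Filter.Eventually.of_forall fun z => h.norm_coe_le_norm _)

lemma hkI_aux (f : C(X, ℝ)) (t : ℝ) :
    Integrable (fun z : ℝ × T7 => Real.exp z.1 * f (PI (tr t z))) (nu ρ) := by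
  have hcont : Continuous (fun z : ℝ × T7 => Real.exp z.1 * f (PI (tr t z))) :=
    (Real.continuous_exp.comp continuous_fst).mul
      (f.continuous.comp (continuous_PI.comp (tr_cont t)))
  apply Integrable.of_bound (C := al * ‖f‖) hcont.aestronglyMeasurable
  have hae : ∀ᵐ z ∂(nu ρ), z.1 ∈ Ioc 0 (Real.log al) :=
    Measure.quasiMeasurePreserving_fst.ae (ae_restrict_mem measurableSet_Ioc)
  filter_upwards [hae] with z hz
  rw [norm_mul, Real.norm_eq_abs, abs_of_pos (Real.exp_pos _)]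
  have h1 : Real.exp z.1 ≤ al := by
    rw [← Real.le_log_iff_exp_le al_pos]; exact hz.2
  exact mul_le_mul h1 (f.norm_coe_le_norm _) (norm_nonneg _) al_pos.le

lemma hk_aux (f : C(X, ℝ)) (t : ℝ) : ∫ z, Real.exp z.1 * f (PI (tr t z)) ∂(nu ρ) =
    ∫ z, Real.exp z.1 * f (PI z) ∂(nu ρ) := by
  have hk : Continuous (fun z : ℝ × T7 => Real.exp z.1 * f (PI z)) :=
    (Real.continuous_exp.comp continuous_fst).mul (f.continuous.comp continuous_PI)
  exact mp_integral (h := fun z : ℝ × T7 => Real.exp z.1 * f (PI z)) (mp_tr ρ t)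
    hk.aestronglyMeasurable

lemma hh_aux (h : C(X, ℝ)) (t : ℝ) : ∫ z, h (PI (tr t z)) ∂(nu ρ) = Lr ρ h :=
  mp_integral (h := fun z : ℝ × T7 => h (PI z)) (mp_tr ρ t)
    (h.continuous.comp continuous_PI).aestronglyMeasurable

lemma Lr_flow (f h : C(X, ℝ)) (hd : ∀ (z : ℝ × T7) (t : ℝ),
    HasDerivAt (fun t => Real.exp z.1 * f (PI (tr t z))) (h (PI (tr t z))) t) : Lr ρ h = 0 := by
  have hftc : ∀ z : ℝ × T7, ∫ t in (0 : ℝ)..1, h (PI (tr t z)) =
      Real.exp z.1 * f (PI (tr 1 z)) - Real.exp z.1 * f (PI (tr 0 z)) := by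
    intro z
    apply intervalIntegral.integral_eq_sub_of_hasDerivAt
      (f := fun t => Real.exp z.1 * f (PI (tr t z))) (f' := fun t => h (PI (tr t z)))
    · intro t _
      exact hd z t
    · have hc : Continuous (fun t : ℝ => h (PI (tr t z))) :=
        h.continuous.comp (continuous_PI.comp
          (continuous_tr.comp (by fun_prop : Continuous fun t : ℝ => (t, z))))
      exact hc.intervalIntegrable _ _
  have h1 : ∫ z, (∫ t in (0 : ℝ)..1, h (PI (tr t z))) ∂(nu ρ) = 0 := by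
    rw [integral_congr_ae (Filter.Eventually.of_forall hftc),
      integral_sub (hkI_aux ρ f 1) (hkI_aux ρ f 0), hk_aux, hk_aux, sub_self]
  have h2 : ∫ z, (∫ t in Ioc (0 : ℝ) 1, h (PI (tr t z))) ∂(nu ρ) =
      ∫ t in Ioc (0 : ℝ) 1, (∫ z, h (PI (tr t z)) ∂(nu ρ)) :=
    integral_integral_swap (hI_aux ρ h)
  simp only [intervalIntegral.integral_of_le zero_le_one] at h1
  rw [h1, ← intervalIntegral.integral_of_le zero_le_one] at h2
  simp only [hh_aux] at h2
  rw [intervalIntegral.integral_const, sub_zero, one_smul] at h2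
  exact h2.symm

lemma Lr_DD_e1 {f : X → ℝ} (hf : ContMDiff 𝓘(ℝ, E4) 𝓘(ℝ, ℝ) ∞ f) :
    Lr ρ (DDc e1 dir_e1 f hf) = 0 :=
  Lr_flow ρ ⟨f, hf.continuous⟩ _ (hasDerivAt_tr hf)

/-! ### The geodesic direction -/

lemma hasDerivAt_geo {f : X → ℝ} (hf : ContMDiff 𝓘(ℝ, E4) 𝓘(ℝ, ℝ) ∞ f) (σ : T7) (v : ℝ) :
    HasDerivAt (fun v => f (PI (v, σ))) (DDf (Complex.I • e1) f (PI (v, σ))) v := by
  obtain ⟨p, rfl⟩ := q7_surjective σ
  simp only [PI_q7]
  have hD := pt_exp_mem v p
  have him : (pt (Real.exp v, p)).1.im = Real.exp v := pt_fst_im _ _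
  rw [DDf_ppi dir_Ie1 hf hD, him]
  have h0 : ∀ y : ℝ, pt (y, p) = pt (0, p) + y • (Complex.I • e1) := by
    intro y
    have h3 : Complex.I • e1 = pt (1, 0, 0) := by
      rw [I_smul_e1, pt]
      refine Prod.ext ?_ (Prod.ext ?_ (Prod.ext ?_ ?_)) <;> simp
    have h4 : y • pt (1, 0, 0) = pt (y • ((1, 0, 0) : ℝ × R3 × R4)) := (ptE.map_smul y _).symm
    rw [h3, h4, ← pt_add]
    congr 1
    refine Prod.ext ?_ (Prod.ext ?_ ?_)
    · simp
    · simp
    · simp
  have h1 : HasDerivAt (fun v : ℝ => pt (Real.exp v, p)) (Real.exp v • (Complex.I • e1)) v := by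
    simp only [h0 (Real.exp _)]
    exact ((Real.hasDerivAt_exp v).smul_const (Complex.I • e1)).const_add _
  have h2 := (diff_comp_ppi hf hD).hasFDerivAt.comp_hasDerivAt v h1
  rw [map_smul, smul_eq_mul] at h2
  exact h2

lemma Lr_DD_Ie1 (hρ : MeasurePreserving AP ρ ρ) {f : X → ℝ}
    (hf : ContMDiff 𝓘(ℝ, E4) 𝓘(ℝ, ℝ) ∞ f) : Lr ρ (DDc (Complex.I • e1) dir_Ie1 f hf) = 0 := by
  set h := DDc (Complex.I • e1) dir_Ie1 f hf with hh
  have hlog : 0 ≤ Real.log al := Real.log_nonneg one_lt_al.le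
  rw [Lr_apply, nu, integral_prod_symm _ (by exact integrable_PI h)]
  have hfc : Continuous f := hf.continuous
  have hftc : ∀ σ : T7, ∫ v in Ioc 0 (Real.log al), h (PI (v, σ)) =
      f (PI (Real.log al, σ)) - f (PI (0, σ)) := by
    intro σ
    rw [← intervalIntegral.integral_of_le hlog]
    apply intervalIntegral.integral_eq_sub_of_hasDerivAt
      (f := fun v => f (PI (v, σ))) (f' := fun v => h (PI (v, σ)))
    · intro v _
      exact hasDerivAt_geo hf σ v
    · exact (h.continuous.comp (continuous_PI.comp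
        (by fun_prop : Continuous fun v : ℝ => (v, σ)))).intervalIntegrable _ _
  simp only [hftc]
  have hcont : ∀ v : ℝ, Continuous (fun σ : T7 => f (PI (v, σ))) := fun v =>
    hfc.comp (continuous_PI.comp (by fun_prop : Continuous fun σ : T7 => (v, σ)))
  obtain ⟨C, hC⟩ : ∃ C, ∀ x, |f x| ≤ C := by
    obtain ⟨C, hC⟩ := isCompact_univ.exists_bound_of_continuousOn hfc.continuousOn
    exact ⟨C, fun x => hC x trivial⟩
  have hint : ∀ v : ℝ, Integrable (fun σ : T7 => f (PI (v, σ))) (lam7 ρ) := fun v =>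
    Integrable.of_bound (C := C) (hcont v).aestronglyMeasurable
      (Filter.Eventually.of_forall fun σ => hC _)
  rw [integral_sub (hint _) (hint _)]
  have h1 := mp_integral (mp_GP ρ hρ) (hcont (Real.log al)).aestronglyMeasurable
  rw [← h1]
  have h2 : ∀ σ : T7, PI (Real.log al, GP σ) = PI (0, σ) := by
    intro σ
    have := PI_shift 0 σ
    rwa [zero_add] at this
  simp only [h2, sub_self]

/-! ### Harmonicity -/

theorem harmL_Lr (hρ : MeasurePreserving AP ρ ρ) : HarmL (Lr ρ) := by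
  intro f hf h hh
  have sx := smooth_DDf dir_e1 hf
  have sy := smooth_DDf dir_Ie1 hf
  have heq : h = DDc e1 dir_e1 _ sx + DDc (Complex.I • e1) dir_Ie1 _ sy -
      DDc (Complex.I • e1) dir_Ie1 f hf := by
    ext x
    obtain ⟨v, hv, rfl⟩ := ppi_surjective x
    rw [hh v hv]
    change _ = DDf e1 (DDf e1 f) (ppi v) + DDf (Complex.I • e1) (DDf (Complex.I • e1) f) (ppi v) -
      DDf (Complex.I • e1) f (ppi v)
    rw [DDf_ppi dir_e1 sx hv, DDf_ppi dir_Ie1 sy hv, DDf_ppi dir_Ie1 hf hv]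
    have hF := contDiffOn_comp_ppi hf
    have hF' : ContDiffOn ℝ ∞ (fderiv ℝ (fun v => f (ppi v))) D :=
      hF.fderiv_of_isOpen isOpen_D (by simp)
    have hdF : DifferentiableAt ℝ (fderiv ℝ (fun v => f (ppi v))) v :=
      (hF'.contDiffAt (isOpen_D.mem_nhds hv)).differentiableAt (by simp)
    have hdw : ∀ w : E4, DifferentiableAt ℝ (fun u => fderiv ℝ (fun v => f (ppi v)) u w) v :=
      fun w => by fun_prop
    have key : ∀ w : E4, Dir w → fderiv ℝ (fun u => DDf w f (ppi u)) v w =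
        imL w * fderiv ℝ (fun v => f (ppi v)) v w +
          v.1.im * fderiv ℝ (fun u => fderiv ℝ (fun v => f (ppi v)) u w) v w := by
      intro w hw
      have e1' : (fun u => DDf w f (ppi u)) =ᶠ[𝓝 v]
          fun u => imL u * fderiv ℝ (fun v => f (ppi v)) u w := by
        filter_upwards [isOpen_D.mem_nhds hv] with u hu
        exact DDf_ppi hw hf hu
      rw [e1'.fderiv_eq]
      have e2 := (imL.hasFDerivAt (x := v)).mul (hdw w).hasFDerivAt
      have e3 : fderiv ℝ (fun u => imL u * fderiv ℝ (fun v => f (ppi v)) u w) v =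
          imL v • fderiv ℝ (fun u => fderiv ℝ (fun v => f (ppi v)) u w) v +
            (fderiv ℝ (fun v => f (ppi v)) v w) • imL := e2.fderiv
      rw [e3]
      simp only [_root_.add_apply, _root_.smul_apply, smul_eq_mul, imL_apply]
      ring
    rw [key e1 dir_e1, key (Complex.I • e1) dir_Ie1, imL_e1, imL_Ie1, lap]
    ring
  rw [heq, map_sub, map_add, Lr_DD_e1, Lr_DD_Ie1 ρ hρ, Lr_DD_Ie1 ρ hρ]
  ring

/-! ### Values on periodisations and support -/

lemma mp_AP_symm {ρ : Measure T4} (hρ : MeasurePreserving AP ρ ρ) :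
    MeasurePreserving AP.symm ρ ρ := by
  refine ⟨continuous_AP_symm.measurable, ?_⟩
  conv_lhs => rw [← hρ.map_eq]
  rw [Measure.map_map continuous_AP_symm.measurable continuous_AP.measurable]
  have : AP.symm ∘ AP = id := by funext s; simp
  rw [this, Measure.map_id]

lemma mp_APz {ρ : Measure T4} (hρ : MeasurePreserving AP ρ ρ) (n : ℤ) :
    MeasurePreserving (AP ^ n : Equiv.Perm T4) ρ ρ := by
  induction n using Int.induction_on with
  | zero => rw [zpow_zero]; exact MeasurePreserving.id ρ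
  | succ i ih =>
    rw [zpow_add_one]
    exact ih.comp hρ
  | pred i ih =>
    rw [zpow_sub_one]
    exact ih.comp (mp_AP_symm hρ)

lemma cl_pt (y : ℝ) (p : R7) : cl (pt (y, p)) = q7 p := by rw [cl, co_pt]

lemma P_PI (F : Cut) (κ : C(T7, ℝ)) (v : ℝ) (σ : T7) :
    P F κ (PI (v, σ)) = ∑' n : ℤ, F.1 (al ^ n * Real.exp v) * κ ((GP ^ n) σ) := by
  obtain ⟨p, rfl⟩ := q7_surjective σ
  rw [PI_q7, P_ppi _ _ (pt_exp_mem v p), Pf]
  congr 1
  funext n
  rw [Phi_gz, cl_pt, pt_fst_im]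

lemma integral_snd_lam7 (κ : C(T4, ℝ)) : ∫ σ, κ σ.2 ∂(lam7 ρ) = ∫ s, κ s ∂ρ := by
  have h : MeasurePreserving (Prod.snd : T3 × T4 → T4) (lam3.prod ρ) ρ := measurePreserving_snd
  exact mp_integral h κ.continuous.aestronglyMeasurable

theorem Lr_P_chi (hρ : MeasurePreserving AP ρ ρ) (κ : C(T4, ℝ)) :
    Lr ρ (P chi (lift4 κ)) = Real.log al * ∫ s, κ s ∂ρ := by
  have hlog : 0 ≤ Real.log al := Real.log_nonneg one_lt_al.le
  rw [Lr_apply, nu, integral_prod _ (by exact integrable_PI _)]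
  have hAPc : ∀ n : ℤ, Continuous (fun σ : T7 => κ ((AP ^ n) σ.2)) := by
    intro n
    have h1 : Continuous (fun σ : T7 => κ (((GP ^ n) σ).2)) :=
      κ.continuous.comp (continuous_snd.comp (continuous_GPz n))
    simpa only [GPz_snd] using h1
  have hn : ∀ n : ℤ, ∫ σ, κ ((AP ^ n) σ.2) ∂(lam7 ρ) = ∫ s, κ s ∂ρ := by
    intro n
    have h1 : MeasurePreserving (Prod.snd : T3 × T4 → T4) (lam3.prod ρ) ρ := measurePreserving_snd
    exact mp_integral ((mp_APz hρ n).comp h1) κ.continuous.aestronglyMeasurable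
  have key : ∀ v : ℝ, ∫ σ, (P chi (lift4 κ)) (PI (v, σ)) ∂(lam7 ρ) = ∫ s, κ s ∂ρ := by
    intro v
    obtain ⟨N, hN⟩ := exists_N one_pos (2 * al)
    obtain ⟨n0, hn0⟩ := count one_pos hN (Real.exp_pos v)
    have hz : ∀ n ∉ Finset.Ico n0 (n0 + N), chi.1 (al ^ n * Real.exp v) = 0 := by
      intro n hn
      by_contra h
      exact hn (hn0 n (chi_supp _ h).1 (chi_supp _ h).2)
    have h1 : ∀ σ : T7, (P chi (lift4 κ)) (PI (v, σ)) =
        ∑ n ∈ Finset.Ico n0 (n0 + N), chi.1 (al ^ n * Real.exp v) * κ ((AP ^ n) σ.2) := by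
      intro σ
      rw [P_PI]
      rw [tsum_eq_sum (s := Finset.Ico n0 (n0 + N))]
      · apply Finset.sum_congr rfl
        intro n _
        rw [lift4_apply, GPz_snd]
      · intro n hn
        rw [hz n hn, zero_mul]
    simp only [h1]
    rw [integral_finsetSum]
    · simp only [integral_const_mul, hn]
      rw [← Finset.sum_mul]
      have h2 := chi_sum (Real.exp_pos v)
      rw [tsum_eq_sum (s := Finset.Ico n0 (n0 + N)) hz] at h2
      rw [h2, one_mul]
    · intro n _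
      apply Integrable.const_mul
      exact Integrable.of_bound (C := ‖κ‖) (hAPc n).aestronglyMeasurable
        (Filter.Eventually.of_forall fun σ => κ.norm_coe_le_norm _)
  simp only [key]
  rw [setIntegral_const, smul_eq_mul, Real.volume_real_Ioc_of_le hlog, sub_zero]

lemma Lr_one : Lr ρ 1 = Real.log al := by
  rw [Lr_apply]
  simp only [ContinuousMap.one_apply]
  rw [integral_const, smul_eq_mul, mul_one, nu, measureReal_def, Measure.prod_apply MeasurableSet.univ]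
  have hlog : 0 ≤ Real.log al := Real.log_nonneg one_lt_al.le
  simp [ENNReal.toReal_ofReal hlog]

lemma log_al_pos : 0 < Real.log al := Real.log_pos one_lt_al

lemma tau_PI (v : ℝ) (σ : T7) : tau (pt (Real.exp v, out7 σ)) = σ.2 := by
  rw [← cl_snd, cl_pt, q7_out7]

theorem Lr_support {K : Set T4} (hK : MinSet K) (hρK : ρ Kᶜ = 0) (h : C(X, ℝ))
    (hh : ∀ x ∈ car K, h x = 0) : Lr ρ h = 0 := by
  rw [Lr_apply]
  have hae : ∀ᵐ z ∂(nu ρ), z.2.2 ∈ K := by
    have h1 : ∀ᵐ s ∂ρ, s ∈ K := by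
      rw [ae_iff]; exact hρK
    have h2 : ∀ᵐ σ ∂(lam7 ρ), σ.2 ∈ K := Measure.quasiMeasurePreserving_snd.ae h1
    exact Measure.quasiMeasurePreserving_snd.ae h2
  have : (fun z => h (PI z)) =ᵐ[nu ρ] fun _ => 0 := by
    filter_upwards [hae] with z hz
    apply hh
    change ppi _ ∈ car K
    rw [hK.mem_car (pt_exp_mem _ _), tau_PI]
    exact hz
  rw [integral_congr_ae this, integral_zero]

end Pool.Agent.Helper289.Mean
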