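import Pool.Agent.Helper289.HarmP

/-! Classification of positive harmonic functionals on periodised trigonometric functions. -/

open Set Topology MeasureTheory
open scoped Manifold ContDiff

attribute [-instance] TopCat.of.chartedSpace

noncomputable section

namespace Pool.Agent.Helper289.Per

open Pool.Agent.Helper289.Base Pool.Agent.Helper289.Quot
open Pool.Agent.Helper289.LamX Pool.Agent.Helper289.Torus Pool.Agent.Helper289.Forms

/-- `F(y)/y²` -/
def fq (F : ℝ → ℝ) (y : ℝ) : ℝ := F y / y ^ 2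

lemma contDiff_fq (F : Cut) : ContDiff ℝ ∞ (fq F.1) := by
  obtain ⟨h1, a, b, ha, hs⟩ := F.2
  rw [contDiff_iff_contDiffAt]
  intro y
  by_cases hy : y = 0
  · subst hy
    have h2 : fq F.1 =ᶠ[𝓝 0] fun _ => 0 := by
      filter_upwards [gt_mem_nhds ha] with z hz
      have : F.1 z = 0 := by
        by_contra h
        exact absurd (hs z h).1 (not_le.mpr hz)
      rw [fq, this, zero_div]
    exact contDiffAt_const.congr_of_eventuallyEq h2
  · exact h1.contDiffAt.div (contDiffAt_id.pow 2) (pow_ne_zero 2 hy)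

lemma hasDerivAt_int_left {h : ℝ → ℝ} (hh : Continuous h) (b y : ℝ) :
    HasDerivAt (fun y => ∫ t in y..b, h t) (-h y) y :=
  intervalIntegral.integral_hasDerivAt_left (hh.intervalIntegrable _ _)
    (hh.stronglyMeasurableAtFilter _ _) hh.continuousAt

lemma contDiff_int_left {h : ℝ → ℝ} (hh : ContDiff ℝ ∞ h) (b : ℝ) :
    ContDiff ℝ ∞ (fun y => ∫ t in y..b, h t) := by
  rw [contDiff_infty_iff_deriv]
  refine ⟨fun y => (hasDerivAt_int_left hh.continuous b y).differentiableAt, ?_⟩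
  have : deriv (fun y => ∫ t in y..b, h t) = fun y => -h y :=
    funext fun y => (hasDerivAt_int_left hh.continuous b y).deriv
  rw [this]
  exact hh.neg

/-- fundamental system of `G'' = p² G` -/
structure FS (p : ℝ) (S C : ℝ → ℝ) : Prop where
  smoothS : ContDiff ℝ ∞ S
  smoothC : ContDiff ℝ ∞ C
  derS : ∀ y, HasDerivAt S (C y) y
  derC : ∀ y, HasDerivAt C (p ^ 2 * S y) y
  wr : ∀ y, C y ^ 2 - p ^ 2 * S y ^ 2 = 1
  S0 : S 0 = 0
  C0 : C 0 = 1

lemma FS_zero : FS 0 (fun y => y) (fun _ => 1) where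
  smoothS := contDiff_id
  smoothC := contDiff_const
  derS := fun y => hasDerivAt_id y
  derC := fun y => by
    have := hasDerivAt_const y (1 : ℝ)
    simpa using this
  wr := fun y => by ring
  S0 := rfl
  C0 := rfl

lemma FS_sinh {p : ℝ} (hp : p ≠ 0) :
    FS p (fun y => Real.sinh (|p| * y) / |p|) (fun y => Real.cosh (|p| * y)) := by
  have hq : |p| ≠ 0 := abs_ne_zero.mpr hp
  have hlin : ∀ y : ℝ, HasDerivAt (fun y => |p| * y) |p| y := fun y => by
    simpa using (hasDerivAt_id y).const_mul |p|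
  refine ⟨by fun_prop, by fun_prop, fun y => ?_, fun y => ?_, fun y => ?_, ?_, ?_⟩
  · have := (hlin y).sinh.div_const |p|
    rwa [mul_div_assoc, div_self hq, mul_one] at this
  · have := (hlin y).cosh
    convert this using 1
    rw [← sq_abs]
    field_simp
  · have := Real.cosh_sq (|p| * y)
    rw [← sq_abs p, this]
    field_simp
    ring
  · simp
  · simp

/-- the functional `F ↦ ∫ S F / y²` -/
def AS (S : ℝ → ℝ) (F : ℝ → ℝ) : ℝ := ∫ y, S y * fq F y

lemma duh {p : ℝ} {S C : ℝ → ℝ} (h : FS p S C) (F : Cut) : ∃ (G : ℝ → ℝ) (b : ℝ),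
    ContDiff ℝ ∞ G ∧ (∀ y, dg p G y = F.1 y) ∧ (∀ y, b ≤ y → G y = 0) ∧ G 0 = AS S F.1 := by
  obtain ⟨-, a, b, ha, hs⟩ := F.2
  have hf := contDiff_fq F
  have hSf : ContDiff ℝ ∞ (fun t => S t * fq F.1 t) := h.smoothS.mul hf
  have hCf : ContDiff ℝ ∞ (fun t => C t * fq F.1 t) := h.smoothC.mul hf
  have hzero : ∀ t, b < t → fq F.1 t = 0 := by
    intro t ht
    have : F.1 t = 0 := by
      by_contra h
      exact absurd (hs t h).2 (not_le.mpr ht)
    rw [fq, this, zero_div]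
  set G : ℝ → ℝ := fun y => C y * (∫ t in y..b, S t * fq F.1 t) - S y * (∫ t in y..b, C t * fq F.1 t)
    with hG
  set G1 : ℝ → ℝ := fun y => p ^ 2 * S y * (∫ t in y..b, S t * fq F.1 t) -
    C y * (∫ t in y..b, C t * fq F.1 t) with hG1
  have hd : ∀ y, HasDerivAt G (G1 y) y := by
    intro y
    have h1 := ((h.derC y).mul (hasDerivAt_int_left hSf.continuous b y)).sub
      ((h.derS y).mul (hasDerivAt_int_left hCf.continuous b y))
    refine HasDerivAt.congr_deriv (f := G) h1 ?_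
    simp only [hG1]
    ring
  have hd1 : ∀ y, HasDerivAt G1 (p ^ 2 * G y + fq F.1 y) y := by
    intro y
    have h1 := ((((h.derS y).const_mul (p ^ 2))).mul (hasDerivAt_int_left hSf.continuous b y)).sub
      ((h.derC y).mul (hasDerivAt_int_left hCf.continuous b y))
    refine HasDerivAt.congr_deriv (f := G1) h1 ?_
    have hw := h.wr y
    simp only [hG]
    linear_combination (fq F.1 y) * hw
  refine ⟨G, b, ?_, ?_, ?_, ?_⟩
  · exact (h.smoothC.mul (contDiff_int_left hSf b)).sub (h.smoothS.mul (contDiff_int_left hCf b))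
  · intro y
    have e1 : deriv G = G1 := funext fun y => (hd y).deriv
    rw [dg, e1, (hd1 y).deriv, add_sub_cancel_left, fq]
    by_cases hy : y = 0
    · subst hy
      have : F.1 0 = 0 := by
        by_contra h
        exact absurd (hs 0 h).1 (not_le.mpr ha)
      rw [this]; simp
    · field_simp
  · intro y hy
    have hz : ∀ (T : ℝ → ℝ), ∫ t in y..b, T t * fq F.1 t = 0 := by
      intro T
      rw [intervalIntegral.integral_symm, neg_eq_zero]
      apply intervalIntegral.integral_zero_ae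
      apply Filter.Eventually.of_forall
      intro t ht
      rw [uIoc_of_le hy] at ht
      rw [hzero t ht.1, mul_zero]
    simp only [hG, hz, mul_zero, sub_zero]
  · simp only [hG, h.C0, h.S0, zero_mul, sub_zero, one_mul, AS]
    apply intervalIntegral.integral_eq_integral_of_support_subset
    intro t ht
    have h1 : F.1 t ≠ 0 := by
      intro h0
      apply ht
      simp [fq, h0]
    exact ⟨ha.trans_le (hs t h1).1, (hs t h1).2⟩

/-! ### Scaling and auxiliary cut-offs -/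

/-- `y ↦ F (c y)` -/
def scl (c : ℝ) (hc : 0 < c) (F : Cut) : Cut :=
  ⟨fun y => F.1 (c * y), by
    obtain ⟨h1, a, b, ha, hs⟩ := F.2
    refine ⟨by fun_prop, a / c, b / c, div_pos ha hc, fun y hy => ?_⟩
    have := hs _ hy
    rw [div_le_iff₀ hc, le_div_iff₀ hc, mul_comm y c]
    exact this⟩

lemma scl_apply (c : ℝ) (hc : 0 < c) (F : Cut) (y : ℝ) : (scl c hc F).1 y = F.1 (c * y) := rfl

/-- product of a cut-off and a smooth function -/
def mulc (F : Cut) (H : ℝ → ℝ) (hH : ContDiff ℝ ∞ H) : Cut :=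
  ⟨fun y => F.1 y * H y, F.2.1.mul hH, by
    obtain ⟨-, a, b, ha, hs⟩ := F.2
    exact ⟨a, b, ha, fun y hy => hs y (left_ne_zero_of_mul hy)⟩⟩

lemma deriv_stp_zero {y : ℝ} (h : y < 1 ∨ 2 < y) : deriv stp y = 0 := by
  rcases h with h | h
  · have : stp =ᶠ[𝓝 y] fun _ => 0 := by
      filter_upwards [gt_mem_nhds h] with z hz
      exact stp_zero hz.le
    rw [this.deriv_eq, deriv_const]
  · have : stp =ᶠ[𝓝 y] fun _ => 1 := by
      filter_upwards [lt_mem_nhds h] with z hz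
      exact stp_one hz.le
    rw [this.deriv_eq, deriv_const]

lemma deriv2_stp_zero {y : ℝ} (h : y < 1 ∨ 2 < y) : deriv (deriv stp) y = 0 := by
  have : deriv stp =ᶠ[𝓝 y] fun _ => 0 := by
    rcases h with h | h
    · filter_upwards [gt_mem_nhds h] with z hz
      exact deriv_stp_zero (Or.inl hz)
    · filter_upwards [lt_mem_nhds h] with z hz
      exact deriv_stp_zero (Or.inr hz)
  rw [this.deriv_eq, deriv_const]

lemma contDiff_deriv {G : ℝ → ℝ} (hG : ContDiff ℝ ∞ G) : ContDiff ℝ ∞ (deriv G) :=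
  ((contDiff_infty_iff_deriv (𝕜 := ℝ)).mp hG).2

/-- `u² stp'(u)` -/
def Vc : Cut :=
  ⟨fun u => u ^ 2 * deriv stp u, by
    have := contDiff_deriv contDiff_stp
    fun_prop, 1, 2, one_pos, fun y hy => by
    by_contra h
    rw [not_and_or, not_le, not_le] at h
    exact right_ne_zero_of_mul hy (deriv_stp_zero h)⟩

/-- `u² stp''(u)` -/
def Wc : Cut :=
  ⟨fun u => u ^ 2 * deriv (deriv stp) u, by
    have := contDiff_deriv (contDiff_deriv contDiff_stp)
    fun_prop, 1, 2, one_pos, fun y hy => by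
    by_contra h
    rw [not_and_or, not_le, not_le] at h
    exact right_ne_zero_of_mul hy (deriv2_stp_zero h)⟩

lemma Vc_apply (u : ℝ) : Vc.1 u = u ^ 2 * deriv stp u := rfl
lemma Wc_apply (u : ℝ) : Wc.1 u = u ^ 2 * deriv (deriv stp) u := rfl
lemma Vc_zero {y : ℝ} (h : y < 1 ∨ 2 < y) : Vc.1 y = 0 := by rw [Vc_apply, deriv_stp_zero h, mul_zero]
lemma Wc_zero {y : ℝ} (h : y < 1 ∨ 2 < y) : Wc.1 y = 0 := by rw [Wc_apply, deriv2_stp_zero h, mul_zero]

lemma hasDerivAt_stp_scale (c y : ℝ) :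
    HasDerivAt (fun y => stp (c * y)) (c * deriv stp (c * y)) y := by
  have h1 : Differentiable ℝ stp := contDiff_stp.differentiable (by simp)
  have h2 : HasDerivAt (fun y => c * y) c y := by simpa using (hasDerivAt_id y).const_mul c
  have h3 := (h1 (c * y)).hasDerivAt.comp y h2
  rw [mul_comm] at h3
  exact h3

lemma hasDerivAt_dstp_scale (c y : ℝ) :
    HasDerivAt (fun y => c * deriv stp (c * y)) (c ^ 2 * deriv (deriv stp) (c * y)) y := by
  have h1 : Differentiable ℝ (deriv stp) := (contDiff_deriv contDiff_stp).differentiable (by simp)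
  have h2 : HasDerivAt (fun y => c * y) c y := by simpa using (hasDerivAt_id y).const_mul c
  have h3 := ((h1 (c * y)).hasDerivAt.comp y h2).const_mul c
  refine h3.congr_deriv ?_
  ring

/-- the main decomposition -/
lemma decomp {p : ℝ} {S C : ℝ → ℝ} (h : FS p S C) (F : Cut) : ∃ (K ε0 : ℝ), 0 < ε0 ∧
    ∀ (ε : ℝ) (hε : 0 < ε), ε < ε0 → ∃ E G : Cut, (∀ y, |E.1 y| ≤ K * ε) ∧
      (∀ y, E.1 y ≠ 0 → ε ≤ y ∧ y ≤ 2 * ε) ∧
      DG p G = F + E + AS S F.1 • scl ε⁻¹ (inv_pos.mpr hε) Wc := by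
  obtain ⟨G, b, hG, hdg, hGb, hG0⟩ := duh h F
  obtain ⟨-, a, b', ha, hs⟩ := F.2
  obtain ⟨MV, hMV0, hMV⟩ := exists_bound Vc
  obtain ⟨MW, hMW0, hMW⟩ := exists_bound Wc
  have hG' := contDiff_deriv hG
  obtain ⟨M, hM⟩ := isCompact_Icc.exists_bound_of_continuousOn (s := Icc (0 : ℝ) 1)
    hG'.continuous.continuousOn
  have hM0 : 0 ≤ M := (norm_nonneg _).trans (hM 0 ⟨le_rfl, zero_le_one⟩)
  have hGM : ∀ y ∈ Icc (0 : ℝ) 1, |G y - G 0| ≤ M * y := by
    intro y hy
    have := Convex.norm_image_sub_le_of_norm_deriv_le (f := G) (s := Icc (0 : ℝ) 1) (x := 0) (y := y)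
      (C := M) (fun x _ => (hG.differentiable (by simp)) x) hM (convex_Icc 0 1)
      ⟨le_rfl, zero_le_one⟩ hy
    rwa [Real.norm_eq_abs, Real.norm_eq_abs, sub_zero, abs_of_nonneg hy.1] at this
  refine ⟨2 * MV * M + MW * (2 * M), min (1 / 2) (a / 2), by positivity, ?_⟩
  intro ε hε hε0
  have hε1 : ε < 1 / 2 := hε0.trans_le (min_le_left _ _)
  have hε2 : 2 * ε < a := by
    have := hε0.trans_le (min_le_right _ _)
    linarith
  have hi : 0 < ε⁻¹ := inv_pos.mpr hε
  have hsmall : ∀ y, ε⁻¹ * y < 1 ∨ 2 < ε⁻¹ * y ∨ (ε ≤ y ∧ y ≤ 2 * ε) := by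
    intro y
    rcases lt_or_ge (ε⁻¹ * y) 1 with h1 | h1
    · exact Or.inl h1
    rcases lt_or_ge 2 (ε⁻¹ * y) with h2 | h2
    · exact Or.inr (Or.inl h2)
    refine Or.inr (Or.inr ⟨?_, ?_⟩)
    · have := mul_le_mul_of_nonneg_left h1 hε.le
      rwa [mul_inv_cancel_left₀ hε.ne', mul_one] at this
    · have := mul_le_mul_of_nonneg_left h2 hε.le
      rw [mul_inv_cancel_left₀ hε.ne'] at this
      linarith
  let E : Cut := (2 * ε) • mulc (scl ε⁻¹ hi Vc) (deriv G) hG' +
    mulc (scl ε⁻¹ hi Wc) (fun y => G y - G 0) (hG.sub contDiff_const)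
  have hE : ∀ y, E.1 y = 2 * ε * (Vc.1 (ε⁻¹ * y) * deriv G y) + Wc.1 (ε⁻¹ * y) * (G y - G 0) :=
    fun y => rfl
  let Gε : Cut := ⟨fun y => stp (ε⁻¹ * y) * G y, by
    refine ⟨?_, ε, b, hε, fun y hy => ?_⟩
    · have := contDiff_stp
      fun_prop
    · constructor
      · by_contra hc
        push Not at hc
        apply left_ne_zero_of_mul hy
        apply stp_zero
        have := mul_le_mul_of_nonneg_left hc.le hi.le
        rwa [inv_mul_cancel₀ hε.ne'] at this
      · by_contra hc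
        push Not at hc
        exact right_ne_zero_of_mul hy (hGb y hc.le)⟩
  have hGε : ∀ y, Gε.1 y = stp (ε⁻¹ * y) * G y := fun y => rfl
  refine ⟨E, Gε, ?_, ?_, ?_⟩
  · intro y
    rw [hE]
    rcases hsmall y with h1 | h1 | h1
    · rw [Vc_zero (Or.inl h1), Wc_zero (Or.inl h1)]
      simp only [zero_mul, mul_zero, add_zero, abs_zero]
      positivity
    · rw [Vc_zero (Or.inr h1), Wc_zero (Or.inr h1)]
      simp only [zero_mul, mul_zero, add_zero, abs_zero]
      positivity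
    · have hy : y ∈ Icc (0 : ℝ) 1 := ⟨hε.le.trans h1.1, h1.2.trans (by linarith)⟩
      have e1 := hMV (ε⁻¹ * y)
      have e2 := hMW (ε⁻¹ * y)
      have e3 := hM y hy
      have e4 := hGM y hy
      rw [Real.norm_eq_abs] at e3
      have e5 : |G y - G 0| ≤ M * (2 * ε) := e4.trans (mul_le_mul_of_nonneg_left h1.2 hM0)
      calc |2 * ε * (Vc.1 (ε⁻¹ * y) * deriv G y) + Wc.1 (ε⁻¹ * y) * (G y - G 0)|
          ≤ 2 * ε * (|Vc.1 (ε⁻¹ * y)| * |deriv G y|) + |Wc.1 (ε⁻¹ * y)| * |G y - G 0| := by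
            refine (abs_add_le _ _).trans (le_of_eq ?_)
            rw [abs_mul, abs_mul (Vc.1 _), abs_mul (Wc.1 _), abs_of_pos (by positivity : 0 < 2 * ε)]
        _ ≤ 2 * ε * (MV * M) + MW * (M * (2 * ε)) := by
            gcongr
        _ = (2 * MV * M + MW * (2 * M)) * ε := by ring
  · intro y hy
    rcases hsmall y with h1 | h1 | h1
    · exfalso; apply hy; rw [hE, Vc_zero (Or.inl h1), Wc_zero (Or.inl h1)]; ring
    · exfalso; apply hy; rw [hE, Vc_zero (Or.inr h1), Wc_zero (Or.inr h1)]; ring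
    · exact h1
  · apply Subtype.ext
    funext y
    have hdG : ∀ y, HasDerivAt G (deriv G y) y := fun y =>
      ((hG.differentiable (by simp)) y).hasDerivAt
    have hdG' : ∀ y, HasDerivAt (deriv G) (deriv (deriv G) y) y := fun y =>
      ((hG'.differentiable (by simp)) y).hasDerivAt
    have d1 : ∀ y, HasDerivAt Gε.1 (ε⁻¹ * deriv stp (ε⁻¹ * y) * G y + stp (ε⁻¹ * y) * deriv G y) y :=
      fun y => (hasDerivAt_stp_scale ε⁻¹ y).mul (hdG y)
    have d1' : deriv Gε.1 = fun y => ε⁻¹ * deriv stp (ε⁻¹ * y) * G y + stp (ε⁻¹ * y) * deriv G y :=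
      funext fun y => (d1 y).deriv
    have d2 : HasDerivAt (deriv Gε.1) ((ε⁻¹ ^ 2 * deriv (deriv stp) (ε⁻¹ * y) * G y +
        ε⁻¹ * deriv stp (ε⁻¹ * y) * deriv G y) + (ε⁻¹ * deriv stp (ε⁻¹ * y) * deriv G y +
          stp (ε⁻¹ * y) * deriv (deriv G) y)) y := by
      rw [d1']
      exact ((hasDerivAt_dstp_scale ε⁻¹ y).mul (hdG y)).add
        ((hasDerivAt_stp_scale ε⁻¹ y).mul (hdG' y))
    have hst : stp (ε⁻¹ * y) * F.1 y = F.1 y := by
      by_cases hF : F.1 y = 0
      · rw [hF, mul_zero]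
      · rw [stp_one, one_mul]
        have h1 := (hs y hF).1
        have h2 := mul_le_mul_of_nonneg_left (hε2.le.trans h1) hi.le
        rw [show ε⁻¹ * (2 * ε) = 2 by field_simp] at h2
        exact h2
    have hdgy := hdg y
    rw [dg] at hdgy
    change dg p Gε.1 y = F.1 y + E.1 y + AS S F.1 * Wc.1 (ε⁻¹ * y)
    rw [dg, d2.deriv, hGε, hE, ← hG0, Vc_apply, Wc_apply]
    have hεe : ε * ε⁻¹ = 1 := mul_inv_cancel₀ hε.ne'
    linear_combination hst + stp (ε⁻¹ * y) * hdgy -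
      2 * y ^ 2 * deriv stp (ε⁻¹ * y) * deriv G y * ε⁻¹ * hεe

/-- `α^4 > 2` -/
lemma al_four : (2 : ℝ) < al ^ 4 := by
  have h := al_gt
  have h1 : (6 / 5 : ℝ) ^ 4 < al ^ 4 := pow_lt_pow_left₀ h (by norm_num) (by norm_num)
  norm_num at h1
  linarith

theorem prop_rel {L : C(X, ℝ) →ₗ[ℝ] ℝ} (hP : PosL L) (hL : HarmL L) (m : ℤ × ℤ × ℤ)
    (k : ℤ × ℤ × ℤ × ℤ) (a : ℝ) {S C : ℝ → ℝ} (h : FS (2 * Real.pi * ell m k e1) S C)
    (F F' : Cut) :
    AS S F'.1 * L (P F (kap m k a)) = AS S F.1 * L (P F' (kap m k a)) := by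
  obtain ⟨K, ε0, hε0, hK⟩ := decomp h F
  obtain ⟨K', ε0', hε0', hK'⟩ := decomp h F'
  set κ := kap m k a with hκ
  have hL1 : 0 ≤ L 1 := hP 1 (fun x => by simp)
  set c := 4 * ‖κ‖ * L 1 * (|AS S F'.1| * K + |AS S F.1| * K') with hc
  have key : ∀ ε, 0 < ε → ε < min ε0 ε0' →
      |AS S F'.1 * L (P F κ) - AS S F.1 * L (P F' κ)| ≤ c * ε := by
    intro ε hε hε2
    obtain ⟨E, G, hE1, hE2, hE3⟩ := hK ε hε (hε2.trans_le (min_le_left _ _))
    obtain ⟨E', G', hE1', hE2', hE3'⟩ := hK' ε hε (hε2.trans_le (min_le_right _ _))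
    have h1 := harm_P hL G m k a
    have h1' := harm_P hL G' m k a
    rw [hE3, P_add_left, P_add_left, P_smul_left, map_add, map_add, map_smul, smul_eq_mul] at h1
    rw [hE3', P_add_left, P_add_left, P_smul_left, map_add, map_add, map_smul, smul_eq_mul] at h1'
    have hN : 2 * ε < ε * al ^ 4 := by
      have := al_four
      nlinarith
    have hb : |L (P E κ)| ≤ (4 : ℕ) * (K * ε) * ‖κ‖ * L 1 :=
      posL_bound hP _ (P_bound hE1 hε hE2 hN κ)
    have hb' : |L (P E' κ)| ≤ (4 : ℕ) * (K' * ε) * ‖κ‖ * L 1 :=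
      posL_bound hP _ (P_bound hE1' hε hE2' hN κ)
    have e1 : AS S F'.1 * L (P F κ) - AS S F.1 * L (P F' κ) =
        AS S F.1 * L (P E' κ) - AS S F'.1 * L (P E κ) := by
      linear_combination AS S F'.1 * h1 - AS S F.1 * h1'
    rw [e1]
    refine (abs_sub _ _).trans ?_
    rw [abs_mul, abs_mul]
    calc |AS S F.1| * |L (P E' κ)| + |AS S F'.1| * |L (P E κ)|
        ≤ |AS S F.1| * ((4 : ℕ) * (K' * ε) * ‖κ‖ * L 1) +
          |AS S F'.1| * ((4 : ℕ) * (K * ε) * ‖κ‖ * L 1) := by gcongr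
      _ = c * ε := by rw [hc]; push_cast; ring
  have hzero : |AS S F'.1 * L (P F κ) - AS S F.1 * L (P F' κ)| ≤ 0 := by
    apply le_of_forall_pos_le_add
    intro δ hδ
    have hcpos : 0 < |c| + 1 := by positivity
    set ε := min (min ε0 ε0' / 2) (δ / (|c| + 1)) with hε
    have hm : 0 < min ε0 ε0' := lt_min hε0 hε0'
    have hεpos : 0 < ε := lt_min (by linarith) (div_pos hδ hcpos)
    have hεlt : ε < min ε0 ε0' := (min_le_left _ _).trans_lt (by linarith)
    refine (key ε hεpos hεlt).trans ?_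
    have h2 : ε ≤ δ / (|c| + 1) := min_le_right _ _
    rw [zero_add]
    calc c * ε ≤ (|c| + 1) * ε := by
          have := le_abs_self c
          nlinarith
      _ ≤ (|c| + 1) * (δ / (|c| + 1)) := mul_le_mul_of_nonneg_left h2 hcpos.le
      _ = δ := by field_simp
  have := abs_nonpos_iff.mp hzero
  linarith

end Pool.Agent.Helper289.Per
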