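import Pool.Agent.Helper289.Symb
import Pool.Agent.Helper289.LamX

/-! Ergodic measures on the subshift. -/

open Set Topology MeasureTheory

noncomputable section

namespace Pool.Agent.Helper289.Odo

open Pool.Agent.Helper289.Symb Pool.Agent.Helper289.LamX

instance : MeasurableSpace ℤ_[2] := borel _
instance : BorelSpace ℤ_[2] := ⟨rfl⟩
/-- the base of the extension -/
abbrev Om : Type := ℤ_[2] × S1
instance : BorelSpace Om := Prod.borelSpace

/-- Haar measure of the 2-adic integers -/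
def mu2 : Measure ℤ_[2] := Measure.addHaarMeasure ⊤
instance : mu2.IsAddHaarMeasure := by unfold mu2; infer_instance
instance : IsProbabilityMeasure mu2 := ⟨by
  have := Measure.addHaarMeasure_self (K₀ := (⊤ : TopologicalSpace.PositiveCompacts ℤ_[2]))
  rwa [TopologicalSpace.PositiveCompacts.coe_top] at this⟩
instance : IsProbabilityMeasure (volume : Measure S1) := ⟨UnitAddCircle.measure_univ⟩

/-- the product Haar measure -/
def mO : Measure Om := mu2.prod volume
instance : IsProbabilityMeasure mO := by unfold mO; infer_instance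

/-- the irrational angle -/
def th : ℝ := √2

/-- the translation vector -/
def tv : Om := (1, (th : S1))

lemma norm_two_pow (K : ℕ) : ‖((2 : ℤ_[2]) ^ K)‖ = (2 : ℝ) ^ (-K : ℤ) := by
  have := PadicInt.norm_p_pow (p := 2) K
  simpa using this

lemma dense_tv : DenseRange (fun n : ℤ => n • tv) := by
  rw [Metric.denseRange_iff]
  rintro ⟨z, t⟩ r hr
  obtain ⟨n0, hn0⟩ := (Metric.denseRange_iff.mp (PadicInt.denseRange_intCast (p := 2))) z (r / 2)
    (by positivity)
  obtain ⟨K, hK⟩ := exists_pow_lt_of_lt_one (by positivity : 0 < r / 2)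
    (by norm_num : (1 / 2 : ℝ) < 1)
  have hirr : Irrational ((2 ^ K * th) / 1) := by
    rw [div_one]
    have : ((2 ^ K : ℕ) : ℝ) * th = 2 ^ K * th := by push_cast; ring
    rw [← this]
    exact irrational_sqrt_two.natCast_mul (by positivity)
  have hd := (AddCircle.denseRange_zsmul_coe_iff (p := 1)).mpr hirr
  obtain ⟨j, hj⟩ := (Metric.denseRange_iff.mp hd) (t - n0 • (th : S1)) r hr
  refine ⟨n0 + j * 2 ^ K, ?_⟩
  rw [Prod.dist_eq, max_lt_iff]
  constructor
  · have e1 : ((n0 + j * 2 ^ K : ℤ) • tv).1 = (n0 : ℤ_[2]) + j * 2 ^ K := by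
      simp [tv]
    simp only [e1]
    have h1 : ‖((j : ℤ_[2]) * 2 ^ K)‖ ≤ (1 / 2) ^ K := by
      rw [norm_mul, norm_two_pow, zpow_neg, zpow_natCast, one_div, inv_pow]
      calc ‖(j : ℤ_[2])‖ * (2 ^ K)⁻¹ ≤ 1 * (2 ^ K)⁻¹ :=
            mul_le_mul_of_nonneg_right (PadicInt.norm_le_one _) (by positivity)
        _ = _ := one_mul _
    calc dist z ((n0 : ℤ_[2]) + j * 2 ^ K) ≤ dist z n0 + dist (n0 : ℤ_[2]) (n0 + j * 2 ^ K) :=
          dist_triangle _ _ _
      _ < r / 2 + r / 2 := by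
          apply add_lt_add hn0
          rw [dist_eq_norm, sub_add_cancel_left, norm_neg]
          exact h1.trans_lt hK
      _ = r := by ring
  · have e2 : ((n0 + j * 2 ^ K : ℤ) • tv).2 = n0 • (th : S1) + j • ((2 ^ K * th : ℝ) : S1) := by
      have h3 : ((2 ^ K * th : ℝ) : S1) = (2 ^ K : ℤ) • (th : S1) := by
        rw [← AddCircle.coe_zsmul]
        congr 1
        simp
      rw [h3, smul_smul, ← add_smul]
      rfl
    simp only [e2]
    rw [dist_eq_norm] at hj ⊢
    rw [← sub_sub]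
    exact hj

lemma ergodic_tv : Ergodic (fun x => tv + x) mO := by
  unfold mO
  exact ergodic_add_left_of_denseRange_zsmul dense_tv _

/-! ### Phases -/

/-- the phase of a 2-adic integer -/
def ph (z : ℤ_[2]) (n : ℕ) : ℤ := (z.appr (kk n) : ℤ)

lemma comp_ph (z : ℤ_[2]) : Comp (ph z) := by
  intro n
  have h1 := z.dvd_appr_sub_appr (kk n) (kk (n + 1)) (kk_lt n).le
  have h2 := z.appr_mono (kk_lt n).le
  obtain ⟨t, ht⟩ := h1
  refine ⟨t, ?_⟩
  rw [ph, ph]
  have h3 : z.appr (kk (n + 1)) = z.appr (kk n) + 2 ^ kk n * t := by omega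
  rw [h3]
  push_cast
  ring

lemma dvd_ph (z : ℤ_[2]) (n : ℕ) : (2 : ℤ_[2]) ^ kk n ∣ z - (ph z n : ℤ) := by
  have := PadicInt.appr_spec (kk n) z
  rw [Ideal.mem_span_singleton] at this
  rw [ph]
  exact_mod_cast this

lemma rr_iff (z : ℤ_[2]) (n : ℕ) (k : ℤ) (j : ℕ) (hj : j < 2 ^ kk n) :
    rr (ph z) n k = j ↔ (2 : ℤ_[2]) ^ kk n ∣ z + ((k - j : ℤ) : ℤ_[2]) := by
  have h1 := dvd_ph z n
  have h2 : (2 : ℤ_[2]) ^ kk n ∣ z + ((k - j : ℤ) : ℤ_[2]) ↔ (2 ^ kk n : ℤ) ∣ (ph z n + k) - j := by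
    have h3 := PadicInt.pow_p_dvd_int_iff (p := 2) (kk n) (ph z n + k - j)
    rw [Nat.cast_ofNat, Nat.cast_ofNat] at h3
    rw [← h3]
    have h4 : z + ((k - j : ℤ) : ℤ_[2]) = (z - (ph z n : ℤ)) + ((ph z n + k - j : ℤ) : ℤ_[2]) := by
      push_cast; ring
    rw [h4]
    exact (dvd_add_right h1)
  rw [h2]
  have h5 := rr_cast (ph z) n k
  constructor
  · intro h
    rw [h] at h5
    rw [h5]
    exact Int.dvd_self_sub_emod
  · intro h
    have h6 : (j : ℤ) % 2 ^ kk n = (ph z n + k) % 2 ^ kk n := Int.modEq_iff_dvd.mpr h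
    have h7 : ((j : ℤ) % 2 ^ kk n) = j := Int.emod_eq_of_lt (by positivity) (by exact_mod_cast hj)
    rw [← h6, h7] at h5
    exact_mod_cast h5

lemma rr_shift (z : ℤ_[2]) (n : ℕ) (k : ℤ) : rr (ph (1 + z)) n k = rr (ph z) n (k + 1) := by
  rw [rr_iff _ _ _ _ (rr_lt _ _ _)]
  have h := (rr_iff z n (k + 1) _ (rr_lt (ph z) n (k + 1))).mp rfl
  convert h using 1
  push_cast
  ring

lemma measurableSet_rr (n : ℕ) (k : ℤ) (j : ℕ) : MeasurableSet {z : ℤ_[2] | rr (ph z) n k = j} := by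
  by_cases hj : j < 2 ^ kk n
  · have h1 : {z : ℤ_[2] | rr (ph z) n k = j} =
        (fun z => z + ((k - j : ℤ) : ℤ_[2])) ⁻¹' {z | ‖z‖ ≤ (2 : ℝ) ^ (-(kk n) : ℤ)} := by
      ext z
      rw [mem_preimage, mem_ofPred_eq, mem_ofPred_eq, rr_iff z n k j hj]
      have := PadicInt.norm_le_pow_iff_mem_span_pow (p := 2) (z + ((k - j : ℤ) : ℤ_[2])) (kk n)
      rw [Nat.cast_ofNat] at this
      rw [this, Ideal.mem_span_singleton]
      norm_num
    rw [h1]
    apply IsClosed.measurableSet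
    apply IsClosed.preimage (by fun_prop)
    exact isClosed_le continuous_norm continuous_const
  · have h1 : {z : ℤ_[2] | rr (ph z) n k = j} = ∅ := by
      ext z
      simp only [mem_ofPred_eq, mem_empty_iff_false, iff_false]
      intro h
      exact hj (h ▸ rr_lt _ _ _)
    rw [h1]
    exact MeasurableSet.empty

lemma measurable_rr (n : ℕ) (k : ℤ) : Measurable (fun z : ℤ_[2] => rr (ph z) n k) :=
  measurable_to_countable' (fun j => measurableSet_rr n k j)

/-! ### The equidistribution of residues -/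

lemma measure_rr (n : ℕ) (j : ℕ) (hj : j < 2 ^ kk n) :
    mu2 {z : ℤ_[2] | rr (ph z) n 0 = j} = mu2 {z : ℤ_[2] | rr (ph z) n 0 = 0} := by
  have h1 : {z : ℤ_[2] | rr (ph z) n 0 = j} =
      (fun z => ((-j : ℤ) : ℤ_[2]) + z) ⁻¹' {z : ℤ_[2] | rr (ph z) n 0 = 0} := by
    ext z
    rw [mem_preimage, mem_ofPred_eq, mem_ofPred_eq, rr_iff _ _ _ _ hj,
      rr_iff _ _ _ 0 (by positivity)]
    have : z + ((0 - (j : ℤ) : ℤ) : ℤ_[2]) = ((-j : ℤ) : ℤ_[2]) + z + ((0 - ((0 : ℕ) : ℤ) : ℤ) : ℤ_[2]) := by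
      push_cast; ring
    rw [this]
  rw [h1, measure_preimage_add]

lemma measure_rr_eq (n : ℕ) (j : ℕ) (hj : j < 2 ^ kk n) :
    mu2 {z : ℤ_[2] | rr (ph z) n 0 = j} = (2 ^ kk n : ENNReal)⁻¹ := by
  have h1 : mu2 (⋃ j ∈ Finset.range (2 ^ kk n), {z : ℤ_[2] | rr (ph z) n 0 = j}) =
      ∑ j ∈ Finset.range (2 ^ kk n), mu2 {z : ℤ_[2] | rr (ph z) n 0 = j} := by
    apply measure_biUnion_finset
    · intro i _ i' _ hne
      rw [Function.onFun, Set.disjoint_left]
      intro z hz hz'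
      rw [mem_ofPred_eq] at hz hz'
      exact hne (hz.symm.trans hz')
    · intro j _
      exact measurableSet_rr n 0 j
  have h2 : (⋃ j ∈ Finset.range (2 ^ kk n), {z : ℤ_[2] | rr (ph z) n 0 = j}) = univ := by
    ext z
    simp only [mem_iUnion, mem_ofPred_eq, mem_univ, iff_true, Finset.mem_range, exists_prop,
      exists_eq_right']
    exact rr_lt _ _ _
  rw [h2, measure_univ, Finset.sum_congr rfl (fun j hj => measure_rr n j (Finset.mem_range.mp hj)),
    Finset.sum_const, Finset.card_range, nsmul_eq_mul] at h1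
  rw [measure_rr n j hj]
  push_cast at h1
  have h3 : (2 ^ kk n : ENNReal) ≠ 0 := by positivity
  have h4 : (2 ^ kk n : ENNReal) ≠ ⊤ := by finiteness
  rw [← ENNReal.mul_right_inj h3 h4, ← h1, ENNReal.mul_inv_cancel h3 h4]

/-- the set of free phases -/
def Free : Set ℤ_[2] := {z | ∀ n, ee n ≤ rr (ph z) (n + 1) 0}

lemma measurableSet_Free : MeasurableSet Free := by
  have : Free = ⋂ n, {z | ee n ≤ rr (ph z) (n + 1) 0} := by ext z; simp [Free]
  rw [this]
  exact MeasurableSet.iInter fun n => measurableSet_le measurable_const (measurable_rr _ _)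

lemma measure_lt (n : ℕ) : mu2 {z | rr (ph z) (n + 1) 0 < ee n} ≤ (2 ^ (n + 2) : ENNReal)⁻¹ := by
  have h1 : {z | rr (ph z) (n + 1) 0 < ee n} =
      ⋃ j ∈ Finset.range (ee n), {z : ℤ_[2] | rr (ph z) (n + 1) 0 = j} := by
    ext z
    simp only [mem_iUnion, mem_ofPred_eq, Finset.mem_range, exists_prop, exists_eq_right']
  rw [h1]
  refine (measure_biUnion_finset_le _ _).trans ?_
  rw [Finset.sum_congr rfl (fun j hj => measure_rr_eq (n + 1) j
    ((Finset.mem_range.mp hj).trans_le (ee_le n))), Finset.sum_const, Finset.card_range,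
    nsmul_eq_mul]
  have h2 := ee_density n
  have h3 : (2 ^ kk (n + 1) : ENNReal) ≠ 0 := by positivity
  have h4 : (2 ^ kk (n + 1) : ENNReal) ≠ ⊤ := by finiteness
  have h5 : (2 ^ (n + 2) : ENNReal) ≠ 0 := by positivity
  have h6 : (2 ^ (n + 2) : ENNReal) ≠ ⊤ := by finiteness
  rw [← ENNReal.mul_le_mul_iff_left h5 h6, ENNReal.inv_mul_cancel h5 h6,
    ← ENNReal.mul_le_mul_iff_left h3 h4]
  have h7 : (ee n : ENNReal) * (2 ^ kk (n + 1))⁻¹ * 2 ^ (n + 2) * 2 ^ kk (n + 1) =
      (ee n * 2 ^ (n + 2) : ℕ) := by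
    push_cast
    calc (ee n : ENNReal) * (2 ^ kk (n + 1))⁻¹ * 2 ^ (n + 2) * 2 ^ kk (n + 1) =
        ee n * 2 ^ (n + 2) * ((2 ^ kk (n + 1))⁻¹ * 2 ^ kk (n + 1)) := by ring
      _ = _ := by rw [ENNReal.inv_mul_cancel h3 h4, mul_one]
  rw [h7, one_mul]
  exact_mod_cast h2

lemma measure_Free_pos : 0 < mu2 Free := by
  have h1 : mu2 Freeᶜ ≤ 2⁻¹ := by
    have h2 : Freeᶜ = ⋃ n, {z | rr (ph z) (n + 1) 0 < ee n} := by
      ext z
      simp [Free]
    rw [h2]
    refine (measure_iUnion_le _).trans ?_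
    refine (ENNReal.tsum_le_tsum measure_lt).trans ?_
    have h3 : ∀ n : ℕ, (2 ^ (n + 2) : ENNReal)⁻¹ = 2⁻¹ * (2⁻¹ ^ (n + 1)) := by
      intro n
      rw [ENNReal.inv_pow, pow_succ']
    simp only [h3]
    rw [ENNReal.tsum_mul_left, ENNReal.tsum_geometric_add_one, ENNReal.one_sub_inv_two, inv_inv,
      ENNReal.inv_mul_cancel (by norm_num) (by norm_num), mul_one]
  by_contra hc
  have h0 : mu2 Free = 0 := by simpa using hc
  have h2 := measure_add_measure_compl (μ := mu2) measurableSet_Free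
  rw [h0, zero_add, measure_univ] at h2
  rw [h2] at h1
  norm_num at h1

/-! ### The sequences -/

/-- an arc of length `c` -/
def arc (c : ℝ) : Set S1 := Metric.closedBall 0 (c / 2)

lemma measurableSet_arc (c : ℝ) : MeasurableSet (arc c) := Metric.isClosed_closedBall.measurableSet

lemma volume_arc {c : ℝ} (hc1 : c ≤ 1) : volume (arc c) = ENNReal.ofReal c := by
  rw [arc, AddCircle.volume_closedBall, mul_div_cancel₀ _ (two_ne_zero), min_eq_right hc1]

open Classical in
/-- free content -/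
def frr (c : ℝ) (t : S1) (k : ℤ) : Bool := decide (t + k • (th : S1) ∈ arc c)

lemma frr_iff (c : ℝ) (t : S1) (k : ℤ) : frr c t k = true ↔ t + k • (th : S1) ∈ arc c := by
  classical
  unfold frr
  simp only [decide_eq_true_eq]

/-- the coded sequence of a point of the base -/
def xc (c : ℝ) (ω : Om) : ℤ → Bool := xs (ph ω.1) (frr c ω.2)

lemma xc_mem (c : ℝ) (ω : Om) : xc c ω ∈ Kp := xs_mem (comp_ph _) _

lemma xc_shift (c : ℝ) (ω : Om) : xc c (tv + ω) = sh (xc c ω) := by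
  funext k
  rw [sh, xc, xc]
  have h1 : (tv + ω).1 = 1 + ω.1 := rfl
  have h2 : (tv + ω).2 = (th : S1) + ω.2 := rfl
  rw [h1, h2]
  by_cases h : ∃ n, rr (ph ω.1) (n + 1) (k + 1) < ee n
  · obtain ⟨n, hn⟩ := h
    rw [xs_header (comp_ph _) _ hn, xs_header (comp_ph _) _ (n := n) (by rw [rr_shift]; exact hn),
      rr_shift]
  · push Not at h
    rw [xs_free _ h, xs_free]
    · have h3 : frr c ((th : S1) + ω.2) k = true ↔ frr c ω.2 (k + 1) = true := by
        rw [frr_iff, frr_iff, add_smul, one_smul]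
        have : (th : S1) + ω.2 + k • (th : S1) = ω.2 + (k • (th : S1) + (th : S1)) := by abel
        rw [this]
      exact Bool.eq_iff_iff.mpr h3
    · intro n
      rw [rr_shift]
      exact h n

/-- header part of the event that the letter at `k` is `true` -/
def Hev (k : ℤ) : Set ℤ_[2] :=
  ⋃ n, {z | rr (ph z) (n + 1) k < ee n ∧ HH n (rr (ph z) (n + 1) k) = true}

lemma measurableSet_Hev (k : ℤ) : MeasurableSet (Hev k) := by
  apply MeasurableSet.iUnion
  intro n
  have h1 := measurable_rr (n + 1) k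
  have h2 : {z : ℤ_[2] | rr (ph z) (n + 1) k < ee n ∧ HH n (rr (ph z) (n + 1) k) = true} =
      (fun z => rr (ph z) (n + 1) k) ⁻¹' {j | j < ee n ∧ HH n j = true} := rfl
  rw [h2]
  exact h1 (MeasurableSet.of_discrete)

/-- free phases at `k` -/
def Fev (k : ℤ) : Set ℤ_[2] := {z | ∀ n, ee n ≤ rr (ph z) (n + 1) k}

lemma measurableSet_Fev (k : ℤ) : MeasurableSet (Fev k) := by
  have : Fev k = ⋂ n, {z | ee n ≤ rr (ph z) (n + 1) k} := by ext z; simp [Fev]
  rw [this]
  exact MeasurableSet.iInter fun n => measurableSet_le measurable_const (measurable_rr _ _)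

/-- times at which the free letter at `k` is `true` -/
def Aev (c : ℝ) (k : ℤ) : Set S1 := {t | frr c t k = true}

lemma measurableSet_Aev (c : ℝ) (k : ℤ) : MeasurableSet (Aev c k) := by
  have h : Aev c k = (fun t => t + k • (th : S1)) ⁻¹' arc c := by
    ext t
    rw [Aev, mem_ofPred_eq, frr_iff, mem_preimage]
  rw [h]
  have hc : Continuous (fun t : S1 => t + k • (th : S1)) := by fun_prop
  exact hc.measurable (measurableSet_arc c)

lemma event_eq (c : ℝ) (k : ℤ) : {ω | xc c ω k = true} =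
    (Hev k ×ˢ univ) ∪ (Fev k ×ˢ Aev c k) := by
  ext ⟨z, t⟩
  simp only [mem_ofPred_eq, mem_union, mem_prod, mem_univ, and_true]
  constructor
  · intro h
    by_cases h' : ∃ n, rr (ph z) (n + 1) k < ee n
    · obtain ⟨n, hn⟩ := h'
      left
      rw [xc, xs_header (comp_ph _) _ hn] at h
      exact mem_iUnion.mpr ⟨n, hn, h⟩
    · push Not at h'
      right
      rw [xc, xs_free _ h'] at h
      exact ⟨h', h⟩
  · rintro (h | ⟨h1, h2⟩)
    · obtain ⟨n, hn, hn'⟩ := mem_iUnion.mp h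
      rw [xc, xs_header (comp_ph _) _ hn]
      exact hn'
    · rw [xc, xs_free _ h1]
      exact h2

lemma measurable_xc (c : ℝ) : Measurable (xc c) := by
  rw [measurable_pi_iff]
  intro k
  apply measurable_to_bool
  have : (fun ω => xc c ω k) ⁻¹' {true} = {ω | xc c ω k = true} := rfl
  rw [this, event_eq]
  exact ((measurableSet_Hev k).prod MeasurableSet.univ).union
    ((measurableSet_Fev k).prod (measurableSet_Aev c k))

lemma measure_event {c : ℝ} (hc0 : 0 ≤ c) (hc1 : c ≤ 1) : (mO {ω | xc c ω 0 = true}).toReal =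
    (mu2 (Hev 0)).toReal + (mu2 Free).toReal * c := by
  have hA : Aev c 0 = arc c := by
    ext t
    rw [Aev, mem_ofPred_eq, frr_iff, zero_smul, add_zero]
  have hd : Disjoint (Hev 0 ×ˢ (univ : Set S1)) (Fev 0 ×ˢ Aev c 0) := by
    rw [Set.disjoint_left]
    rintro ⟨z, t⟩ ⟨h1, -⟩ ⟨h2, -⟩
    obtain ⟨n, hn, -⟩ := mem_iUnion.mp h1
    exact absurd (h2 n) (not_le.mpr hn)
  rw [event_eq, measure_union hd ((measurableSet_Fev 0).prod (measurableSet_Aev c 0)), mO,
    Measure.prod_prod, Measure.prod_prod, measure_univ, mul_one, hA, volume_arc hc1,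
    ENNReal.toReal_add (by finiteness) (by finiteness), ENNReal.toReal_mul,
    ENNReal.toReal_ofReal hc0]
  rfl

lemma measure_event_ne {c c' : ℝ} (hc0 : 0 ≤ c) (hc1 : c ≤ 1) (hc0' : 0 ≤ c') (hc1' : c' ≤ 1)
    (h : c ≠ c') : (mO {ω | xc c ω 0 = true}).toReal ≠ (mO {ω | xc c' ω 0 = true}).toReal := by
  rw [measure_event hc0 hc1, measure_event hc0' hc1']
  intro heq
  have h1 : (mu2 Free).toReal ≠ 0 := by
    rw [ENNReal.toReal_ne_zero]
    exact ⟨measure_Free_pos.ne', measure_ne_top _ _⟩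
  exact h (mul_left_cancel₀ h1 (add_left_cancel heq))

end Pool.Agent.Helper289.Odo
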