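import Pool.Agent.Helper289.Torus
import Pool.Agent.Helper289.Curr

/-! Periodisation: functions on `X` from cut-off functions and functions on the torus. -/

open Set Topology
open scoped Manifold ContDiff

attribute [-instance] TopCat.of.chartedSpace

noncomputable section

namespace Pool.Agent.Helper289.Per

open Pool.Agent.Helper289.Base Pool.Agent.Helper289.Quot
open Pool.Agent.Helper289.LamX Pool.Agent.Helper289.Torus Pool.Agent.Helper289.Forms

/-! ### Counting -/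

lemma count {a b : ℝ} (ha : 0 < a) {N : ℕ} (hN : b < a * al ^ N) {y : ℝ} (hy : 0 < y) :
    ∃ n0 : ℤ, ∀ n : ℤ, a ≤ al ^ n * y → al ^ n * y ≤ b → n ∈ Finset.Ico n0 (n0 + N) := by
  obtain ⟨n, h1, h2⟩ := exists_mem_Ioc_zpow (div_pos ha hy) one_lt_al
  refine ⟨n + 1, fun k hk1 hk2 => ?_⟩
  rw [Finset.mem_Ico]
  constructor
  · have h3 : a / y ≤ al ^ k := by rw [div_le_iff₀ hy]; exact hk1
    have h4 := h1.trans_le h3
    have := (zpow_lt_zpow_iff_right₀ one_lt_al).mp h4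
    omega
  · have h3 : a ≤ al ^ (n + 1) * y := by rw [div_le_iff₀ hy] at h2; exact h2
    have h4 : al ^ k * y < al ^ (n + 1 + N : ℤ) * y := by
      calc al ^ k * y ≤ b := hk2
        _ < a * al ^ N := hN
        _ ≤ (al ^ (n + 1) * y) * al ^ N :=
          mul_le_mul_of_nonneg_right h3 (pow_pos al_pos N).le
        _ = al ^ (n + 1 + N : ℤ) * y := by
          rw [zpow_add₀ al_ne (n + 1) N, zpow_natCast]; ring
    have h5 := lt_of_mul_lt_mul_right h4 hy.le
    exact (zpow_lt_zpow_iff_right₀ one_lt_al).mp h5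

lemma exists_N {a : ℝ} (ha : 0 < a) (b : ℝ) : ∃ N : ℕ, b < a * al ^ N := by
  obtain ⟨N, hN⟩ := pow_unbounded_of_one_lt (b / a) one_lt_al
  refine ⟨N, ?_⟩
  rw [div_lt_iff₀ ha] at hN
  linarith

lemma loc_fin {a : ℝ} (ha : 0 < a) (b : ℝ) {y0 : ℝ} (hy0 : 0 < y0) :
    ∃ s : Finset ℤ, ∀ y ∈ Ioo (y0 / al) (y0 * al), ∀ n : ℤ, a ≤ al ^ n * y → al ^ n * y ≤ b →
      n ∈ s := by
  have hal := al_pos
  obtain ⟨N, hN⟩ := exists_N (div_pos ha hal) (b * al)
  obtain ⟨n0, hn0⟩ := count (div_pos ha hal) hN hy0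
  refine ⟨_, fun y hy n h1 h2 => hn0 n ?_ ?_⟩
  · rw [div_le_iff₀ hal]
    have h3 : 0 < al ^ n := zpow_pos hal n
    calc a ≤ al ^ n * y := h1
      _ ≤ al ^ n * (y0 * al) := mul_le_mul_of_nonneg_left hy.2.le h3.le
      _ = al ^ n * y0 * al := by ring
  · have h3 : 0 < al ^ n := zpow_pos hal n
    have h4 : y0 < y * al := by
      have := hy.1
      rwa [div_lt_iff₀ hal] at this
    calc al ^ n * y0 ≤ al ^ n * (y * al) := mul_le_mul_of_nonneg_left h4.le h3.le
      _ = (al ^ n * y) * al := by ring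
      _ ≤ b * al := mul_le_mul_of_nonneg_right h2 hal.le

lemma near_im {v : E4} (hv : v ∈ D) : ∀ᶠ u in 𝓝 v, u ∈ D ∧ u.1.im ∈ Ioo (v.1.im / al) (v.1.im * al) := by
  have hv' : 0 < v.1.im := hv
  have hal := one_lt_al
  have hal' := al_pos
  have h1 : v.1.im ∈ Ioo (v.1.im / al) (v.1.im * al) := by
    constructor
    · rw [div_lt_iff₀ hal']; nlinarith
    · nlinarith
  have hc : Continuous (fun u : E4 => u.1.im) := Complex.continuous_im.comp continuous_fst
  filter_upwards [isOpen_D.mem_nhds hv, hc.continuousAt.preimage_mem_nhds (Ioo_mem_nhds h1.1 h1.2)]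
    with u hu1 hu2
  exact ⟨hu1, hu2⟩

/-- smooth functions with compact support in the positive half line -/
def Cut : Submodule ℝ (ℝ → ℝ) where
  carrier := {f | ContDiff ℝ ∞ f ∧ ∃ a b : ℝ, 0 < a ∧ ∀ y, f y ≠ 0 → a ≤ y ∧ y ≤ b}
  add_mem' := by
    rintro f f' ⟨h1, a, b, ha, hf⟩ ⟨h1', a', b', ha', hf'⟩
    refine ⟨h1.add h1', min a a', max b b', lt_min ha ha', ?_⟩
    intro y hy
    by_cases h : f y = 0
    · have h' : f' y ≠ 0 := by
        intro h'; apply hy; rw [Pi.add_apply, h, h', add_zero]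
      exact ⟨(min_le_right _ _).trans (hf' y h').1, (hf' y h').2.trans (le_max_right _ _)⟩
    · exact ⟨(min_le_left _ _).trans (hf y h).1, (hf y h).2.trans (le_max_left _ _)⟩
  zero_mem' := ⟨contDiff_const, 1, 1, one_pos, fun y h => absurd rfl h⟩
  smul_mem' := by
    rintro c f ⟨h1, a, b, ha, hf⟩
    refine ⟨contDiff_const.smul h1, a, b, ha, fun y hy => hf y ?_⟩
    intro h
    apply hy
    rw [Pi.smul_apply, h, smul_zero]

/-- the term of index `0` in the periodisation -/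
def Phi (F : ℝ → ℝ) (κ : T7 → ℝ) (v : E4) : ℝ := F v.1.im * κ (cl v)

lemma Phi_add (F : ℝ → ℝ) (κ : T7 → ℝ) (v : E4) {l : E4} (hl : l ∈ Lam) :
    Phi F κ (v + l) = Phi F κ v := by
  rw [Phi, Phi, cl_add v hl, Prod.fst_add, Complex.add_im, Lam_im hl, add_zero]

lemma Phi_gz (F : ℝ → ℝ) (κ : T7 → ℝ) (n : ℤ) (v : E4) :
    Phi F κ ((g ^ n) v) = F (al ^ n * v.1.im) * κ ((GP ^ n) (cl v)) := by
  rw [Phi, cl_gz, gz_im]

/-- periodisation -/
def Pf (F : ℝ → ℝ) (κ : T7 → ℝ) (v : E4) : ℝ := ∑' n : ℤ, Phi F κ ((g ^ n) v)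

lemma Pf_inv (F : ℝ → ℝ) (κ : T7 → ℝ) (n : ℤ) (v : E4) {l : E4} (hl : l ∈ Lam) :
    Pf F κ ((g ^ n) v + l) = Pf F κ v := by
  unfold Pf
  rw [← (Equiv.addRight n).tsum_eq (fun m : ℤ => Phi F κ ((g ^ m) v))]
  congr 1
  funext m
  rw [Equiv.coe_addRight, map_add, ← gz_add, Phi_add _ _ _ (gz_mem_Lam m hl)]

lemma Pf_rep (F : ℝ → ℝ) (κ : T7 → ℝ) {v : E4} (hv : v ∈ D) :
    Pf F κ (rep (ppi v)) = Pf F κ v := by
  obtain ⟨n, l, hl, hr⟩ := exists_rep hv
  rw [hr, Pf_inv _ _ _ _ hl]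

lemma Phi_ne {F : ℝ → ℝ} {κ : T7 → ℝ} {a b : ℝ} (hF : ∀ y, F y ≠ 0 → a ≤ y ∧ y ≤ b) {n : ℤ}
    {v : E4} (h : Phi F κ ((g ^ n) v) ≠ 0) : a ≤ al ^ n * v.1.im ∧ al ^ n * v.1.im ≤ b := by
  rw [Phi_gz] at h
  exact hF _ (left_ne_zero_of_mul h)

lemma summ_Phi {F : ℝ → ℝ} (hF : F ∈ Cut) (κ : T7 → ℝ) {v : E4} (hv : v ∈ D) :
    Summable (fun n : ℤ => Phi F κ ((g ^ n) v)) := by
  obtain ⟨-, a, b, ha, hF⟩ := hF
  obtain ⟨N, hN⟩ := exists_N ha b
  obtain ⟨n0, hn0⟩ := count ha hN hv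
  apply summable_of_ne_finset_zero (s := Finset.Ico n0 (n0 + N))
  intro n hn
  by_contra h
  exact hn (hn0 n (Phi_ne hF h).1 (Phi_ne hF h).2)

lemma Pf_eventually {F : ℝ → ℝ} (hF : F ∈ Cut) (κ : T7 → ℝ) {v : E4} (hv : v ∈ D) :
    ∃ s : Finset ℤ, ∀ᶠ u in 𝓝 v, Pf F κ u = ∑ n ∈ s, Phi F κ ((g ^ n) u) := by
  obtain ⟨-, a, b, ha, hF⟩ := hF
  obtain ⟨s, hs⟩ := loc_fin ha b hv
  refine ⟨s, ?_⟩
  filter_upwards [near_im hv] with u hu
  apply tsum_eq_sum
  intro n hn
  by_contra h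
  exact hn (hs _ hu.2 n (Phi_ne hF h).1 (Phi_ne hF h).2)

lemma continuous_Phi {F : ℝ → ℝ} (hF : F ∈ Cut) (κ : C(T7, ℝ)) : Continuous (Phi F κ) := by
  have h1 : Continuous F := hF.1.continuous
  have h2 : Continuous (fun u : E4 => u.1.im) := Complex.continuous_im.comp continuous_fst
  exact (h1.comp h2).mul (κ.continuous.comp continuous_cl)

lemma continuousOn_Pf {F : ℝ → ℝ} (hF : F ∈ Cut) (κ : C(T7, ℝ)) : ContinuousOn (Pf F κ) D := by
  intro v hv
  obtain ⟨s, hs⟩ := Pf_eventually hF κ hv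
  have h1 : Continuous (fun u : E4 => ∑ n ∈ s, Phi F κ ((g ^ n) u)) := by
    apply continuous_finsetSum
    intro n _
    exact (continuous_Phi hF κ).comp (g ^ n).continuous
  exact (h1.continuousAt.congr (hs.mono fun u hu => hu.symm)).continuousWithinAt

/-- periodisation as a function on `X` -/
def P (F : Cut) (κ : C(T7, ℝ)) : C(X, ℝ) where
  toFun x := Pf F.1 κ (rep x)
  continuous_toFun := by
    apply continuous_of_comp_ppi
    exact (continuousOn_Pf F.2 κ).congr (fun v hv => Pf_rep _ _ hv)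

lemma P_ppi (F : Cut) (κ : C(T7, ℝ)) {v : E4} (hv : v ∈ D) : P F κ (ppi v) = Pf F.1 κ v :=
  Pf_rep _ _ hv

lemma P_add_right (F : Cut) (κ κ' : C(T7, ℝ)) : P F (κ + κ') = P F κ + P F κ' := by
  ext x
  obtain ⟨v, hv, rfl⟩ := ppi_surjective x
  rw [ContinuousMap.add_apply, P_ppi _ _ hv, P_ppi _ _ hv, P_ppi _ _ hv, Pf, Pf, Pf,
    ← (summ_Phi F.2 κ hv).tsum_add (summ_Phi F.2 κ' hv)]
  congr 1
  funext n
  rw [Phi, Phi, Phi, ContinuousMap.add_apply]
  ring

lemma P_smul_right (F : Cut) (c : ℝ) (κ : C(T7, ℝ)) : P F (c • κ) = c • P F κ := by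
  ext x
  obtain ⟨v, hv, rfl⟩ := ppi_surjective x
  rw [ContinuousMap.smul_apply, P_ppi _ _ hv, P_ppi _ _ hv, Pf, Pf, smul_eq_mul, ← tsum_mul_left]
  congr 1
  funext n
  rw [Phi, Phi, ContinuousMap.smul_apply, smul_eq_mul]
  ring

lemma P_add_left (F F' : Cut) (κ : C(T7, ℝ)) : P (F + F') κ = P F κ + P F' κ := by
  ext x
  obtain ⟨v, hv, rfl⟩ := ppi_surjective x
  rw [ContinuousMap.add_apply, P_ppi _ _ hv, P_ppi _ _ hv, P_ppi _ _ hv, Pf, Pf, Pf,
    ← (summ_Phi F.2 κ hv).tsum_add (summ_Phi F'.2 κ hv)]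
  congr 1
  funext n
  rw [Phi, Phi, Phi, Submodule.coe_add, Pi.add_apply]
  ring

lemma P_smul_left (c : ℝ) (F : Cut) (κ : C(T7, ℝ)) : P (c • F) κ = c • P F κ := by
  ext x
  obtain ⟨v, hv, rfl⟩ := ppi_surjective x
  rw [ContinuousMap.smul_apply, P_ppi _ _ hv, P_ppi _ _ hv, Pf, Pf, smul_eq_mul, ← tsum_mul_left]
  congr 1
  funext n
  rw [Phi, Phi, Submodule.coe_smul, Pi.smul_apply, smul_eq_mul]
  ring

/-- periodisation as a linear map in the second variable -/
def PL (F : Cut) : C(T7, ℝ) →ₗ[ℝ] C(X, ℝ) where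
  toFun := P F
  map_add' := P_add_right F
  map_smul' := P_smul_right F

lemma P_nonneg {F : Cut} (hF : ∀ y, 0 ≤ F.1 y) {κ : C(T7, ℝ)} (hκ : ∀ σ, 0 ≤ κ σ) (x : X) :
    0 ≤ P F κ x := by
  obtain ⟨v, hv, rfl⟩ := ppi_surjective x
  rw [P_ppi _ _ hv]
  exact tsum_nonneg (fun n => mul_nonneg (hF _) (hκ _))

lemma P_bound {F : Cut} {M a b : ℝ} {N : ℕ} (hF : ∀ y, |F.1 y| ≤ M) (ha : 0 < a)
    (hs : ∀ y, F.1 y ≠ 0 → a ≤ y ∧ y ≤ b) (hN : b < a * al ^ N) (κ : C(T7, ℝ)) (x : X) :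
    |P F κ x| ≤ N * M * ‖κ‖ := by
  obtain ⟨v, hv, rfl⟩ := ppi_surjective x
  rw [P_ppi _ _ hv]
  obtain ⟨n0, hn0⟩ := count ha hN hv
  have h1 : Pf F.1 κ v = ∑ n ∈ Finset.Ico n0 (n0 + N), Phi F.1 κ ((g ^ n) v) := by
    apply tsum_eq_sum
    intro n hn
    by_contra h
    exact hn (hn0 n (Phi_ne hs h).1 (Phi_ne hs h).2)
  rw [h1]
  refine (Finset.abs_sum_le_sum_abs _ _).trans ?_
  have h2 : ∀ n ∈ Finset.Ico n0 (n0 + N), |Phi F.1 κ ((g ^ n) v)| ≤ M * ‖κ‖ := by
    intro n _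
    rw [Phi, abs_mul]
    have h3 := κ.norm_coe_le_norm (cl ((g ^ n) v))
    rw [Real.norm_eq_abs] at h3
    exact mul_le_mul (hF _) h3 (abs_nonneg _) ((abs_nonneg _).trans (hF 0))
  refine (Finset.sum_le_card_nsmul _ _ _ h2).trans ?_
  rw [Int.card_Ico, nsmul_eq_mul, add_sub_cancel_left, Int.toNat_natCast]
  linarith

lemma exists_bound (F : Cut) : ∃ M, 0 ≤ M ∧ ∀ y, |F.1 y| ≤ M := by
  obtain ⟨h1, a, b, ha, hs⟩ := F.2
  obtain ⟨C, hC⟩ := isCompact_Icc.exists_bound_of_continuousOn (s := Icc a b)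
    (h1.continuous.continuousOn)
  refine ⟨max C 0, le_max_right _ _, fun y => ?_⟩
  by_cases h : F.1 y = 0
  · rw [h, abs_zero]; exact le_max_right _ _
  · have := hC y (hs y h)
    rw [Real.norm_eq_abs] at this
    exact this.trans (le_max_left _ _)

lemma exists_P_bound (F : Cut) : ∃ C, ∀ κ : C(T7, ℝ), ‖P F κ‖ ≤ C * ‖κ‖ := by
  obtain ⟨M, hM0, hM⟩ := exists_bound F
  obtain ⟨-, a, b, ha, hs⟩ := F.2
  obtain ⟨N, hN⟩ := exists_N ha b
  refine ⟨N * M, fun κ => ?_⟩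
  rw [ContinuousMap.norm_le _ (by positivity)]
  intro x
  rw [Real.norm_eq_abs]
  exact P_bound hM ha hs hN κ x

/-! ### Products -/

/-- `y ↦ F y * F' (α^j y)` -/
def mulS (F F' : Cut) (j : ℤ) : Cut :=
  ⟨fun y => F.1 y * F'.1 (al ^ j * y), by
    obtain ⟨h1, a, b, ha, hs⟩ := F.2
    refine ⟨?_, a, b, ha, fun y hy => hs y (left_ne_zero_of_mul hy)⟩
    have h2 := F'.2.1
    fun_prop⟩

lemma exists_J (F F' : Cut) : ∃ J : Finset ℤ, ∀ j ∉ J, ∀ y, F.1 y * F'.1 (al ^ j * y) = 0 := by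
  obtain ⟨-, a, b, ha, hs⟩ := F.2
  obtain ⟨-, a', b', ha', hs'⟩ := F'.2
  by_cases hb : 0 < b
  · obtain ⟨N, hN⟩ := exists_N (div_pos ha' hb) (b' / a)
    obtain ⟨n0, hn0⟩ := count (div_pos ha' hb) hN one_pos
    refine ⟨Finset.Ico n0 (n0 + N), fun j hj y => ?_⟩
    by_contra h
    have h1 := hs y (left_ne_zero_of_mul h)
    have h2 := hs' _ (right_ne_zero_of_mul h)
    have h3 : 0 < al ^ j := zpow_pos al_pos j
    apply hj
    apply hn0
    · rw [mul_one, div_le_iff₀ hb]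
      exact h2.1.trans (mul_le_mul_of_nonneg_left h1.2 h3.le)
    · rw [mul_one, le_div_iff₀ ha]
      exact (mul_le_mul_of_nonneg_left h1.1 h3.le).trans h2.2
  · refine ⟨∅, fun j _ y => ?_⟩
    by_contra h
    have h1 := hs y (left_ne_zero_of_mul h)
    exact hb (ha.trans_le (h1.1.trans h1.2))

lemma P_mul (F F' : Cut) (κ κ' : C(T7, ℝ)) : ∃ J : Finset ℤ,
    P F κ * P F' κ' = ∑ j ∈ J, P (mulS F F' j) (κ * κ'.comp (GPc j)) := by
  obtain ⟨J, hJ⟩ := exists_J F F'
  refine ⟨J, ?_⟩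
  ext x
  obtain ⟨v, hv, rfl⟩ := ppi_surjective x
  rw [ContinuousMap.mul_apply, ContinuousMap.sum_apply, P_ppi _ _ hv, P_ppi _ _ hv]
  have h0 : ∀ j : ℤ, ∀ n : ℤ,
      Phi (mulS F F' j).1 (κ * κ'.comp (GPc j) : C(T7, ℝ)) ((g ^ n) v) =
      Phi F.1 κ ((g ^ n) v) * Phi F'.1 κ' ((g ^ (j + n)) v) := by
    intro j n
    rw [gz_add, Phi, Phi, Phi, cl_gz j, gz_im j]
    have : (κ * κ'.comp (GPc j)) (cl ((g ^ n) v)) =
      κ (cl ((g ^ n) v)) * κ' ((GP ^ j) (cl ((g ^ n) v))) := rfl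
    rw [this]
    simp only [mulS]
    ring
  have h1 : ∀ j ∈ J, P (mulS F F' j) (κ * κ'.comp (GPc j)) (ppi v) =
      ∑' n : ℤ, Phi F.1 κ ((g ^ n) v) * Phi F'.1 κ' ((g ^ (j + n)) v) := by
    intro j _
    rw [P_ppi _ _ hv, Pf]
    congr 1
    funext n
    exact h0 j n
  rw [Finset.sum_congr rfl h1]
  have h2 : ∀ j ∈ J, Summable (fun n : ℤ => Phi F.1 κ ((g ^ n) v) * Phi F'.1 κ' ((g ^ (j + n)) v)) := by
    intro j _
    have := summ_Phi (mulS F F' j).2 (κ * κ'.comp (GPc j) : C(T7, ℝ)) hv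
    exact (funext (h0 j)) ▸ this
  rw [← Summable.tsum_finsetSum h2, Pf, Pf, ← tsum_mul_right]
  congr 1
  funext n
  rw [← (Equiv.addRight n).tsum_eq (fun m : ℤ => Phi F'.1 κ' ((g ^ m) v)), ← tsum_mul_left]
  simp only [Equiv.coe_addRight]
  apply tsum_eq_sum
  intro j hj
  rw [gz_add, Phi, Phi, gz_im j]
  have := hJ j hj ((g ^ n) v).1.im
  calc _ = F.1 ((g ^ n) v).1.im * F'.1 (al ^ j * ((g ^ n) v).1.im) *
        (κ (cl ((g ^ n) v)) * κ' (cl ((g ^ j) ((g ^ n) v)))) := by ring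
    _ = 0 := by rw [this, zero_mul]

/-! ### A partition of unity -/

/-- smooth step -/
def stp (y : ℝ) : ℝ := Real.smoothTransition (y - 1)

lemma stp_zero {y : ℝ} (h : y ≤ 1) : stp y = 0 := Real.smoothTransition.zero_of_nonpos (by linarith)
lemma stp_one {y : ℝ} (h : 2 ≤ y) : stp y = 1 := Real.smoothTransition.one_of_one_le (by linarith)
lemma stp_mono : Monotone stp := fun x y h => Real.smoothTransition.monotone (by linarith)
lemma contDiff_stp : ContDiff ℝ ∞ stp := by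
  have : ContDiff ℝ ∞ Real.smoothTransition := Real.smoothTransition.contDiff
  unfold stp
  fun_prop

/-- partition of unity for multiplication by `α` -/
def chi : Cut :=
  ⟨fun y => stp y - stp (y / al), by
    refine ⟨?_, 1, 2 * al, one_pos, fun y hy => ?_⟩
    · have := contDiff_stp
      fun_prop
    · have hal := al_pos
      have hal1 := one_lt_al
      by_contra h
      rw [not_and_or, not_le, not_le] at h
      apply hy
      simp only
      rcases h with h | h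
      · rw [stp_zero h.le, stp_zero, sub_self]
        rw [div_le_iff₀ hal]; linarith
      · rw [stp_one (by nlinarith), stp_one, sub_self]
        rw [le_div_iff₀ hal]; linarith⟩

lemma chi_apply (y : ℝ) : chi.1 y = stp y - stp (y / al) := rfl

lemma chi_nonneg (y : ℝ) : 0 ≤ chi.1 y := by
  rw [chi_apply]
  by_cases h : 0 ≤ y
  · have : stp (y / al) ≤ stp y := stp_mono (div_le_self h one_lt_al.le)
    linarith
  · push Not at h
    rw [stp_zero (by linarith), stp_zero, sub_self]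
    rw [div_le_iff₀ al_pos]
    have := al_pos
    linarith

lemma chi_sum {y : ℝ} (hy : 0 < y) : ∑' n : ℤ, chi.1 (al ^ n * y) = 1 := by
  have hal := al_pos
  obtain ⟨n1, h1, h1'⟩ := exists_mem_Ico_zpow (one_div_pos.mpr hy) one_lt_al
  have hn1 : al ^ n1 * y ≤ 1 := by rwa [le_div_iff₀ hy] at h1
  obtain ⟨N, hN⟩ := exists_N (mul_pos (zpow_pos hal n1) hy) 2
  have hstep : ∀ n : ℤ, chi.1 (al ^ n * y) = stp (al ^ n * y) - stp (al ^ (n - 1) * y) := by
    intro n
    rw [chi_apply, zpow_sub_one₀ al_ne]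
    congr 2
    field_simp
  let e : ℕ ↪ ℤ := ⟨fun i => n1 + 1 + i, fun i j h => by simpa using h⟩
  have he : ∀ i, e i = n1 + 1 + i := fun _ => rfl
  rw [tsum_eq_sum (s := (Finset.range N).map e), Finset.sum_map]
  · have h2 : ∀ i ∈ Finset.range N, chi.1 (al ^ (e i) * y) =
        stp (al ^ (n1 + (i + 1 : ℕ)) * y) - stp (al ^ (n1 + (i : ℕ)) * y) := by
      intro i _
      rw [hstep, he]
      congr 3
      · congr 1; push_cast; ring
      · congr 1; ring
    rw [Finset.sum_congr rfl h2, Finset.sum_range_sub (fun i : ℕ => stp (al ^ (n1 + (i : ℕ)) * y))]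
    rw [Nat.cast_zero, add_zero, stp_zero hn1, sub_zero]
    apply stp_one
    rw [zpow_add₀ al_ne, zpow_natCast]
    linarith
  · intro n hn
    rw [hstep]
    rcases le_or_gt n n1 with h | h
    · have h3 : al ^ n * y ≤ 1 :=
        (mul_le_mul_of_nonneg_right (zpow_le_zpow_right₀ one_lt_al.le h) hy.le).trans hn1
      have h4 : al ^ (n - 1) * y ≤ 1 :=
        (mul_le_mul_of_nonneg_right (zpow_le_zpow_right₀ one_lt_al.le (by omega)) hy.le).trans hn1
      rw [stp_zero h3, stp_zero h4, sub_self]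
    · have h5 : n1 + N ≤ n - 1 := by
        by_contra h6
        push Not at h6
        apply hn
        rw [Finset.mem_map]
        refine ⟨(n - n1 - 1).toNat, ?_, ?_⟩
        · rw [Finset.mem_range]; omega
        · rw [he]; omega
      have h7 : ∀ k : ℤ, n1 + N ≤ k → 2 ≤ al ^ k * y := by
        intro k hk
        have h8 : al ^ (n1 + N : ℤ) * y ≤ al ^ k * y :=
          mul_le_mul_of_nonneg_right (zpow_le_zpow_right₀ one_lt_al.le hk) hy.le
        rw [zpow_add₀ al_ne, zpow_natCast] at h8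
        linarith
      rw [stp_one (h7 _ h5), stp_one (h7 n (by omega)), sub_self]

lemma P_chi_one : P chi 1 = 1 := by
  ext x
  obtain ⟨v, hv, rfl⟩ := ppi_surjective x
  rw [P_ppi _ _ hv, ContinuousMap.one_apply]
  refine Eq.trans ?_ (chi_sum hv)
  rw [Pf]
  congr 1
  funext n
  rw [Phi_gz, ContinuousMap.one_apply, mul_one]

/-! ### Separation of points -/

lemma exists_bump {y δ : ℝ} (hδ : 0 < δ) (hy : δ < y) :
    ∃ F : Cut, (∀ z, 0 ≤ F.1 z) ∧ F.1 y = 1 ∧ ∀ z, δ ≤ |z - y| → F.1 z = 0 := by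
  let f : ContDiffBump y := ⟨δ / 2, δ, by linarith, by linarith⟩
  refine ⟨⟨f, f.contDiff, y - δ, y + δ, by linarith, ?_⟩, fun z => f.nonneg, ?_, ?_⟩
  · intro z hz
    by_contra h
    apply hz
    apply f.zero_of_le_dist
    change δ ≤ dist z y
    rw [Real.dist_eq]
    rw [not_and_or, not_le, not_le] at h
    rcases h with h | h
    · rw [abs_sub_comm]; exact le_trans (by linarith) (le_abs_self _)
    · exact le_trans (by linarith) (le_abs_self _)
  · exact f.one_of_mem_closedBall (Metric.mem_closedBall_self (by change 0 ≤ δ / 2; linarith))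
  · intro z hz
    apply f.zero_of_le_dist
    change δ ≤ dist z y
    rwa [Real.dist_eq]

lemma eq_of_cl_eq {v v' : E4} (hv : v ∈ D) (h1 : v.1.im = v'.1.im) (h2 : cl v = cl v') :
    ppi v = ppi v' := by
  obtain ⟨m, k, h⟩ := exists_of_q7_eq h2
  have h3 : co v' = co (v + pt (0, i3 m, i4 k)) := by
    rw [co_add, co_pt]
    refine Prod.ext ?_ ?_
    · rw [co_fst, Prod.fst_add, co_fst, add_zero, h1]
    · rw [h]; rfl
  have h4 := co_injective h3
  have hl : pt (0, i3 m, i4 k) ∈ Lam := ⟨m, k, co_pt _⟩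
  rw [h4, ppi_add hv hl]

lemma P_separates (x x' : X) (h : ∀ (F : Cut) (κ : C(T7, ℝ)), P F κ x = P F κ x') : x = x' := by
  obtain ⟨v, hv, rfl⟩ := ppi_surjective x
  obtain ⟨v0, hv0, rfl⟩ := ppi_surjective x'
  have hv' : 0 < v.1.im := hv
  have hv0' : 0 < v0.1.im := hv0
  have hal := al_pos
  have hal1 := one_lt_al
  obtain ⟨n, hn1, hn2⟩ := exists_mem_Ico_zpow (div_pos hv' hv0') one_lt_al
  -- replace the second representative
  set v' := (g ^ (n + 1)) v0 with hv'def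
  have hppi : ppi v' = ppi v0 := ppi_gz (n + 1) hv0
  have hv'D : v' ∈ D := gz_mem_D _ hv0
  rw [← hppi] at h ⊢
  have him : v'.1.im = al ^ (n + 1) * v0.1.im := gz_im _ _
  have hlt : v.1.im < v'.1.im := by
    rw [him]; rwa [div_lt_iff₀ hv0'] at hn2
  have hle : v'.1.im ≤ al * v.1.im := by
    rw [him, zpow_add_one₀ al_ne]
    rw [le_div_iff₀ hv0'] at hn1
    nlinarith
  set y := v.1.im with hy
  set y' := v'.1.im with hy'
  rcases lt_or_eq_of_le hle with hlt2 | heq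
  · -- different heights
    exfalso
    set δ := min (y' - y) (y - y' / al) with hδ
    have hq : y' / al < y := by rw [div_lt_iff₀ hal]; linarith
    have hq0 : 0 < y' / al := div_pos (hv'.trans hlt) hal
    have hδ0 : 0 < δ := lt_min (by linarith) (by linarith)
    have hδy : δ < y := (min_le_right _ _).trans_lt (by linarith)
    obtain ⟨F, hF0, hF1, hFs⟩ := exists_bump hδ0 hδy
    have h1 := h F 1
    rw [P_ppi _ _ hv, P_ppi _ _ hv'D] at h1
    have h2 : Pf F.1 (1 : C(T7, ℝ)) v' = 0 := by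
      rw [Pf]
      have : ∀ n : ℤ, Phi F.1 (1 : C(T7, ℝ)) ((g ^ n) v') = 0 := by
        intro n
        rw [Phi_gz, hFs, zero_mul]
        rcases lt_or_ge n 0 with hn | hn
        · have h3 : al ^ n * y' ≤ y' / al := by
            have : al ^ n ≤ al ^ (-1 : ℤ) := zpow_le_zpow_right₀ hal1.le (by omega)
            calc al ^ n * y' ≤ al ^ (-1 : ℤ) * y' := mul_le_mul_of_nonneg_right this (by linarith)
              _ = y' / al := by rw [zpow_neg_one]; field_simp
          rw [abs_sub_comm]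
          refine le_trans ?_ (le_abs_self _)
          exact (min_le_right _ _).trans (by linarith)
        · have h3 : y' ≤ al ^ n * y' := by
            have : 1 ≤ al ^ n := one_le_zpow₀ hal1.le hn
            nlinarith
          refine le_trans ?_ (le_abs_self _)
          exact (min_le_left _ _).trans (by linarith)
      simp only [this, tsum_zero]
    have h3 : 1 ≤ Pf F.1 (1 : C(T7, ℝ)) v := by
      have h4 := (summ_Phi F.2 (1 : C(T7, ℝ)) hv).le_tsum 0 (fun n _ => by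
        rw [Phi_gz]; exact mul_nonneg (hF0 _) zero_le_one)
      rw [Phi_gz, zpow_zero, one_mul, hF1, one_mul] at h4
      exact h4
    linarith
  · -- same height, after one more application of the generator
    set v'' := (g ^ (-1 : ℤ)) v' with hv''
    have hv''D : v'' ∈ D := gz_mem_D _ hv'D
    have hp2 : ppi v'' = ppi v' := ppi_gz (-1) hv'D
    rw [← hp2] at h ⊢
    have him2 : v''.1.im = y := by
      rw [hv'', gz_im, zpow_neg_one, ← hy', heq]
      field_simp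
    set δ := min (y - y / al) (y * al - y) with hδ
    have hq : y / al < y := by rw [div_lt_iff₀ hal]; nlinarith
    have hq0 : 0 < y / al := div_pos hv' hal
    have hδ0 : 0 < δ := lt_min (by linarith) (by nlinarith)
    have hδy : δ < y := (min_le_left _ _).trans_lt (by linarith)
    obtain ⟨F, hF0, hF1, hFs⟩ := exists_bump hδ0 hδy
    have key : ∀ u : E4, u.1.im = y → ∀ κ : C(T7, ℝ), Pf F.1 κ u = κ (cl u) := by
      intro u hu κ
      rw [Pf, tsum_eq_single 0]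
      · rw [Phi_gz, zpow_zero, one_mul, hu, hF1, one_mul]; rfl
      · intro n hn
        rw [Phi_gz, hu, hFs, zero_mul]
        rcases lt_or_gt_of_ne hn with hn | hn
        · have h3 : al ^ n * y ≤ y / al := by
            have : al ^ n ≤ al ^ (-1 : ℤ) := zpow_le_zpow_right₀ hal1.le (by omega)
            calc al ^ n * y ≤ al ^ (-1 : ℤ) * y := mul_le_mul_of_nonneg_right this (by linarith)
              _ = y / al := by rw [zpow_neg_one]; field_simp
          rw [abs_sub_comm]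
          refine le_trans ?_ (le_abs_self _)
          exact (min_le_left _ _).trans (by linarith)
        · have h3 : y * al ≤ al ^ n * y := by
            have : al ^ (1 : ℤ) ≤ al ^ n := zpow_le_zpow_right₀ hal1.le (by omega)
            rw [zpow_one] at this
            nlinarith
          refine le_trans ?_ (le_abs_self _)
          exact (min_le_right _ _).trans (by linarith)
    apply eq_of_cl_eq hv (him2.symm ▸ rfl)
    let κ : C(T7, ℝ) := ⟨fun σ => dist σ (cl v''), by fun_prop⟩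
    have h1 := h F κ
    rw [P_ppi _ _ hv, P_ppi _ _ hv''D, key v rfl, key v'' him2] at h1
    have h2 : dist (cl v) (cl v'') = dist (cl v'') (cl v'') := h1
    rw [dist_self] at h2
    exact dist_eq_zero.mp h2

/-- a bounded functional on `C(X)` which vanishes on all periodisations vanishes -/
theorem per_zero (L : C(X, ℝ) →ₗ[ℝ] ℝ) (C : ℝ) (hL : ∀ h, |L h| ≤ C * ‖h‖)
    (h0 : ∀ (F : Cut) (κ : C(T7, ℝ)), L (P F κ) = 0) : L = 0 := by
  apply sw_zero {f | ∃ F κ, f = P F κ} _ _ _ L C hL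
  · rintro f ⟨F, κ, rfl⟩; exact h0 F κ
  · exact Submodule.subset_span ⟨chi, 1, P_chi_one.symm⟩
  · rintro _ ⟨F, κ, rfl⟩ _ ⟨F', κ', rfl⟩
    obtain ⟨J, hJ⟩ := P_mul F F' κ κ'
    rw [hJ]
    exact Submodule.sum_mem _ (fun j _ => Submodule.subset_span ⟨_, _, rfl⟩)
  · intro x y h
    exact P_separates x y (fun F κ => h _ ⟨F, κ, rfl⟩)

end Pool.Agent.Helper289.Per
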