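import Pool.Agent.Helper289.Base

/-! The compact complex manifold `X = (ℍ × ℂ³)/Γ`. -/

open Set Topology
open scoped Manifold ContDiff

attribute [-instance] TopCat.of.chartedSpace

noncomputable section

namespace Pool.Agent.Helper289.Quot

open Pool.Agent.Helper289.Base

/-- cast of integer triples -/
def i3 : ℤ × ℤ × ℤ →+ R3 :=
  (Int.castAddHom ℝ).prodMap ((Int.castAddHom ℝ).prodMap (Int.castAddHom ℝ))
/-- cast of integer quadruples -/
def i4 : ℤ × ℤ × ℤ × ℤ →+ R4 :=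
  (Int.castAddHom ℝ).prodMap ((Int.castAddHom ℝ).prodMap ((Int.castAddHom ℝ).prodMap
    (Int.castAddHom ℝ)))

lemma i3_apply (m : ℤ × ℤ × ℤ) : i3 m = ((m.1 : ℝ), (m.2.1 : ℝ), (m.2.2 : ℝ)) := rfl
lemma i4_apply (m : ℤ × ℤ × ℤ × ℤ) :
    i4 m = ((m.1 : ℝ), (m.2.1 : ℝ), (m.2.2.1 : ℝ), (m.2.2.2 : ℝ)) := rfl

lemma M3_i3 (m : ℤ × ℤ × ℤ) : M3 ℝ (i3 m) = i3 (M3 ℤ m) := by
  obtain ⟨a, b, c⟩ := m
  simp [i3_apply, M3_apply]
lemma M3_symm_i3 (m : ℤ × ℤ × ℤ) : (M3 ℝ).symm (i3 m) = i3 ((M3 ℤ).symm m) := by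
  rw [AddEquiv.symm_apply_eq, M3_i3, AddEquiv.apply_symm_apply]
lemma A4_i4 (m : ℤ × ℤ × ℤ × ℤ) : A4 ℝ (i4 m) = i4 (A4 ℤ m) := by
  obtain ⟨a, b, c, d⟩ := m
  simp [i4_apply, A4_apply]
lemma A4_symm_i4 (m : ℤ × ℤ × ℤ × ℤ) : (A4 ℝ).symm (i4 m) = i4 ((A4 ℤ).symm m) := by
  rw [AddEquiv.symm_apply_eq, A4_i4, AddEquiv.apply_symm_apply]

/-- the lattice of translations -/
def Lam : AddSubgroup E4 where
  carrier := {p | ∃ m k, co p = (0, i3 m, i4 k)}
  add_mem' := by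
    rintro p q ⟨m, k, h⟩ ⟨m', k', h'⟩
    refine ⟨m + m', k + k', ?_⟩
    rw [co_add, h, h', map_add, map_add]
    simp
  zero_mem' := ⟨0, 0, by rw [co_zero, map_zero, map_zero]; rfl⟩
  neg_mem' := by
    rintro p ⟨m, k, h⟩
    refine ⟨-m, -k, ?_⟩
    have : co (-p) = - co p := ptE.symm.map_neg p
    rw [this, h, map_neg, map_neg]
    simp

lemma mem_Lam {p : E4} : p ∈ Lam ↔ ∃ m k, co p = (0, i3 m, i4 k) := Iff.rfl

lemma g_mem_Lam {p : E4} (h : p ∈ Lam) : g p ∈ Lam := by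
  obtain ⟨m, k, h⟩ := h
  refine ⟨M3 ℤ m, A4 ℤ k, ?_⟩
  rw [co_g, h, gc_apply, ← M3_i3, ← A4_i4]
  simp

lemma g_symm_mem_Lam {p : E4} (h : p ∈ Lam) : g.symm p ∈ Lam := by
  obtain ⟨m, k, h⟩ := h
  refine ⟨(M3 ℤ).symm m, (A4 ℤ).symm k, ?_⟩
  apply gc.injective
  rw [← co_g, g.apply_symm_apply, h, gc_apply, ← M3_symm_i3, ← A4_symm_i4]
  simp

lemma gz_add_one (n : ℤ) (p : E4) : (g ^ (n + 1)) p = g ((g ^ n) p) := by
  rw [zpow_add_one, ← (Commute.self_zpow g n).eq]; rfl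

lemma gz_sub_one (n : ℤ) (p : E4) : (g ^ (n - 1)) p = g.symm ((g ^ n) p) := by
  rw [zpow_sub_one, ← ((Commute.refl g).inv_left.zpow_right n).eq]; rfl

lemma gz_zero (p : E4) : (g ^ (0 : ℤ)) p = p := by
  rw [zpow_zero]; rfl

lemma gz_add (m n : ℤ) (p : E4) : (g ^ (m + n)) p = (g ^ m) ((g ^ n) p) := by
  rw [zpow_add]; rfl

lemma gz_neg (n : ℤ) (p : E4) : (g ^ (-n)) ((g ^ n) p) = p := by
  rw [← gz_add, neg_add_cancel, gz_zero]

lemma gz_neg' (n : ℤ) (p : E4) : (g ^ n) ((g ^ (-n)) p) = p := by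
  rw [← gz_add, add_neg_cancel, gz_zero]

lemma gz_mem_Lam (n : ℤ) {p : E4} (h : p ∈ Lam) : (g ^ n) p ∈ Lam := by
  induction n using Int.induction_on with
  | zero => rwa [gz_zero]
  | succ i ih => rw [gz_add_one]; exact g_mem_Lam ih
  | pred i ih => rw [gz_sub_one]; exact g_symm_mem_Lam ih

lemma gz_mem_Lam_iff (n : ℤ) {p : E4} : (g ^ n) p ∈ Lam ↔ p ∈ Lam := by
  refine ⟨fun h => ?_, gz_mem_Lam n⟩
  have := gz_mem_Lam (-n) h
  rwa [gz_neg] at this

lemma gz_fst (n : ℤ) (p : E4) : ((g ^ n) p).1 = (al : ℂ) ^ n * p.1 := by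
  have h1 : (al : ℂ) ≠ 0 := by exact_mod_cast al_ne
  induction n using Int.induction_on with
  | zero => rw [gz_zero]; simp
  | succ i ih => rw [gz_add_one, g_apply, ih, zpow_add_one₀ h1]; simp only; ring
  | pred i ih =>
    rw [gz_sub_one, zpow_sub_one₀ h1]
    change (al : ℂ)⁻¹ * ((g ^ (-(i : ℤ))) p).1 = _
    rw [ih]; ring

lemma gz_snd (n : ℤ) (p : E4) : ((g ^ n) p).2.1 = be ^ n * p.2.1 := by
  have h1 := be_ne
  induction n using Int.induction_on with
  | zero => rw [gz_zero]; simp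
  | succ i ih => rw [gz_add_one, g_apply, ih, zpow_add_one₀ h1]; simp only; ring
  | pred i ih =>
    rw [gz_sub_one, zpow_sub_one₀ h1]
    change be⁻¹ * ((g ^ (-(i : ℤ))) p).2.1 = _
    rw [ih]; ring

lemma gz_im (n : ℤ) (p : E4) : ((g ^ n) p).1.im = al ^ n * p.1.im := by
  rw [gz_fst, ← Complex.ofReal_zpow, Complex.im_ofReal_mul]

lemma Lam_im {p : E4} (h : p ∈ Lam) : p.1.im = 0 := by
  obtain ⟨m, k, h⟩ := h
  rw [← co_fst, h]

/-- the equivalence relation on `ℂ⁴` generated by `g` and the lattice translations -/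
def Rel (p q : E4) : Prop := ∃ n : ℤ, q - (g ^ n) p ∈ Lam

lemma Rel.refl (p : E4) : Rel p p := ⟨0, by rw [gz_zero, sub_self]; exact Lam.zero_mem⟩

lemma Rel.symm {p q : E4} (h : Rel p q) : Rel q p := by
  obtain ⟨n, h⟩ := h
  refine ⟨-n, ?_⟩
  have h1 := Lam.neg_mem (gz_mem_Lam (-n) h)
  rw [map_sub, gz_neg] at h1
  convert h1 using 1
  abel

lemma Rel.trans {p q r : E4} (h : Rel p q) (h' : Rel q r) : Rel p r := by
  obtain ⟨n, h⟩ := h
  obtain ⟨m, h'⟩ := h'
  refine ⟨m + n, ?_⟩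
  have h1 := Lam.add_mem h' (gz_mem_Lam m h)
  rw [map_sub, ← gz_add] at h1
  convert h1 using 1
  abel

/-- the domain `ℍ × ℂ³` -/
def D : Set E4 := {p | 0 < p.1.im}

lemma isOpen_D : IsOpen D :=
  isOpen_lt continuous_const (Complex.continuous_im.comp continuous_fst)

lemma gz_mem_D (n : ℤ) {p : E4} (h : p ∈ D) : (g ^ n) p ∈ D := by
  change 0 < ((g ^ n) p).1.im
  rw [gz_im]
  exact mul_pos (zpow_pos al_pos n) h

lemma add_mem_D {p l : E4} (h : p ∈ D) (hl : l ∈ Lam) : p + l ∈ D := by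
  change 0 < (p.1 + l.1).im
  rw [Complex.add_im, Lam_im hl, add_zero]
  exact h

instance relSetoid : Setoid D where
  r p q := Rel p.1 q.1
  iseqv := ⟨fun _ => Rel.refl _, Rel.symm, Rel.trans⟩

/-- The compact complex manifold `X`. -/
def X : Type := Quotient relSetoid

instance : TopologicalSpace X := inferInstanceAs (TopologicalSpace (Quotient relSetoid))

/-- the projection `D → X` -/
def mkX : D → X := Quotient.mk relSetoid

lemma continuous_mkX : Continuous mkX := continuous_quotient_mk'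

lemma mkX_eq_iff {p q : D} : mkX p = mkX q ↔ Rel p.1 q.1 := Quotient.eq

lemma isOpen_X {U : Set X} : IsOpen U ↔ IsOpen (mkX ⁻¹' U) := Iff.rfl

/-- a base point -/
def base : D := ⟨(Complex.I, 0, 0, 0), by change 0 < (Complex.I).im; simp⟩

open Classical in
/-- the projection, extended by a junk value outside `D` -/
def ppi (p : E4) : X := if h : p ∈ D then mkX ⟨p, h⟩ else mkX base

lemma ppi_of_mem {p : E4} (h : p ∈ D) : ppi p = mkX ⟨p, h⟩ := dif_pos h

lemma ppi_eq_iff {p q : E4} (hp : p ∈ D) (hq : q ∈ D) : ppi p = ppi q ↔ Rel p q := by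
  rw [ppi_of_mem hp, ppi_of_mem hq, mkX_eq_iff]

lemma ppi_gz_add (n : ℤ) {p l : E4} (hp : p ∈ D) (hl : l ∈ Lam) : ppi ((g ^ n) p + l) = ppi p := by
  symm
  rw [ppi_eq_iff hp (add_mem_D (gz_mem_D n hp) hl)]
  exact ⟨n, by simpa using hl⟩

lemma ppi_add {p l : E4} (hp : p ∈ D) (hl : l ∈ Lam) : ppi (p + l) = ppi p := by
  have := ppi_gz_add 0 hp hl
  rwa [gz_zero] at this

lemma ppi_gz (n : ℤ) {p : E4} (hp : p ∈ D) : ppi ((g ^ n) p) = ppi p := by
  have := ppi_gz_add n hp Lam.zero_mem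
  rwa [add_zero] at this

/-- a chosen preimage -/
def rep (x : X) : E4 := (Quotient.out x).1

lemma rep_mem (x : X) : rep x ∈ D := (Quotient.out x).2

lemma ppi_rep (x : X) : ppi (rep x) = x := by
  rw [ppi_of_mem (rep_mem x)]
  exact Quotient.out_eq (s := relSetoid) x

lemma continuousOn_ppi : ContinuousOn ppi D := by
  rw [continuousOn_iff_continuous_domRestrict]
  have : D.domRestrict ppi = mkX := by
    funext p
    exact ppi_of_mem p.2
  rw [this]
  exact continuous_mkX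

lemma continuousAt_ppi {p : E4} (h : p ∈ D) : ContinuousAt ppi p :=
  continuousOn_ppi.continuousAt (isOpen_D.mem_nhds h)

lemma isOpen_image_ppi {U : Set E4} (hU : IsOpen U) (hUD : U ⊆ D) : IsOpen (ppi '' U) := by
  rw [isOpen_X, isOpen_iff_mem_nhds]
  rintro ⟨q, hq⟩ ⟨p, hp, hpq⟩
  rw [← ppi_of_mem hq, ppi_eq_iff (hUD hp) hq] at hpq
  obtain ⟨n, hn⟩ := hpq
  set l := q - (g ^ n) p with hl
  have hcont : Continuous (fun v : D => (g ^ (-n)) (v.1 - l)) := by
    fun_prop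
  have hmem : (fun v : D => (g ^ (-n)) (v.1 - l)) ⟨q, hq⟩ ∈ U := by
    change (g ^ (-n)) (q - l) ∈ U
    have : q - l = (g ^ n) p := by rw [hl]; abel
    rw [this, gz_neg]
    exact hp
  filter_upwards [(hU.preimage hcont).mem_nhds hmem] with v hv
  refine ⟨_, hv, ?_⟩
  rw [← ppi_of_mem v.2, ppi_eq_iff (hUD hv) v.2]
  refine ⟨n, ?_⟩
  simp only [gz_neg']
  rw [sub_sub_cancel]
  exact hn

lemma ppi_surjective (x : X) : ∃ p ∈ D, ppi p = x := ⟨rep x, rep_mem x, ppi_rep x⟩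

/-! ### Discreteness -/

lemma exists_delta : ∃ δ : ℝ, 0 < δ ∧ ∀ l ∈ Lam, ‖l‖ < δ → l = 0 := by
  have hc : ContinuousAt co 0 := continuous_co.continuousAt
  rw [Metric.continuousAt_iff] at hc
  obtain ⟨δ, hδ, h⟩ := hc 1 one_pos
  refine ⟨δ, hδ, fun l hl hn => ?_⟩
  have h1 := h (x := l) (by rwa [dist_zero_right])
  rw [co_zero, dist_zero_right] at h1
  obtain ⟨m, k, hmk⟩ := hl
  apply co_injective
  rw [co_zero, hmk]
  rw [hmk] at h1
  simp only [Prod.norm_def, i3_apply, i4_apply, sup_lt_iff, Real.norm_eq_abs] at h1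
  have hz : ∀ a : ℤ, |(a : ℝ)| < 1 → a = 0 := by
    intro a ha
    have : |a| < 1 := by exact_mod_cast ha
    exact Int.abs_lt_one_iff.mp this
  obtain ⟨m1, m2, m3⟩ := m
  obtain ⟨k1, k2, k3, k4⟩ := k
  simp only at h1
  obtain ⟨-, ⟨ha, hb, hc⟩, hd, he, hf, hg⟩ := h1
  rw [hz _ ha, hz _ hb, hz _ hc, hz _ hd, hz _ he, hz _ hf, hz _ hg]
  simp [i3_apply, i4_apply]

/-- separation constant of the lattice -/
def del : ℝ := Classical.choose exists_delta
lemma del_pos : 0 < del := (Classical.choose_spec exists_delta).1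
lemma del_spec : ∀ l ∈ Lam, ‖l‖ < del → l = 0 := (Classical.choose_spec exists_delta).2

/-- radius of a ball around `p` on which the projection is injective -/
def rad (p : E4) : ℝ := min (del / 2) (p.1.im * (al - 1) / (2 * (al + 1)))

lemma rad_pos {p : E4} (hp : p ∈ D) : 0 < rad p := by
  have h1 := one_lt_al
  have h2 : 0 < p.1.im := hp
  apply lt_min
  · exact half_pos del_pos
  · apply div_pos
    · apply mul_pos h2; linarith
    · linarith

lemma im_of_mem_ball {p q : E4} (hq : q ∈ Metric.ball p (rad p)) :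
    |q.1.im - p.1.im| < p.1.im * (al - 1) / (2 * (al + 1)) := by
  have h1 : ‖q - p‖ < rad p := by rwa [mem_ball_iff_norm] at hq
  have h2 : ‖(q - p).1‖ ≤ ‖q - p‖ := norm_fst_le _
  have h3 : |(q - p).1.im| ≤ ‖(q - p).1‖ := Complex.abs_im_le_norm _
  have h4 : rad p ≤ p.1.im * (al - 1) / (2 * (al + 1)) := min_le_right _ _
  have h5 : (q - p).1.im = q.1.im - p.1.im := by simp
  rw [h5] at h3
  linarith

lemma ball_subset_D {p : E4} (hp : p ∈ D) : Metric.ball p (rad p) ⊆ D := by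
  intro q hq
  have h := im_of_mem_ball hq
  have h1 := one_lt_al
  have h2 : 0 < p.1.im := hp
  have h3 : p.1.im * (al - 1) / (2 * (al + 1)) < p.1.im := by
    rw [div_lt_iff₀ (by linarith)]
    nlinarith
  have := (abs_lt.mp h).1
  change 0 < q.1.im
  linarith

lemma rel_ball {p q q' : E4} (hp : p ∈ D) (hq : q ∈ Metric.ball p (rad p))
    (hq' : q' ∈ Metric.ball p (rad p)) {n : ℤ} (h : q' - (g ^ n) q ∈ Lam) : n = 0 ∧ q' = q := by
  have h1 := one_lt_al
  have h2 : 0 < p.1.im := hp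
  have hb := im_of_mem_ball hq
  have hb' := im_of_mem_ball hq'
  set e := p.1.im * (al - 1) / (2 * (al + 1)) with he
  have he' : e * (2 * (al + 1)) = p.1.im * (al - 1) := by
    rw [he, div_mul_cancel₀]; linarith
  have hepos : 0 < e := by
    rw [he]; apply div_pos
    · apply mul_pos h2; linarith
    · linarith
  have hq1 := (abs_lt.mp hb).1
  have hq2 := (abs_lt.mp hb).2
  have hq1' := (abs_lt.mp hb').1
  have hq2' := (abs_lt.mp hb').2
  have him : q'.1.im = al ^ n * q.1.im := by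
    have := Lam_im h
    rw [Prod.fst_sub, Complex.sub_im, gz_im] at this
    linarith
  have hqpos : 0 < q.1.im := ball_subset_D hp hq
  have hqpos' : 0 < q'.1.im := ball_subset_D hp hq'
  have hkey : p.1.im + e < al * (p.1.im - e) := by nlinarith
  have hn : n = 0 := by
    rcases lt_trichotomy n 0 with hn | hn | hn
    · exfalso
      have h3 : al ^ n ≤ al⁻¹ := by
        rw [← zpow_neg_one]
        exact zpow_le_zpow_right₀ h1.le (by omega)
      have h4 : al * q'.1.im ≤ q.1.im := by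
        rw [him]
        have : al * (al ^ n * q.1.im) ≤ al * (al⁻¹ * q.1.im) := by
          apply mul_le_mul_of_nonneg_left _ al_pos.le
          exact mul_le_mul_of_nonneg_right h3 hqpos.le
        rwa [mul_inv_cancel_left₀ al_ne] at this
      nlinarith
    · exact hn
    · exfalso
      have h3 : al ≤ al ^ n := by
        calc al = al ^ (1 : ℤ) := (zpow_one _).symm
          _ ≤ al ^ n := zpow_le_zpow_right₀ h1.le (by omega)
      have h4 : al * q.1.im ≤ q'.1.im := by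
        rw [him]
        exact mul_le_mul_of_nonneg_right h3 hqpos.le
      nlinarith
  refine ⟨hn, ?_⟩
  rw [hn, gz_zero] at h
  have h5 : ‖q' - q‖ < del := by
    have h6 : ‖q' - q‖ ≤ ‖q' - p‖ + ‖q - p‖ := by
      calc ‖q' - q‖ = ‖(q' - p) - (q - p)‖ := by congr 1; abel
        _ ≤ _ := norm_sub_le _ _
    have h7 : ‖q' - p‖ < rad p := by rwa [mem_ball_iff_norm] at hq'
    have h8 : ‖q - p‖ < rad p := by rwa [mem_ball_iff_norm] at hq
    have h9 : rad p ≤ del / 2 := min_le_left _ _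
    linarith
  exact sub_eq_zero.mp (del_spec _ h h5)

lemma injOn_ball {p : E4} (hp : p ∈ D) : InjOn ppi (Metric.ball p (rad p)) := by
  intro q hq q' hq' h
  rw [ppi_eq_iff (ball_subset_D hp hq) (ball_subset_D hp hq')] at h
  obtain ⟨n, hn⟩ := h
  exact (rel_ball hp hq hq' hn).2.symm

/-! ### Global topology of `X` -/

lemma isClosed_Lam : IsClosed (Lam : Set E4) := by
  rw [← closure_subset_iff_isClosed]
  intro a ha
  rw [Metric.mem_closure_iff] at ha
  have hd := del_pos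
  obtain ⟨b, hb, hab⟩ := ha (del / 2) (half_pos hd)
  have : a = b := by
    by_contra hne
    have hpos : 0 < dist a b := dist_pos.mpr hne
    obtain ⟨c, hc, hac⟩ := ha (min (del / 2) (dist a b)) (lt_min (half_pos hd) hpos)
    have h1 : dist a c < del / 2 := lt_of_lt_of_le hac (min_le_left _ _)
    have h2 : dist a c < dist a b := lt_of_lt_of_le hac (min_le_right _ _)
    have h3 : ‖b - c‖ < del := by
      rw [← dist_eq_norm]
      have := dist_triangle_left b c a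
      linarith
    have h4 := del_spec _ (Lam.sub_mem hb hc) h3
    rw [sub_eq_zero] at h4
    rw [h4] at h2
    exact lt_irrefl _ h2
  rw [this]
  exact hb

lemma exists_sep {p q : E4} (hp : p ∈ D) (hq : q ∈ D) (h : ¬ Rel p q) :
    ∃ U V : Set E4, IsOpen U ∧ IsOpen V ∧ p ∈ U ∧ q ∈ V ∧ U ⊆ D ∧ V ⊆ D ∧
      ∀ p' ∈ U, ∀ q' ∈ V, ¬ Rel p' q' := by
  have hp' : 0 < p.1.im := hp
  have hq' : 0 < q.1.im := hq
  obtain ⟨N, hN⟩ : ∃ N : ℕ, q.1.im / p.1.im < al ^ N ∧ p.1.im / q.1.im < al ^ N := by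
    obtain ⟨N1, h1⟩ := pow_unbounded_of_one_lt (q.1.im / p.1.im) one_lt_al
    obtain ⟨N2, h2⟩ := pow_unbounded_of_one_lt (p.1.im / q.1.im) one_lt_al
    refine ⟨max N1 N2, lt_of_lt_of_le h1 ?_, lt_of_lt_of_le h2 ?_⟩
    · exact pow_le_pow_right₀ one_lt_al.le (le_max_left _ _)
    · exact pow_le_pow_right₀ one_lt_al.le (le_max_right _ _)
  have hev : ∀ᶠ v : E4 × E4 in 𝓝 (p, q), (v.1 ∈ D ∧ v.2 ∈ D) ∧
      (v.2.1.im / v.1.1.im < al ^ N ∧ v.1.1.im / v.2.1.im < al ^ N) ∧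
      ∀ n ∈ Finset.Icc (-(N : ℤ)) N, v.2 - (g ^ n) v.1 ∉ Lam := by
    have c1 : ContinuousAt (fun v : E4 × E4 => v.2.1.im / v.1.1.im) (p, q) := by
      apply ContinuousAt.div
      · fun_prop
      · fun_prop
      · exact hp'.ne'
    have c2 : ContinuousAt (fun v : E4 × E4 => v.1.1.im / v.2.1.im) (p, q) := by
      apply ContinuousAt.div
      · fun_prop
      · fun_prop
      · exact hq'.ne'
    refine Filter.Eventually.and (Filter.Eventually.and ?_ ?_) (Filter.Eventually.and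
      (Filter.Eventually.and ?_ ?_) ?_)
    · exact (continuous_fst.continuousAt (x := (p, q))).eventually (isOpen_D.mem_nhds hp)
    · exact (continuous_snd.continuousAt (x := (p, q))).eventually (isOpen_D.mem_nhds hq)
    · exact c1.eventually (Iio_mem_nhds hN.1)
    · exact c2.eventually (Iio_mem_nhds hN.2)
    · rw [Filter.eventually_all_finset]
      intro n _
      have hc : Continuous (fun v : E4 × E4 => v.2 - (g ^ n) v.1) := by fun_prop
      have hn : (fun v : E4 × E4 => v.2 - (g ^ n) v.1) (p, q) ∈ (Lam : Set E4)ᶜ :=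
        fun h' => h ⟨n, h'⟩
      exact hc.continuousAt.eventually (isClosed_Lam.isOpen_compl.mem_nhds hn)
  rw [nhds_prod_eq, Filter.eventually_prod_iff] at hev
  obtain ⟨P, hP, Q, hQ, hPQ⟩ := hev
  obtain ⟨U, hUP, hU, hpU⟩ := mem_nhds_iff.mp hP
  obtain ⟨V, hVQ, hV, hqV⟩ := mem_nhds_iff.mp hQ
  refine ⟨U, V, hU, hV, hpU, hqV, fun u hu => (hPQ (hUP hu) (hVQ hqV)).1.1,
    fun v hv => (hPQ (hUP hpU) (hVQ hv)).1.2, ?_⟩
  rintro p' hp' q' hq' ⟨n, hn⟩
  obtain ⟨⟨hpD, hqD⟩, ⟨h1, h2⟩, h3⟩ := hPQ (hUP hp') (hVQ hq')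
  have hp'' : 0 < p'.1.im := hpD
  have hq'' : 0 < q'.1.im := hqD
  have him : q'.1.im = al ^ n * p'.1.im := by
    have := Lam_im hn
    rw [Prod.fst_sub, Complex.sub_im, gz_im] at this
    linarith
  apply h3 n _ hn
  rw [Finset.mem_Icc]
  simp only at h1 h2
  rw [him, mul_div_assoc, div_self hp''.ne', mul_one, ← zpow_natCast] at h1
  rw [him, div_mul_cancel_right₀ hp''.ne', ← zpow_neg, ← zpow_natCast] at h2
  have h1' := (zpow_lt_zpow_iff_right₀ one_lt_al).mp h1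
  have h2' := (zpow_lt_zpow_iff_right₀ one_lt_al).mp h2
  constructor <;> omega

instance : T2Space X := by
  constructor
  intro x y hxy
  have h : ¬ Rel (rep x) (rep y) := by
    intro h
    apply hxy
    rw [← ppi_rep x, ← ppi_rep y]
    exact (ppi_eq_iff (rep_mem x) (rep_mem y)).mpr h
  obtain ⟨U, V, hU, hV, hxU, hyV, hUD, hVD, hUV⟩ := exists_sep (rep_mem x) (rep_mem y) h
  refine ⟨ppi '' U, ppi '' V, isOpen_image_ppi hU hUD, isOpen_image_ppi hV hVD,
    ⟨_, hxU, ppi_rep x⟩, ⟨_, hyV, ppi_rep y⟩, ?_⟩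
  rw [Set.disjoint_left]
  rintro z ⟨u, hu, rfl⟩ ⟨v, hv, hvu⟩
  exact hUV u hu v hv ((ppi_eq_iff (hUD hu) (hVD hv)).mp hvu.symm)

/-- every point has a preimage in a fixed compact box -/
lemma exists_box (x : X) : ∃ y ∈ Icc (1 : ℝ) al, ∃ r : R3, ∃ s : R4,
    r ∈ Icc (0 : R3) (1, 1, 1) ∧ s ∈ Icc (0 : R4) (1, 1, 1, 1) ∧ ppi (pt (y, r, s)) = x := by
  set p := rep x with hp
  have hpD : p ∈ D := rep_mem x
  obtain ⟨n, hn⟩ := exists_mem_Ico_zpow (show 0 < p.1.im from hpD) one_lt_al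
  set q := (g ^ (-n)) p with hq
  have hqD : q ∈ D := gz_mem_D _ hpD
  have hq1 : q.1.im ∈ Icc (1 : ℝ) al := by
    rw [hq, gz_im, zpow_neg]
    have h1 : 0 < al ^ n := zpow_pos al_pos n
    constructor
    · rw [inv_mul_eq_div, le_div_iff₀ h1, one_mul]; exact hn.1
    · rw [inv_mul_eq_div, div_le_iff₀ h1, mul_comm, ← zpow_add_one₀ al_ne]; exact hn.2.le
  set r := (co q).2.1 with hr
  set s := (co q).2.2 with hs
  set m : ℤ × ℤ × ℤ := (⌊r.1⌋, ⌊r.2.1⌋, ⌊r.2.2⌋) with hm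
  set k : ℤ × ℤ × ℤ × ℤ := (⌊s.1⌋, ⌊s.2.1⌋, ⌊s.2.2.1⌋, ⌊s.2.2.2⌋) with hk
  have hco : co q = (q.1.im, r, s) := rfl
  have hl : pt (0, i3 m, i4 k) ∈ Lam := ⟨m, k, co_pt _⟩
  refine ⟨q.1.im, hq1, r - i3 m, s - i4 k, ?_, ?_, ?_⟩
  · simp only [i3_apply, hm]
    refine ⟨⟨?_, ?_, ?_⟩, ⟨?_, ?_, ?_⟩⟩ <;> simp [(Int.fract_lt_one _).le]
  · simp only [i4_apply, hk]
    refine ⟨⟨?_, ?_, ?_, ?_⟩, ⟨?_, ?_, ?_, ?_⟩⟩ <;> simp [(Int.fract_lt_one _).le]
  · have h1 : pt (q.1.im, r - i3 m, s - i4 k) = q - pt (0, i3 m, i4 k) := by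
      conv_rhs => rw [← pt_co q, ← pt_sub, hco]
      simp
    rw [h1, sub_eq_add_neg, ppi_add hqD (Lam.neg_mem hl), hq, ppi_gz _ hpD, hp, ppi_rep]

lemma pt_mem_D {y : ℝ} {r : R3} {s : R4} (hy : 0 < y) : pt (y, r, s) ∈ D := by
  change 0 < (pt (y, r, s)).1.im
  rw [← co_fst, co_pt]
  exact hy

instance : CompactSpace X := by
  constructor
  have hK : IsCompact ((Icc (1 : ℝ) al) ×ˢ (Icc (0 : R3) (1, 1, 1)) ×ˢ (Icc (0 : R4) (1, 1, 1, 1))) :=
    isCompact_Icc.prod (isCompact_Icc.prod isCompact_Icc)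
  have hc : ContinuousOn (fun v => ppi (pt v)) ((Icc (1 : ℝ) al) ×ˢ (Icc (0 : R3) (1, 1, 1)) ×ˢ
      (Icc (0 : R4) (1, 1, 1, 1))) := by
    apply continuousOn_ppi.comp continuous_pt.continuousOn
    rintro ⟨y, r, s⟩ ⟨hy, -⟩
    exact pt_mem_D (lt_of_lt_of_le one_pos hy.1)
  have := hK.image_of_continuousOn hc
  convert this
  symm
  rw [eq_univ_iff_forall]
  intro x
  obtain ⟨y, hy, r, s, hr, hs, h⟩ := exists_box x
  exact ⟨(y, r, s), ⟨hy, hr, hs⟩, h⟩

instance : ConnectedSpace X := by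
  have hconv : Convex ℝ D := by
    intro p hp q hq a b ha hb hab
    have hp' : 0 < p.1.im := hp
    have hq' : 0 < q.1.im := hq
    change 0 < (a • p.1 + b • q.1).im
    rw [Complex.add_im, Complex.smul_im, Complex.smul_im, smul_eq_mul, smul_eq_mul]
    rcases eq_or_lt_of_le ha with h | h
    · rw [← h] at hab ⊢
      have : b = 1 := by linarith
      rw [this]; linarith
    · have h1 : 0 < a * p.1.im := mul_pos h hp'
      have h2 : 0 ≤ b * q.1.im := mul_nonneg hb hq'.le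
      linarith
  have hD : IsConnected D := ⟨⟨base.1, base.2⟩, hconv.isPreconnected⟩
  have : ConnectedSpace D := isConnected_iff_connectedSpace.mp hD
  have hs : Function.Surjective mkX := Quotient.mk_surjective
  exact hs.connectedSpace continuous_mkX

/-! ### Charts -/

/-- the inverse chart at `p`: the projection restricted to a small ball -/
def ichart (p : D) : OpenPartialHomeomorph E4 X :=
  OpenPartialHomeomorph.ofContinuousOpenRestrict
    ((injOn_ball p.2).toPartialEquiv ppi (Metric.ball p.1 (rad p.1)))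
    (continuousOn_ppi.mono (ball_subset_D p.2))
    (by
      intro U hU
      obtain ⟨V, hV, rfl⟩ := isOpen_induced_iff.mp hU
      have : (Metric.ball p.1 (rad p.1)).domRestrict ppi '' (Subtype.val ⁻¹' V) =
          ppi '' (Metric.ball p.1 (rad p.1) ∩ V) := by
        ext x
        constructor
        · rintro ⟨u, hu, rfl⟩
          exact ⟨u.1, ⟨u.2, hu⟩, rfl⟩
        · rintro ⟨u, ⟨hu, hu'⟩, rfl⟩
          exact ⟨⟨u, hu⟩, hu', rfl⟩
      change IsOpen ((Metric.ball p.1 (rad p.1)).domRestrict ppi '' (Subtype.val ⁻¹' V))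
      rw [this]
      exact isOpen_image_ppi (Metric.isOpen_ball.inter hV)
        (inter_subset_left.trans (ball_subset_D p.2)))
    Metric.isOpen_ball

/-- the chart at `p` -/
def chart (p : D) : OpenPartialHomeomorph X E4 := (ichart p).symm

lemma chart_symm_apply (p : D) (u : E4) : (chart p).symm u = ppi u := rfl
lemma chart_symm_coe (p : D) : ((chart p).symm : E4 → X) = ppi := rfl
lemma chart_target (p : D) : (chart p).target = Metric.ball p.1 (rad p.1) := rfl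
lemma chart_source (p : D) : (chart p).source = ppi '' Metric.ball p.1 (rad p.1) := rfl

lemma chart_ppi {p : D} {u : E4} (hu : u ∈ Metric.ball p.1 (rad p.1)) : chart p (ppi u) = u :=
  (chart p).right_inv hu

lemma chart_of_rel {p : D} {u v : E4} (hu : u ∈ Metric.ball p.1 (rad p.1)) (hv : v ∈ D)
    (h : Rel v u) : chart p (ppi v) = u := by
  rw [(ppi_eq_iff hv (ball_subset_D p.2 hu)).mpr h, chart_ppi hu]

instance : ChartedSpace E4 X where
  atlas := range chart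
  chartAt x := chart (Quotient.out x)
  mem_chart_source x := by
    rw [chart_source]
    exact ⟨rep x, Metric.mem_ball_self (rad_pos (rep_mem x)), ppi_rep x⟩
  chart_mem_atlas x := ⟨_, rfl⟩

lemma mem_atlas_iff {e : OpenPartialHomeomorph X E4} : e ∈ atlas E4 X ↔ ∃ p, chart p = e := Iff.rfl

lemma chartAt_eq (x : X) : chartAt E4 x = chart ⟨rep x, rep_mem x⟩ := rfl

lemma eventually_chart (p : D) {v l : E4} (hv : v ∈ D) {n : ℤ} (hl : l ∈ Lam)
    (hu : (g ^ n) v + l ∈ Metric.ball p.1 (rad p.1)) :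
    ∀ᶠ v' in 𝓝 v, chart p (ppi v') = (g ^ n) v' + l := by
  have hc : Continuous (fun v' : E4 => (g ^ n) v' + l) := by fun_prop
  filter_upwards [isOpen_D.mem_nhds hv, (Metric.isOpen_ball.preimage hc).mem_nhds hu]
    with v' hv' hu'
  exact chart_of_rel hu' hv' ⟨n, by simpa using hl⟩

lemma contDiffOn_transition_C (k : WithTop ℕ∞) (p q : D) :
    ContDiffOn ℂ k (chart q ∘ (chart p).symm) ((chart p).symm ≫ₕ chart q).source := by
  intro v hv
  rw [OpenPartialHomeomorph.trans_source] at hv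
  obtain ⟨hv1, hv2⟩ := hv
  have hv1' : v ∈ Metric.ball p.1 (rad p.1) := hv1
  have hvD := ball_subset_D p.2 hv1'
  have hv2' : ppi v ∈ ppi '' Metric.ball q.1 (rad q.1) := hv2
  obtain ⟨u, hu, huv⟩ := hv2'
  obtain ⟨n, hn⟩ := (ppi_eq_iff hvD (ball_subset_D q.2 hu)).mp huv.symm
  have hu' : (g ^ n) v + (u - (g ^ n) v) ∈ Metric.ball q.1 (rad q.1) := by
    rw [add_sub_cancel]; exact hu
  have hev := eventually_chart q hvD hn hu'
  have hd : ContDiffAt ℂ k (fun v' : E4 => (g ^ n) v' + (u - (g ^ n) v)) v := by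
    apply ContDiffAt.add _ contDiffAt_const
    exact ((g ^ n : E4 ≃L[ℂ] E4) : E4 →L[ℂ] E4).contDiff.contDiffAt
  exact (hd.congr_of_eventuallyEq hev).contDiffWithinAt

lemma contDiffOn_transition_R (k : WithTop ℕ∞) (p q : D) :
    ContDiffOn ℝ k (chart q ∘ (chart p).symm) ((chart p).symm ≫ₕ chart q).source :=
  (contDiffOn_transition_C k p q).restrict_scalars ℝ

instance isManifoldC : IsManifold 𝓘(ℂ, E4) ω X := by
  apply isManifold_of_contDiffOn
  rintro e e' ⟨p, rfl⟩ ⟨q, rfl⟩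
  have := contDiffOn_transition_C ω p q
  simpa using this

instance isManifoldR : IsManifold 𝓘(ℝ, E4) ω X := by
  apply isManifold_of_contDiffOn
  rintro e e' ⟨p, rfl⟩ ⟨q, rfl⟩
  have := contDiffOn_transition_R ω p q
  simpa using this

/-- for `v ∈ D`, the exponent `n` such that the chosen representative of `ppi v` is
`g ^ n v + l` -/
lemma exists_rep {v : E4} (hv : v ∈ D) : ∃ n : ℤ, ∃ l ∈ Lam, rep (ppi v) = (g ^ n) v + l := by
  obtain ⟨n, hn⟩ := (ppi_eq_iff hv (rep_mem (ppi v))).mp (ppi_rep (ppi v)).symm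
  exact ⟨n, _, hn, by abel⟩

/-- the real derivative of the affine map `v ↦ g ^ n v + l` -/
def gR (n : ℤ) : E4 →L[ℝ] E4 := ((g ^ n : E4 ≃L[ℂ] E4) : E4 →L[ℂ] E4).restrictScalars ℝ

lemma gR_apply (n : ℤ) (v : E4) : gR n v = (g ^ n) v := rfl

lemma hasMFDerivAt_ppi_R {v l : E4} {n : ℤ} (hv : v ∈ D) (hl : l ∈ Lam)
    (h : rep (ppi v) = (g ^ n) v + l) :
    HasMFDerivAt 𝓘(ℝ, E4) 𝓘(ℝ, E4) ppi v (gR n) := by
  refine ⟨continuousAt_ppi hv, ?_⟩
  have hu : (g ^ n) v + l ∈ Metric.ball (rep (ppi v)) (rad (rep (ppi v))) := by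
    rw [← h]; exact Metric.mem_ball_self (rad_pos (rep_mem _))
  have hev := eventually_chart ⟨rep (ppi v), rep_mem _⟩ hv hl hu
  have hd : HasFDerivAt (fun v' : E4 => (g ^ n) v' + l) (gR n) v :=
    (gR n).hasFDerivAt.add_const l
  have hd' := (hd.congr_of_eventuallyEq hev).hasFDerivWithinAt (s := univ)
  simp only [writtenInExtChartAt, extChartAt, chartAt_self_eq, OpenPartialHomeomorph.refl_partialEquiv,
    mfld_simps, chartAt_eq]
  exact hd'

lemma hasMFDerivAt_ppi_C {v l : E4} {n : ℤ} (hv : v ∈ D) (hl : l ∈ Lam)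
    (h : rep (ppi v) = (g ^ n) v + l) :
    HasMFDerivAt 𝓘(ℂ, E4) 𝓘(ℂ, E4) ppi v ((g ^ n : E4 ≃L[ℂ] E4) : E4 →L[ℂ] E4) := by
  refine ⟨continuousAt_ppi hv, ?_⟩
  have hu : (g ^ n) v + l ∈ Metric.ball (rep (ppi v)) (rad (rep (ppi v))) := by
    rw [← h]; exact Metric.mem_ball_self (rad_pos (rep_mem _))
  have hev := eventually_chart ⟨rep (ppi v), rep_mem _⟩ hv hl hu
  have hd : HasFDerivAt (fun v' : E4 => (g ^ n) v' + l) ((g ^ n : E4 ≃L[ℂ] E4) : E4 →L[ℂ] E4) v :=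
    ((g ^ n : E4 ≃L[ℂ] E4) : E4 →L[ℂ] E4).hasFDerivAt.add_const l
  have hd' := (hd.congr_of_eventuallyEq hev).hasFDerivWithinAt (s := univ)
  simp only [writtenInExtChartAt, extChartAt, chartAt_self_eq, OpenPartialHomeomorph.refl_partialEquiv,
    mfld_simps, chartAt_eq]
  exact hd'

end Pool.Agent.Helper289.Quot
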